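import Mathlib

/-!
Elementary facts on C(x) = ∫_0^x cos(j cos t) dt and S(x) = ∫_0^x sin(j cos t) dt at a zero j of J_0.
-/

set_option autoImplicit false

namespace Pool.Agent.H56

open MeasureTheory intervalIntegral Filter Topology Real

/-- derivative of C -/
noncomputable def cc (j x : ℝ) : ℝ := Real.cos (j * Real.cos x)
/-- derivative of S -/
noncomputable def ss (j x : ℝ) : ℝ := Real.sin (j * Real.cos x)
/-- primitive of cc -/
noncomputable def CC (j x : ℝ) : ℝ := ∫ t in (0:ℝ)..x, cc j t
/-- primitive of ss -/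
noncomputable def SS (j x : ℝ) : ℝ := ∫ t in (0:ℝ)..x, ss j t

lemma cc_cont (j : ℝ) : Continuous (cc j) := by unfold cc; fun_prop
lemma ss_cont (j : ℝ) : Continuous (ss j) := by unfold ss; fun_prop

lemma CC_deriv (j x : ℝ) : HasDerivAt (CC j) (cc j x) x :=
  intervalIntegral.integral_hasDerivAt_right ((cc_cont j).intervalIntegrable 0 x)
    ((cc_cont j).stronglyMeasurableAtFilter _ _) (cc_cont j).continuousAt

lemma SS_deriv (j x : ℝ) : HasDerivAt (SS j) (ss j x) x :=
  intervalIntegral.integral_hasDerivAt_right ((ss_cont j).intervalIntegrable 0 x)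
    ((ss_cont j).stronglyMeasurableAtFilter _ _) (ss_cont j).continuousAt

lemma CC_cont (j : ℝ) : Continuous (CC j) :=
  continuous_iff_continuousAt.2 fun x => (CC_deriv j x).continuousAt
lemma SS_cont (j : ℝ) : Continuous (SS j) :=
  continuous_iff_continuousAt.2 fun x => (SS_deriv j x).continuousAt

lemma CC_zero (j : ℝ) : CC j 0 = 0 := by simp [CC]
lemma SS_zero (j : ℝ) : SS j 0 = 0 := by simp [SS]

lemma exists_zero : ∃ j : ℝ, 0 < j ∧ j ≤ π ∧ CC j (π / 2) = 0 := by
  have hcont : Continuous (fun j : ℝ => CC j (π / 2)) := by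
    unfold CC cc
    apply intervalIntegral.continuous_parametric_intervalIntegral_of_continuous'
    fun_prop
  have h0 : CC 0 (π / 2) = π / 2 := by
    simp [CC, cc]
  have hπ : CC π (π / 2) ≤ 0 := by
    have h1 : CC π (π / 2) ≤ ∫ t in (0:ℝ)..(π/2), - Real.cos (2 * t) := by
      unfold CC
      apply intervalIntegral.integral_mono_on (by positivity)
      · exact (cc_cont π).intervalIntegrable _ _
      · apply Continuous.intervalIntegrable; fun_prop
      · intro t ht
        have h2 : π - 2 * t ≤ π * Real.cos t := by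
          have h3 := Real.one_sub_mul_le_cos ht.1 ht.2
          have h4 := mul_le_mul_of_nonneg_left h3 Real.pi_pos.le
          have h5 : π * (1 - 2 / π * t) = π - 2 * t := by
            field_simp
          linarith
        have h6 : - Real.cos (2 * t) = Real.cos (π - 2 * t) := by
          rw [Real.cos_pi_sub]
        rw [h6]
        unfold cc
        apply Real.cos_le_cos_of_nonneg_of_le_pi
        · linarith [ht.2]
        · have := Real.cos_le_one t
          nlinarith [Real.pi_pos]
        · exact h2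
    have h2 : ∫ t in (0:ℝ)..(π/2), - Real.cos (2 * t) = 0 := by
      rw [intervalIntegral.integral_neg, intervalIntegral.integral_comp_mul_left _ (by norm_num)]
      simp
      ring_nf
      simp
    linarith
  have hmem : (0:ℝ) ∈ Set.Icc (CC π (π / 2)) (CC 0 (π / 2)) := by
    refine ⟨hπ, ?_⟩
    rw [h0]; positivity
  obtain ⟨j, hj, hj0⟩ := intermediate_value_Icc' Real.pi_pos.le hcont.continuousOn hmem
  refine ⟨j, ?_, hj.2, hj0⟩
  rcases hj.1.lt_or_eq with h | h
  · exact h
  · exfalso
    rw [← h] at hj0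
    simp only at hj0
    rw [h0] at hj0
    linarith [Real.pi_pos]

section
variable {j : ℝ} (hj0 : 0 < j) (hjπ : j ≤ π) (hj : CC j (π / 2) = 0)

include hj in
lemma CC_pi : CC j π = 0 := by
  have h1 : ∫ t in (π/2)..π, cc j t = ∫ t in (0:ℝ)..(π/2), cc j t := by
    have h := intervalIntegral.integral_comp_sub_left (cc j) π (a := π/2) (b := π)
    have h2 : π - π / 2 = π / 2 := by ring
    rw [sub_self, h2] at h
    rw [← h]
    congr 1
    funext t
    simp [cc, Real.cos_pi_sub]
  have h2 := intervalIntegral.integral_add_adjacent_intervals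
    ((cc_cont j).intervalIntegrable (μ := volume) 0 (π/2)) ((cc_cont j).intervalIntegrable (μ := volume) (π/2) π)
  have h3 : CC j (π / 2) = ∫ t in (0:ℝ)..(π/2), cc j t := rfl
  have h4 : CC j π = ∫ t in (0:ℝ)..π, cc j t := rfl
  rw [h4, ← h2, h1, ← h3, hj]; simp

lemma SS_pi (j : ℝ) : SS j π = 0 := by
  have h := intervalIntegral.integral_comp_sub_left (ss j) π (a := 0) (b := π)
  rw [sub_self, sub_zero] at h
  have h2 : ∫ x in (0:ℝ)..π, ss j (π - x) = - ∫ x in (0:ℝ)..π, ss j x := by
    rw [← intervalIntegral.integral_neg]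
    congr 1
    funext t
    simp [ss, Real.cos_pi_sub]
  have h4 : SS j π = ∫ t in (0:ℝ)..π, ss j t := rfl
  rw [h2] at h
  linarith

include hj in
lemma CC_two_pi : CC j (2 * π) = 0 := by
  have h1 : ∫ t in π..(2*π), cc j t = ∫ t in (0:ℝ)..π, cc j t := by
    have h := intervalIntegral.integral_comp_sub_left (cc j) (2*π) (a := π) (b := 2*π)
    have h2 : 2 * π - π = π := by ring
    rw [sub_self, h2] at h
    rw [← h]
    congr 1
    funext t
    simp [cc, Real.cos_two_pi_sub]
  have h2 := intervalIntegral.integral_add_adjacent_intervals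
    ((cc_cont j).intervalIntegrable (μ := volume) 0 π) ((cc_cont j).intervalIntegrable (μ := volume) π (2*π))
  have h3 : CC j π = ∫ t in (0:ℝ)..π, cc j t := rfl
  have h4 : CC j (2*π) = ∫ t in (0:ℝ)..(2*π), cc j t := rfl
  rw [h4, ← h2, h1, ← h3, CC_pi hj]; simp

lemma SS_two_pi (j : ℝ) : SS j (2 * π) = 0 := by
  have h1 : ∫ t in π..(2*π), ss j t = ∫ t in (0:ℝ)..π, ss j t := by
    have h := intervalIntegral.integral_comp_sub_left (ss j) (2*π) (a := π) (b := 2*π)
    have h2 : 2 * π - π = π := by ring
    rw [sub_self, h2] at h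
    rw [← h]
    congr 1
    funext t
    simp [ss, Real.cos_two_pi_sub]
  have h2 := intervalIntegral.integral_add_adjacent_intervals
    ((ss_cont j).intervalIntegrable (μ := volume) 0 π) ((ss_cont j).intervalIntegrable (μ := volume) π (2*π))
  have h3 : SS j π = ∫ t in (0:ℝ)..π, ss j t := rfl
  have h4 : SS j (2*π) = ∫ t in (0:ℝ)..(2*π), ss j t := rfl
  rw [h4, ← h2, h1, ← h3, SS_pi]; simp

/-- S(π - x) = S(x) -/
lemma SS_pi_sub (j x : ℝ) : SS j (π - x) = SS j x := by
  have h := intervalIntegral.integral_comp_sub_left (ss j) π (a := 0) (b := x)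
  rw [sub_zero] at h
  have h2 : ∫ t in (0:ℝ)..x, ss j (π - t) = - SS j x := by
    unfold SS
    rw [← intervalIntegral.integral_neg]
    congr 1
    funext t
    simp [ss, Real.cos_pi_sub]
  have h3 := intervalIntegral.integral_add_adjacent_intervals
    ((ss_cont j).intervalIntegrable (μ := volume) 0 (π - x)) ((ss_cont j).intervalIntegrable (μ := volume) (π-x) π)
  have h4 := SS_pi j
  have h5 : SS j π = ∫ t in (0:ℝ)..π, ss j t := rfl
  have h6 : SS j (π - x) = ∫ t in (0:ℝ)..(π - x), ss j t := rfl
  linarith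

/-- S(2π - x) = - S(x) -/
lemma SS_two_pi_sub (j x : ℝ) : SS j (2 * π - x) = - SS j x := by
  have h := intervalIntegral.integral_comp_sub_left (ss j) (2 * π) (a := 0) (b := x)
  rw [sub_zero] at h
  have h2 : ∫ t in (0:ℝ)..x, ss j (2 * π - t) = SS j x := by
    unfold SS
    congr 1
    funext t
    simp [ss, Real.cos_two_pi_sub]
  have h3 := intervalIntegral.integral_add_adjacent_intervals
    ((ss_cont j).intervalIntegrable (μ := volume) 0 (2 * π - x)) ((ss_cont j).intervalIntegrable (μ := volume) (2*π-x) (2*π))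
  have h4 := SS_two_pi j
  have h5 : SS j (2 * π) = ∫ t in (0:ℝ)..(2*π), ss j t := rfl
  have h6 : SS j (2 * π - x) = ∫ t in (0:ℝ)..(2 * π - x), ss j t := rfl
  linarith

include hj0 hjπ in
lemma ss_pos {x : ℝ} (hx0 : 0 < x) (hx : x < π / 2) : 0 < ss j x := by
  unfold ss
  have hc : 0 < Real.cos x := Real.cos_pos_of_mem_Ioo ⟨by linarith, hx⟩
  have hc1 : Real.cos x < 1 := by
    have := Real.cos_lt_cos_of_nonneg_of_le_pi_div_two (le_refl 0) hx.le hx0
    simpa using this
  apply Real.sin_pos_of_pos_of_lt_pi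
  · positivity
  · nlinarith

include hj0 hjπ in
lemma SS_pos {x : ℝ} (hx0 : 0 < x) (hx : x ≤ π / 2) : 0 < SS j x := by
  unfold SS
  apply intervalIntegral.intervalIntegral_pos_of_pos_on ((ss_cont j).intervalIntegrable _ _) _ hx0
  intro t ht
  exact ss_pos hj0 hjπ ht.1 (by linarith [ht.2])

include hj0 hjπ in
lemma cc_strictMonoOn : StrictMonoOn (cc j) (Set.Icc 0 (π/2)) := by
  intro x hx y hy hxy
  unfold cc
  have h1 : Real.cos y < Real.cos x :=
    Real.cos_lt_cos_of_nonneg_of_le_pi_div_two hx.1 hy.2 hxy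
  have h2 : 0 ≤ Real.cos y := Real.cos_nonneg_of_mem_Icc ⟨by linarith [hy.1, Real.pi_pos], hy.2⟩
  apply Real.cos_lt_cos_of_nonneg_of_le_pi
  · positivity
  · have := Real.cos_le_one x
    nlinarith [Real.pi_pos]
  · nlinarith

include hj0 hjπ hj in
lemma CC_neg {x : ℝ} (hx0 : 0 < x) (hx : x < π / 2) : CC j x < 0 := by
  have hconv : StrictConvexOn ℝ (Set.Icc 0 (π/2)) (CC j) := by
    apply StrictMonoOn.strictConvexOn_of_deriv (convex_Icc _ _) (CC_cont j).continuousOn
    rw [interior_Icc]
    have h1 : deriv (CC j) = cc j := by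
      funext x; exact (CC_deriv j x).deriv
    rw [h1]
    exact (cc_strictMonoOn hj0 hjπ).mono Set.Ioo_subset_Icc_self
  have hp : 0 < π / 2 := by positivity
  have ha : 0 < 1 - x / (π/2) := by rw [sub_pos, div_lt_one hp]; exact hx
  have hb : 0 < x / (π/2) := by positivity
  have hab : (1 - x / (π/2)) + x / (π/2) = 1 := by ring
  have h := hconv.2 (Set.left_mem_Icc.2 hp.le) (Set.right_mem_Icc.2 hp.le) hp.ne ha hb hab
  rw [hj, CC_zero] at h
  simp only [smul_eq_mul, mul_zero, add_zero, zero_add] at h
  have h2 : x / (π/2) * (π/2) = x := by field_simp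
  rw [h2] at h
  exact h

include hj0 hjπ hj in
lemma K_pos : 0 < ∫ x in (0:ℝ)..(π/2), cc j x * (SS j x)^2 := by
  have hp : 0 < π / 2 := by positivity
  have h1 : ∫ x in (0:ℝ)..(π/2), (cc j x * (SS j x)^2 + CC j x * (2 * SS j x * ss j x)) = 0 := by
    have hd : ∀ x ∈ Set.uIcc (0:ℝ) (π/2), HasDerivAt (fun x => CC j x * (SS j x)^2)
        (cc j x * (SS j x)^2 + CC j x * (2 * SS j x * ss j x)) x := by
      intro x _
      have := (CC_deriv j x).mul ((SS_deriv j x).pow 2)
      refine HasDerivAt.congr_deriv this ?_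
      simp
    rw [intervalIntegral.integral_eq_sub_of_hasDerivAt hd]
    · rw [hj, CC_zero]; simp
    · apply Continuous.intervalIntegrable
      have := CC_cont j; have := SS_cont j; have := cc_cont j; have := ss_cont j
      fun_prop
  have h2 : ∫ x in (0:ℝ)..(π/2), (cc j x * (SS j x)^2 + CC j x * (2 * SS j x * ss j x)) =
      (∫ x in (0:ℝ)..(π/2), cc j x * (SS j x)^2) + ∫ x in (0:ℝ)..(π/2), CC j x * (2 * SS j x * ss j x) := by
    apply intervalIntegral.integral_add
    · apply Continuous.intervalIntegrable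
      have := CC_cont j; have := SS_cont j; have := cc_cont j; have := ss_cont j
      fun_prop
    · apply Continuous.intervalIntegrable
      have := CC_cont j; have := SS_cont j; have := cc_cont j; have := ss_cont j
      fun_prop
  have h3 : 0 < ∫ x in (0:ℝ)..(π/2), - (CC j x * (2 * SS j x * ss j x)) := by
    apply intervalIntegral.intervalIntegral_pos_of_pos_on _ _ hp
    · apply Continuous.intervalIntegrable
      have := CC_cont j; have := SS_cont j; have := cc_cont j; have := ss_cont j
      fun_prop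
    · intro x hx
      have a1 := CC_neg hj0 hjπ hj hx.1 hx.2
      have a2 := SS_pos hj0 hjπ hx.1 hx.2.le
      have a3 := ss_pos hj0 hjπ hx.1 hx.2
      have : 0 < (-CC j x) * (2 * SS j x * ss j x) := by
        apply mul_pos (by linarith)
        positivity
      linarith
  rw [intervalIntegral.integral_neg] at h3
  linarith

lemma int_four (j : ℝ) : ∫ x in (0:ℝ)..(2*π), cc j x * (SS j x)^2 =
    4 * ∫ x in (0:ℝ)..(π/2), cc j x * (SS j x)^2 := by
  have hc : Continuous (fun x => cc j x * (SS j x)^2) := by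
    have := SS_cont j; have := cc_cont j
    fun_prop
  have h1 : ∫ x in (π/2)..π, cc j x * (SS j x)^2 = ∫ x in (0:ℝ)..(π/2), cc j x * (SS j x)^2 := by
    have h := intervalIntegral.integral_comp_sub_left (fun x => cc j x * (SS j x)^2) π (a := π/2) (b := π)
    have h2 : π - π / 2 = π / 2 := by ring
    rw [sub_self, h2] at h
    rw [← h]
    congr 1
    funext t
    rw [SS_pi_sub]
    simp [cc, Real.cos_pi_sub]
  have h2 : ∫ x in π..(2*π), cc j x * (SS j x)^2 = ∫ x in (0:ℝ)..π, cc j x * (SS j x)^2 := by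
    have h := intervalIntegral.integral_comp_sub_left (fun x => cc j x * (SS j x)^2) (2*π) (a := π) (b := 2*π)
    have h2 : 2 * π - π = π := by ring
    rw [sub_self, h2] at h
    rw [← h]
    congr 1
    funext t
    rw [SS_two_pi_sub]
    simp [cc, Real.cos_two_pi_sub]
  have h3 := intervalIntegral.integral_add_adjacent_intervals
    (hc.intervalIntegrable (μ := volume) 0 (π/2)) (hc.intervalIntegrable (μ := volume) (π/2) π)
  have h4 := intervalIntegral.integral_add_adjacent_intervals
    (hc.intervalIntegrable (μ := volume) 0 π) (hc.intervalIntegrable (μ := volume) π (2*π))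
  linarith

/-- The real part of exp(i j cos x) (C - i S)^2 integrates to a negative number. -/
lemma re_neg (hj0 : 0 < j) (hjπ : j ≤ π) (hj : CC j (π / 2) = 0) :
    ∫ x in (0:ℝ)..(2*π), (cc j x * ((CC j x)^2 - (SS j x)^2) + 2 * ss j x * CC j x * SS j x) < 0 := by
  have h1 : ∫ x in (0:ℝ)..(2*π), ((cc j x * ((CC j x)^2 - (SS j x)^2) + 2 * ss j x * CC j x * SS j x)
      + 2 * (cc j x * (SS j x)^2)) = 0 := by
    have hd : ∀ x ∈ Set.uIcc (0:ℝ) (2*π), HasDerivAt (fun x => (CC j x)^3 / 3 + CC j x * (SS j x)^2)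
        ((cc j x * ((CC j x)^2 - (SS j x)^2) + 2 * ss j x * CC j x * SS j x)
      + 2 * (cc j x * (SS j x)^2)) x := by
      intro x _
      have := (((CC_deriv j x).pow 3).div_const 3).add ((CC_deriv j x).mul ((SS_deriv j x).pow 2))
      refine HasDerivAt.congr_deriv this ?_
      simp
      ring
    rw [intervalIntegral.integral_eq_sub_of_hasDerivAt hd]
    · rw [CC_two_pi hj, CC_zero]; simp
    · apply Continuous.intervalIntegrable
      have := CC_cont j; have := SS_cont j; have := cc_cont j; have := ss_cont j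
      fun_prop
  rw [intervalIntegral.integral_add, intervalIntegral.integral_const_mul, int_four] at h1
  · have := K_pos hj0 hjπ hj
    linarith
  · apply Continuous.intervalIntegrable
    have := CC_cont j; have := SS_cont j; have := cc_cont j; have := ss_cont j
    fun_prop
  · apply Continuous.intervalIntegrable
    have := CC_cont j; have := SS_cont j; have := cc_cont j; have := ss_cont j
    fun_prop

end

end Pool.Agent.H56
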