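import Mathlib

/-!
Dyson series for a linear ODE V' = z B(x) V in a complex Banach space.
-/

set_option autoImplicit false
set_option linter.unusedSectionVars false

namespace Pool.Agent.H56

open MeasureTheory intervalIntegral Filter Topology

variable {E : Type*} [NormedAddCommGroup E] [NormedSpace ℂ E] [CompleteSpace E]

/-- iterated integrals -/
noncomputable def dys (B : ℝ → E →L[ℂ] E) (e : E) : ℕ → ℝ → E
  | 0 => fun _ => e
  | n + 1 => fun x => ∫ t in (0:ℝ)..x, B t (dys B e n t)

variable {B : ℝ → E →L[ℂ] E} {e : E}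

lemma dys_zero (x : ℝ) : dys B e 0 x = e := rfl

lemma dys_succ (n : ℕ) (x : ℝ) :
    dys B e (n+1) x = ∫ t in (0:ℝ)..x, B t (dys B e n t) := rfl

lemma dys_cont (hB : Continuous B) (n : ℕ) : Continuous (dys B e n) := by
  induction n with
  | zero => exact continuous_const
  | succ n ih =>
    have h : Continuous (fun t => B t (dys B e n t)) := hB.clm_apply ih
    exact intervalIntegral.continuous_primitive (fun a b => h.intervalIntegrable a b) 0

lemma dys_hasDerivAt (hB : Continuous B) (n : ℕ) (x : ℝ) :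
    HasDerivAt (dys B e (n+1)) (B x (dys B e n x)) x := by
  have h : Continuous (fun t => B t (dys B e n t)) := hB.clm_apply (dys_cont hB n)
  exact intervalIntegral.integral_hasDerivAt_right (h.intervalIntegrable 0 x)
    (h.stronglyMeasurableAtFilter _ _) h.continuousAt

lemma dys_succ_zero (n : ℕ) : dys B e (n+1) 0 = 0 := by
  simp [dys_succ]

lemma dys_bound {K : ℝ} (hK : ∀ x, ‖B x‖ ≤ K) (n : ℕ) (x : ℝ) :
    ‖dys B e n x‖ ≤ ‖e‖ * (K * |x|) ^ n / n.factorial := by
  have hK0 : 0 ≤ K := le_trans (norm_nonneg _) (hK 0)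
  induction n generalizing x with
  | zero => simp [dys]
  | succ n ih =>
    rw [dys_succ]
    have h1 : ‖∫ t in (0:ℝ)..x, B t (dys B e n t)‖ ≤
        |∫ t in (0:ℝ)..x, K * (‖e‖ * (K * |t|) ^ n / n.factorial)| := by
      apply intervalIntegral.norm_integral_le_abs_of_norm_le
      · refine Filter.Eventually.of_forall fun t => ?_
        calc ‖B t (dys B e n t)‖ ≤ ‖B t‖ * ‖dys B e n t‖ := (B t).le_opNorm _
          _ ≤ K * (‖e‖ * (K * |t|) ^ n / n.factorial) := by
            gcongr
            · exact hK t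
            · exact ih t
      · apply Continuous.intervalIntegrable
        fun_prop
    refine h1.trans ?_
    have h2 : ∀ y : ℝ, 0 ≤ y → ∫ t in (0:ℝ)..y, K * (‖e‖ * (K * |t|) ^ n / n.factorial) =
        ‖e‖ * (K * y) ^ (n+1) / (n+1).factorial := by
      intro y hy
      have h3 : ∫ t in (0:ℝ)..y, K * (‖e‖ * (K * |t|) ^ n / n.factorial) =
          ∫ t in (0:ℝ)..y, (K ^ (n+1) * ‖e‖ / n.factorial) * t ^ n := by
        apply intervalIntegral.integral_congr
        intro t ht
        rw [Set.uIcc_of_le hy] at ht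
        simp only
        rw [abs_of_nonneg ht.1]
        rw [mul_pow]
        ring
      rw [h3, intervalIntegral.integral_const_mul, integral_pow]
      rw [Nat.factorial_succ]
      push_cast
      have : ((n:ℝ) + 1) ≠ 0 := by positivity
      have h4 : ((n.factorial : ℕ) : ℝ) ≠ 0 := by positivity
      field_simp
      simp
      ring
    have h3 : |∫ t in (0:ℝ)..x, K * (‖e‖ * (K * |t|) ^ n / n.factorial)| =
        ∫ t in (0:ℝ)..|x|, K * (‖e‖ * (K * |t|) ^ n / n.factorial) := by
      rcases le_total 0 x with hx | hx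
      · rw [abs_of_nonneg hx]
        apply abs_of_nonneg
        rw [h2 x hx]
        positivity
      · rw [abs_of_nonpos hx]
        have h5 : ∫ t in (0:ℝ)..x, K * (‖e‖ * (K * |t|) ^ n / n.factorial) =
          - ∫ t in (0:ℝ)..(-x), K * (‖e‖ * (K * |t|) ^ n / n.factorial) := by
          have := intervalIntegral.integral_comp_neg
            (fun t : ℝ => K * (‖e‖ * (K * |t|) ^ n / n.factorial)) (a := 0) (b := x)
          simp only [abs_neg, neg_zero] at this
          rw [this, intervalIntegral.integral_symm]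
        rw [h5, abs_neg]
        apply abs_of_nonneg
        rw [h2 (-x) (by linarith)]
        have : 0 ≤ -x := by linarith
        positivity
    rw [h3, h2 |x| (abs_nonneg x)]

/-- tail of the Dyson series -/
noncomputable def dysSum (B : ℝ → E →L[ℂ] E) (e : E) (k : ℕ) (z : ℂ) (x : ℝ) : E :=
  ∑' n : ℕ, z ^ n • dys B e (n + k) x

/-- majorant -/
lemma maj_summable (c a : ℝ) (k : ℕ) (ρ : ℝ) :
    Summable (fun n : ℕ => ρ ^ n * (c * a ^ (n + k) / (n + k).factorial)) := by
  have h := Real.summable_pow_div_factorial (|ρ| * |a|)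
  refine Summable.of_norm_bounded (g := fun n : ℕ => (|c| * |a| ^ k) * ((|ρ| * |a|) ^ n / n.factorial))
    (h.mul_left _) ?_
  intro n
  rw [norm_mul, norm_div, norm_mul, norm_pow, norm_pow]
  simp only [Real.norm_eq_abs]
  have h1 : |(((n + k).factorial : ℕ) : ℝ)| = (n+k).factorial := abs_of_nonneg (by positivity)
  rw [h1]
  have h2 : (n.factorial : ℝ) ≤ (n + k).factorial := by
    exact_mod_cast Nat.factorial_le (Nat.le_add_right n k)
  have h3 : (0:ℝ) < n.factorial := by positivity
  calc |ρ| ^ n * (|c| * |a| ^ (n + k) / (n + k).factorial)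
      ≤ |ρ| ^ n * (|c| * |a| ^ (n + k) / n.factorial) := by gcongr
    _ = _ := by rw [mul_pow, pow_add]; ring

lemma dys_term_bound {K : ℝ} (hK : ∀ x, ‖B x‖ ≤ K) (k n : ℕ) {z : ℂ} {x ρ R : ℝ}
    (hz : ‖z‖ ≤ ρ) (hx : |x| ≤ R) :
    ‖z ^ n • dys B e (n + k) x‖ ≤ ρ ^ n * (‖e‖ * (K * R) ^ (n + k) / (n + k).factorial) := by
  have hK0 : 0 ≤ K := le_trans (norm_nonneg _) (hK 0)
  rw [norm_smul, norm_pow]
  have h := dys_bound (e := e) hK (n + k) x
  have hR : 0 ≤ R := (abs_nonneg x).trans hx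
  have hρ : 0 ≤ ρ := (norm_nonneg z).trans hz
  have hρn : 0 ≤ ρ ^ n := pow_nonneg hρ n
  calc ‖z‖ ^ n * ‖dys B e (n + k) x‖ ≤ ρ ^ n * (‖e‖ * (K * |x|) ^ (n + k) / (n + k).factorial) := by
        gcongr
    _ ≤ ρ ^ n * (‖e‖ * (K * R) ^ (n + k) / (n + k).factorial) := by
        gcongr

lemma dysSum_summable {K : ℝ} (hK : ∀ x, ‖B x‖ ≤ K) (k : ℕ) (z : ℂ) (x : ℝ) :
    Summable (fun n : ℕ => z ^ n • dys B e (n + k) x) := by
  refine Summable.of_norm_bounded (maj_summable ‖e‖ (K * |x|) k ‖z‖) ?_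
  intro n
  exact dys_term_bound hK k n le_rfl le_rfl

lemma dysSum_succ {K : ℝ} (hK : ∀ x, ‖B x‖ ≤ K) (k : ℕ) (z : ℂ) (x : ℝ) :
    dysSum B e k z x = dys B e k x + z • dysSum B e (k+1) z x := by
  unfold dysSum
  rw [(dysSum_summable hK k z x).tsum_eq_zero_add]
  simp only [pow_zero, zero_add, one_smul]
  congr 1
  rw [← tsum_const_smul'']
  apply tsum_congr
  intro n
  rw [pow_succ', mul_smul]
  congr 3
  ring

lemma dysSum_differentiable {K : ℝ} (hK : ∀ x, ‖B x‖ ≤ K) (k : ℕ) (x : ℝ) :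
    Differentiable ℂ (fun z => dysSum B e k z x) := by
  intro z
  have h : DifferentiableOn ℂ (fun z : ℂ => ∑' n : ℕ, z ^ n • dys B e (n + k) x)
      (Metric.ball 0 (‖z‖ + 1)) := by
    apply Complex.differentiableOn_tsum_of_summable_norm
      (maj_summable ‖e‖ (K * |x|) k (‖z‖ + 1))
    · intro n
      apply Differentiable.differentiableOn
      fun_prop
    · exact Metric.isOpen_ball
    · intro n w hw
      apply dys_term_bound hK k n _ le_rfl
      simpa using (mem_ball_zero_iff.1 hw).le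
  apply h.differentiableAt
  apply Metric.isOpen_ball.mem_nhds
  simp

lemma dysSum_hasDerivAt {K : ℝ} (hB : Continuous B) (hK : ∀ x, ‖B x‖ ≤ K) (k : ℕ)
    (z : ℂ) (x : ℝ) :
    HasDerivAt (dysSum B e (k+1) z) (B x (dysSum B e k z x)) x := by
  have hK0 : 0 ≤ K := le_trans (norm_nonneg _) (hK 0)
  have h1 : HasDerivAt (fun y : ℝ => ∑' n : ℕ, z ^ n • dys B e (n + (k+1)) y)
      (∑' n : ℕ, z ^ n • B x (dys B e (n + k) x)) x := by
    refine hasDerivAt_tsum_of_isPreconnected (t := Metric.ball (0:ℝ) (|x| + 1)) (y₀ := x)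
      (g := fun (n : ℕ) (y : ℝ) => z ^ n • dys B e (n + (k+1)) y)
      (g' := fun (n : ℕ) (y : ℝ) => z ^ n • B y (dys B e (n + k) y))
      ((maj_summable ‖e‖ (K * (|x| + 1)) k ‖z‖).mul_left K) Metric.isOpen_ball
      (convex_ball _ _).isPreconnected ?_ ?_ ?_ ?_ ?_
    · intro n y _
      exact (dys_hasDerivAt hB (n + k) y).const_smul (z ^ n)
    · intro n y hy
      have hy' : |y| ≤ |x| + 1 := by
        have := mem_ball_zero_iff.1 hy
        simpa using this.le
      have h2 := dys_term_bound (e := e) hK k n (le_refl ‖z‖) hy'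
      calc ‖z ^ n • B y (dys B e (n + k) y)‖ = ‖B y (z ^ n • dys B e (n + k) y)‖ := by
            rw [map_smul]
        _ ≤ ‖B y‖ * ‖z ^ n • dys B e (n + k) y‖ := (B y).le_opNorm _
        _ ≤ _ := by
            gcongr
            exact hK y
    · simp
    · exact dysSum_summable hK (k+1) z x
    · simp
  have h2 : (∑' n : ℕ, z ^ n • B x (dys B e (n + k) x)) = B x (dysSum B e k z x) := by
    unfold dysSum
    rw [(B x).map_tsum (dysSum_summable hK k z x)]
    simp
  rw [← h2]
  exact h1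

lemma dysSum_zero_hasDerivAt {K : ℝ} (hB : Continuous B) (hK : ∀ x, ‖B x‖ ≤ K)
    (z : ℂ) (x : ℝ) :
    HasDerivAt (dysSum B e 0 z) (z • B x (dysSum B e 0 z x)) x := by
  have h1 : dysSum B e 0 z = fun y => e + z • dysSum B e 1 z y := by
    funext y
    rw [dysSum_succ hK 0 z y, dys_zero]
  have h2 := (dysSum_hasDerivAt (e := e) hB hK 0 z x).const_smul z
  have h3 := h2.const_add e
  have h4 : (fun x => e + (z • dysSum B e (0 + 1) z) x) = dysSum B e 0 z := by
    rw [h1]
    rfl
  rw [h4] at h3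
  exact h3

lemma dysSum_zero_zero {K : ℝ} (hK : ∀ x, ‖B x‖ ≤ K) (z : ℂ) :
    dysSum B e 0 z 0 = e := by
  rw [dysSum_succ hK]
  have : dysSum B e (0+1) z 0 = 0 := by
    unfold dysSum
    have : ∀ n : ℕ, z ^ n • dys B e (n + (0+1)) 0 = 0 := by
      intro n
      have := dys_succ_zero (B := B) (e := e) n
      simp only [zero_add]
      rw [this, smul_zero]
    simp [this]
  rw [this]
  simp [dys_zero]

end Pool.Agent.H56
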