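import Mathlib

/-!
Favard kernel: interpolation of the sawtooth by sine polynomials and its sign pattern.
-/

set_option autoImplicit false
set_option maxHeartbeats 1000000

namespace Pool.Agent.H56.Favard

open Polynomial Finset

/-- the sine polynomial with coefficients `a` -/
noncomputable def sinP (a : ℕ → ℝ) (n : ℕ) (t : ℝ) : ℝ := ∑ k ∈ range n, a k * Real.sin ((k + 1) * t)

lemma sinP_eq (a : ℕ → ℝ) (n : ℕ) (t : ℝ) :
    sinP a n t = (∑ k ∈ range n, C (a k) * Chebyshev.U ℝ k).eval (Real.cos t) * Real.sin t := by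
  unfold sinP
  rw [eval_finsetSum, Finset.sum_mul]
  apply Finset.sum_congr rfl
  intro k _
  rw [eval_mul, eval_C, mul_assoc, Chebyshev.U_real_cos]
  push_cast
  rfl

/-- Chebyshev polynomials of the second kind as a sequence -/
noncomputable def seqU : Polynomial.Sequence ℝ where
  elems' := fun k => Chebyshev.U ℝ k
  degree_eq' := fun k => Chebyshev.degree_U_natCast ℝ k

lemma exists_comb (n : ℕ) (R : ℝ[X]) (hR : R.degree < n) :
    ∃ a : ℕ → ℝ, R = ∑ k ∈ range n, C (a k) * Chebyshev.U ℝ k := by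
  have h1 : R ∈ degreeLT ℝ n := mem_degreeLT.2 hR
  rw [← seqU.span_degreeLT (fun i _ => by
    rw [isUnit_iff_ne_zero]
    exact leadingCoeff_ne_zero.2 (seqU.ne_zero i))] at h1
  have h2 : (seqU '' Set.Iio n : Set ℝ[X]) = ((range n).image (fun k => seqU k) : Finset ℝ[X]) := by
    ext x
    simp
  rw [h2] at h1
  have h3 : (range n).image (fun k => seqU k) = (range n).image (fun k => seqU k) := rfl
  rw [Finset.coe_image, Submodule.mem_span_image_finset_iff_exists_fun] at h1
  obtain ⟨c, hc⟩ := h1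
  refine ⟨fun k => if h : k ∈ range n then c ⟨k, h⟩ else 0, ?_⟩
  rw [← hc, ← Finset.sum_coe_sort (range n)]
  apply Finset.sum_congr rfl
  intro k _
  simp only [dif_pos k.2, smul_eq_C_mul]
  rfl

lemma node_mem {m j : ℕ} (hj : 1 ≤ j) (hjm : j < m) :
    0 < (j : ℝ) * (Real.pi / m) ∧ (j : ℝ) * (Real.pi / m) < Real.pi := by
  have hm : (0 : ℝ) < m := by exact_mod_cast (by omega : 0 < m)
  have hj' : (0 : ℝ) < j := by exact_mod_cast hj
  have hjm' : (j : ℝ) < m := by exact_mod_cast hjm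
  refine ⟨by positivity, ?_⟩
  rw [← mul_div_assoc, div_lt_iff₀ hm, mul_comm]
  exact mul_lt_mul_of_pos_left hjm' Real.pi_pos

/-- interpolation of the sawtooth -/
lemma exists_coeffs (m : ℕ) (hm : 1 ≤ m) :
    ∃ a : ℕ → ℝ, ∀ j, 1 ≤ j → j < m →
      sinP a (m - 1) (j * (Real.pi / m)) = (Real.pi - j * (Real.pi / m)) / 2 := by
  set v : ℕ → ℝ := fun j => Real.cos (j * (Real.pi / m)) with hv
  set r : ℕ → ℝ := fun j => (Real.pi - j * (Real.pi / m)) / 2 / Real.sin (j * (Real.pi / m)) with hr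
  have hinj : Set.InjOn v (Finset.Ico 1 m : Finset ℕ) := by
    intro i hi j hj hij
    rw [Finset.coe_Ico, Set.mem_Ico] at hi hj
    have h1 := node_mem hi.1 hi.2
    have h2 := node_mem hj.1 hj.2
    have h3 := Real.injOn_cos ⟨h1.1.le, h1.2.le⟩ ⟨h2.1.le, h2.2.le⟩ hij
    have hm' : (0 : ℝ) < m := by exact_mod_cast (by omega : 0 < m)
    have h4 : (0 : ℝ) < Real.pi / m := div_pos Real.pi_pos hm'
    exact_mod_cast mul_right_cancel₀ h4.ne' h3
  have hdeg := Lagrange.degree_interpolate_lt r hinj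
  rw [Nat.card_Ico] at hdeg
  obtain ⟨a, ha⟩ := exists_comb (m - 1) _ hdeg
  refine ⟨a, ?_⟩
  intro j hj hjm
  rw [sinP_eq, ← ha, Lagrange.eval_interpolate_at_node r hinj (Finset.mem_Ico.2 ⟨hj, hjm⟩)]
  have h1 := node_mem hj hjm
  have h2 : Real.sin (j * (Real.pi / m)) ≠ 0 := (Real.sin_pos_of_pos_of_lt_pi h1.1 h1.2).ne'
  simp only [hr]
  exact div_mul_cancel₀ _ h2

/-- the difference sawtooth minus sine polynomial -/
noncomputable def DD (a : ℕ → ℝ) (m : ℕ) (t : ℝ) : ℝ := (Real.pi - t) / 2 - sinP a (m - 1) t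

/-- the polynomial giving minus the derivative -/
noncomputable def CC (a : ℕ → ℝ) (m : ℕ) : ℝ[X] :=
  C (1 / 2) + ∑ k ∈ range (m - 1), C (a k * (k + 1)) * Chebyshev.T ℝ (k + 1 : ℕ)

lemma DD_hasDeriv (a : ℕ → ℝ) (m : ℕ) (t : ℝ) :
    HasDerivAt (DD a m) (-(CC a m).eval (Real.cos t)) t := by
  unfold DD sinP CC
  have h1 : HasDerivAt (fun t : ℝ => (Real.pi - t) / 2) (-1 / 2) t := by
    have := ((hasDerivAt_id t).const_sub Real.pi).div_const 2
    simpa using this
  have h2 : HasDerivAt (fun t : ℝ => ∑ k ∈ range (m - 1), a k * Real.sin ((k + 1) * t))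
      (∑ k ∈ range (m - 1), a k * (Real.cos ((k + 1) * t) * (k + 1))) t := by
    apply HasDerivAt.fun_sum
    intro k _
    apply HasDerivAt.const_mul
    have h3 : HasDerivAt (fun t : ℝ => ((k : ℝ) + 1) * t) (k + 1) t := by
      simpa using (hasDerivAt_id t).const_mul ((k : ℝ) + 1)
    exact h3.sin
  refine (h1.fun_sub h2).congr_deriv ?_
  rw [eval_add, eval_C, eval_finsetSum, neg_add, sub_eq_add_neg]
  congr 1
  · ring
  · congr 1
    apply Finset.sum_congr rfl
    intro k _
    rw [eval_mul, eval_C, Chebyshev.T_real_cos]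
    push_cast
    ring

lemma CC_natDegree (a : ℕ → ℝ) (m : ℕ) : (CC a m).natDegree ≤ m - 1 := by
  unfold CC
  apply natDegree_add_le_of_degree_le
  · rw [natDegree_C]
    omega
  · apply natDegree_sum_le_of_forall_le
    intro k hk
    rw [Finset.mem_range] at hk
    refine (natDegree_C_mul_le _ _).trans ?_
    rw [Chebyshev.natDegree_T]
    simp
    omega

lemma DD_continuous (a : ℕ → ℝ) (m : ℕ) : Continuous (DD a m) :=
  continuous_iff_continuousAt.2 fun t => (DD_hasDeriv a m t).continuousAt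

lemma DD_zero (a : ℕ → ℝ) (m : ℕ) : DD a m 0 = Real.pi / 2 := by
  unfold DD sinP
  simp

lemma DD_pi (a : ℕ → ℝ) (m : ℕ) : DD a m Real.pi = 0 := by
  unfold DD sinP
  have : ∀ k ∈ range (m - 1), a k * Real.sin ((k + 1) * Real.pi) = 0 := by
    intro k _
    have := Real.sin_nat_mul_pi (k + 1)
    push_cast at this
    rw [this, mul_zero]
  rw [Finset.sum_eq_zero this]
  simp

/-- Rolle: from a finite set of zeros of `D` to zeros of the derivative -/
lemma rolle_set {D D' : ℝ → ℝ} (hD : ∀ t, HasDerivAt D (D' t) t) (Z : Finset ℝ) (r : ℕ)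
    (hcard : Z.card = r + 1) (hZ : ∀ z ∈ Z, D z = 0) :
    ∃ X : Finset ℝ, X.card = r ∧ (∀ x ∈ X, D' x = 0 ∧ x ∉ Z ∧ ∃ z ∈ Z, ∃ z' ∈ Z, z < x ∧ x < z') := by
  have hcont : Continuous D := continuous_iff_continuousAt.2 fun t => (hD t).continuousAt
  set e := Z.orderEmbOfFin hcard with he
  have hmem : ∀ i, e i ∈ Z := fun i => Finset.orderEmbOfFin_mem Z hcard i
  have hsurj : ∀ z ∈ Z, ∃ i, e i = z := by
    intro z hz
    have : z ∈ Set.range e := by
      rw [Finset.range_orderEmbOfFin]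
      exact hz
    exact this
  have hex : ∀ i : Fin r, ∃ x, e i.castSucc < x ∧ x < e i.succ ∧ D' x = 0 := by
    intro i
    have hlt : e i.castSucc < e i.succ := e.strictMono (Fin.castSucc_lt_succ)
    obtain ⟨x, hx, h⟩ := exists_hasDerivAt_eq_zero hlt hcont.continuousOn
      (by rw [hZ _ (hmem _), hZ _ (hmem _)]) (fun x _ => hD x)
    exact ⟨x, hx.1, hx.2, h⟩
  choose x hx using hex
  have hmono : StrictMono x := by
    intro i j hij
    have h1 := (hx i).2.1
    have h2 := (hx j).1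
    have h3 : e i.succ ≤ e j.castSucc := by
      apply e.monotone
      rw [Fin.le_def, Fin.val_succ, Fin.val_castSucc]
      exact hij
    linarith
  refine ⟨Finset.univ.image x, ?_, ?_⟩
  · rw [Finset.card_image_of_injective _ hmono.injective, Finset.card_univ, Fintype.card_fin]
  · intro y hy
    rw [Finset.mem_image] at hy
    obtain ⟨i, _, rfl⟩ := hy
    refine ⟨(hx i).2.2, ?_, e i.castSucc, hmem _, e i.succ, hmem _, (hx i).1, (hx i).2.1⟩
    intro hin
    obtain ⟨j, hj⟩ := hsurj _ hin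
    have h1 := (hx i).1
    have h2 := (hx i).2.1
    rw [← hj] at h1 h2
    have h3 := e.lt_iff_lt.1 h1
    have h4 := e.lt_iff_lt.1 h2
    rw [Fin.lt_def, Fin.val_castSucc] at h3
    rw [Fin.lt_def, Fin.val_succ] at h4
    omega

/-- not too many zeros of `D'` in `(0,π)` -/
lemma few_zeros (a : ℕ → ℝ) (m : ℕ) (hm : 1 ≤ m) (X : Finset ℝ)
    (hX : ∀ x ∈ X, 0 < x ∧ x < Real.pi ∧ (CC a m).eval (Real.cos x) = 0) : X.card < m := by
  by_contra hcon
  push Not at hcon
  have hne : CC a m ≠ 0 := by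
    intro h0
    have hconst : ∀ x y, DD a m x = DD a m y := by
      apply is_const_of_deriv_eq_zero
      · exact fun t => (DD_hasDeriv a m t).differentiableAt
      · intro t
        rw [(DD_hasDeriv a m t).deriv, h0]
        simp
    have := hconst 0 Real.pi
    rw [DD_zero, DD_pi] at this
    have := Real.pi_pos
    linarith
  have hsub : X.image Real.cos ⊆ (CC a m).roots.toFinset := by
    intro y hy
    rw [Finset.mem_image] at hy
    obtain ⟨x, hx, rfl⟩ := hy
    rw [Multiset.mem_toFinset, mem_roots hne]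
    exact (hX x hx).2.2
  have hcard := Finset.card_le_card hsub
  rw [Finset.card_image_of_injOn] at hcard
  · have h1 := hcard.trans ((Multiset.toFinset_card_le _).trans (card_roots' _))
    have h2 := CC_natDegree a m
    omega
  · intro x hx y hy hxy
    exact Real.injOn_cos ⟨(hX x hx).1.le, (hX x hx).2.1.le⟩ ⟨(hX y hy).1.le, (hX y hy).2.1.le⟩ hxy

end Pool.Agent.H56.Favard
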