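import Mathlib
import Pool.Agent.H56.Favard1

/-!
Favard kernel: sign pattern and the L¹ norm.
-/

set_option autoImplicit false
set_option maxHeartbeats 1000000

namespace Pool.Agent.H56.Favard

open Polynomial Finset MeasureTheory intervalIntegral

/-- interpolation property -/
def Interp (a : ℕ → ℝ) (m : ℕ) : Prop :=
  ∀ j, 1 ≤ j → j < m → sinP a (m - 1) (j * (Real.pi / m)) = (Real.pi - j * (Real.pi / m)) / 2

section

variable {a : ℕ → ℝ} {m : ℕ}

lemma DD_node (h : Interp a m) (hm : 1 ≤ m) {j : ℕ} (hj : 1 ≤ j) (hjm : j ≤ m) :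
    DD a m (j * (Real.pi / m)) = 0 := by
  rcases Nat.lt_or_ge j m with h1 | h1
  · unfold DD
    rw [h j hj h1]
    ring
  · have : j = m := le_antisymm hjm h1
    rw [this]
    have hm' : (m : ℝ) ≠ 0 := by
      have : (0 : ℝ) < m := by exact_mod_cast (by omega : 0 < m)
      exact this.ne'
    rw [mul_div_cancel₀ _ hm']
    exact DD_pi a m

/-- the set of nodes in `(0, π]` -/
noncomputable def nodes (m : ℕ) : Finset ℝ := (Finset.Icc 1 m).image (fun j : ℕ => (j : ℝ) * (Real.pi / m))

lemma step_pos (hm : 1 ≤ m) : 0 < Real.pi / (m : ℝ) := by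
  have : (0 : ℝ) < m := by exact_mod_cast (by omega : 0 < m)
  exact div_pos Real.pi_pos this

lemma nodes_card (hm : 1 ≤ m) : (nodes m).card = m := by
  unfold nodes
  rw [Finset.card_image_of_injective]
  · simp
  · intro i j hij
    simp only at hij
    exact_mod_cast mul_right_cancel₀ (step_pos hm).ne' hij

lemma nodes_mem_range (hm : 1 ≤ m) {z : ℝ} (hz : z ∈ nodes m) : 0 < z ∧ z ≤ Real.pi := by
  unfold nodes at hz
  rw [Finset.mem_image] at hz
  obtain ⟨j, hj, rfl⟩ := hz
  rw [Finset.mem_Icc] at hj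
  rcases Nat.lt_or_ge j m with h1 | h1
  · exact ⟨(node_mem hj.1 h1).1, (node_mem hj.1 h1).2.le⟩
  · have : j = m := le_antisymm hj.2 h1
    rw [this]
    have hm' : (m : ℝ) ≠ 0 := by
      have : (0 : ℝ) < m := by exact_mod_cast (by omega : 0 < m)
      exact this.ne'
    rw [mul_div_cancel₀ _ hm']
    exact ⟨Real.pi_pos, le_rfl⟩

lemma nodes_zero (h : Interp a m) (hm : 1 ≤ m) {z : ℝ} (hz : z ∈ nodes m) : DD a m z = 0 := by
  unfold nodes at hz
  rw [Finset.mem_image] at hz
  obtain ⟨j, hj, rfl⟩ := hz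
  rw [Finset.mem_Icc] at hj
  exact DD_node h hm hj.1 hj.2

/-- the only zeros in `(0,π)` are the nodes -/
lemma DD_ne_zero (h : Interp a m) (hm : 1 ≤ m) {z : ℝ} (hz0 : 0 < z) (hzπ : z < Real.pi)
    (hz : z ∉ nodes m) : DD a m z ≠ 0 := by
  intro hzero
  obtain ⟨X, hX, hXp⟩ := rolle_set (DD_hasDeriv a m) (insert z (nodes m)) m
    (by rw [Finset.card_insert_of_notMem hz, nodes_card hm])
    (by
      intro w hw
      rw [Finset.mem_insert] at hw
      rcases hw with rfl | hw
      · exact hzero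
      · exact nodes_zero h hm hw)
  have hrange : ∀ w ∈ insert z (nodes m), 0 < w ∧ w ≤ Real.pi := by
    intro w hw
    rw [Finset.mem_insert] at hw
    rcases hw with rfl | hw
    · exact ⟨hz0, hzπ.le⟩
    · exact nodes_mem_range hm hw
  have := few_zeros a m hm X (by
    intro x hx
    obtain ⟨h1, _, w, hw, w', hw', h2, h3⟩ := hXp x hx
    refine ⟨(hrange w hw).1.trans h2, h3.trans_le (hrange w' hw').2, ?_⟩
    linarith)
  omega

/-- the derivative does not vanish at the inner nodes -/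
lemma CC_node_ne_zero (h : Interp a m) (hm : 1 ≤ m) {j : ℕ} (hj : 1 ≤ j) (hjm : j < m) :
    (CC a m).eval (Real.cos (j * (Real.pi / m))) ≠ 0 := by
  intro hzero
  obtain ⟨X, hX, hXp⟩ := rolle_set (DD_hasDeriv a m) (nodes m) (m - 1)
    (by rw [nodes_card hm]; omega)
    (by
      intro w hw
      exact nodes_zero h hm hw)
  have hnode : (j : ℝ) * (Real.pi / m) ∈ nodes m := by
    unfold nodes
    exact Finset.mem_image_of_mem _ (Finset.mem_Icc.2 ⟨hj, hjm.le⟩)
  have hnot : (j : ℝ) * (Real.pi / m) ∉ X := fun hin => (hXp _ hin).2.1 hnode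
  have := few_zeros a m hm (insert ((j : ℝ) * (Real.pi / m)) X) (by
    intro x hx
    rw [Finset.mem_insert] at hx
    rcases hx with rfl | hx
    · exact ⟨(node_mem hj hjm).1, (node_mem hj hjm).2, hzero⟩
    · obtain ⟨h1, _, w, hw, w', hw', h2, h3⟩ := hXp x hx
      refine ⟨(nodes_mem_range hm hw).1.trans h2, h3.trans_le (nodes_mem_range hm hw').2, ?_⟩
      linarith)
  rw [Finset.card_insert_of_notMem hnot, hX] at this
  omega

/-- no node strictly between consecutive nodes -/
lemma not_node (hm : 1 ≤ m) {j : ℕ} {t : ℝ} (h1 : (j : ℝ) * (Real.pi / m) < t)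
    (h2 : t < (j + 1 : ℝ) * (Real.pi / m)) : t ∉ nodes m := by
  intro hin
  unfold nodes at hin
  rw [Finset.mem_image] at hin
  obtain ⟨i, _, rfl⟩ := hin
  have h3 := lt_of_mul_lt_mul_right h1 (step_pos hm).le
  have h4 := lt_of_mul_lt_mul_right h2 (step_pos hm).le
  have h3' : j < i := by exact_mod_cast h3
  have h4' : i < j + 1 := by exact_mod_cast h4
  omega

/-- sign is constant between nodes -/
lemma sign_const (h : Interp a m) (hm : 1 ≤ m) {j : ℕ} (hjm : j < m) {s t : ℝ}
    (hs1 : (j : ℝ) * (Real.pi / m) < s) (hs2 : s < (j + 1 : ℝ) * (Real.pi / m))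
    (ht1 : (j : ℝ) * (Real.pi / m) < t) (ht2 : t < (j + 1 : ℝ) * (Real.pi / m))
    (hpos : 0 < DD a m s) : 0 < DD a m t := by
  by_contra hcon
  push Not at hcon
  have hcont := DD_continuous a m
  have hend : (j + 1 : ℝ) * (Real.pi / m) ≤ Real.pi := by
    have hm' : (0 : ℝ) < m := by exact_mod_cast (by omega : 0 < m)
    rw [← mul_div_assoc, div_le_iff₀ hm', mul_comm]
    have : (j : ℝ) + 1 ≤ m := by exact_mod_cast hjm
    exact mul_le_mul_of_nonneg_left this Real.pi_pos.le
  have hstart : 0 ≤ (j : ℝ) * (Real.pi / m) := mul_nonneg (by positivity) (step_pos hm).le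
  have huIcc : ∀ x ∈ Set.uIcc s t, (j : ℝ) * (Real.pi / m) < x ∧ x < (j + 1 : ℝ) * (Real.pi / m) := by
    intro x hx
    rw [Set.mem_uIcc] at hx
    rcases hx with hx | hx
    · exact ⟨hs1.trans_le hx.1, hx.2.trans_lt ht2⟩
    · exact ⟨ht1.trans_le hx.1, hx.2.trans_lt hs2⟩
  have h0 : (0 : ℝ) ∈ Set.uIcc (DD a m s) (DD a m t) := by
    rw [Set.mem_uIcc]
    right
    exact ⟨hcon, hpos.le⟩
  obtain ⟨x, hx, hx0⟩ := intermediate_value_uIcc hcont.continuousOn h0
  have hx' := huIcc x hx
  exact DD_ne_zero h hm (hstart.trans_lt hx'.1) (hx'.2.trans_le hend) (not_node hm hx'.1 hx'.2) hx0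

lemma sign_const_neg (h : Interp a m) (hm : 1 ≤ m) {j : ℕ} (hjm : j < m) {s t : ℝ}
    (hs1 : (j : ℝ) * (Real.pi / m) < s) (hs2 : s < (j + 1 : ℝ) * (Real.pi / m))
    (ht1 : (j : ℝ) * (Real.pi / m) < t) (ht2 : t < (j + 1 : ℝ) * (Real.pi / m))
    (hneg : DD a m s < 0) : DD a m t < 0 := by
  by_contra hcon
  push Not at hcon
  have hend : (j + 1 : ℝ) * (Real.pi / m) ≤ Real.pi := by
    have hm' : (0 : ℝ) < m := by exact_mod_cast (by omega : 0 < m)
    rw [← mul_div_assoc, div_le_iff₀ hm', mul_comm]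
    have : (j : ℝ) + 1 ≤ m := by exact_mod_cast hjm
    exact mul_le_mul_of_nonneg_left this Real.pi_pos.le
  have hstart : 0 ≤ (j : ℝ) * (Real.pi / m) := mul_nonneg (by positivity) (step_pos hm).le
  rcases hcon.lt_or_eq with h1 | h1
  · have := sign_const h hm hjm ht1 ht2 hs1 hs2 h1
    linarith
  · exact DD_ne_zero h hm (hstart.trans_lt ht1) (ht2.trans_le hend) (not_node hm ht1 ht2) h1.symm

/-- alternation of signs -/
lemma sign_alt (h : Interp a m) (hm : 1 ≤ m) : ∀ j, j < m → ∀ t : ℝ,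
    (j : ℝ) * (Real.pi / m) < t → t < (j + 1 : ℝ) * (Real.pi / m) → 0 < (-1) ^ j * DD a m t := by
  intro j
  induction j with
  | zero =>
    intro hj t h1 h2
    rw [pow_zero, one_mul]
    have hcont := DD_continuous a m
    -- a point close to 0 where D is positive
    have hpos : 0 < DD a m 0 := by
      rw [DD_zero]
      have := Real.pi_pos
      linarith
    have hev : ∀ᶠ s in nhdsWithin (0:ℝ) (Set.Ioi 0), 0 < DD a m s :=
      (hcont.tendsto 0).eventually (lt_mem_nhds hpos) |>.filter_mono nhdsWithin_le_nhds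
    have hev2 : ∀ᶠ s in nhdsWithin (0:ℝ) (Set.Ioi 0), s ∈ Set.Ioo (0:ℝ) (Real.pi / m) :=
      Ioo_mem_nhdsGT (step_pos hm)
    obtain ⟨s, hs, hs2⟩ := (hev.and hev2).exists
    refine sign_const h hm hj (s := s) ?_ ?_ h1 h2 hs
    · simpa using hs2.1
    · simpa using hs2.2
  | succ j ih =>
    intro hj t h1 h2
    have ih' := ih (by omega)
    set τ : ℝ := ((j + 1 : ℕ) : ℝ) * (Real.pi / m) with hτ
    have hD0 : DD a m τ = 0 := DD_node h hm (by omega) (by omega)
    have hne := CC_node_ne_zero h hm (j := j + 1) (by omega) hj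
    have hder := DD_hasDeriv a m τ
    set d := -(CC a m).eval (Real.cos τ) with hd
    have hd0 : d ≠ 0 := by
      rw [hd]
      exact neg_ne_zero.2 hne
    have hslope := hder.tendsto_slope
    have hstep := step_pos hm
    have hcast : ((j + 1 : ℕ) : ℝ) = j + 1 := by push_cast; ring
    -- left side: sign of d
    have hleft : (-1) ^ j * d ≤ 0 := by
      have hL : Filter.Tendsto (fun s => (-1) ^ j * slope (DD a m) τ s) (nhdsWithin τ (Set.Iio τ))
          (nhds ((-1) ^ j * d)) := by
        apply Filter.Tendsto.const_mul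
        exact hslope.mono_left (nhdsWithin_mono _ (fun x hx => ne_of_lt hx))
      apply le_of_tendsto hL
      have : Set.Ioo ((j : ℝ) * (Real.pi / m)) τ ∈ nhdsWithin τ (Set.Iio τ) := by
        apply Ioo_mem_nhdsLT
        rw [hτ, hcast]
        nlinarith
      filter_upwards [this] with s hs
      have h3 := ih' s hs.1 (by
        have := hs.2
        rw [hτ, hcast] at this
        exact this)
      rw [slope_def_field, hD0, sub_zero, mul_div_assoc']
      exact (div_neg_of_pos_of_neg h3 (by linarith [hs.2])).le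
    have hlt : (-1) ^ j * d < 0 := by
      refine lt_of_le_of_ne hleft ?_
      apply mul_ne_zero _ hd0
      exact pow_ne_zero _ (by norm_num)
    -- right side
    have hR : Filter.Tendsto (fun s => (-1) ^ j * slope (DD a m) τ s) (nhdsWithin τ (Set.Ioi τ))
        (nhds ((-1) ^ j * d)) := by
      apply Filter.Tendsto.const_mul
      exact hslope.mono_left (nhdsWithin_mono _ (fun x hx => ne_of_gt hx))
    have hev1 := hR.eventually (gt_mem_nhds hlt)
    have hev2 : Set.Ioo τ ((((j + 1 : ℕ) : ℝ) + 1) * (Real.pi / m)) ∈ nhdsWithin τ (Set.Ioi τ) := by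
      apply Ioo_mem_nhdsGT
      rw [hτ]
      nlinarith
    obtain ⟨s, hs1, hs2⟩ := (hev1.and hev2).exists
    rw [slope_def_field, hD0, sub_zero, mul_div_assoc'] at hs1
    have hs3 : (-1) ^ j * DD a m s < 0 := by
      have h4 : 0 < s - τ := by linarith [hs2.1]
      by_contra hc
      push Not at hc
      have := div_nonneg hc h4.le
      linarith
    rcases Nat.even_or_odd j with he | ho
    · rw [he.neg_one_pow, one_mul] at hs3
      have := sign_const_neg h hm hj (j := j + 1) hs2.1 hs2.2 h1 h2 hs3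
      rw [pow_succ, he.neg_one_pow]
      linarith
    · rw [ho.neg_one_pow] at hs3
      have := sign_const h hm hj (j := j + 1) hs2.1 hs2.2 h1 h2 (by linarith)
      rw [pow_succ, ho.neg_one_pow]
      linarith

end

end Pool.Agent.H56.Favard
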