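import Mathlib
import Pool.Agent.H56.Favard2

/-!
Favard kernel: the L¹ norm.
-/

set_option autoImplicit false
set_option maxHeartbeats 1000000

namespace Pool.Agent.H56.Favard

open Polynomial Finset MeasureTheory intervalIntegral

lemma alt_sum_quad (p h : ℝ) (r : ℕ) :
    ∑ j ∈ range r, (-1 : ℝ) ^ j * (p / 2 * h - h ^ 2 / 4 * (2 * j + 1)) =
      p * h / 4 * (1 - (-1) ^ r) + h ^ 2 / 4 * ((-1) ^ r * r) := by
  induction r with
  | zero => simp
  | succ r ih =>
    rw [Finset.sum_range_succ, ih, pow_succ]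
    push_cast
    ring

lemma alt_sum_tel (s : ℕ → ℝ) (r : ℕ) :
    ∑ j ∈ range r, (-1 : ℝ) ^ j * (s (j + 1) + s j) = s 0 - (-1) ^ r * s r := by
  induction r with
  | zero => simp
  | succ r ih =>
    rw [Finset.sum_range_succ, ih, pow_succ]
    ring

lemma trig_id (X y : ℝ) : Real.cos y * (Real.cos (X + y) - Real.cos (X - y)) =
    -Real.sin y * (Real.sin (X + y) + Real.sin (X - y)) := by
  rw [Real.cos_add, Real.cos_sub, Real.sin_add, Real.sin_sub]
  ring

lemma alt_sum_cos {m K : ℕ} (hK : 1 ≤ K) (hKm : K < m) :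
    ∑ j ∈ range m, (-1 : ℝ) ^ j * (Real.cos (K * ((j + 1 : ℝ) * (Real.pi / m))) -
      Real.cos (K * ((j : ℝ) * (Real.pi / m)))) = 0 := by
  set h : ℝ := Real.pi / m with hh
  have hm : (0 : ℝ) < m := by exact_mod_cast (by omega : 0 < m)
  have hh0 : 0 < h := div_pos Real.pi_pos hm
  have hK0 : (0 : ℝ) < K := by exact_mod_cast hK
  have hcos : Real.cos (K * h / 2) ≠ 0 := by
    have h1 : K * h / 2 < Real.pi / 2 := by
      have : K * h < Real.pi := by
        rw [hh, ← mul_div_assoc, div_lt_iff₀ hm, mul_comm]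
        exact mul_lt_mul_of_pos_left (by exact_mod_cast hKm) Real.pi_pos
      linarith
    exact (Real.cos_pos_of_mem_Ioo ⟨by have := mul_pos hK0 hh0; linarith [Real.pi_pos], h1⟩).ne'
  have key : Real.cos (K * h / 2) * ∑ j ∈ range m, (-1 : ℝ) ^ j *
      (Real.cos (K * ((j + 1 : ℝ) * h)) - Real.cos (K * ((j : ℝ) * h))) = 0 := by
    rw [Finset.mul_sum]
    have h2 : ∀ j ∈ range m, Real.cos (K * h / 2) * ((-1 : ℝ) ^ j *
        (Real.cos (K * ((j + 1 : ℝ) * h)) - Real.cos (K * ((j : ℝ) * h)))) =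
        -Real.sin (K * h / 2) * ((-1 : ℝ) ^ j * (Real.sin (K * (((j + 1 : ℕ) : ℝ) * h)) +
          Real.sin (K * ((j : ℝ) * h)))) := by
      intro j _
      have e1 : (K : ℝ) * ((j + 1 : ℝ) * h) = (K * (j * h) + K * h / 2) + K * h / 2 := by ring
      have e2 : (K : ℝ) * ((j : ℝ) * h) = (K * (j * h) + K * h / 2) - K * h / 2 := by ring
      have h3 := trig_id (K * (j * h) + K * h / 2) (K * h / 2)
      rw [← e1, ← e2] at h3
      push_cast
      linear_combination (-1 : ℝ) ^ j * h3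
    rw [Finset.sum_congr rfl h2, ← Finset.mul_sum,
      alt_sum_tel (fun j => Real.sin (K * ((j : ℝ) * h)))]
    have h3 : Real.sin (K * ((m : ℝ) * h)) = 0 := by
      rw [hh, mul_div_cancel₀ _ hm.ne']
      exact Real.sin_nat_mul_pi K
    rw [h3]
    simp
  exact (mul_eq_zero.1 key).resolve_left hcos

section

variable {a : ℕ → ℝ} {m : ℕ}

/-- antiderivative of D -/
noncomputable def AA (a : ℕ → ℝ) (m : ℕ) (t : ℝ) : ℝ :=
  (Real.pi * t / 2 - t ^ 2 / 4) + ∑ k ∈ range (m - 1), a k * (Real.cos ((k + 1 : ℕ) * t) / (k + 1))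

lemma AA_hasDeriv (a : ℕ → ℝ) (m : ℕ) (t : ℝ) : HasDerivAt (AA a m) (DD a m t) t := by
  unfold AA DD sinP
  have h1 : HasDerivAt (fun t : ℝ => Real.pi * t / 2 - t ^ 2 / 4) ((Real.pi - t) / 2) t := by
    have e1 := ((hasDerivAt_id t).const_mul Real.pi).div_const 2
    have e2 := ((hasDerivAt_id t).fun_pow 2).div_const 4
    refine (e1.fun_sub e2).congr_deriv ?_
    simp
    ring
  have h2 : HasDerivAt (fun t : ℝ => ∑ k ∈ range (m - 1), a k * (Real.cos ((k + 1 : ℕ) * t) / (k + 1)))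
      (∑ k ∈ range (m - 1), -(a k * Real.sin ((k + 1) * t))) t := by
    apply HasDerivAt.fun_sum
    intro k _
    have h3 : HasDerivAt (fun t : ℝ => ((k + 1 : ℕ) : ℝ) * t) ((k + 1 : ℕ) : ℝ) t := by
      simpa using (hasDerivAt_id t).const_mul (((k + 1 : ℕ) : ℝ))
    have h4 := (h3.cos.div_const ((k : ℝ) + 1)).const_mul (a k)
    refine h4.congr_deriv ?_
    push_cast
    have : (k : ℝ) + 1 ≠ 0 := by positivity
    field_simp
  refine (h1.fun_add h2).congr_deriv ?_
  rw [Finset.sum_neg_distrib]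
  ring

lemma sign_closed (h : Interp a m) (hm : 1 ≤ m) {j : ℕ} (hj : j < m) {t : ℝ}
    (h1 : (j : ℝ) * (Real.pi / m) ≤ t) (h2 : t ≤ (j + 1 : ℝ) * (Real.pi / m)) :
    0 ≤ (-1) ^ j * DD a m t := by
  rcases h1.lt_or_eq with h1 | h1
  · rcases h2.lt_or_eq with h2 | h2
    · exact (sign_alt h hm j hj t h1 h2).le
    · rw [h2]
      have := DD_node h hm (j := j + 1) (by omega) (by omega)
      push_cast at this
      rw [this, mul_zero]
  · rw [← h1]
    rcases Nat.eq_zero_or_pos j with h0 | h0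
    · rw [h0]
      simp only [Nat.cast_zero, zero_mul, pow_zero, one_mul]
      rw [DD_zero]
      have := Real.pi_pos
      linarith
    · rw [DD_node h hm h0 hj.le, mul_zero]

lemma integral_abs_piece (h : Interp a m) (hm : 1 ≤ m) {j : ℕ} (hj : j < m) :
    ∫ t in ((j : ℝ) * (Real.pi / m))..((j + 1 : ℝ) * (Real.pi / m)), |DD a m t| =
      (-1) ^ j * (AA a m ((j + 1 : ℝ) * (Real.pi / m)) - AA a m ((j : ℝ) * (Real.pi / m))) := by
  have hle : (j : ℝ) * (Real.pi / m) ≤ (j + 1 : ℝ) * (Real.pi / m) := by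
    have := step_pos hm
    nlinarith
  have h1 : ∫ t in ((j : ℝ) * (Real.pi / m))..((j + 1 : ℝ) * (Real.pi / m)), |DD a m t| =
      ∫ t in ((j : ℝ) * (Real.pi / m))..((j + 1 : ℝ) * (Real.pi / m)), (-1) ^ j * DD a m t := by
    apply integral_congr
    intro t ht
    rw [Set.uIcc_of_le hle] at ht
    simp only
    rw [← abs_of_nonneg (sign_closed h hm hj ht.1 ht.2), abs_mul, abs_pow, abs_neg, abs_one,
      one_pow, one_mul]
  rw [h1, intervalIntegral.integral_const_mul, integral_eq_sub_of_hasDerivAt (fun t _ => AA_hasDeriv a m t)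
    ((DD_continuous a m).intervalIntegrable _ _)]

lemma integral_abs_half (h : Interp a m) (hm : 1 ≤ m) :
    ∫ t in (0:ℝ)..Real.pi, |DD a m t| = Real.pi ^ 2 / (4 * m) := by
  have hm' : (0 : ℝ) < m := by exact_mod_cast (by omega : 0 < m)
  have hsum := sum_integral_adjacent_intervals (f := fun t => |DD a m t|) (μ := volume)
    (a := fun j : ℕ => (j : ℝ) * (Real.pi / m)) (n := m)
    (fun k _ => (DD_continuous a m).abs.intervalIntegrable _ _)
  have h0 : ((0 : ℕ) : ℝ) * (Real.pi / m) = 0 := by simp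
  have hπ : (m : ℝ) * (Real.pi / m) = Real.pi := mul_div_cancel₀ _ hm'.ne'
  rw [h0, hπ] at hsum
  rw [← hsum]
  have h1 : ∀ j ∈ range m, ∫ t in ((j : ℝ) * (Real.pi / m))..(((j + 1 : ℕ) : ℝ) * (Real.pi / m)),
      |DD a m t| = (-1) ^ j * (Real.pi / 2 * (Real.pi / m) - (Real.pi / m) ^ 2 / 4 * (2 * j + 1)) +
        ∑ k ∈ range (m - 1), a k / (k + 1) * ((-1 : ℝ) ^ j *
          (Real.cos ((k + 1 : ℕ) * ((j + 1 : ℝ) * (Real.pi / m))) -
            Real.cos ((k + 1 : ℕ) * ((j : ℝ) * (Real.pi / m))))) := by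
    intro j hj
    rw [Finset.mem_range] at hj
    have := integral_abs_piece h hm hj
    have hc : (((j + 1 : ℕ) : ℝ)) = (j : ℝ) + 1 := by push_cast; ring
    rw [hc, this]
    unfold AA
    have e1 : ∑ k ∈ range (m - 1), a k / (k + 1) * ((-1 : ℝ) ^ j *
          (Real.cos ((k + 1 : ℕ) * ((j + 1 : ℝ) * (Real.pi / m))) -
            Real.cos ((k + 1 : ℕ) * ((j : ℝ) * (Real.pi / m))))) =
        (-1 : ℝ) ^ j * (∑ k ∈ range (m - 1), a k * (Real.cos ((k + 1 : ℕ) * ((j + 1 : ℝ) * (Real.pi / m))) / (k + 1)) -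
          ∑ k ∈ range (m - 1), a k * (Real.cos ((k + 1 : ℕ) * ((j : ℝ) * (Real.pi / m))) / (k + 1))) := by
      rw [← Finset.sum_sub_distrib, Finset.mul_sum]
      apply Finset.sum_congr rfl
      intro k _
      ring
    rw [e1]
    ring
  rw [Finset.sum_congr rfl h1, Finset.sum_add_distrib, alt_sum_quad, Finset.sum_comm]
  have h2 : ∀ k ∈ range (m - 1), ∑ j ∈ range m, a k / (k + 1) * ((-1 : ℝ) ^ j *
          (Real.cos ((k + 1 : ℕ) * ((j + 1 : ℝ) * (Real.pi / m))) -
            Real.cos ((k + 1 : ℕ) * ((j : ℝ) * (Real.pi / m))))) = 0 := by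
    intro k hk
    rw [Finset.mem_range] at hk
    rw [← Finset.mul_sum, alt_sum_cos (K := k + 1) (by omega) (by omega), mul_zero]
  rw [Finset.sum_eq_zero h2]
  field_simp
  ring

lemma DD_symm (a : ℕ → ℝ) (m : ℕ) (t : ℝ) : DD a m (2 * Real.pi - t) = -DD a m t := by
  unfold DD sinP
  have h1 : ∀ k ∈ range (m - 1), a k * Real.sin (((k : ℝ) + 1) * (2 * Real.pi - t)) =
      -(a k * Real.sin (((k : ℝ) + 1) * t)) := by
    intro k _
    have e : ((k : ℝ) + 1) * (2 * Real.pi - t) = ((k + 1 : ℕ) : ℝ) * (2 * Real.pi) - ((k : ℝ) + 1) * t := by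
      push_cast
      ring
    rw [e, Real.sin_nat_mul_two_pi_sub]
    ring
  rw [Finset.sum_congr rfl h1, Finset.sum_neg_distrib]
  ring

lemma integral_abs (h : Interp a m) (hm : 1 ≤ m) :
    ∫ t in (0:ℝ)..(2 * Real.pi), |DD a m t| = Real.pi ^ 2 / (2 * m) := by
  have hm' : (0 : ℝ) < m := by exact_mod_cast (by omega : 0 < m)
  rw [← integral_add_adjacent_intervals (b := Real.pi)
    ((DD_continuous a m).abs.intervalIntegrable _ _) ((DD_continuous a m).abs.intervalIntegrable _ _)]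
  have h1 : ∫ t in Real.pi..(2 * Real.pi), |DD a m t| = ∫ t in (0:ℝ)..Real.pi, |DD a m t| := by
    have := integral_comp_sub_left (fun t => |DD a m t|) (2 * Real.pi) (a := 0) (b := Real.pi)
    simp only [DD_symm, abs_neg] at this
    rw [this]
    congr 1 <;> ring
  rw [h1, integral_abs_half h hm]
  field_simp
  ring

end

end Pool.Agent.H56.Favard
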