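import Mathlib
import Pool.Agent.H56.Favard3

/-!
Favard's theorem for even periodic functions: polynomial approximation in `cos x`.
-/

set_option autoImplicit false
set_option maxHeartbeats 1000000

namespace Pool.Agent.H56.Favard

open Polynomial Finset MeasureTheory intervalIntegral

lemma DD_two_pi (a : ℕ → ℝ) (m : ℕ) : DD a m (2 * Real.pi) = -(Real.pi / 2) := by
  have := DD_symm a m 0
  rw [sub_zero, DD_zero] at this
  exact this

lemma CC_cos (a : ℕ → ℝ) (m : ℕ) (t : ℝ) : (CC a m).eval (Real.cos t) =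
    1 / 2 + ∑ k ∈ range (m - 1), a k * (k + 1) * Real.cos ((k + 1 : ℕ) * t) := by
  unfold CC
  rw [eval_add, eval_C, eval_finsetSum]
  congr 1
  apply Finset.sum_congr rfl
  intro k _
  rw [eval_mul, eval_C, Chebyshev.T_real_cos]
  push_cast
  ring

theorem favard_C1 {g g' : ℝ → ℝ} (hg : ∀ x, HasDerivAt g (g' x) x) (hg' : Continuous g')
    (hper : ∀ x, g (x + 2 * Real.pi) = g x) (heven : ∀ x, g (-x) = g x) {Λ : ℝ}
    (hΛ : ∀ x, |g' x| ≤ Λ) (n : ℕ) :
    ∃ P : ℝ[X], P.natDegree ≤ n ∧
      ∀ x, |g x - P.eval (Real.cos x)| ≤ Λ * Real.pi / (2 * (n + 1)) := by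
  set m := n + 1 with hm
  have hm1 : 1 ≤ m := by omega
  obtain ⟨a, ha⟩ := exists_coeffs m hm1
  have hI : Interp a m := ha
  have hgc : Continuous g := continuous_iff_continuousAt.2 fun t => (hg t).continuousAt
  have hπ := Real.pi_pos
  set gh : ℕ → ℝ := fun K => ∫ u in (0:ℝ)..(2 * Real.pi), Real.cos (K * u) * g u with hgh
  set P : ℝ[X] := C (1 / (2 * Real.pi) * ∫ u in (0:ℝ)..(2 * Real.pi), g u) +
    ∑ k ∈ range (m - 1), C (a k * (k + 1) / Real.pi * gh (k + 1)) * Chebyshev.T ℝ (k + 1 : ℕ) with hP
  refine ⟨P, ?_, ?_⟩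
  · rw [hP]
    apply natDegree_add_le_of_degree_le
    · rw [natDegree_C]
      omega
    · apply natDegree_sum_le_of_forall_le
      intro k hk
      rw [Finset.mem_range] at hk
      refine (natDegree_C_mul_le _ _).trans ?_
      rw [Chebyshev.natDegree_T]
      simp
      omega
  intro x
  -- evaluation of P
  have hPe : P.eval (Real.cos x) = 1 / (2 * Real.pi) * (∫ u in (0:ℝ)..(2 * Real.pi), g u) +
      ∑ k ∈ range (m - 1), a k * (k + 1) / Real.pi * gh (k + 1) * Real.cos ((k + 1 : ℕ) * x) := by
    rw [hP, eval_add, eval_C, eval_finsetSum]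
    congr 1
    apply Finset.sum_congr rfl
    intro k _
    rw [eval_mul, eval_C, Chebyshev.T_real_cos]
    push_cast
    ring
  -- integration by parts
  have hparts : ∫ t in (0:ℝ)..(2 * Real.pi), DD a m t * g' (x - t) =
      Real.pi * g x - ∫ t in (0:ℝ)..(2 * Real.pi), (CC a m).eval (Real.cos t) * g (x - t) := by
    have hv : ∀ t, HasDerivAt (fun t => -g (x - t)) (g' (x - t)) t := by
      intro t
      have h1 : HasDerivAt (fun t : ℝ => x - t) (-1) t := by
        simpa using (hasDerivAt_id t).const_sub x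
      have h2 := (HasDerivAt.comp t (hg (x - t)) h1).fun_neg
      refine h2.congr_deriv ?_
      ring
    have hCcont : Continuous fun t => -(CC a m).eval (Real.cos t) :=
      ((CC a m).continuous.comp Real.continuous_cos).neg
    have := integral_mul_deriv_eq_deriv_mul (a := 0) (b := 2 * Real.pi)
      (fun t _ => DD_hasDeriv a m t) (fun t _ => hv t)
      (hCcont.intervalIntegrable _ _)
      ((hg'.comp (continuous_const.sub continuous_id)).intervalIntegrable _ _)
    rw [this, DD_two_pi, DD_zero, sub_zero]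
    have h3 : g (x - 2 * Real.pi) = g x := by
      have := hper (x - 2 * Real.pi)
      rw [sub_add_cancel] at this
      exact this.symm
    rw [h3]
    have h4 : ∫ t in (0:ℝ)..(2 * Real.pi), -(CC a m).eval (Real.cos t) * -g (x - t) =
        ∫ t in (0:ℝ)..(2 * Real.pi), (CC a m).eval (Real.cos t) * g (x - t) := by
      congr 1
      funext t
      ring
    rw [h4]
    ring
  -- change of variables
  have hchange : ∫ t in (0:ℝ)..(2 * Real.pi), (CC a m).eval (Real.cos t) * g (x - t) =
      ∫ u in (0:ℝ)..(2 * Real.pi), (CC a m).eval (Real.cos (x - u)) * g u := by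
    have h1 := integral_comp_sub_left (fun u => (CC a m).eval (Real.cos (x - u)) * g u) x
      (a := 0) (b := 2 * Real.pi)
    have h2 : ∀ t : ℝ, x - (x - t) = t := by intro t; ring
    simp only [h2] at h1
    rw [h1, sub_zero]
    have hperiodic : Function.Periodic (fun u => (CC a m).eval (Real.cos (x - u)) * g u)
        (2 * Real.pi) := by
      intro u
      simp only
      rw [hper]
      congr 2
      have : x - (u + 2 * Real.pi) = (x - u) - 2 * Real.pi := by ring
      rw [this, Real.cos_sub_two_pi]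
    have h3 := hperiodic.intervalIntegral_add_eq (x - 2 * Real.pi) 0
    rw [sub_add_cancel, zero_add] at h3
    exact h3
  -- sine coefficients vanish
  have hsin : ∀ K : ℕ, ∫ u in (0:ℝ)..(2 * Real.pi), Real.sin (K * u) * g u = 0 := by
    intro K
    have h1 := integral_comp_sub_left (fun u => Real.sin (K * u) * g u) (2 * Real.pi)
      (a := 0) (b := 2 * Real.pi)
    rw [sub_self, sub_zero] at h1
    have h2 : ∀ u : ℝ, Real.sin (K * (2 * Real.pi - u)) * g (2 * Real.pi - u) =
        -(Real.sin (K * u) * g u) := by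
      intro u
      have e1 : (K : ℝ) * (2 * Real.pi - u) = K * (2 * Real.pi) - K * u := by ring
      have e2 : g (2 * Real.pi - u) = g u := by
        have := hper (-u)
        rw [heven] at this
        rw [← this]
        congr 1
        ring
      rw [e1, Real.sin_nat_mul_two_pi_sub, e2]
      ring
    simp only [h2] at h1
    rw [intervalIntegral.integral_neg] at h1
    linarith
  -- expansion
  have hexp : ∫ u in (0:ℝ)..(2 * Real.pi), (CC a m).eval (Real.cos (x - u)) * g u =
      1 / 2 * (∫ u in (0:ℝ)..(2 * Real.pi), g u) +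
      ∑ k ∈ range (m - 1), a k * (k + 1) * gh (k + 1) * Real.cos ((k + 1 : ℕ) * x) := by
    have h1 : ∀ u, (CC a m).eval (Real.cos (x - u)) * g u = 1 / 2 * g u +
        ∑ k ∈ range (m - 1), (a k * (k + 1) * Real.cos ((k + 1 : ℕ) * x) *
          (Real.cos ((k + 1 : ℕ) * u) * g u) + a k * (k + 1) * Real.sin ((k + 1 : ℕ) * x) *
          (Real.sin ((k + 1 : ℕ) * u) * g u)) := by
      intro u
      rw [CC_cos, add_mul, Finset.sum_mul]
      congr 1
      apply Finset.sum_congr rfl
      intro k _
      have : ((k + 1 : ℕ) : ℝ) * (x - u) = (k + 1 : ℕ) * x - (k + 1 : ℕ) * u := by ring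
      rw [this, Real.cos_sub]
      ring
    simp only [h1]
    rw [integral_add ((hgc.const_mul (1/2)).intervalIntegrable _ _)
      ((by fun_prop : Continuous _).intervalIntegrable _ _), intervalIntegral.integral_const_mul]
    congr 1
    rw [intervalIntegral.integral_finsetSum (fun k _ => (by fun_prop : Continuous _).intervalIntegrable _ _)]
    apply Finset.sum_congr rfl
    intro k _
    rw [integral_add ((by fun_prop : Continuous _).intervalIntegrable _ _)
      ((by fun_prop : Continuous _).intervalIntegrable _ _), intervalIntegral.integral_const_mul,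
      intervalIntegral.integral_const_mul, hsin (k + 1), mul_zero, add_zero]
    simp only [hgh]
    ring
  have hdiff : g x - P.eval (Real.cos x) =
      1 / Real.pi * ∫ t in (0:ℝ)..(2 * Real.pi), DD a m t * g' (x - t) := by
    rw [hparts, hchange, hexp, hPe, mul_sub, mul_add, Finset.mul_sum]
    have e1 : 1 / Real.pi * (Real.pi * g x) = g x := by field_simp
    have e2 : ∑ k ∈ range (m - 1), a k * (k + 1) / Real.pi * gh (k + 1) * Real.cos ((k + 1 : ℕ) * x) =
        ∑ k ∈ range (m - 1), 1 / Real.pi * (a k * (k + 1) * gh (k + 1) * Real.cos ((k + 1 : ℕ) * x)) := by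
      apply Finset.sum_congr rfl
      intro k _
      ring
    rw [e1, e2]
    have e3 : 1 / Real.pi * (1 / 2 * ∫ u in (0:ℝ)..(2 * Real.pi), g u) =
        1 / (2 * Real.pi) * ∫ u in (0:ℝ)..(2 * Real.pi), g u := by
      field_simp
    rw [e3]
  rw [hdiff, abs_mul, abs_of_pos (by positivity)]
  have hbound : |∫ t in (0:ℝ)..(2 * Real.pi), DD a m t * g' (x - t)| ≤
      Λ * (Real.pi ^ 2 / (2 * m)) := by
    have hc1 : Continuous fun t => DD a m t * g' (x - t) :=
      (DD_continuous a m).mul (hg'.comp (continuous_const.sub continuous_id))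
    have hc2 := DD_continuous a m
    rw [← integral_abs hI hm1, ← intervalIntegral.integral_const_mul]
    refine (abs_integral_le_integral_abs (by positivity)).trans ?_
    apply integral_mono_on (by positivity) (hc1.abs.intervalIntegrable _ _)
      ((continuous_const.mul hc2.abs).intervalIntegrable _ _)
    intro t _
    rw [abs_mul, mul_comm]
    exact mul_le_mul_of_nonneg_right (hΛ _) (abs_nonneg _)
  calc 1 / Real.pi * |∫ t in (0:ℝ)..(2 * Real.pi), DD a m t * g' (x - t)|
      ≤ 1 / Real.pi * (Λ * (Real.pi ^ 2 / (2 * m))) :=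
        mul_le_mul_of_nonneg_left hbound (by positivity)
    _ = Λ * Real.pi / (2 * (n + 1)) := by
        rw [hm]
        push_cast
        field_simp

/-- Lipschitz version -/
theorem favard_lip {g : ℝ → ℝ} {Λ : ℝ} (hΛ : 0 ≤ Λ) (hlip : ∀ x y, |g x - g y| ≤ Λ * |x - y|)
    (hper : ∀ x, g (x + 2 * Real.pi) = g x) (heven : ∀ x, g (-x) = g x) {η : ℝ} (hη : 0 < η)
    (n : ℕ) :
    ∃ P : ℝ[X], P.natDegree ≤ n ∧
      ∀ x, |g x - P.eval (Real.cos x)| ≤ Λ * Real.pi / (2 * (n + 1)) + η := by
  have hgc : Continuous g := by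
    rw [Metric.continuous_iff]
    intro x ε hε
    refine ⟨ε / (Λ + 1), by positivity, ?_⟩
    intro y hy
    rw [Real.dist_eq] at hy ⊢
    have h1 := hlip y x
    rw [lt_div_iff₀ (by positivity)] at hy
    nlinarith [abs_nonneg (y - x)]
  set δ := η / (Λ + 1) with hδ
  have hδ0 : 0 < δ := by positivity
  set G : ℝ → ℝ := fun x => ∫ u in (0:ℝ)..x, g u with hG
  have hGd : ∀ x, HasDerivAt G (g x) x := fun x =>
    integral_hasDerivAt_right (hgc.intervalIntegrable _ _) (hgc.stronglyMeasurableAtFilter _ _)
      hgc.continuousAt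
  set h : ℝ → ℝ := fun x => (G (x + δ) - G (x - δ)) / (2 * δ) with hh
  set h' : ℝ → ℝ := fun x => (g (x + δ) - g (x - δ)) / (2 * δ) with hh'
  have hd : ∀ x, HasDerivAt h (h' x) x := by
    intro x
    have e1 : HasDerivAt (fun x : ℝ => G (x + δ)) (g (x + δ)) x :=
      HasDerivAt.comp_add_const x δ (hGd (x + δ))
    have e2 : HasDerivAt (fun x : ℝ => G (x - δ)) (g (x - δ)) x :=
      HasDerivAt.comp_sub_const x δ (hGd (x - δ))
    exact (e1.fun_sub e2).div_const _
  have hcont' : Continuous h' := by
    simp only [hh']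
    fun_prop
  have hint : ∀ x, h x = 1 / (2 * δ) * ∫ u in (x - δ)..(x + δ), g u := by
    intro x
    simp only [hh, hG]
    rw [integral_interval_sub_left (hgc.intervalIntegrable _ _) (hgc.intervalIntegrable _ _)]
    ring
  have hperh : ∀ x, h (x + 2 * Real.pi) = h x := by
    intro x
    rw [hint, hint]
    congr 1
    have h1 := integral_comp_add_right (fun u => g u) (2 * Real.pi) (a := x - δ) (b := x + δ)
    simp only [hper] at h1
    rw [h1]
    congr 1 <;> ring
  have hevenh : ∀ x, h (-x) = h x := by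
    intro x
    rw [hint, hint]
    congr 1
    have h1 := intervalIntegral.integral_comp_neg (fun u => g u) (a := x - δ) (b := x + δ)
    simp only [heven] at h1
    rw [h1]
    congr 1 <;> ring
  have hbd : ∀ x, |h' x| ≤ Λ := by
    intro x
    simp only [hh']
    rw [abs_div, abs_of_pos (show 0 < 2 * δ by positivity), div_le_iff₀ (by positivity)]
    have h1 := hlip (x + δ) (x - δ)
    have h2 : x + δ - (x - δ) = 2 * δ := by ring
    rw [h2, abs_of_pos (show 0 < 2 * δ by positivity)] at h1
    exact h1
  obtain ⟨P, hP, hPe⟩ := favard_C1 hd hcont' hperh hevenh hbd n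
  refine ⟨P, hP, ?_⟩
  intro x
  have hclose : |g x - h x| ≤ η := by
    have h1 : g x - h x = 1 / (2 * δ) * ∫ u in (x - δ)..(x + δ), (g x - g u) := by
      rw [integral_sub intervalIntegrable_const (hgc.intervalIntegrable _ _),
        intervalIntegral.integral_const, hint, smul_eq_mul]
      field_simp
      ring
    have h2 : ‖∫ u in (x - δ)..(x + δ), (g x - g u)‖ ≤ (Λ * δ) * |x + δ - (x - δ)| := by
      apply intervalIntegral.norm_integral_le_of_norm_le_const
      intro u hu
      rw [Set.uIoc_of_le (by linarith)] at hu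
      rw [Real.norm_eq_abs]
      refine (hlip x u).trans (mul_le_mul_of_nonneg_left ?_ hΛ)
      rw [abs_le]
      constructor <;> linarith [hu.1, hu.2]
    have h3 : x + δ - (x - δ) = 2 * δ := by ring
    rw [h3, abs_of_pos (show 0 < 2 * δ by positivity), Real.norm_eq_abs] at h2
    rw [h1, abs_mul, abs_of_pos (show 0 < 1 / (2 * δ) by positivity)]
    calc 1 / (2 * δ) * |∫ u in (x - δ)..(x + δ), (g x - g u)|
        ≤ 1 / (2 * δ) * (Λ * δ * (2 * δ)) := mul_le_mul_of_nonneg_left h2 (by positivity)
      _ = Λ * δ := by field_simp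
      _ ≤ η := by
          rw [hδ, mul_div_assoc', div_le_iff₀ (by positivity)]
          nlinarith
  calc |g x - P.eval (Real.cos x)| = |(h x - P.eval (Real.cos x)) + (g x - h x)| := by ring_nf
    _ ≤ |h x - P.eval (Real.cos x)| + |g x - h x| := abs_add_le _ _
    _ ≤ _ := add_le_add (hPe x) hclose

end Pool.Agent.H56.Favard
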