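import Mathlib

/-!
Counting monotone pieces of polynomials.
-/

set_option autoImplicit false
set_option maxHeartbeats 1000000

namespace Pool.Agent.H56.Haus

open Polynomial

/-- a polynomial with `M` alternations of sign has degree at least `M` -/
lemma alt_roots (R : ℝ[X]) (M : ℕ) (ξ : ℕ → ℝ) (hmono : ∀ i < M, ξ i < ξ (i + 1))
    (hsign : ∀ i < M, R.eval (ξ i) * R.eval (ξ (i + 1)) < 0) : M ≤ R.natDegree := by
  rcases Nat.eq_zero_or_pos M with h0 | hM
  · omega
  have hR : R ≠ 0 := by
    intro h
    have := hsign 0 hM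
    rw [h] at this
    simp at this
  have hroot : ∀ i, ∃ ρ, i < M → (ξ i < ρ ∧ ρ < ξ (i + 1) ∧ R.IsRoot ρ) := by
    intro i
    by_cases hi : i < M
    · have hcont : ContinuousOn (fun x => R.eval x) (Set.Icc (ξ i) (ξ (i + 1))) :=
        R.continuous.continuousOn
      have hle := (hmono i hi).le
      rcases lt_or_ge (R.eval (ξ i)) 0 with hneg | hpos
      · have hp : 0 < R.eval (ξ (i + 1)) := by
          by_contra hcon
          push Not at hcon
          nlinarith [hsign i hi]
        obtain ⟨ρ, hρ, hz⟩ := intermediate_value_Ioo hle hcont ⟨hneg, hp⟩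
        exact ⟨ρ, fun _ => ⟨hρ.1, hρ.2, hz⟩⟩
      · have hp0 : 0 < R.eval (ξ i) := by
          rcases hpos.lt_or_eq with h | h
          · exact h
          · have := hsign i hi
            rw [← h] at this
            simp at this
        have hn : R.eval (ξ (i + 1)) < 0 := by
          by_contra hcon
          push Not at hcon
          nlinarith [hsign i hi]
        obtain ⟨ρ, hρ, hz⟩ := intermediate_value_Ioo' hle hcont ⟨hn, hp0⟩
        exact ⟨ρ, fun _ => ⟨hρ.1, hρ.2, hz⟩⟩
    · exact ⟨0, fun h => absurd h hi⟩
  choose ρ hρ using hroot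
  have hmono2 : ∀ i j, i < j → j ≤ M → ξ i < ξ j := by
    intro i j hij hj
    induction j with
    | zero => omega
    | succ j ih =>
      rcases Nat.lt_or_ge i j with h | h
      · exact (ih h (by omega)).trans (hmono j (by omega))
      · have : i = j := by omega
        rw [this]
        exact hmono j (by omega)
  have hinj : Set.InjOn ρ (Finset.range M : Set ℕ) := by
    intro i hi j hj hij
    simp only [Finset.coe_range, Set.mem_Iio] at hi hj
    by_contra hne
    rcases Nat.lt_or_ge i j with h | h
    · have h1 := (hρ i hi).2.1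
      have h2 := (hρ j hj).1
      have h3 : ξ (i + 1) ≤ ξ j := by
        rcases Nat.lt_or_ge (i + 1) j with h4 | h4
        · exact (hmono2 _ _ h4 (by omega)).le
        · have : i + 1 = j := by omega
          rw [this]
      linarith
    · have h' : j < i := by omega
      have h1 := (hρ j hj).2.1
      have h2 := (hρ i hi).1
      have h3 : ξ (j + 1) ≤ ξ i := by
        rcases Nat.lt_or_ge (j + 1) i with h4 | h4
        · exact (hmono2 _ _ h4 (by omega)).le
        · have : j + 1 = i := by omega
          rw [this]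
      linarith
  have hsub : (Finset.range M).image ρ ⊆ R.roots.toFinset := by
    intro x hx
    rw [Finset.mem_image] at hx
    obtain ⟨i, hi, rfl⟩ := hx
    rw [Finset.mem_range] at hi
    rw [Multiset.mem_toFinset, mem_roots hR]
    exact (hρ i hi).2.2
  have hcard := Finset.card_le_card hsub
  rw [Finset.card_image_of_injOn hinj, Finset.card_range] at hcard
  exact hcard.trans ((Multiset.toFinset_card_le _).trans (card_roots' R))

/-- a polynomial with `N` alternating monotone pieces has degree at least `N` -/
lemma alt_pieces (Q : ℝ[X]) (N : ℕ) (hN : 2 ≤ N) (z : ℕ → ℝ) (hmono : ∀ i < N, z i < z (i + 1))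
    (halt : ∀ i, i + 1 < N →
      (Q.eval (z (i + 1)) - Q.eval (z i)) * (Q.eval (z (i + 2)) - Q.eval (z (i + 1))) < 0) :
    N ≤ Q.natDegree := by
  have hmvt : ∀ i, ∃ ξ, i < N → (z i < ξ ∧ ξ < z (i + 1) ∧
      (derivative Q).eval ξ * (z (i + 1) - z i) = Q.eval (z (i + 1)) - Q.eval (z i)) := by
    intro i
    by_cases hi : i < N
    · obtain ⟨ξ, hξ, h⟩ := exists_deriv_eq_slope (fun x => Q.eval x) (hmono i hi)
        Q.continuous.continuousOn Q.differentiable.differentiableOn
      refine ⟨ξ, fun _ => ⟨hξ.1, hξ.2, ?_⟩⟩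
      rw [Polynomial.deriv] at h
      rw [h]
      have : z (i + 1) - z i ≠ 0 := (sub_pos.2 (hmono i hi)).ne'
      field_simp
    · exact ⟨0, fun h => absurd h hi⟩
  choose ξ hξ using hmvt
  have h1 := alt_roots (derivative Q) (N - 1) ξ (by
    intro i hi
    have h1 := (hξ i (by omega)).2.1
    have h2 := (hξ (i + 1) (by omega)).1
    linarith) (by
    intro i hi
    have h1 := (hξ i (by omega)).2.2
    have h2 := (hξ (i + 1) (by omega)).2.2
    have h3 := halt i (by omega)
    rw [← h1, ← h2] at h3
    have p1 : 0 < z (i + 1) - z i := sub_pos.2 (hmono i (by omega))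
    have p2 : 0 < z (i + 1 + 1) - z (i + 1) := sub_pos.2 (hmono (i + 1) (by omega))
    by_contra hcon
    push Not at hcon
    have h4 := mul_nonneg hcon (mul_pos p1 p2).le
    have h5 : z (i + 2) = z (i + 1 + 1) := rfl
    rw [h5] at h3
    nlinarith)
  have h2 := natDegree_derivative_le Q
  omega

end Pool.Agent.H56.Haus
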