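import Mathlib

/-!
# Definitions: Hausdorff approximation of plane continua by polynomial curves

`ℝ × ℝ` carries the max-metric, as in the problem.
-/

set_option autoImplicit false

namespace Pool.Agent.H56.Haus

open Polynomial Filter
open scoped ENNReal

/-- the family `Z_D` of nonempty compact connected subsets of the square `[a,b]²` -/
def ZD (a b : ℝ) : Set (Set (ℝ × ℝ)) :=
  {F | F.Nonempty ∧ IsCompact F ∧ IsPreconnected F ∧ F ⊆ Set.Icc a b ×ˢ Set.Icc a b}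

/-- the family `H_n^2` of plane curves `{(P(t),Q(t)) : t ∈ [0,1]}`, `P`, `Q` real polynomials of
degree at most `n` -/
def HN (n : ℕ) : Set (Set (ℝ × ℝ)) :=
  {γ | ∃ P Q : ℝ[X], P.natDegree ≤ n ∧ Q.natDegree ≤ n ∧
    γ = (fun t : ℝ => (P.eval t, Q.eval t)) '' Set.Icc 0 1}

/-- `E(H_n^2; F)`: the infimum of the Hausdorff distances `r(F, γ)`, `γ ∈ H_n^2` -/
noncomputable def EF (n : ℕ) (F : Set (ℝ × ℝ)) : ℝ≥0∞ := ⨅ γ ∈ HN n, Metric.hausdorffEDist F γ

/-- `E(H_n^2; Z_D)` -/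
noncomputable def EZ (a b : ℝ) (n : ℕ) : ℝ≥0∞ := ⨆ F ∈ ZD a b, EF n F

/-- the constant `c_1 = limsup √n · E(H_n^2; Z_D) / (b - a)` -/
noncomputable def c1 (a b : ℝ) : ℝ≥0∞ :=
  limsup (fun n : ℕ => ENNReal.ofReal (Real.sqrt n) * EZ a b n / ENNReal.ofReal (b - a)) atTop

end Pool.Agent.H56.Haus
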