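import Mathlib
import Pool.Agent.H56.HausDefs
import Pool.Agent.H56.HausCount

/-!
The lower bound `c_1 ≥ 1/2`: a comb of combs.
-/

set_option autoImplicit false
set_option maxHeartbeats 1000000

namespace Pool.Agent.H56.Haus

open Polynomial Filter Topology
open scoped ENNReal

/-- the spine -/
def spine (a h : ℝ) (m : ℕ) : Set (ℝ × ℝ) := {a} ×ˢ Set.Icc a (a + m * h)

/-- the base segment number `k` -/
def base (a h : ℝ) (m k : ℕ) : Set (ℝ × ℝ) := Set.Icc a (a + m * h) ×ˢ {a + 2 * k * h}

/-- the tooth number `i` over the base number `k` -/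
def tooth (a h : ℝ) (i k : ℕ) : Set (ℝ × ℝ) :=
  {a + i * h} ×ˢ Set.Icc (a + 2 * k * h) (a + (2 * k + 1) * h)

/-- the comb of combs -/
def comb (a h : ℝ) (m K : ℕ) : Set (ℝ × ℝ) :=
  spine a h m ∪ ⋃ k ∈ Finset.range K, (base a h m k ∪ ⋃ i ∈ Finset.range (m + 1), tooth a h i k)

lemma comb_compact (a h : ℝ) (m K : ℕ) : IsCompact (comb a h m K) := by
  unfold comb spine base tooth
  refine (isCompact_singleton.prod isCompact_Icc).union ?_
  refine Finset.isCompact_biUnion _ fun k _ => ?_
  refine (isCompact_Icc.prod isCompact_singleton).union ?_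
  exact Finset.isCompact_biUnion _ fun i _ => isCompact_singleton.prod isCompact_Icc

lemma spine_pre (a h : ℝ) (m : ℕ) : IsPreconnected (spine a h m) :=
  isPreconnected_singleton.prod isPreconnected_Icc

lemma base_pre (a h : ℝ) (m k : ℕ) : IsPreconnected (base a h m k) :=
  isPreconnected_Icc.prod isPreconnected_singleton

lemma tooth_pre (a h : ℝ) (i k : ℕ) : IsPreconnected (tooth a h i k) :=
  isPreconnected_singleton.prod isPreconnected_Icc

lemma corner_mem {a h : ℝ} (hh : 0 < h) (m : ℕ) : ((a, a) : ℝ × ℝ) ∈ spine a h m := by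
  refine ⟨rfl, le_rfl, ?_⟩
  have : 0 ≤ (m : ℝ) * h := by positivity
  simp only
  linarith

lemma spine_base_pre {a h : ℝ} (hh : 0 < h) {m k : ℕ} (hk : 2 * k ≤ m) :
    IsPreconnected (spine a h m ∪ base a h m k) := by
  have hk' : (2 * k : ℝ) ≤ m := by exact_mod_cast hk
  apply IsPreconnected.union (a, a + 2 * k * h)
  · refine ⟨rfl, ?_, ?_⟩
    · have : 0 ≤ 2 * (k : ℝ) * h := by positivity
      simp only
      linarith
    · have := mul_le_mul_of_nonneg_right hk' hh.le
      simp only
      linarith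
  · refine ⟨⟨le_rfl, ?_⟩, rfl⟩
    have : 0 ≤ (m : ℝ) * h := by positivity
    simp only
    linarith
  · exact spine_pre a h m
  · exact base_pre a h m k

lemma comb_pre {a h : ℝ} (hh : 0 < h) {m K : ℕ} (hK : 2 * K ≤ m + 1) :
    IsPreconnected (comb a h m K) := by
  apply isPreconnected_of_forall (a, a)
  intro y hy
  unfold comb at hy
  rw [Set.mem_union, Set.mem_iUnion₂] at hy
  rcases hy with hy | ⟨k, hk, hy⟩
  · exact ⟨spine a h m, Set.subset_union_left, corner_mem hh m, hy, spine_pre a h m⟩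
  · have hk1 := Finset.mem_range.1 hk
    have hsub : spine a h m ∪ base a h m k ⊆ comb a h m K := by
      unfold comb
      apply Set.union_subset_union_right
      refine Set.subset_iUnion₂_of_subset k hk ?_
      exact Set.subset_union_left
    rcases hy with hy | hy
    · exact ⟨_, hsub, Or.inl (corner_mem hh m), Or.inr hy, spine_base_pre hh (by omega)⟩
    · rw [Set.mem_iUnion₂] at hy
      obtain ⟨i, hi, hy⟩ := hy
      have hi1 := Finset.mem_range.1 hi
      refine ⟨(spine a h m ∪ base a h m k) ∪ tooth a h i k, ?_, Or.inl (Or.inl (corner_mem hh m)),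
        Or.inr hy, ?_⟩
      · apply Set.union_subset hsub
        unfold comb
        refine Set.subset_union_of_subset_right ?_ _
        refine Set.subset_iUnion₂_of_subset k hk ?_
        refine Set.subset_union_of_subset_right ?_ _
        exact Set.subset_iUnion₂_of_subset i hi subset_rfl
      · apply IsPreconnected.union (a + i * h, a + 2 * k * h)
        · refine Or.inr ⟨⟨?_, ?_⟩, rfl⟩
          · have : 0 ≤ (i : ℝ) * h := by positivity
            simp only
            linarith
          · have : (i : ℝ) ≤ m := by exact_mod_cast (by omega : i ≤ m)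
            have := mul_le_mul_of_nonneg_right this hh.le
            simp only
            linarith
        · refine ⟨rfl, le_rfl, ?_⟩
          simp only
          nlinarith
        · exact spine_base_pre hh (by omega)
        · exact tooth_pre a h i k

lemma comb_mem_ZD {a h : ℝ} (hh : 0 < h) {m K : ℕ} (hK : 2 * K ≤ m + 1) :
    comb a h m K ∈ ZD a (a + m * h) := by
  refine ⟨⟨(a, a), Or.inl (corner_mem hh m)⟩, comb_compact a h m K, comb_pre hh hK, ?_⟩
  intro y hy
  unfold comb at hy
  rw [Set.mem_union, Set.mem_iUnion₂] at hy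
  have hmh : 0 ≤ (m : ℝ) * h := by positivity
  rcases hy with hy | ⟨k, hk, hy⟩
  · obtain ⟨h1, h2⟩ := hy
    have h1' : y.1 = a := h1
    exact ⟨⟨h1'.ge, by rw [h1']; linarith⟩, h2⟩
  · have hk1 := Finset.mem_range.1 hk
    have hk2 : (2 * k : ℝ) + 1 ≤ m := by exact_mod_cast (by omega : 2 * k + 1 ≤ m)
    have hk3 := mul_le_mul_of_nonneg_right hk2 hh.le
    have hk4 : 0 ≤ 2 * (k : ℝ) * h := by positivity
    rcases hy with hy | hy
    · obtain ⟨h1, h2⟩ := hy
      have h2' : y.2 = a + 2 * k * h := h2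
      exact ⟨h1, ⟨by rw [h2']; linarith, by rw [h2']; linarith⟩⟩
    · rw [Set.mem_iUnion₂] at hy
      obtain ⟨i, hi, h1, h2⟩ := hy
      have hi1 := Finset.mem_range.1 hi
      have h1' : y.1 = a + i * h := h1
      have : (i : ℝ) ≤ m := by exact_mod_cast (by omega : i ≤ m)
      have h3 := mul_le_mul_of_nonneg_right this hh.le
      have h4 : 0 ≤ (i : ℝ) * h := by positivity
      refine ⟨⟨by rw [h1']; linarith, by rw [h1']; linarith⟩, ⟨by linarith [h2.1], by linarith [h2.2]⟩⟩

/-- the structure of the comb strictly between two bases -/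
lemma comb_between {a h : ℝ} (hh : 0 < h) {m K k : ℕ} {p : ℝ × ℝ} (hp : p ∈ comb a h m K)
    (h1 : a + 2 * k * h < p.2) (h2 : p.2 < a + 2 * (k + 1) * h) :
    p.1 = a ∨ ∃ j : ℕ, p.1 = a + j * h ∧ p.2 ≤ a + (2 * k + 1) * h := by
  unfold comb at hp
  rw [Set.mem_union, Set.mem_iUnion₂] at hp
  rcases hp with hp | ⟨l, hl, hp⟩
  · exact Or.inl hp.1
  · rcases hp with hp | hp
    · exfalso
      have h3 : p.2 = a + 2 * l * h := hp.2
      rw [h3] at h1 h2
      have h4 : (k : ℝ) < l := by
        by_contra hcon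
        push Not at hcon
        nlinarith
      have h5 : (l : ℝ) < k + 1 := by
        by_contra hcon
        push Not at hcon
        nlinarith
      have h4' : k < l := by exact_mod_cast h4
      have h5' : l < k + 1 := by exact_mod_cast h5
      omega
    · rw [Set.mem_iUnion₂] at hp
      obtain ⟨i, hi, h3, h4, h5⟩ := hp
      have h6 : l = k := by
        have h7 : (k : ℝ) < l + 1 := by
          by_contra hcon
          push Not at hcon
          nlinarith
        have h8 : (l : ℝ) < k + 1 := by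
          by_contra hcon
          push Not at hcon
          nlinarith
        have h7' : k < l + 1 := by exact_mod_cast h7
        have h8' : l < k + 1 := by exact_mod_cast h8
        omega
      rw [h6] at h5
      exact Or.inr ⟨i, h3, h5⟩

lemma tip_mem {a h : ℝ} (hh : 0 < h) {m K i k : ℕ} (hi : i ≤ m) (hk : k < K) :
    ((a + i * h, a + (2 * k + 1) * h) : ℝ × ℝ) ∈ comb a h m K := by
  unfold comb
  refine Or.inr ?_
  rw [Set.mem_iUnion₂]
  refine ⟨k, Finset.mem_range.2 hk, Or.inr ?_⟩
  rw [Set.mem_iUnion₂]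
  refine ⟨i, Finset.mem_range.2 (by omega), rfl, ?_, le_rfl⟩
  simp only
  nlinarith

section

variable {a h : ℝ} {m K : ℕ} {f g : ℝ → ℝ}

/-- exit lemma: between two visits at different tips the curve goes down below the mid level of
the lower one -/
lemma exit_lemma (hh : 0 < h) (hf : Continuous f) (hg : Continuous g)
    {u v : ℝ}
    (hnear : ∀ t ∈ Set.Icc u v, ∃ p ∈ comb a h m K, |f t - p.1| < h / 2 ∧ |g t - p.2| < h / 2)
    {i k i' k' : ℕ} (hi : 1 ≤ i) {s s' : ℝ} (hs : s ∈ Set.Icc u v) (hs' : s' ∈ Set.Icc u v)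
    (hfs : |f s - (a + i * h)| < h / 2) (hgs : |g s - (a + (2 * k + 1) * h)| < h / 2)
    (hfs' : |f s' - (a + i' * h)| < h / 2) (hgs' : |g s' - (a + (2 * k' + 1) * h)| < h / 2)
    (hkk : k ≤ k') (hne : (i, k) ≠ (i', k')) :
    ∃ τ ∈ Set.Icc u v, g τ ≤ a + 2 * k * h + h / 2 := by
  by_contra hcon
  push Not at hcon
  set A : Set ℝ := {t | |f t - (a + i * h)| < h / 2 ∧ g t < a + 2 * k * h + 3 * h / 2} with hA
  set B : Set ℝ := {t | h / 2 < |f t - (a + i * h)| ∨ a + 2 * k * h + 3 * h / 2 < g t} with hB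
  have hAo : IsOpen A := by
    apply IsOpen.inter
    · exact isOpen_lt (hf.sub continuous_const).abs continuous_const
    · exact isOpen_lt hg continuous_const
  have hBo : IsOpen B := by
    apply IsOpen.union
    · exact isOpen_lt continuous_const (hf.sub continuous_const).abs
    · exact isOpen_lt continuous_const hg
  have hcover : Set.Icc u v ⊆ A ∪ B := by
    intro t ht
    by_contra hnot
    rw [Set.mem_union, not_or] at hnot
    obtain ⟨hnA, hnB⟩ := hnot
    simp only [hA, hB, Set.mem_ofPred_eq, not_and, not_or, not_lt] at hnA hnB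
    have hlow := hcon t ht
    obtain ⟨p, hp, h1, h2⟩ := hnear t ht
    rw [abs_lt] at h1 h2
    have h3 : a + 2 * k * h < p.2 := by linarith
    have h4 : p.2 < a + 2 * (k + 1) * h := by linarith [hnB.2]
    have hB1 := hnB.1
    rcases comb_between hh hp h3 h4 with h5 | ⟨j, h5, h6⟩
    · rw [h5] at h1
      rw [abs_le] at hB1
      have hi' : (1 : ℝ) ≤ i := by exact_mod_cast hi
      have := mul_le_mul_of_nonneg_right hi' hh.le
      linarith
    · rw [h5] at h1
      have hB2 := abs_le.1 hB1
      have hij : i = j := by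
        have h7 : ((i : ℝ) - j) * h < h := by linarith
        have h8 : ((j : ℝ) - i) * h < h := by linarith
        have h7' : (i : ℝ) < j + 1 := by
          by_contra hc
          push Not at hc
          nlinarith
        have h8' : (j : ℝ) < i + 1 := by
          by_contra hc
          push Not at hc
          nlinarith
        have h7'' : i < j + 1 := by exact_mod_cast h7'
        have h8'' : j < i + 1 := by exact_mod_cast h8'
        omega
      rw [← hij] at h1
      have h9 := hnA (abs_lt.2 h1)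
      linarith
  have hAs : s ∈ A := by
    refine ⟨hfs, ?_⟩
    have := (abs_lt.1 hgs).2
    linarith
  have hBs' : s' ∈ B := by
    by_contra hnB
    simp only [hB, Set.mem_ofPred_eq, not_or, not_lt] at hnB
    apply hne
    have h1 := abs_lt.1 hfs'
    have h2 := abs_lt.1 hgs'
    have h3 := abs_le.1 hnB.1
    have hii : i = i' := by
      have h7 : ((i : ℝ) - i') * h < h := by linarith
      have h8 : ((i' : ℝ) - i) * h < h := by linarith
      have h7' : (i : ℝ) < i' + 1 := by
        by_contra hc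
        push Not at hc
        nlinarith
      have h8' : (i' : ℝ) < i + 1 := by
        by_contra hc
        push Not at hc
        nlinarith
      have h7'' : i < i' + 1 := by exact_mod_cast h7'
      have h8'' : i' < i + 1 := by exact_mod_cast h8'
      omega
    have hkk' : k' ≤ k := by
      have h7 : (k' : ℝ) < k + 1 := by
        by_contra hc
        push Not at hc
        nlinarith [hnB.2]
      have h7'' : k' < k + 1 := by exact_mod_cast h7
      omega
    rw [hii, le_antisymm hkk hkk']
  obtain ⟨t, _, htA, htB⟩ := isPreconnected_Icc A B hAo hBo hcover ⟨s, hs, hAs⟩ ⟨s', hs', hBs'⟩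
  rcases htB with htB | htB
  · exact absurd htA.1 (not_lt.2 htB.le)
  · exact absurd htA.2 (not_lt.2 htB.le)

end

/-- Main counting statement. -/
theorem degree_lower {a h : ℝ} (hh : 0 < h) {m K : ℕ} (hT : 2 ≤ m * K) (P Q : ℝ[X])
    (hd : Metric.hausdorffEDist (comb a h m K)
      ((fun t : ℝ => (P.eval t, Q.eval t)) '' Set.Icc 0 1) < ENNReal.ofReal (h / 2)) :
    2 * (m * K) - 2 ≤ Q.natDegree := by
  have hP : Continuous fun t => P.eval t := P.continuous
  have hQ : Continuous fun t => Q.eval t := Q.continuous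
  -- near
  have hnear : ∀ t ∈ Set.Icc (0:ℝ) 1, ∃ p ∈ comb a h m K,
      |P.eval t - p.1| < h / 2 ∧ |Q.eval t - p.2| < h / 2 := by
    intro t ht
    rw [Metric.hausdorffEDist_comm] at hd
    obtain ⟨p, hp, hpd⟩ := Metric.exists_edist_lt_of_hausdorffEDist_lt
      (Set.mem_image_of_mem (fun t : ℝ => (P.eval t, Q.eval t)) ht) hd
    rw [edist_dist, ENNReal.ofReal_lt_ofReal_iff (by positivity), Prod.dist_eq, max_lt_iff,
      Real.dist_eq, Real.dist_eq] at hpd
    exact ⟨p, hp, hpd.1, hpd.2⟩
  -- tips are visited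
  set I : Finset (ℕ × ℕ) := Finset.Icc 1 m ×ˢ Finset.range K with hI
  have hvisit : ∀ q : ℕ × ℕ, ∃ t, q ∈ I → (t ∈ Set.Icc (0:ℝ) 1 ∧
      |P.eval t - (a + q.1 * h)| < h / 2 ∧ |Q.eval t - (a + (2 * q.2 + 1) * h)| < h / 2) := by
    intro q
    by_cases hq : q ∈ I
    · rw [hI, Finset.mem_product, Finset.mem_Icc, Finset.mem_range] at hq
      obtain ⟨y, ⟨t, ht, rfl⟩, hyd⟩ := Metric.exists_edist_lt_of_hausdorffEDist_lt
        (tip_mem (a := a) hh hq.1.2 hq.2) hd
      rw [edist_dist, ENNReal.ofReal_lt_ofReal_iff (by positivity), dist_comm, Prod.dist_eq,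
        max_lt_iff, Real.dist_eq, Real.dist_eq] at hyd
      exact ⟨t, fun _ => ⟨ht, hyd.1, hyd.2⟩⟩
    · exact ⟨0, fun h => absurd h hq⟩
  choose T hTt using hvisit
  -- different tips are visited at different times
  have hnat : ∀ i j : ℕ, ∀ x : ℝ, |x - (a + i * h)| < h / 2 → |x - (a + j * h)| < h / 2 → i = j := by
    intro i j x h1 h2
    rw [abs_lt] at h1 h2
    have h7' : (i : ℝ) < j + 1 := by
      by_contra hc
      push Not at hc
      nlinarith
    have h8' : (j : ℝ) < i + 1 := by
      by_contra hc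
      push Not at hc
      nlinarith
    have h7'' : i < j + 1 := by exact_mod_cast h7'
    have h8'' : j < i + 1 := by exact_mod_cast h8'
    omega
  have hinj : Set.InjOn T (I : Set (ℕ × ℕ)) := by
    intro q hq q' hq' heq
    have h1 := hTt q hq
    have h2 := hTt q' hq'
    rw [heq] at h1
    have e1 : q.1 = q'.1 := hnat _ _ _ h1.2.1 h2.2.1
    have e2 : 2 * q.2 + 1 = 2 * q'.2 + 1 := by
      apply hnat _ _ (Q.eval (T q'))
      · have := h1.2.2
        push_cast
        exact this
      · have := h2.2.2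
        push_cast
        exact this
    exact Prod.ext e1 (by omega)
  set S : Finset ℝ := I.image T with hS
  have hScard : S.card = m * K := by
    rw [hS, Finset.card_image_of_injOn hinj, hI, Finset.card_product, Nat.card_Icc,
      Finset.card_range]
    simp
  -- dips between two visits
  have hdip : ∀ s ∈ S, ∀ s' ∈ S, s < s' → ∃ τ, s < τ ∧ τ < s' ∧ Q.eval τ < Q.eval s ∧
      Q.eval τ < Q.eval s' := by
    intro s hs s' hs' hlt
    rw [hS, Finset.mem_image] at hs hs'
    obtain ⟨q, hq, hqs⟩ := hs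
    obtain ⟨q', hq', hqs'⟩ := hs'
    have h1 := hTt q hq
    have h2 := hTt q' hq'
    rw [hqs] at h1
    rw [hqs'] at h2
    have hne : q ≠ q' := by
      intro h
      rw [h, hqs'] at hqs
      exact hlt.ne hqs.symm
    have hnear' : ∀ t ∈ Set.Icc s s', ∃ p ∈ comb a h m K,
        |P.eval t - p.1| < h / 2 ∧ |Q.eval t - p.2| < h / 2 := by
      intro t ht
      exact hnear t ⟨h1.1.1.trans ht.1, ht.2.trans h2.1.2⟩
    rw [hI, Finset.mem_coe.symm] at hq hq'
    have hq1 : 1 ≤ q.1 := by
      have := Finset.mem_coe.1 hq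
      rw [Finset.mem_product, Finset.mem_Icc] at this
      exact this.1.1
    have hq1' : 1 ≤ q'.1 := by
      have := Finset.mem_coe.1 hq'
      rw [Finset.mem_product, Finset.mem_Icc] at this
      exact this.1.1
    have g1 := abs_lt.1 h1.2.2
    have g2 := abs_lt.1 h2.2.2
    have hτ : ∃ τ ∈ Set.Icc s s', Q.eval τ < Q.eval s ∧ Q.eval τ < Q.eval s' := by
      rcases le_total q.2 q'.2 with hle | hle
      · obtain ⟨τ, hτ, hv⟩ := exit_lemma hh hP hQ hnear' hq1 (Set.left_mem_Icc.2 hlt.le)
          (Set.right_mem_Icc.2 hlt.le) h1.2.1 h1.2.2 h2.2.1 h2.2.2 hle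
          (by intro h; exact hne (Prod.ext (Prod.ext_iff.1 h).1 (Prod.ext_iff.1 h).2))
        refine ⟨τ, hτ, by linarith, ?_⟩
        have : (q.2 : ℝ) ≤ q'.2 := by exact_mod_cast hle
        have := mul_le_mul_of_nonneg_right this hh.le
        linarith
      · obtain ⟨τ, hτ, hv⟩ := exit_lemma hh hP hQ hnear' hq1' (Set.right_mem_Icc.2 hlt.le)
          (Set.left_mem_Icc.2 hlt.le) h2.2.1 h2.2.2 h1.2.1 h1.2.2 hle
          (by intro h; exact hne (Prod.ext (Prod.ext_iff.1 h).1 (Prod.ext_iff.1 h).2).symm)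
        refine ⟨τ, hτ, ?_, by linarith⟩
        have : (q'.2 : ℝ) ≤ q.2 := by exact_mod_cast hle
        have := mul_le_mul_of_nonneg_right this hh.le
        linarith
    obtain ⟨τ, hτ, c1, c2⟩ := hτ
    refine ⟨τ, lt_of_le_of_ne hτ.1 ?_, lt_of_le_of_ne hτ.2 ?_, c1, c2⟩
    · intro h
      rw [← h] at c1
      exact lt_irrefl _ c1
    · intro h
      rw [h] at c2
      exact lt_irrefl _ c2
  -- enumerate
  set N := m * K with hN
  set e := S.orderEmbOfFin hScard with he
  have hmem : ∀ j : Fin N, e j ∈ S := fun j => Finset.orderEmbOfFin_mem S hScard j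
  have hτex : ∀ j : ℕ, ∃ τ, ∀ hj : j + 1 < N, (e ⟨j, by omega⟩ < τ ∧ τ < e ⟨j + 1, hj⟩ ∧
      Q.eval τ < Q.eval (e ⟨j, by omega⟩) ∧ Q.eval τ < Q.eval (e ⟨j + 1, hj⟩)) := by
    intro j
    by_cases hj : j + 1 < N
    · obtain ⟨τ, hτ⟩ := hdip _ (hmem ⟨j, by omega⟩) _ (hmem ⟨j + 1, hj⟩)
        (e.strictMono (by simp [Fin.lt_def]))
      exact ⟨τ, fun _ => hτ⟩
    · exact ⟨0, fun h => absurd h hj⟩
  choose τ hτ using hτex
  set z : ℕ → ℝ := fun l => if hl : l % 2 = 0 ∧ l / 2 < N then e ⟨l / 2, hl.2⟩ else τ (l / 2)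
    with hz
  have hz0 : ∀ j (hj : j < N), z (2 * j) = e ⟨j, hj⟩ := by
    intro j hj
    have h1 : 2 * j % 2 = 0 ∧ 2 * j / 2 < N := by omega
    simp only [hz]
    rw [dif_pos h1]
    congr 1
    ext
    simp
  have hz1 : ∀ j, z (2 * j + 1) = τ j := by
    intro j
    have h1 : ¬ ((2 * j + 1) % 2 = 0 ∧ (2 * j + 1) / 2 < N) := by omega
    simp only [hz]
    rw [dif_neg h1]
    congr 1
    omega
  apply alt_pieces Q (2 * N - 2) (by omega) z
  · intro l hl
    rcases Nat.even_or_odd' l with ⟨j, rfl | rfl⟩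
    · rw [hz0 j (by omega), hz1]
      exact (hτ j (by omega)).1
    · rw [hz1, show 2 * j + 1 + 1 = 2 * (j + 1) by ring, hz0 (j + 1) (by omega)]
      exact (hτ j (by omega)).2.1
  · intro l hl
    rcases Nat.even_or_odd' l with ⟨j, rfl | rfl⟩
    · rw [show 2 * j + 2 = 2 * (j + 1) by ring, hz0 (j + 1) (by omega), hz0 j (by omega), hz1]
      have := hτ j (by omega)
      exact mul_neg_of_neg_of_pos (by linarith [this.2.2.1]) (by linarith [this.2.2.2])
    · rw [show 2 * j + 1 + 1 = 2 * (j + 1) by ring, show 2 * j + 1 + 2 = 2 * (j + 1) + 1 by ring,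
        hz1, hz1, hz0 (j + 1) (by omega)]
      have h1 := hτ j (by omega)
      have h2 := hτ (j + 1) (by omega)
      exact mul_neg_of_pos_of_neg (by linarith [h1.2.2.2]) (by linarith [h2.2.2.1])

end Pool.Agent.H56.Haus
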