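import Mathlib
import Pool.Agent.H56.HausLower

/-!
`c_1 ≥ 1/2`.
-/

set_option autoImplicit false
set_option maxHeartbeats 1000000

namespace Pool.Agent.H56.Haus

open Polynomial Filter Topology
open scoped ENNReal

lemma EZ_lower {a b : ℝ} (hab : a < b) {m K n : ℕ} (hm : 0 < m) (hK : 2 * K ≤ m + 1)
    (hT : 2 ≤ m * K) (hn : n < 2 * (m * K) - 2) :
    ENNReal.ofReal ((b - a) / m / 2) ≤ EZ a b n := by
  set h := (b - a) / m with hh
  have hm' : (0 : ℝ) < m := by exact_mod_cast hm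
  have hh0 : 0 < h := div_pos (by linarith) hm'
  have hb : a + m * h = b := by
    rw [hh]
    field_simp
    ring
  have hF : comb a h m K ∈ ZD a b := by
    have := comb_mem_ZD (a := a) hh0 hK
    rwa [hb] at this
  unfold EZ
  refine le_trans ?_ (le_iSup₂_of_le (comb a h m K) hF le_rfl)
  unfold EF
  refine le_iInf₂ ?_
  rintro γ ⟨P, Q, hP, hQ, rfl⟩
  by_contra hlt
  push Not at hlt
  have := degree_lower hh0 hT P Q hlt
  omega

theorem c1_lower {a b : ℝ} (hab : a < b) : (1 / 2 : ℝ≥0∞) ≤ c1 a b := by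
  have hL : 0 < b - a := by linarith
  -- value along the subsequence
  have key : ∀ j : ℕ, 1 ≤ j → ENNReal.ofReal ((j : ℝ) / (2 * j + 1)) ≤
      ENNReal.ofReal (Real.sqrt ((4 * j ^ 2 + 6 * j - 1 : ℕ) : ℝ)) * EZ a b (4 * j ^ 2 + 6 * j - 1) /
        ENNReal.ofReal (b - a) := by
    intro j hj
    have h1 : ENNReal.ofReal ((b - a) / ((2 * j + 1 : ℕ) : ℝ) / 2) ≤ EZ a b (4 * j ^ 2 + 6 * j - 1) := by
      apply EZ_lower hab (m := 2 * j + 1) (K := j + 1) (by omega) (by omega)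
      · nlinarith
      · have : (2 * j + 1) * (j + 1) = 2 * j ^ 2 + 3 * j + 1 := by ring
        rw [this]
        have : 1 ≤ j ^ 2 := Nat.one_le_pow _ _ hj
        omega
    have h2 : 2 * (j : ℝ) ≤ Real.sqrt ((4 * j ^ 2 + 6 * j - 1 : ℕ) : ℝ) := by
      apply Real.le_sqrt_of_sq_le
      have h3 : (4 * j ^ 2 : ℕ) ≤ 4 * j ^ 2 + 6 * j - 1 := by omega
      have h4 : ((4 * j ^ 2 : ℕ) : ℝ) ≤ ((4 * j ^ 2 + 6 * j - 1 : ℕ) : ℝ) := by exact_mod_cast h3
      refine le_trans ?_ h4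
      push_cast
      nlinarith
    have h3 : ENNReal.ofReal (2 * j) * ENNReal.ofReal ((b - a) / ((2 * j + 1 : ℕ) : ℝ) / 2) ≤
        ENNReal.ofReal (Real.sqrt ((4 * j ^ 2 + 6 * j - 1 : ℕ) : ℝ)) *
          EZ a b (4 * j ^ 2 + 6 * j - 1) :=
      mul_le_mul' (ENNReal.ofReal_le_ofReal h2) h1
    refine le_trans ?_ (ENNReal.div_le_div_right h3 _)
    rw [← ENNReal.ofReal_mul (by positivity), ← ENNReal.ofReal_div_of_pos hL]
    apply ENNReal.ofReal_le_ofReal
    rw [le_div_iff₀ hL]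
    push_cast
    apply le_of_eq
    field_simp
  apply le_of_forall_lt
  intro c hc
  have hctop : c ≠ ∞ := ne_top_of_lt hc
  have hc' : c.toReal < 1 / 2 := by
    have := (ENNReal.toReal_lt_toReal hctop (by simp)).2 hc
    simpa using this
  obtain ⟨d, hd1, hd2⟩ := exists_between hc'
  have hd0 : 0 ≤ d := ENNReal.toReal_nonneg.trans hd1.le
  have hfreq : ∃ᶠ n : ℕ in atTop, ENNReal.ofReal d ≤
      ENNReal.ofReal (Real.sqrt n) * EZ a b n / ENNReal.ofReal (b - a) := by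
    rw [frequently_atTop]
    intro n₀
    obtain ⟨j₀, hj₀⟩ := exists_nat_ge (d / (1 - 2 * d))
    set j := max (max 1 n₀) j₀ with hj
    have hj1 : 1 ≤ j := (le_max_left _ _).trans (le_max_left _ _)
    have hj2 : n₀ ≤ j := (le_max_right _ _).trans (le_max_left _ _)
    have hj3 : j₀ ≤ j := le_max_right _ _
    refine ⟨4 * j ^ 2 + 6 * j - 1, ?_, ?_⟩
    · have : j ≤ 4 * j ^ 2 + 6 * j - 1 := by omega
      exact hj2.trans this
    · refine le_trans (ENNReal.ofReal_le_ofReal ?_) (key j hj1)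
      have h1 : d / (1 - 2 * d) ≤ j := hj₀.trans (by exact_mod_cast hj3)
      have h2 : 0 < 1 - 2 * d := by linarith
      rw [div_le_iff₀ h2] at h1
      rw [le_div_iff₀ (by positivity)]
      linarith
  have hle := le_limsup_of_frequently_le hfreq
  refine lt_of_lt_of_le ?_ hle
  rw [ENNReal.lt_ofReal_iff_toReal_lt hctop]
  exact hd1

end Pool.Agent.H56.Haus
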