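import Mathlib
import Pool.Agent.H56.HausDefs

/-!
Grid walk near a plane continuum.
-/

set_option autoImplicit false
set_option maxHeartbeats 1000000

namespace Pool.Agent.H56.Haus

open Filter Topology
open scoped ENNReal

/-- closed grid cell -/
def cell (a s : ℝ) (c : ℕ × ℕ) : Set (ℝ × ℝ) :=
  Set.Icc (a + c.1 * s) (a + (c.1 + 1) * s) ×ˢ Set.Icc (a + c.2 * s) (a + (c.2 + 1) * s)

/-- centre of a cell -/
noncomputable def ctr (a s : ℝ) (c : ℕ × ℕ) : ℝ × ℝ := (a + (c.1 + 1 / 2) * s, a + (c.2 + 1 / 2) * s)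

lemma cell_closed (a s : ℝ) (c : ℕ × ℕ) : IsClosed (cell a s c) := isClosed_Icc.prod isClosed_Icc

lemma cell_near {a s : ℝ} {c : ℕ × ℕ} {p : ℝ × ℝ} (hp : p ∈ cell a s c) :
    |p.1 - (ctr a s c).1| ≤ s / 2 ∧ |p.2 - (ctr a s c).2| ≤ s / 2 := by
  obtain ⟨⟨h1, h2⟩, h3, h4⟩ := hp
  simp only [ctr]
  rw [abs_le, abs_le]
  refine ⟨⟨?_, ?_⟩, ?_, ?_⟩ <;> linarith

open Classical in
/-- cells met by `F` -/
noncomputable def VV (a s : ℝ) (M : ℕ) (F : Set (ℝ × ℝ)) : Finset (ℕ × ℕ) :=
  (Finset.range M ×ˢ Finset.range M).filter (fun c => (F ∩ cell a s c).Nonempty)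

/-- two cells are linked if `F` meets their intersection -/
def Linked (a s : ℝ) (F : Set (ℝ × ℝ)) (c d : ℕ × ℕ) : Prop :=
  ∃ q ∈ F, q ∈ cell a s c ∧ q ∈ cell a s d

section

variable {a s : ℝ} {M : ℕ} {F : Set (ℝ × ℝ)}

lemma exists_index (hs : 0 < s) (hM : 1 ≤ M) {x : ℝ} (hx : x ∈ Set.Icc a (a + M * s)) :
    ∃ i < M, a + i * s ≤ x ∧ x ≤ a + (i + 1) * s := by
  set i := min ⌊(x - a) / s⌋₊ (M - 1) with hi
  have h0 : 0 ≤ (x - a) / s := div_nonneg (by linarith [hx.1]) hs.le
  refine ⟨i, ?_, ?_, ?_⟩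
  · have : i ≤ M - 1 := min_le_right _ _
    omega
  · have h1 : (i : ℝ) ≤ ⌊(x - a) / s⌋₊ := by exact_mod_cast min_le_left _ _
    have h2 := Nat.floor_le h0
    have h3 : (i : ℝ) ≤ (x - a) / s := h1.trans h2
    rw [le_div_iff₀ hs] at h3
    linarith
  · rcases Nat.lt_or_ge ⌊(x - a) / s⌋₊ M with h1 | h1
    · have h2 : i = ⌊(x - a) / s⌋₊ := min_eq_left (by omega)
      rw [h2]
      have h3 := Nat.lt_floor_add_one ((x - a) / s)
      rw [div_lt_iff₀ hs] at h3
      linarith
    · have h2 : i = M - 1 := min_eq_right (by omega)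
      rw [h2]
      have h3 : ((M - 1 : ℕ) : ℝ) + 1 = M := by
        have : M - 1 + 1 = M := by omega
        exact_mod_cast this
      rw [h3]
      exact hx.2

lemma exists_cell (hs : 0 < s) (hM : 1 ≤ M)
    (hF : F ⊆ Set.Icc a (a + M * s) ×ˢ Set.Icc a (a + M * s)) {p : ℝ × ℝ} (hp : p ∈ F) :
    ∃ c ∈ VV a s M F, p ∈ cell a s c := by
  obtain ⟨h1, h2⟩ := hF hp
  obtain ⟨i, hi, hi1, hi2⟩ := exists_index hs hM h1
  obtain ⟨j, hj, hj1, hj2⟩ := exists_index hs hM h2
  have hpc : p ∈ cell a s (i, j) := ⟨⟨hi1, hi2⟩, hj1, hj2⟩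
  refine ⟨(i, j), ?_, hpc⟩
  classical
  unfold VV
  rw [Finset.mem_filter, Finset.mem_product, Finset.mem_range, Finset.mem_range]
  exact ⟨⟨hi, hj⟩, p, hp, hpc⟩

lemma VV_card : (VV a s M F).card ≤ M ^ 2 := by
  classical
  unfold VV
  refine (Finset.card_filter_le _ _).trans ?_
  rw [Finset.card_product, Finset.card_range, sq]

/-- connectedness of the graph of cells -/
lemma exists_link (hs : 0 < s) (hM : 1 ≤ M)
    (hF : F ⊆ Set.Icc a (a + M * s) ×ˢ Set.Icc a (a + M * s)) (hconn : IsPreconnected F)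
    (S : Finset (ℕ × ℕ)) (hSV : S ⊆ VV a s M F) (hne : S.Nonempty) (hneq : S ≠ VV a s M F) :
    ∃ c ∈ S, ∃ d ∈ VV a s M F, d ∉ S ∧ Linked a s F c d := by
  classical
  set V := VV a s M F with hV
  have hclosed : ∀ W : Finset (ℕ × ℕ), IsClosed (⋃ c ∈ W, cell a s c) := fun W =>
    W.finite_toSet.isClosed_biUnion (fun c _ => cell_closed a s c)
  have h1 := (isPreconnected_closed_iff.1 hconn) (⋃ c ∈ S, cell a s c) (⋃ c ∈ V \ S, cell a s c)
    (hclosed S) (hclosed (V \ S)) (by
      intro p hp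
      obtain ⟨c, hc, hpc⟩ := exists_cell hs hM hF hp
      by_cases hcS : c ∈ S
      · exact Or.inl (Set.mem_biUnion hcS hpc)
      · exact Or.inr (Set.mem_biUnion (show c ∈ V \ S from Finset.mem_sdiff.2 ⟨hc, hcS⟩) hpc)) (by
      obtain ⟨c, hc⟩ := hne
      have := hSV hc
      rw [hV] at this
      unfold VV at this
      rw [Finset.mem_filter] at this
      obtain ⟨p, hp, hpc⟩ := this.2
      exact ⟨p, hp, Set.mem_biUnion hc hpc⟩) (by
      have : (V \ S).Nonempty := by
        rw [Finset.sdiff_nonempty]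
        intro hsub
        exact hneq (Finset.Subset.antisymm hSV hsub)
      obtain ⟨c, hc⟩ := this
      have h2 := (Finset.mem_sdiff.1 hc).1
      rw [hV] at h2
      unfold VV at h2
      rw [Finset.mem_filter] at h2
      obtain ⟨p, hp, hpc⟩ := h2.2
      exact ⟨p, hp, Set.mem_biUnion hc hpc⟩)
  obtain ⟨q, hq, hq1, hq2⟩ := h1
  rw [Set.mem_iUnion₂] at hq1 hq2
  obtain ⟨c, hc, hqc⟩ := hq1
  obtain ⟨d, hd, hqd⟩ := hq2
  rw [Finset.mem_sdiff] at hd
  exact ⟨c, hc, d, hd.1, hd.2, q, hq, hqc, hqd⟩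

lemma linked_symm {c d : ℕ × ℕ} (h : Linked a s F c d) : Linked a s F d c := by
  obtain ⟨q, hq, h1, h2⟩ := h
  exact ⟨q, hq, h2, h1⟩

/-- growing a walk -/
lemma exists_walk_aux (hs : 0 < s) (hM : 1 ≤ M)
    (hF : F ⊆ Set.Icc a (a + M * s) ×ˢ Set.Icc a (a + M * s)) (hconn : IsPreconnected F)
    (hne : F.Nonempty) (k : ℕ) : k + 1 ≤ (VV a s M F).card →
    ∃ l : List (ℕ × ℕ), l.IsChain (Linked a s F) ∧ (∀ c ∈ l, c ∈ VV a s M F) ∧
      l.toFinset.card = k + 1 ∧ l.length ≤ 2 * k + 1 := by
  classical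
  induction k with
  | zero =>
    intro _
    obtain ⟨p, hp⟩ := hne
    obtain ⟨c, hc, _⟩ := exists_cell hs hM hF hp
    exact ⟨[c], List.isChain_singleton _, by simpa using hc, by simp, by simp⟩
  | succ k ih =>
    intro hk
    obtain ⟨l, hl1, hl2, hl3, hl4⟩ := ih (by omega)
    obtain ⟨c, hc, d, hd, hdS, hcd⟩ := exists_link hs hM hF hconn l.toFinset
      (by
        intro x hx
        exact hl2 x (List.mem_toFinset.1 hx))
      (by
        rw [← Finset.card_pos]
        omega)
      (by
        intro h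
        rw [h] at hl3
        omega)
    rw [List.mem_toFinset] at hc
    obtain ⟨l₁, l₂, rfl⟩ := List.append_of_mem hc
    have hch : (l₁ ++ c :: d :: c :: l₂).IsChain (Linked a s F) := by
      rw [List.isChain_append] at hl1 ⊢
      refine ⟨hl1.1, ?_, ?_⟩
      · rw [List.isChain_cons_cons, List.isChain_cons_cons]
        exact ⟨hcd, linked_symm hcd, hl1.2.1⟩
      · intro x hx y hy
        apply hl1.2.2 x hx y
        simpa using hy
    refine ⟨l₁ ++ c :: d :: c :: l₂, hch, ?_, ?_, ?_⟩
    · intro x hx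
      simp only [List.mem_append, List.mem_cons] at hx
      rcases hx with hx | hx | hx | hx | hx
      · exact hl2 x (by simp [hx])
      · exact hl2 x (by simp [hx])
      · rw [hx]
        exact hd
      · exact hl2 x (by simp [hx])
      · exact hl2 x (by simp [hx])
    · have : (l₁ ++ c :: d :: c :: l₂).toFinset = insert d (l₁ ++ c :: l₂).toFinset := by
        ext x
        simp only [List.mem_toFinset, List.mem_append, List.mem_cons, Finset.mem_insert]
        tauto
      rw [this, Finset.card_insert_of_notMem hdS, hl3]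
    · simp only [List.length_append, List.length_cons] at hl4 ⊢
      omega

lemma exists_walk (hs : 0 < s) (hM : 1 ≤ M)
    (hF : F ⊆ Set.Icc a (a + M * s) ×ˢ Set.Icc a (a + M * s)) (hconn : IsPreconnected F)
    (hne : F.Nonempty) :
    ∃ (w : ℕ → ℕ × ℕ) (m : ℕ), m + 2 ≤ 2 * M ^ 2 ∧ (∀ k ≤ m, w k ∈ VV a s M F) ∧
      (∀ k < m, Linked a s F (w k) (w (k + 1))) ∧ (∀ c ∈ VV a s M F, ∃ k ≤ m, w k = c) := by
  classical
  have hVne : (VV a s M F).Nonempty := by
    obtain ⟨p, hp⟩ := hne
    obtain ⟨c, hc, _⟩ := exists_cell hs hM hF hp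
    exact ⟨c, hc⟩
  have hcard := Finset.card_pos.2 hVne
  obtain ⟨l, hl1, hl2, hl3, hl4⟩ := exists_walk_aux hs hM hF hconn hne ((VV a s M F).card - 1)
    (by omega)
  have hVc : (VV a s M F).card ≤ M ^ 2 := VV_card
  have hlV : l.toFinset = VV a s M F := by
    apply Finset.eq_of_subset_of_card_le
    · intro x hx
      exact hl2 x (List.mem_toFinset.1 hx)
    · omega
  have hlen : 1 ≤ l.length := by
    rw [Nat.one_le_iff_ne_zero, Ne, List.length_eq_zero_iff]
    intro h
    rw [h] at hlV
    rw [← hlV] at hVne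
    simp at hVne
  refine ⟨fun k => l.getD k (0, 0), l.length - 1, by omega, ?_, ?_, ?_⟩
  · intro k hk
    have hk' : k < l.length := by omega
    simp only
    rw [List.getD_eq_getElem _ _ hk']
    exact hl2 _ (List.getElem_mem hk')
  · intro k hk
    have hk' : k + 1 < l.length := by omega
    simp only
    rw [List.getD_eq_getElem _ _ hk', List.getD_eq_getElem _ _ (by omega : k < l.length)]
    exact List.isChain_iff_getElem.1 hl1 k hk'
  · intro c hc
    rw [← hlV, List.mem_toFinset, List.mem_iff_getElem] at hc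
    obtain ⟨k, hk, hkc⟩ := hc
    refine ⟨k, by omega, ?_⟩
    simp only
    rw [List.getD_eq_getElem _ _ hk]
    exact hkc

end

/-- clamp -/
noncomputable def clamp (u : ℝ) : ℝ := max 0 (min u 1)

/-- piecewise linear interpolation of a sequence -/
noncomputable def pl (x : ℕ → ℝ) (m : ℕ) (τ : ℝ) : ℝ :=
  x 0 + ∑ k ∈ Finset.range m, clamp (τ - k) * (x (k + 1) - x k)

lemma clamp_mono {u v : ℝ} (h : u ≤ v) : clamp u ≤ clamp v := by
  unfold clamp
  exact max_le_max le_rfl (min_le_min h le_rfl)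

lemma sum_clamp (m : ℕ) (τ : ℝ) : ∑ k ∈ Finset.range m, clamp (τ - k) = max 0 (min τ m) := by
  induction m with
  | zero => simp
  | succ m ih =>
    rw [Finset.sum_range_succ, ih]
    unfold clamp
    have hm : (0 : ℝ) ≤ m := Nat.cast_nonneg m
    push_cast
    rcases le_total τ m with h1 | h1
    · rw [min_eq_left h1, min_eq_left (show τ - m ≤ 1 by linarith),
        max_eq_left (show τ - m ≤ 0 by linarith), min_eq_left (show τ ≤ m + 1 by linarith), add_zero]
    · rw [min_eq_right h1]
      rcases le_total τ (m + 1) with h2 | h2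
      · rw [min_eq_left (show τ - m ≤ 1 by linarith), max_eq_right hm,
          max_eq_right (show 0 ≤ τ - m by linarith), min_eq_left h2,
          max_eq_right (show 0 ≤ τ by linarith)]
        ring
      · rw [min_eq_right (show 1 ≤ τ - m by linarith), max_eq_right hm,
          max_eq_right (show (0:ℝ) ≤ 1 by norm_num), min_eq_right h2,
          max_eq_right (show (0 : ℝ) ≤ m + 1 by linarith)]

lemma pl_lip {x : ℕ → ℝ} {m : ℕ} {s : ℝ} (hs : 0 ≤ s) (hx : ∀ k < m, |x (k + 1) - x k| ≤ s)
    (τ τ' : ℝ) : |pl x m τ - pl x m τ'| ≤ s * |τ - τ'| := by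
  wlog hle : τ' ≤ τ generalizing τ τ'
  · rw [abs_sub_comm, abs_sub_comm τ]
    exact this τ' τ (le_of_not_ge hle)
  unfold pl
  have h1 : x 0 + ∑ k ∈ Finset.range m, clamp (τ - k) * (x (k + 1) - x k) -
      (x 0 + ∑ k ∈ Finset.range m, clamp (τ' - k) * (x (k + 1) - x k)) =
      ∑ k ∈ Finset.range m, (clamp (τ - k) - clamp (τ' - k)) * (x (k + 1) - x k) := by
    rw [add_sub_add_left_eq_sub, ← Finset.sum_sub_distrib]
    apply Finset.sum_congr rfl
    intro k _
    ring
  rw [h1]
  calc |∑ k ∈ Finset.range m, (clamp (τ - k) - clamp (τ' - k)) * (x (k + 1) - x k)|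
      ≤ ∑ k ∈ Finset.range m, |(clamp (τ - k) - clamp (τ' - k)) * (x (k + 1) - x k)| :=
        Finset.abs_sum_le_sum_abs _ _
    _ ≤ ∑ k ∈ Finset.range m, (clamp (τ - k) - clamp (τ' - k)) * s := by
        apply Finset.sum_le_sum
        intro k hk
        have h2 : 0 ≤ clamp (τ - k) - clamp (τ' - k) := by
          have := clamp_mono (show τ' - k ≤ τ - k by linarith)
          linarith
        rw [abs_mul, abs_of_nonneg h2]
        exact mul_le_mul_of_nonneg_left (hx k (Finset.mem_range.1 hk)) h2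
    _ = s * (max 0 (min τ m) - max 0 (min τ' m)) := by
        rw [← Finset.sum_mul, Finset.sum_sub_distrib, sum_clamp, sum_clamp]
        ring
    _ ≤ s * |τ - τ'| := by
        apply mul_le_mul_of_nonneg_left _ hs
        rw [abs_of_nonneg (by linarith)]
        have h3 : max 0 (min τ m) ≤ max 0 (min τ' m) + (τ - τ') := by
          apply max_le
          · have := le_max_left 0 (min τ' (m : ℝ))
            linarith
          · rcases le_total τ' m with h4 | h4
            · have h5 : τ' ≤ max 0 (min τ' m) := by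
                rw [min_eq_left h4]
                exact le_max_right _ _
              have h6 := min_le_left τ (m : ℝ)
              linarith
            · have h5 : (m : ℝ) ≤ max 0 (min τ' m) := by
                rw [min_eq_right h4]
                exact le_max_right _ _
              have h6 := min_le_right τ (m : ℝ)
              linarith
        linarith

lemma pl_eval {x : ℕ → ℝ} {m k : ℕ} (hk : k < m) {τ : ℝ} (h1 : (k : ℝ) ≤ τ) (h2 : τ ≤ k + 1) :
    pl x m τ = x k + (τ - k) * (x (k + 1) - x k) := by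
  unfold pl
  have key : ∀ m, k < m → ∑ j ∈ Finset.range m, clamp (τ - j) * (x (j + 1) - x j) =
      x k - x 0 + (τ - k) * (x (k + 1) - x k) := by
    intro m hm
    induction m with
    | zero => omega
    | succ m ih =>
      rw [Finset.sum_range_succ]
      rcases Nat.lt_or_ge k m with h3 | h3
      · rw [ih h3]
        have h4 : clamp (τ - m) = 0 := by
          unfold clamp
          have : (k : ℝ) + 1 ≤ m := by exact_mod_cast h3
          exact max_eq_left ((min_le_left _ _).trans (by linarith))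
        rw [h4, zero_mul, add_zero]
      · have h4 : m = k := by omega
        subst h4
        have h5 : clamp (τ - m) = τ - m := by
          unfold clamp
          rw [min_eq_left (by linarith), max_eq_right (by linarith)]
        rw [h5]
        congr 1
        rw [← Finset.sum_range_sub x m]
        apply Finset.sum_congr rfl
        intro j hj
        rw [Finset.mem_range] at hj
        have h6 : clamp (τ - j) = 1 := by
          unfold clamp
          have : (j : ℝ) + 1 ≤ m := by exact_mod_cast hj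
          rw [min_eq_right (by linarith), max_eq_right (by norm_num)]
        rw [h6, one_mul]
  rw [key m hk]
  ring

lemma pl_nat {x : ℕ → ℝ} {m k : ℕ} (hk : k ≤ m) : pl x m k = x k := by
  rcases Nat.lt_or_ge k m with h | h
  · rw [pl_eval h le_rfl (by linarith)]
    ring
  · have hkm : k = m := le_antisymm hk h
    rcases Nat.eq_zero_or_pos m with h0 | h0
    · rw [hkm, h0]
      unfold pl
      simp
    · obtain ⟨r, rfl⟩ : ∃ r, m = r + 1 := ⟨m - 1, by omega⟩
      rw [hkm, pl_eval (k := r) (by omega) (by push_cast; linarith) (by push_cast; linarith)]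
      push_cast
      ring

end Pool.Agent.H56.Haus
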