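import Mathlib
import Pool.Agent.H56.HausWalk
import Pool.Agent.H56.Favard4

/-!
The upper bound `c_1 ≤ √2`.
-/

set_option autoImplicit false
set_option maxHeartbeats 1000000

namespace Pool.Agent.H56.Haus

open Polynomial Filter Topology
open scoped ENNReal

/-- triangular wave: distance to `2π ℤ` -/
noncomputable def tri (θ : ℝ) : ℝ := ‖(θ : AddCircle (2 * Real.pi))‖

lemma tri_lip (θ θ' : ℝ) : |tri θ - tri θ'| ≤ |θ - θ'| := by
  unfold tri
  refine (abs_norm_sub_norm_le _ _).trans ?_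
  rw [← AddCircle.coe_sub]
  have h := AddCircle.norm_eq (2 * Real.pi) (x := θ - θ')
  exact (QuotientAddGroup.norm_mk_le_norm (S := AddSubgroup.zmultiples (2 * Real.pi)) (m := θ - θ')).trans
    (le_of_eq (Real.norm_eq_abs _))

lemma tri_per (θ : ℝ) : tri (θ + 2 * Real.pi) = tri θ := by
  unfold tri
  rw [AddCircle.coe_add_period]

lemma tri_even (θ : ℝ) : tri (-θ) = tri θ := by
  unfold tri
  rw [AddCircle.coe_neg, norm_neg]

lemma tri_eq {θ : ℝ} (h0 : 0 ≤ θ) (h1 : θ ≤ Real.pi) : tri θ = θ := by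
  unfold tri
  have hπ := Real.pi_pos
  rw [(AddCircle.norm_coe_eq_abs_iff (2 * Real.pi) (by positivity)).2, abs_of_nonneg h0]
  rw [abs_of_nonneg h0, abs_of_pos (by positivity)]
  linarith

/-- polynomial approximation of a piecewise linear function -/
lemma approx_pl {x : ℕ → ℝ} {m : ℕ} {s : ℝ} (hs : 0 ≤ s) (hx : ∀ k < m, |x (k + 1) - x k| ≤ s)
    {η : ℝ} (hη : 0 < η) (n : ℕ) :
    ∃ P : ℝ[X], P.natDegree ≤ n ∧ ∀ θ, 0 ≤ θ → θ ≤ Real.pi →
      |pl x m (m * θ / Real.pi) - P.eval ((1 - Real.cos θ) / 2)| ≤ s * m / (2 * (n + 1)) + η := by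
  have hπ := Real.pi_pos
  obtain ⟨P, hP, hPe⟩ := Favard.favard_lip (g := fun θ => pl x m (m * tri θ / Real.pi))
    (Λ := s * m / Real.pi) (by positivity)
    (by
      intro θ θ'
      refine (pl_lip hs hx _ _).trans ?_
      have h1 : m * tri θ / Real.pi - m * tri θ' / Real.pi = m / Real.pi * (tri θ - tri θ') := by ring
      rw [h1, abs_mul, abs_of_nonneg (by positivity : (0:ℝ) ≤ m / Real.pi)]
      have h2 := mul_le_mul_of_nonneg_left (tri_lip θ θ') (by positivity : (0:ℝ) ≤ s * m / Real.pi)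
      calc s * (m / Real.pi * |tri θ - tri θ'|) = s * m / Real.pi * |tri θ - tri θ'| := by ring
        _ ≤ _ := h2)
    (by intro θ; simp only [tri_per]) (by intro θ; simp only [tri_even]) hη n
  refine ⟨P.comp (C 1 - C 2 * X), ?_, ?_⟩
  · refine natDegree_comp_le.trans ?_
    have h1 : (C 1 - C 2 * X : ℝ[X]).natDegree ≤ 1 := by
      refine (natDegree_sub_le _ _).trans ?_
      apply max_le
      · rw [natDegree_C]
        omega
      · exact (natDegree_C_mul_le _ _).trans natDegree_X_le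
    calc P.natDegree * (C 1 - C 2 * X : ℝ[X]).natDegree ≤ P.natDegree * 1 :=
          Nat.mul_le_mul_left _ h1
      _ ≤ n := by rw [mul_one]; exact hP
  · intro θ h0 h1
    have h2 := hPe θ
    rw [tri_eq h0 h1] at h2
    rw [eval_comp]
    have h3 : eval ((1 - Real.cos θ) / 2) (C 1 - C 2 * X : ℝ[X]) = Real.cos θ := by
      rw [eval_sub, eval_mul, eval_C, eval_C, eval_X]
      ring
    rw [h3]
    refine h2.trans (le_of_eq ?_)
    congr 1
    field_simp

lemma ctr_diff {a s : ℝ} {F : Set (ℝ × ℝ)} {c d : ℕ × ℕ} (h : Linked a s F c d) :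
    |(ctr a s d).1 - (ctr a s c).1| ≤ s ∧ |(ctr a s d).2 - (ctr a s c).2| ≤ s := by
  obtain ⟨q, _, h1, h2⟩ := h
  have e1 := cell_near h1
  have e2 := cell_near h2
  simp only [abs_le] at e1 e2 ⊢
  refine ⟨⟨?_, ?_⟩, ?_, ?_⟩ <;> linarith [e1.1.1, e1.1.2, e1.2.1, e1.2.2, e2.1.1, e2.1.2, e2.2.1, e2.2.2]

/-- convexity -/
lemma seg_near {q x y s t : ℝ} (h1 : |q - x| ≤ s / 2) (h2 : |q - y| ≤ s / 2) (ht0 : 0 ≤ t)
    (ht1 : t ≤ 1) : |q - (x + t * (y - x))| ≤ s / 2 := by
  rw [abs_le] at h1 h2 ⊢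
  constructor <;> nlinarith

theorem EF_upper {a s : ℝ} (hs : 0 < s) {M : ℕ} (hM : 1 ≤ M) {F : Set (ℝ × ℝ)}
    (hF : F ∈ ZD a (a + M * s)) (n : ℕ) {η : ℝ} (hη : 0 < η) :
    EF n F ≤ ENNReal.ofReal (s / 2 + (s * M ^ 2 / (n + 1) + η)) := by
  have hπ := Real.pi_pos
  obtain ⟨hne, _, hconn, hsub⟩ := hF
  obtain ⟨w, m, hm, hwV, hwL, hwS⟩ := exists_walk hs hM hsub hconn hne
  set x : ℕ → ℝ := fun k => (ctr a s (w k)).1 with hx
  set y : ℕ → ℝ := fun k => (ctr a s (w k)).2 with hy
  obtain ⟨P, hP, hPe⟩ := approx_pl (x := x) (m := m) hs.le (fun k hk => (ctr_diff (hwL k hk)).1) hη n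
  obtain ⟨Q, hQ, hQe⟩ := approx_pl (x := y) (m := m) hs.le (fun k hk => (ctr_diff (hwL k hk)).2) hη n
  have hmM : s * m / (2 * (n + 1)) ≤ s * M ^ 2 / (n + 1) := by
    have h1 : (m : ℝ) + 2 ≤ 2 * (M : ℝ) ^ 2 := by exact_mod_cast hm
    rw [div_le_div_iff₀ (by positivity) (by positivity)]
    have h2 : (0 : ℝ) < (n : ℝ) + 1 := by positivity
    have h3 : s * m ≤ s * (2 * (M : ℝ) ^ 2) := mul_le_mul_of_nonneg_left (by linarith) hs.le
    nlinarith [mul_le_mul_of_nonneg_right h3 h2.le]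
  set e := s * M ^ 2 / (n + 1) + η with he
  unfold EF
  refine iInf₂_le_of_le _ ⟨P, Q, hP, hQ, rfl⟩ ?_
  have he0 : 0 < e := by positivity
  have hs2 : 0 < s / 2 := by positivity
  apply Metric.hausdorffEDist_le_of_mem_edist
  · -- points of F
    intro f hf
    obtain ⟨c, hc, hfc⟩ := exists_cell hs hM hsub hf
    obtain ⟨k, hk, rfl⟩ := hwS c hc
    obtain ⟨θ, hθ0, hθ1, hθk⟩ : ∃ θ, 0 ≤ θ ∧ θ ≤ Real.pi ∧ (m : ℝ) * θ / Real.pi = k := by
      rcases Nat.eq_zero_or_pos m with h0 | h0
      · refine ⟨0, le_rfl, hπ.le, ?_⟩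
        have : k = 0 := by omega
        rw [this]
        simp
      · have hm0 : (0 : ℝ) < m := by exact_mod_cast h0
        have hkm : (k : ℝ) ≤ m := by exact_mod_cast hk
        refine ⟨Real.pi * (k / m), by positivity, ?_, ?_⟩
        · have : (k : ℝ) / m ≤ 1 := (div_le_one hm0).2 hkm
          nlinarith
        · field_simp
    have h1 := hPe θ hθ0 hθ1
    have h2 := hQe θ hθ0 hθ1
    rw [hθk, pl_nat hk] at h1 h2
    refine ⟨_, ⟨(1 - Real.cos θ) / 2, ⟨by linarith [Real.cos_le_one θ], by linarith [Real.neg_one_le_cos θ]⟩, rfl⟩, ?_⟩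
    rw [edist_dist]
    apply ENNReal.ofReal_le_ofReal
    rw [Prod.dist_eq, Real.dist_eq, Real.dist_eq]
    have h3 := cell_near hfc
    simp only [hx, hy] at h1 h2
    apply max_le
    · simp only
      calc |f.1 - P.eval ((1 - Real.cos θ) / 2)| = |(f.1 - (ctr a s (w k)).1) +
            ((ctr a s (w k)).1 - P.eval ((1 - Real.cos θ) / 2))| := by ring_nf
        _ ≤ _ := abs_add_le _ _
        _ ≤ s / 2 + e := by
            have := h1.trans (add_le_add hmM le_rfl)
            exact add_le_add h3.1 this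
    · simp only
      calc |f.2 - Q.eval ((1 - Real.cos θ) / 2)| = |(f.2 - (ctr a s (w k)).2) +
            ((ctr a s (w k)).2 - Q.eval ((1 - Real.cos θ) / 2))| := by ring_nf
        _ ≤ _ := abs_add_le _ _
        _ ≤ s / 2 + e := by
            have := h2.trans (add_le_add hmM le_rfl)
            exact add_le_add h3.2 this
  · -- points of the curve
    rintro _ ⟨t, ht, rfl⟩
    set θ := Real.arccos (1 - 2 * t) with hθ
    have hcos : Real.cos θ = 1 - 2 * t := by
      rw [hθ, Real.cos_arccos (by linarith [ht.2]) (by linarith [ht.1])]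
    have ht' : (1 - Real.cos θ) / 2 = t := by
      rw [hcos]
      ring
    have hθ0 : 0 ≤ θ := Real.arccos_nonneg _
    have hθ1 : θ ≤ Real.pi := Real.arccos_le_pi _
    have h1 := hPe θ hθ0 hθ1
    have h2 := hQe θ hθ0 hθ1
    rw [ht'] at h1 h2
    set τ := (m : ℝ) * θ / Real.pi with hτ
    have hτ0 : 0 ≤ τ := by positivity
    have hτm : τ ≤ m := by
      rw [hτ, div_le_iff₀ hπ]
      exact mul_le_mul_of_nonneg_left hθ1 (by positivity)
    -- a point of F near the broken line
    obtain ⟨q, hq, hq1, hq2⟩ : ∃ q ∈ F, |q.1 - pl x m τ| ≤ s / 2 ∧ |q.2 - pl y m τ| ≤ s / 2 := by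
      rcases Nat.eq_zero_or_pos m with h0 | h0
      · have h3 := hwV 0 (by omega)
        classical
        unfold VV at h3
        rw [Finset.mem_filter] at h3
        obtain ⟨q, hq, hqc⟩ := h3.2
        have h4 := cell_near hqc
        have h5 : τ = ((0 : ℕ) : ℝ) := by
          rw [hτ, h0]
          simp
        refine ⟨q, hq, ?_⟩
        rw [h5, pl_nat (by omega), pl_nat (by omega)]
        exact h4
      · set k := min ⌊τ⌋₊ (m - 1) with hk
        have hkm : k < m := by
          have : k ≤ m - 1 := min_le_right _ _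
          omega
        have hk1 : (k : ℝ) ≤ τ := by
          have h3 : (k : ℝ) ≤ ⌊τ⌋₊ := by exact_mod_cast min_le_left _ _
          exact h3.trans (Nat.floor_le hτ0)
        have hk2 : τ ≤ k + 1 := by
          rcases Nat.lt_or_ge ⌊τ⌋₊ m with h3 | h3
          · have h4 : k = ⌊τ⌋₊ := min_eq_left (by omega)
            rw [h4]
            exact (Nat.lt_floor_add_one τ).le
          · have h4 : k = m - 1 := min_eq_right (by omega)
            have h5 : (k : ℝ) + 1 = m := by
              rw [h4]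
              have : m - 1 + 1 = m := by omega
              exact_mod_cast this
            rw [h5]
            exact hτm
        obtain ⟨q, hq, hqc, hqd⟩ := hwL k hkm
        have h4 := cell_near hqc
        have h5 := cell_near hqd
        refine ⟨q, hq, ?_, ?_⟩
        · rw [pl_eval hkm hk1 hk2]
          exact seg_near h4.1 h5.1 (by linarith) (by linarith)
        · rw [pl_eval hkm hk1 hk2]
          exact seg_near h4.2 h5.2 (by linarith) (by linarith)
    refine ⟨q, hq, ?_⟩
    rw [edist_dist]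
    apply ENNReal.ofReal_le_ofReal
    rw [dist_comm, Prod.dist_eq, Real.dist_eq, Real.dist_eq]
    apply max_le
    · simp only
      calc |q.1 - P.eval t| = |(q.1 - pl x m τ) + (pl x m τ - P.eval t)| := by ring_nf
        _ ≤ _ := abs_add_le _ _
        _ ≤ s / 2 + e := by
            have := h1.trans (add_le_add hmM le_rfl)
            exact add_le_add hq1 this
    · simp only
      calc |q.2 - Q.eval t| = |(q.2 - pl y m τ) + (pl y m τ - Q.eval t)| := by ring_nf
        _ ≤ _ := abs_add_le _ _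
        _ ≤ s / 2 + e := by
            have := h2.trans (add_le_add hmM le_rfl)
            exact add_le_add hq2 this

end Pool.Agent.H56.Haus
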