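import Mathlib
import Pool.Agent.H56.HausUpper

/-!
`c_1 ≤ √2`.
-/

set_option autoImplicit false
set_option maxHeartbeats 1000000

namespace Pool.Agent.H56.Haus

open Polynomial Filter Topology
open scoped ENNReal

lemma EZ_upper {a b : ℝ} (hab : a < b) {n : ℕ} (hn : 1 ≤ n) :
    EZ a b n ≤ ENNReal.ofReal ((b - a) * (Real.sqrt 2 / Real.sqrt n + 2 / n)) := by
  have hL : 0 < b - a := by linarith
  have hn0 : (0 : ℝ) < n := by exact_mod_cast hn
  set r := Real.sqrt (n / 2) with hr
  have hr0 : 0 < r := Real.sqrt_pos.2 (by positivity)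
  set M := ⌈r⌉₊ with hM
  have hM1 : 1 ≤ M := Nat.one_le_iff_ne_zero.2 (Nat.ceil_pos.2 hr0).ne'
  have hM0 : (0 : ℝ) < M := by exact_mod_cast hM1
  have hrM : r ≤ M := Nat.le_ceil r
  have hMr : (M : ℝ) ≤ r + 1 := (Nat.ceil_lt_add_one hr0.le).le
  set s := (b - a) / M with hs
  have hs0 : 0 < s := by positivity
  have hb : a + M * s = b := by
    rw [hs]
    field_simp
    ring
  unfold EZ
  refine iSup₂_le ?_
  intro F hF
  rw [← hb] at hF
  refine (EF_upper hs0 hM1 hF n (η := (b - a) / n) (by positivity)).trans ?_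
  apply ENNReal.ofReal_le_ofReal
  have hsq : r ^ 2 = n / 2 := Real.sq_sqrt (by positivity)
  have h2n : Real.sqrt 2 / Real.sqrt n = 1 / r := by
    rw [hr, Real.sqrt_div hn0.le, one_div_div]
  have e1 : s / 2 ≤ (b - a) * (1 / (2 * r)) := by
    rw [hs, div_div, mul_comm (M : ℝ) 2]
    rw [mul_one_div]
    exact div_le_div_of_nonneg_left hL.le (by positivity) (by linarith)
  have e2 : s * M ^ 2 / (n + 1) ≤ (b - a) * (1 / (2 * r) + 1 / n) := by
    have h1 : s * M ^ 2 = (b - a) * M := by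
      rw [hs]
      field_simp
    rw [h1, mul_div_assoc]
    apply mul_le_mul_of_nonneg_left _ hL.le
    have h2 : (M : ℝ) / (n + 1) ≤ (r + 1) / n :=
      div_le_div₀ (by positivity) hMr hn0 (by linarith)
    refine h2.trans (le_of_eq ?_)
    rw [add_div]
    congr 1
    rw [div_eq_div_iff hn0.ne' (by positivity), one_mul]
    linarith
  rw [h2n]
  have e3 : 1 / (2 * r) = 1 / r / 2 := by
    field_simp
  rw [e3] at e1 e2
  have e4 : (b - a) / n = (b - a) * (1 / n) := by ring
  rw [e4]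
  have e5 : (b - a) * (1 / r + 2 / n) = (b - a) * (1 / r / 2) + ((b - a) * (1 / r / 2 + 1 / n) +
      (b - a) * (1 / n)) := by ring
  rw [e5]
  linarith

theorem c1_upper {a b : ℝ} (hab : a < b) : c1 a b ≤ ENNReal.ofReal (Real.sqrt 2) := by
  have hL : 0 < b - a := by linarith
  unfold c1
  have hle : ∀ᶠ n : ℕ in atTop, ENNReal.ofReal (Real.sqrt n) * EZ a b n / ENNReal.ofReal (b - a) ≤
      ENNReal.ofReal (Real.sqrt 2 + 2 / Real.sqrt n) := by
    filter_upwards [eventually_ge_atTop 1] with n hn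
    have hn0 : (0 : ℝ) < n := by exact_mod_cast hn
    have hsn : 0 < Real.sqrt n := Real.sqrt_pos.2 hn0
    refine (ENNReal.div_le_div_right (mul_le_mul' le_rfl (EZ_upper hab hn)) _).trans ?_
    rw [← ENNReal.ofReal_mul hsn.le, ← ENNReal.ofReal_div_of_pos hL]
    apply ENNReal.ofReal_le_ofReal
    apply le_of_eq
    have hsq : Real.sqrt n ^ 2 = n := Real.sq_sqrt hn0.le
    have h1 : (2 : ℝ) / n = 2 / (Real.sqrt n * Real.sqrt n) := by
      rw [← sq, hsq]
    rw [h1]
    field_simp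
  refine (limsup_le_limsup hle).trans (le_of_eq ?_)
  apply Tendsto.limsup_eq
  apply ENNReal.tendsto_ofReal
  have h1 : Tendsto (fun n : ℕ => Real.sqrt n) atTop atTop :=
    Real.tendsto_sqrt_atTop.comp tendsto_natCast_atTop_atTop
  have h2 : Tendsto (fun n : ℕ => 2 / Real.sqrt n) atTop (𝓝 0) := h1.const_div_atTop 2
  have h3 := h2.const_add (Real.sqrt 2)
  rwa [add_zero] at h3

end Pool.Agent.H56.Haus
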