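import Mathlib
import Pool.Agent.H56.Dyson
import Pool.Agent.H56.BesselZero

/-!
The fundamental system for the complex Hill operator with
q(x) = -(i j/2) cos x - (j^2/4) sin^2 x.
-/

set_option autoImplicit false

namespace Pool.Agent.H56

open MeasureTheory intervalIntegral Filter Topology

lemma bdd_of_periodic {F : Type*} [SeminormedAddCommGroup F] {f : ℝ → F} {T : ℝ}
    (hf : Continuous f) (hp : Function.Periodic f T) (hT : 0 < T) :
    ∃ K : ℝ, ∀ x, ‖f x‖ ≤ K := by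
  obtain ⟨K, hK⟩ := (isCompact_Icc (a := (0:ℝ)) (b := T)).exists_bound_of_continuousOn
    hf.continuousOn
  refine ⟨K, fun x => ?_⟩
  obtain ⟨y, hy, hxy⟩ := hp.exists_mem_Ico₀ hT x
  rw [hxy]
  exact hK y ⟨hy.1, hy.2.le⟩

/-- y1 -/
noncomputable def y1 (j x : ℝ) : ℂ := Complex.exp (Complex.I * j / 2 * Complex.cos x)
/-- 1/y1 -/
noncomputable def iy1 (j x : ℝ) : ℂ := Complex.exp (-(Complex.I * j / 2 * Complex.cos x))
/-- y1' -/
noncomputable def dy1 (j x : ℝ) : ℂ := -(Complex.I * j / 2) * Complex.sin x * y1 j x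
/-- phi -/
noncomputable def ph (j x : ℝ) : ℂ := (CC j x : ℂ) - Complex.I * (SS j x : ℂ)
/-- y2 -/
noncomputable def y2 (j x : ℝ) : ℂ := y1 j x * ph j x
/-- y2' -/
noncomputable def dy2 (j x : ℝ) : ℂ := dy1 j x * ph j x + iy1 j x
/-- the potential -/
noncomputable def qq (j x : ℝ) : ℂ :=
  -(Complex.I * j / 2) * Complex.cos x + (Complex.I * j / 2) ^ 2 * Complex.sin x ^ 2

lemma y1_iy1 (j x : ℝ) : y1 j x * iy1 j x = 1 := by
  unfold y1 iy1
  rw [← Complex.exp_add]
  simp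

lemma hasDerivAt_ccos (x : ℝ) : HasDerivAt (fun x : ℝ => Complex.cos (x:ℂ)) (-Complex.sin x) x :=
  (Complex.hasDerivAt_cos (x:ℂ)).comp_ofReal

lemma hasDerivAt_csin (x : ℝ) : HasDerivAt (fun x : ℝ => Complex.sin (x:ℂ)) (Complex.cos x) x :=
  (Complex.hasDerivAt_sin (x:ℂ)).comp_ofReal

lemma y1_deriv (j x : ℝ) : HasDerivAt (y1 j) (dy1 j x) x := by
  have h := ((hasDerivAt_ccos x).const_mul (Complex.I * j / 2)).cexp
  refine HasDerivAt.congr_deriv h ?_
  unfold dy1 y1
  ring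

lemma iy1_deriv (j x : ℝ) : HasDerivAt (iy1 j) ((Complex.I * j / 2) * Complex.sin x * iy1 j x) x := by
  have h := ((hasDerivAt_ccos x).const_mul (Complex.I * j / 2)).neg.cexp
  refine HasDerivAt.congr_deriv h ?_
  simp only [Pi.neg_apply]
  unfold iy1
  ring

lemma dy1_deriv (j x : ℝ) : HasDerivAt (dy1 j) (qq j x * y1 j x) x := by
  have h := ((hasDerivAt_csin x).const_mul (-(Complex.I * j / 2))).mul (y1_deriv j x)
  refine HasDerivAt.congr_deriv h ?_
  unfold qq dy1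
  ring

lemma ph_deriv (j x : ℝ) : HasDerivAt (ph j) (iy1 j x ^ 2) x := by
  have h := ((CC_deriv j x).ofReal_comp).sub (((SS_deriv j x).ofReal_comp).const_mul Complex.I)
  refine HasDerivAt.congr_deriv h ?_
  unfold iy1 cc ss
  rw [← Complex.exp_nat_mul]
  have : ((2:ℕ):ℂ) * -(Complex.I * j / 2 * Complex.cos x) =
      (((-(j * Real.cos x) : ℝ) : ℂ)) * Complex.I := by
    push_cast
    ring
  rw [this, Complex.exp_mul_I]
  rw [← Complex.ofReal_cos, ← Complex.ofReal_sin]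
  rw [Real.cos_neg, Real.sin_neg]
  push_cast
  ring

lemma y2_deriv (j x : ℝ) : HasDerivAt (y2 j) (dy2 j x) x := by
  have h := (y1_deriv j x).mul (ph_deriv j x)
  refine HasDerivAt.congr_deriv h ?_
  unfold dy2
  have := y1_iy1 j x
  linear_combination (iy1 j x) * this

lemma dy2_deriv (j x : ℝ) : HasDerivAt (dy2 j) (qq j x * y2 j x) x := by
  have h := ((dy1_deriv j x).mul (ph_deriv j x)).add (iy1_deriv j x)
  refine HasDerivAt.congr_deriv h ?_
  unfold y2 dy1
  have := y1_iy1 j x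
  linear_combination (-(Complex.I * j / 2) * Complex.sin x * iy1 j x) * this

lemma wron (j x : ℝ) : y1 j x * dy2 j x - y2 j x * dy1 j x = 1 := by
  unfold dy2 y2
  have := y1_iy1 j x
  linear_combination this

lemma y1_cont (j : ℝ) : Continuous (y1 j) :=
  continuous_iff_continuousAt.2 fun x => (y1_deriv j x).continuousAt
lemma dy1_cont (j : ℝ) : Continuous (dy1 j) :=
  continuous_iff_continuousAt.2 fun x => (dy1_deriv j x).continuousAt
lemma y2_cont (j : ℝ) : Continuous (y2 j) :=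
  continuous_iff_continuousAt.2 fun x => (y2_deriv j x).continuousAt
lemma dy2_cont (j : ℝ) : Continuous (dy2 j) :=
  continuous_iff_continuousAt.2 fun x => (dy2_deriv j x).continuousAt
lemma ph_cont (j : ℝ) : Continuous (ph j) :=
  continuous_iff_continuousAt.2 fun x => (ph_deriv j x).continuousAt
lemma qq_cont (j : ℝ) : Continuous (qq j) := by unfold qq; fun_prop

lemma cos_per (x : ℝ) : Complex.cos ((x + 2 * Real.pi : ℝ) : ℂ) = Complex.cos x := by
  push_cast
  exact Complex.cos_add_two_pi x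
lemma sin_per (x : ℝ) : Complex.sin ((x + 2 * Real.pi : ℝ) : ℂ) = Complex.sin x := by
  push_cast
  exact Complex.sin_add_two_pi x

lemma y1_per (j : ℝ) : Function.Periodic (y1 j) (2 * Real.pi) := by
  intro x; unfold y1; rw [cos_per]
lemma iy1_per (j : ℝ) : Function.Periodic (iy1 j) (2 * Real.pi) := by
  intro x; unfold iy1; rw [cos_per]
lemma dy1_per (j : ℝ) : Function.Periodic (dy1 j) (2 * Real.pi) := by
  intro x; unfold dy1; rw [sin_per, y1_per j x]
lemma qq_per (j : ℝ) : Function.Periodic (qq j) (2 * Real.pi) := by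
  intro x; unfold qq; rw [sin_per, cos_per]

section
variable {j : ℝ} (hj : CC j (Real.pi / 2) = 0)

include hj in
lemma CC_per : Function.Periodic (CC j) (2 * Real.pi) := by
  intro x
  have hp : Function.Periodic (cc j) (2 * Real.pi) := by
    intro x; simp [cc]
  have h1 := hp.intervalIntegral_add_eq x 0
  have h2 := intervalIntegral.integral_add_adjacent_intervals
    ((cc_cont j).intervalIntegrable (μ := volume) 0 x)
    ((cc_cont j).intervalIntegrable (μ := volume) x (x + 2 * Real.pi))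
  have h3 := CC_two_pi hj
  unfold CC at *
  rw [zero_add] at h1
  rw [← h2, h1, h3, add_zero]

lemma SS_per (j : ℝ) : Function.Periodic (SS j) (2 * Real.pi) := by
  intro x
  have hp : Function.Periodic (ss j) (2 * Real.pi) := by
    intro x; simp [ss]
  have h1 := hp.intervalIntegral_add_eq x 0
  have h2 := intervalIntegral.integral_add_adjacent_intervals
    ((ss_cont j).intervalIntegrable (μ := volume) 0 x)
    ((ss_cont j).intervalIntegrable (μ := volume) x (x + 2 * Real.pi))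
  have h3 := SS_two_pi j
  unfold SS at *
  rw [zero_add] at h1
  rw [← h2, h1, h3, add_zero]

include hj in
lemma ph_per : Function.Periodic (ph j) (2 * Real.pi) := by
  intro x; unfold ph; rw [CC_per hj x, SS_per j x]
include hj in
lemma y2_per : Function.Periodic (y2 j) (2 * Real.pi) := by
  intro x; unfold y2; rw [y1_per j x, ph_per hj x]
include hj in
lemma dy2_per : Function.Periodic (dy2 j) (2 * Real.pi) := by
  intro x; unfold dy2; rw [dy1_per j x, ph_per hj x, iy1_per j x]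

end

/-- the coefficient B of V' = z B V -/
noncomputable def BB (j x : ℝ) : (ℂ × ℂ) →L[ℂ] (ℂ × ℂ) :=
  (ContinuousLinearMap.inl ℂ ℂ ℂ).comp
    (y2 j x • (y1 j x • ContinuousLinearMap.fst ℂ ℂ ℂ + y2 j x • ContinuousLinearMap.snd ℂ ℂ ℂ)) +
  (ContinuousLinearMap.inr ℂ ℂ ℂ).comp
    (-(y1 j x) • (y1 j x • ContinuousLinearMap.fst ℂ ℂ ℂ + y2 j x • ContinuousLinearMap.snd ℂ ℂ ℂ))

lemma BB_apply (j x : ℝ) (v : ℂ × ℂ) : BB j x v =
    (y2 j x * (y1 j x * v.1 + y2 j x * v.2), -(y1 j x) * (y1 j x * v.1 + y2 j x * v.2)) := by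
  simp [BB]
  constructor <;> ring

lemma BB_cont (j : ℝ) : Continuous (BB j) := by
  have h1 := y1_cont j
  have h2 := y2_cont j
  unfold BB
  fun_prop

lemma BB_bdd {j : ℝ} (hj : CC j (Real.pi / 2) = 0) : ∃ K : ℝ, ∀ x, ‖BB j x‖ ≤ K := by
  apply bdd_of_periodic (BB_cont j) (T := 2 * Real.pi) _ (by positivity)
  intro x
  unfold BB
  rw [y1_per j x, y2_per hj x]

/-- first column of V -/
noncomputable def Va (j : ℝ) (z : ℂ) (x : ℝ) : ℂ × ℂ := dysSum (BB j) ((1:ℂ), (0:ℂ)) 0 z x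
/-- second column of V -/
noncomputable def Vb (j : ℝ) (z : ℂ) (x : ℝ) : ℂ × ℂ := dysSum (BB j) ((0:ℂ), (1:ℂ)) 0 z x

/-- solution with Cauchy data of y1 at 0 -/
noncomputable def U11 (j : ℝ) (z : ℂ) (x : ℝ) : ℂ := y1 j x * (Va j z x).1 + y2 j x * (Va j z x).2
/-- derivative -/
noncomputable def U21 (j : ℝ) (z : ℂ) (x : ℝ) : ℂ := dy1 j x * (Va j z x).1 + dy2 j x * (Va j z x).2
/-- solution with Cauchy data of y2 at 0 -/
noncomputable def U12 (j : ℝ) (z : ℂ) (x : ℝ) : ℂ := y1 j x * (Vb j z x).1 + y2 j x * (Vb j z x).2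
/-- derivative -/
noncomputable def U22 (j : ℝ) (z : ℂ) (x : ℝ) : ℂ := dy1 j x * (Vb j z x).1 + dy2 j x * (Vb j z x).2

section
variable {j : ℝ} (hj : CC j (Real.pi / 2) = 0)

include hj in
lemma V_deriv (e : ℂ × ℂ) (z : ℂ) (x : ℝ) :
    HasDerivAt (fun x => (dysSum (BB j) e 0 z x).1)
      (z * (y2 j x * (y1 j x * (dysSum (BB j) e 0 z x).1 + y2 j x * (dysSum (BB j) e 0 z x).2))) x ∧
    HasDerivAt (fun x => (dysSum (BB j) e 0 z x).2)
      (z * (-(y1 j x) * (y1 j x * (dysSum (BB j) e 0 z x).1 + y2 j x * (dysSum (BB j) e 0 z x).2))) x := by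
  obtain ⟨K, hK⟩ := BB_bdd hj
  have h := dysSum_zero_hasDerivAt (e := e) (BB_cont j) hK z x
  rw [BB_apply] at h
  constructor
  · have h1 := (ContinuousLinearMap.fst ℝ ℂ ℂ).hasFDerivAt.comp_hasDerivAt x h
    refine HasDerivAt.congr_deriv h1 ?_
    simp
  · have h1 := (ContinuousLinearMap.snd ℝ ℂ ℂ).hasFDerivAt.comp_hasDerivAt x h
    refine HasDerivAt.congr_deriv h1 ?_
    simp

include hj in
lemma sol_deriv (e : ℂ × ℂ) (z : ℂ) (x : ℝ) :
    HasDerivAt (fun x => y1 j x * (dysSum (BB j) e 0 z x).1 + y2 j x * (dysSum (BB j) e 0 z x).2)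
      (dy1 j x * (dysSum (BB j) e 0 z x).1 + dy2 j x * (dysSum (BB j) e 0 z x).2) x ∧
    HasDerivAt (fun x => dy1 j x * (dysSum (BB j) e 0 z x).1 + dy2 j x * (dysSum (BB j) e 0 z x).2)
      ((qq j x - z) * (y1 j x * (dysSum (BB j) e 0 z x).1 + y2 j x * (dysSum (BB j) e 0 z x).2)) x := by
  obtain ⟨h1, h2⟩ := V_deriv hj e z x
  constructor
  · have h := ((y1_deriv j x).mul h1).add ((y2_deriv j x).mul h2)
    refine HasDerivAt.congr_deriv h ?_
    ring
  · have h := ((dy1_deriv j x).mul h1).add ((dy2_deriv j x).mul h2)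
    refine HasDerivAt.congr_deriv h ?_
    have hw := wron j x
    linear_combination (-z * (y1 j x * (dysSum (BB j) e 0 z x).1 + y2 j x * (dysSum (BB j) e 0 z x).2)) * hw

include hj in
lemma U11_deriv (z : ℂ) (x : ℝ) : HasDerivAt (U11 j z) (U21 j z x) x := (sol_deriv hj _ z x).1
include hj in
lemma U21_deriv (z : ℂ) (x : ℝ) : HasDerivAt (U21 j z) ((qq j x - z) * U11 j z x) x :=
  (sol_deriv hj _ z x).2
include hj in
lemma U12_deriv (z : ℂ) (x : ℝ) : HasDerivAt (U12 j z) (U22 j z x) x := (sol_deriv hj _ z x).1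
include hj in
lemma U22_deriv (z : ℂ) (x : ℝ) : HasDerivAt (U22 j z) ((qq j x - z) * U12 j z x) x :=
  (sol_deriv hj _ z x).2

include hj in
lemma Va_zero (z : ℂ) : Va j z 0 = (1, 0) := by
  obtain ⟨K, hK⟩ := BB_bdd hj
  exact dysSum_zero_zero hK z
include hj in
lemma Vb_zero (z : ℂ) : Vb j z 0 = (0, 1) := by
  obtain ⟨K, hK⟩ := BB_bdd hj
  exact dysSum_zero_zero hK z

include hj in
lemma detU (z : ℂ) (x : ℝ) : U11 j z x * U22 j z x - U12 j z x * U21 j z x = 1 := by
  have hd : ∀ x, HasDerivAt (fun x => U11 j z x * U22 j z x - U12 j z x * U21 j z x) 0 x := by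
    intro x
    have h := ((U11_deriv hj z x).mul (U22_deriv hj z x)).sub ((U12_deriv hj z x).mul (U21_deriv hj z x))
    refine HasDerivAt.congr_deriv h ?_
    ring
  have h1 := is_const_of_deriv_eq_zero (fun x => (hd x).differentiableAt) (fun x => (hd x).deriv) x 0
  rw [h1]
  unfold U11 U22 U12 U21
  rw [Va_zero hj, Vb_zero hj]
  have := wron j 0
  linear_combination this

end

/-- c(x, x0, z) -/
noncomputable def fc (j : ℝ) (x₀ : ℝ) (z : ℂ) (x : ℝ) : ℂ :=
  U11 j z x * U22 j z x₀ - U12 j z x * U21 j z x₀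
/-- c'(x, x0, z) -/
noncomputable def fdc (j : ℝ) (x₀ : ℝ) (z : ℂ) (x : ℝ) : ℂ :=
  U21 j z x * U22 j z x₀ - U22 j z x * U21 j z x₀
/-- s(x, x0, z) -/
noncomputable def fs (j : ℝ) (x₀ : ℝ) (z : ℂ) (x : ℝ) : ℂ :=
  U12 j z x * U11 j z x₀ - U11 j z x * U12 j z x₀
/-- s'(x, x0, z) -/
noncomputable def fds (j : ℝ) (x₀ : ℝ) (z : ℂ) (x : ℝ) : ℂ :=
  U22 j z x * U11 j z x₀ - U21 j z x * U12 j z x₀

section
variable {j : ℝ} (hj : CC j (Real.pi / 2) = 0)

include hj in
lemma fc_deriv (x₀ : ℝ) (z : ℂ) (x : ℝ) : HasDerivAt (fc j x₀ z) (fdc j x₀ z x) x :=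
  ((U11_deriv hj z x).mul_const _).sub ((U12_deriv hj z x).mul_const _)
include hj in
lemma fdc_deriv (x₀ : ℝ) (z : ℂ) (x : ℝ) : HasDerivAt (fdc j x₀ z) ((qq j x - z) * fc j x₀ z x) x := by
  have h := ((U21_deriv hj z x).mul_const (U22 j z x₀)).sub ((U22_deriv hj z x).mul_const (U21 j z x₀))
  refine HasDerivAt.congr_deriv h ?_
  unfold fc; ring
include hj in
lemma fs_deriv (x₀ : ℝ) (z : ℂ) (x : ℝ) : HasDerivAt (fs j x₀ z) (fds j x₀ z x) x :=
  ((U12_deriv hj z x).mul_const _).sub ((U11_deriv hj z x).mul_const _)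
include hj in
lemma fds_deriv (x₀ : ℝ) (z : ℂ) (x : ℝ) : HasDerivAt (fds j x₀ z) ((qq j x - z) * fs j x₀ z x) x := by
  have h := ((U22_deriv hj z x).mul_const (U11 j z x₀)).sub ((U21_deriv hj z x).mul_const (U12 j z x₀))
  refine HasDerivAt.congr_deriv h ?_
  unfold fs; ring

include hj in
lemma fc_cont (x₀ : ℝ) (z : ℂ) : Continuous (fc j x₀ z) :=
  continuous_iff_continuousAt.2 fun x => (fc_deriv hj x₀ z x).continuousAt
include hj in
lemma fdc_cont (x₀ : ℝ) (z : ℂ) : Continuous (fdc j x₀ z) :=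
  continuous_iff_continuousAt.2 fun x => (fdc_deriv hj x₀ z x).continuousAt
include hj in
lemma fs_cont (x₀ : ℝ) (z : ℂ) : Continuous (fs j x₀ z) :=
  continuous_iff_continuousAt.2 fun x => (fs_deriv hj x₀ z x).continuousAt
include hj in
lemma fds_cont (x₀ : ℝ) (z : ℂ) : Continuous (fds j x₀ z) :=
  continuous_iff_continuousAt.2 fun x => (fds_deriv hj x₀ z x).continuousAt

include hj in
lemma family (x₀ : ℝ) (z : ℂ) : Continuous (fc j x₀ z) ∧ Continuous (fdc j x₀ z) ∧
      Continuous (fs j x₀ z) ∧ Continuous (fds j x₀ z) ∧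
      ∀ x : ℝ,
        (fc j x₀ z x = 1 + ∫ t in x₀..x, fdc j x₀ z t) ∧
        (fdc j x₀ z x = ∫ t in x₀..x, (qq j t - z) * fc j x₀ z t) ∧
        (fs j x₀ z x = ∫ t in x₀..x, fds j x₀ z t) ∧
        (fds j x₀ z x = 1 + ∫ t in x₀..x, (qq j t - z) * fs j x₀ z t) := by
  refine ⟨fc_cont hj x₀ z, fdc_cont hj x₀ z, fs_cont hj x₀ z, fds_cont hj x₀ z, ?_⟩
  intro x
  have hq := qq_cont j
  have h1 := fc_cont hj x₀ z
  have h2 := fs_cont hj x₀ z
  have hdet := detU hj z x₀
  refine ⟨?_, ?_, ?_, ?_⟩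
  · rw [intervalIntegral.integral_eq_sub_of_hasDerivAt (fun t _ => fc_deriv hj x₀ z t)
      ((fdc_cont hj x₀ z).intervalIntegrable _ _)]
    have : fc j x₀ z x₀ = 1 := by unfold fc; linear_combination hdet
    rw [this]; ring
  · rw [intervalIntegral.integral_eq_sub_of_hasDerivAt (fun t _ => fdc_deriv hj x₀ z t)
      (Continuous.intervalIntegrable (by fun_prop) _ _)]
    have : fdc j x₀ z x₀ = 0 := by unfold fdc; ring
    rw [this]; ring
  · rw [intervalIntegral.integral_eq_sub_of_hasDerivAt (fun t _ => fs_deriv hj x₀ z t)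
      ((fds_cont hj x₀ z).intervalIntegrable _ _)]
    have : fs j x₀ z x₀ = 0 := by unfold fs; ring
    rw [this]; ring
  · rw [intervalIntegral.integral_eq_sub_of_hasDerivAt (fun t _ => fds_deriv hj x₀ z t)
      (Continuous.intervalIntegrable (by fun_prop) _ _)]
    have : fds j x₀ z x₀ = 1 := by unfold fds; linear_combination hdet
    rw [this]; ring

end

end Pool.Agent.H56
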