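import Mathlib
import Pool.Agent.H56.HillSol

/-!
Orders of vanishing at z = 0.
-/

set_option autoImplicit false

namespace Pool.Agent.H56

open MeasureTheory intervalIntegral Filter Topology

lemma y1_sq (j x : ℝ) : y1 j x ^ 2 = (cc j x : ℂ) + Complex.I * (ss j x : ℂ) := by
  unfold y1 cc ss
  rw [← Complex.exp_nat_mul]
  have : ((2:ℕ):ℂ) * (Complex.I * j / 2 * Complex.cos x) =
      ((((j * Real.cos x) : ℝ) : ℂ)) * Complex.I := by
    push_cast
    ring
  rw [this, Complex.exp_mul_I]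
  rw [← Complex.ofReal_cos, ← Complex.ofReal_sin]
  ring

/-- entries of the first iterate -/
lemma dys_one_deriv {j : ℝ} (e : ℂ × ℂ) (x : ℝ) :
    HasDerivAt (fun x => (dys (BB j) e 1 x).1) (y2 j x * (y1 j x * e.1 + y2 j x * e.2)) x ∧
    HasDerivAt (fun x => (dys (BB j) e 1 x).2) (-(y1 j x) * (y1 j x * e.1 + y2 j x * e.2)) x := by
  have h := dys_hasDerivAt (e := e) (BB_cont j) 0 x
  rw [dys_zero, BB_apply] at h
  constructor
  · have h1 := (ContinuousLinearMap.fst ℝ ℂ ℂ).hasFDerivAt.comp_hasDerivAt x h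
    refine HasDerivAt.congr_deriv h1 ?_
    simp
  · have h1 := (ContinuousLinearMap.snd ℝ ℂ ℂ).hasFDerivAt.comp_hasDerivAt x h
    refine HasDerivAt.congr_deriv h1 ?_
    simp

lemma dys_two_deriv {j : ℝ} (e : ℂ × ℂ) (x : ℝ) :
    HasDerivAt (fun x => (dys (BB j) e 2 x).1)
      (y2 j x * (y1 j x * (dys (BB j) e 1 x).1 + y2 j x * (dys (BB j) e 1 x).2)) x ∧
    HasDerivAt (fun x => (dys (BB j) e 2 x).2)
      (-(y1 j x) * (y1 j x * (dys (BB j) e 1 x).1 + y2 j x * (dys (BB j) e 1 x).2)) x := by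
  have h := dys_hasDerivAt (e := e) (BB_cont j) 1 x
  rw [BB_apply] at h
  constructor
  · have h1 := (ContinuousLinearMap.fst ℝ ℂ ℂ).hasFDerivAt.comp_hasDerivAt x h
    refine HasDerivAt.congr_deriv h1 ?_
    simp
  · have h1 := (ContinuousLinearMap.snd ℝ ℂ ℂ).hasFDerivAt.comp_hasDerivAt x h
    refine HasDerivAt.congr_deriv h1 ?_
    simp

lemma dys_zero_at (j : ℝ) (e : ℂ × ℂ) (n : ℕ) : dys (BB j) e (n+1) 0 = 0 := dys_succ_zero n

/-- the shift by a period adds a constant to a primitive of a periodic function -/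
lemma prim_shift {f g : ℝ → ℂ} (hf : ∀ x, HasDerivAt f (g x) x)
    (hp : Function.Periodic g (2 * Real.pi)) (h0 : f 0 = 0) (x : ℝ) :
    f (x + 2 * Real.pi) = f x + f (2 * Real.pi) := by
  have hd : ∀ x, HasDerivAt (fun x => f (x + 2 * Real.pi) - f x) 0 x := by
    intro x
    have h1 := (hf (x + 2 * Real.pi)).comp_add_const x (2 * Real.pi)
    have h2 := h1.sub (hf x)
    refine HasDerivAt.congr_deriv h2 ?_
    rw [hp x]; ring
  have h1 := is_const_of_deriv_eq_zero (fun x => (hd x).differentiableAt) (fun x => (hd x).deriv) x 0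
  rw [h0, zero_add] at h1
  linear_combination h1

section
variable {j : ℝ} (hj : CC j (Real.pi / 2) = 0)

/-- the two vectors -/
abbrev ea : ℂ × ℂ := ((1:ℂ), (0:ℂ))
/-- the two vectors -/
abbrev eb : ℂ × ℂ := ((0:ℂ), (1:ℂ))

lemma da11 (x : ℝ) : HasDerivAt (fun x => (dys (BB j) ea 1 x).1) (y1 j x * y2 j x) x := by
  refine HasDerivAt.congr_deriv (dys_one_deriv ea x).1 ?_
  simp; ring
lemma da21 (x : ℝ) : HasDerivAt (fun x => (dys (BB j) ea 1 x).2) (-(y1 j x ^ 2)) x := by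
  refine HasDerivAt.congr_deriv (dys_one_deriv ea x).2 ?_
  simp; ring
lemma da12 (x : ℝ) : HasDerivAt (fun x => (dys (BB j) eb 1 x).1) (y2 j x ^ 2) x := by
  refine HasDerivAt.congr_deriv (dys_one_deriv eb x).1 ?_
  simp; ring
lemma da22 (x : ℝ) : HasDerivAt (fun x => (dys (BB j) eb 1 x).2) (-(y1 j x * y2 j x)) x := by
  refine HasDerivAt.congr_deriv (dys_one_deriv eb x).2 ?_
  simp

/-- a22 = - a11 -/
lemma a22_eq (x : ℝ) : (dys (BB j) eb 1 x).2 = - (dys (BB j) ea 1 x).1 := by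
  have hd : ∀ x, HasDerivAt (fun x => (dys (BB j) eb 1 x).2 + (dys (BB j) ea 1 x).1) 0 x := by
    intro x
    refine HasDerivAt.congr_deriv ((da22 x).add (da11 x)) ?_
    ring
  have h1 := is_const_of_deriv_eq_zero (fun x => (hd x).differentiableAt) (fun x => (hd x).deriv) x 0
  rw [dys_zero_at, dys_zero_at] at h1
  simp at h1
  linear_combination h1

include hj in
/-- phi is odd about pi -/
lemma CC_two_pi_sub (x : ℝ) : CC j (2 * Real.pi - x) = - CC j x := by
  have hd : ∀ x, HasDerivAt (fun x => CC j (2 * Real.pi - x) + CC j x) 0 x := by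
    intro x
    have h1 := (CC_deriv j (2 * Real.pi - x)).comp_const_sub (2 * Real.pi) x
    refine HasDerivAt.congr_deriv (h1.add (CC_deriv j x)) ?_
    simp [cc, Real.cos_two_pi_sub]
  have h1 := is_const_of_deriv_eq_zero (fun x => (hd x).differentiableAt) (fun x => (hd x).deriv) x 0
  rw [sub_zero, CC_zero, CC_two_pi hj] at h1
  linarith

include hj in
lemma ph_odd (x : ℝ) : ph j (2 * Real.pi - x) = - ph j x := by
  unfold ph
  rw [CC_two_pi_sub hj, SS_two_pi_sub]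
  push_cast
  ring

lemma y1_even (j x : ℝ) : y1 j (2 * Real.pi - x) = y1 j x := by
  unfold y1
  have : Complex.cos ((2 * Real.pi - x : ℝ) : ℂ) = Complex.cos x := by
    push_cast
    exact Complex.cos_two_pi_sub x
  rw [this]

include hj in
/-- N11 = 0 -/
lemma a11_two_pi : (dys (BB j) ea 1 (2 * Real.pi)).1 = 0 := by
  have hd : ∀ x, HasDerivAt (fun x => (dys (BB j) ea 1 (2 * Real.pi - x)).1 - (dys (BB j) ea 1 x).1) 0 x := by
    intro x
    have h1 := (da11 (j := j) (2 * Real.pi - x)).comp_const_sub (2 * Real.pi) x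
    refine HasDerivAt.congr_deriv (h1.sub (da11 x)) ?_
    unfold y2
    rw [y1_even, ph_odd hj]
    ring
  have h1 := is_const_of_deriv_eq_zero (fun x => (hd x).differentiableAt) (fun x => (hd x).deriv) 0 Real.pi
  have h2 : 2 * Real.pi - Real.pi = Real.pi := by ring
  rw [sub_zero, h2, dys_zero_at] at h1
  simp at h1
  exact h1

include hj in
/-- N21 = 0 -/
lemma a21_two_pi : (dys (BB j) ea 1 (2 * Real.pi)).2 = 0 := by
  have hd : ∀ x, HasDerivAt (fun x => (dys (BB j) ea 1 x).2 + ((CC j x : ℂ) + Complex.I * (SS j x : ℂ))) 0 x := by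
    intro x
    have h := ((CC_deriv j x).ofReal_comp).add (((SS_deriv j x).ofReal_comp).const_mul Complex.I)
    refine HasDerivAt.congr_deriv ((da21 x).add h) ?_
    rw [y1_sq]
    ring
  have h1 := is_const_of_deriv_eq_zero (fun x => (hd x).differentiableAt) (fun x => (hd x).deriv)
    (2 * Real.pi) 0
  rw [dys_zero_at, CC_two_pi hj, SS_two_pi, CC_zero, SS_zero] at h1
  simpa using h1

include hj in
lemma a22_two_pi : (dys (BB j) eb 1 (2 * Real.pi)).2 = 0 := by
  rw [a22_eq, a11_two_pi hj, neg_zero]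

include hj in
/-- N12 has negative real part -/
lemma a12_two_pi (hj0 : 0 < j) (hjπ : j ≤ Real.pi) :
    ((dys (BB j) eb 1 (2 * Real.pi)).1).re < 0 := by
  have h := re_neg hj0 hjπ hj
  have hd : ∀ x ∈ Set.uIcc (0:ℝ) (2 * Real.pi), HasDerivAt (fun x => ((dys (BB j) eb 1 x).1).re)
     (cc j x * ((CC j x)^2 - (SS j x)^2) + 2 * ss j x * CC j x * SS j x) x := by
    intro x _
    have h1 := Complex.reCLM.hasFDerivAt.comp_hasDerivAt x (da12 (j := j) x)
    refine HasDerivAt.congr_deriv h1 ?_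
    unfold y2
    rw [mul_pow, y1_sq]
    unfold ph
    simp [pow_two]
    ring
  rw [intervalIntegral.integral_eq_sub_of_hasDerivAt hd] at h
  · rw [dys_zero_at] at h
    simpa using h
  · apply Continuous.intervalIntegrable
    have := CC_cont j; have := SS_cont j; have := cc_cont j; have := ss_cont j
    fun_prop

include hj in
lemma a12_ne (hj0 : 0 < j) (hjπ : j ≤ Real.pi) :
    (dys (BB j) eb 1 (2 * Real.pi)).1 ≠ 0 := by
  intro h
  have := a12_two_pi hj hj0 hjπ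
  rw [h] at this
  simp at this

include hj in
lemma yy_per : Function.Periodic (fun x => y1 j x * y2 j x) (2 * Real.pi) := by
  intro x; simp only; rw [y1_per j x, y2_per hj x]

include hj in
lemma a11_shift (x : ℝ) : (dys (BB j) ea 1 (x + 2 * Real.pi)).1 = (dys (BB j) ea 1 x).1 := by
  have := prim_shift (f := fun x => (dys (BB j) ea 1 x).1) (fun x => da11 x) (yy_per hj)
    (by simp [dys_zero_at]) x
  rw [a11_two_pi hj, add_zero] at this
  exact this

include hj in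
lemma a21_shift (x : ℝ) : (dys (BB j) ea 1 (x + 2 * Real.pi)).2 = (dys (BB j) ea 1 x).2 := by
  have := prim_shift (f := fun x => (dys (BB j) ea 1 x).2) (fun x => da21 x)
    (by intro x; simp only; rw [y1_per j x])
    (by simp [dys_zero_at]) x
  rw [a21_two_pi hj, add_zero] at this
  exact this

include hj in
lemma a12_shift (x : ℝ) : (dys (BB j) eb 1 (x + 2 * Real.pi)).1 =
    (dys (BB j) eb 1 x).1 + (dys (BB j) eb 1 (2 * Real.pi)).1 := by
  exact prim_shift (f := fun x => (dys (BB j) eb 1 x).1) (fun x => da12 x)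
    (by intro x; simp only; rw [y2_per hj x])
    (by simp [dys_zero_at]) x

include hj in
lemma a22_shift (x : ℝ) : (dys (BB j) eb 1 (x + 2 * Real.pi)).2 = (dys (BB j) eb 1 x).2 := by
  rw [a22_eq, a22_eq, a11_shift hj]

/-! dependence on z -/

include hj in
lemma V_zderiv (e : ℂ × ℂ) (x : ℝ) :
    HasDerivAt (fun z => dysSum (BB j) e 0 z x) (dys (BB j) e 1 x) (0:ℂ) := by
  obtain ⟨K, hK⟩ := BB_bdd hj
  have h1 : (fun z => dysSum (BB j) e 0 z x) = fun z => e + z • dysSum (BB j) e 1 z x := by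
    funext z
    rw [dysSum_succ hK 0 z x, dys_zero]
  have h2 : dysSum (BB j) e 1 0 x = dys (BB j) e 1 x := by
    rw [dysSum_succ hK]; simp
  rw [h1]
  have h3 := (dysSum_differentiable (e := e) hK 1 x 0).hasDerivAt
  have h4 := ((hasDerivAt_id (0:ℂ)).smul h3).const_add e
  refine HasDerivAt.congr_deriv h4 ?_
  simp [h2]

include hj in
lemma V_at_zero (e : ℂ × ℂ) (x : ℝ) : dysSum (BB j) e 0 0 x = e := by
  obtain ⟨K, hK⟩ := BB_bdd hj
  rw [dysSum_succ hK]; simp [dys_zero]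

include hj in
lemma V_zdiff (e : ℂ × ℂ) (k : ℕ) (x : ℝ) :
    Differentiable ℂ (fun z => (dysSum (BB j) e k z x).1) ∧
    Differentiable ℂ (fun z => (dysSum (BB j) e k z x).2) := by
  obtain ⟨K, hK⟩ := BB_bdd hj
  have h := dysSum_differentiable (e := e) hK k x
  exact ⟨h.fst, h.snd⟩

include hj in
lemma V_zderiv1 (e : ℂ × ℂ) (x : ℝ) :
    HasDerivAt (fun z => (dysSum (BB j) e 0 z x).1) (dys (BB j) e 1 x).1 (0:ℂ) ∧
    HasDerivAt (fun z => (dysSum (BB j) e 0 z x).2) (dys (BB j) e 1 x).2 (0:ℂ) := by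
  have h := V_zderiv hj e x
  constructor
  · exact (ContinuousLinearMap.fst ℂ ℂ ℂ).hasFDerivAt.comp_hasDerivAt (0:ℂ) h
  · exact (ContinuousLinearMap.snd ℂ ℂ ℂ).hasFDerivAt.comp_hasDerivAt (0:ℂ) h

include hj in
lemma U_zdiff (x : ℝ) : Differentiable ℂ (fun z => U11 j z x) ∧ Differentiable ℂ (fun z => U21 j z x) ∧
    Differentiable ℂ (fun z => U12 j z x) ∧ Differentiable ℂ (fun z => U22 j z x) := by
  have ha := V_zdiff hj ea 0 x
  have hb := V_zdiff hj eb 0 x
  refine ⟨?_, ?_, ?_, ?_⟩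
  · exact (ha.1.const_mul _).add (ha.2.const_mul _)
  · exact (ha.1.const_mul _).add (ha.2.const_mul _)
  · exact (hb.1.const_mul _).add (hb.2.const_mul _)
  · exact (hb.1.const_mul _).add (hb.2.const_mul _)

include hj in
lemma U_at_zero (x : ℝ) : U11 j 0 x = y1 j x ∧ U21 j 0 x = dy1 j x ∧ U12 j 0 x = y2 j x ∧
    U22 j 0 x = dy2 j x := by
  have ha := V_at_zero hj ea x
  have hb := V_at_zero hj eb x
  unfold U11 U21 U12 U22 Va Vb
  rw [ha, hb]
  simp

include hj in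
lemma U_zderiv (x : ℝ) :
    HasDerivAt (fun z => U11 j z x) (y1 j x * (dys (BB j) ea 1 x).1 + y2 j x * (dys (BB j) ea 1 x).2) 0 ∧
    HasDerivAt (fun z => U21 j z x) (dy1 j x * (dys (BB j) ea 1 x).1 + dy2 j x * (dys (BB j) ea 1 x).2) 0 ∧
    HasDerivAt (fun z => U12 j z x) (y1 j x * (dys (BB j) eb 1 x).1 + y2 j x * (dys (BB j) eb 1 x).2) 0 ∧
    HasDerivAt (fun z => U22 j z x) (dy1 j x * (dys (BB j) eb 1 x).1 + dy2 j x * (dys (BB j) eb 1 x).2) 0 := by
  have ha := V_zderiv1 hj ea x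
  have hb := V_zderiv1 hj eb x
  refine ⟨?_, ?_, ?_, ?_⟩
  · exact (ha.1.const_mul _).add (ha.2.const_mul _)
  · exact (ha.1.const_mul _).add (ha.2.const_mul _)
  · exact (hb.1.const_mul _).add (hb.2.const_mul _)
  · exact (hb.1.const_mul _).add (hb.2.const_mul _)

include hj in
lemma fs_zderiv (x : ℝ) : HasDerivAt (fun z => fs j x z (x + 2 * Real.pi))
    (y1 j x ^ 2 * (dys (BB j) eb 1 (2 * Real.pi)).1) 0 := by
  obtain ⟨h1, h2, h3, h4⟩ := U_zderiv hj x
  obtain ⟨g1, g2, g3, g4⟩ := U_zderiv hj (x + 2 * Real.pi)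
  obtain ⟨v1, v2, v3, v4⟩ := U_at_zero hj x
  obtain ⟨w1, w2, w3, w4⟩ := U_at_zero hj (x + 2 * Real.pi)
  have h := (g3.mul h1).sub (g1.mul h3)
  refine HasDerivAt.congr_deriv h ?_
  rw [v1, v3, w1, w3, a11_shift hj, a12_shift hj, a21_shift hj, a22_shift hj, y1_per j x,
    y2_per hj x]
  ring

include hj in
lemma fdc_zderiv (x : ℝ) : HasDerivAt (fun z => fdc j x z (x + 2 * Real.pi))
    (-(dy1 j x ^ 2 * (dys (BB j) eb 1 (2 * Real.pi)).1)) 0 := by
  obtain ⟨h1, h2, h3, h4⟩ := U_zderiv hj x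
  obtain ⟨g1, g2, g3, g4⟩ := U_zderiv hj (x + 2 * Real.pi)
  obtain ⟨v1, v2, v3, v4⟩ := U_at_zero hj x
  obtain ⟨w1, w2, w3, w4⟩ := U_at_zero hj (x + 2 * Real.pi)
  have h := (g2.mul h4).sub (g4.mul h2)
  refine HasDerivAt.congr_deriv h ?_
  rw [v2, v4, w2, w4, a11_shift hj, a12_shift hj, a21_shift hj, a22_shift hj, dy1_per j x,
    dy2_per hj x]
  ring

include hj in
lemma fs_analytic (x₀ x : ℝ) (z : ℂ) : AnalyticAt ℂ (fun z => fs j x₀ z x) z := by
  have h : Differentiable ℂ (fun z => fs j x₀ z x) := by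
    obtain ⟨h1, h2, h3, h4⟩ := U_zdiff hj x
    obtain ⟨g1, g2, g3, g4⟩ := U_zdiff hj x₀
    exact (h3.mul g1).sub (h1.mul g3)
  exact h.analyticAt z

include hj in
lemma fdc_analytic (x₀ x : ℝ) (z : ℂ) : AnalyticAt ℂ (fun z => fdc j x₀ z x) z := by
  have h : Differentiable ℂ (fun z => fdc j x₀ z x) := by
    obtain ⟨h1, h2, h3, h4⟩ := U_zdiff hj x
    obtain ⟨g1, g2, g3, g4⟩ := U_zdiff hj x₀
    exact (h2.mul g4).sub (h4.mul g2)
  exact h.analyticAt z

include hj in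
lemma fs_at_zero (x : ℝ) : fs j x 0 (x + 2 * Real.pi) = 0 := by
  obtain ⟨v1, v2, v3, v4⟩ := U_at_zero hj x
  obtain ⟨w1, w2, w3, w4⟩ := U_at_zero hj (x + 2 * Real.pi)
  unfold fs
  rw [v1, v3, w1, w3, y1_per j x, y2_per hj x]
  ring

include hj in
lemma fdc_at_zero (x : ℝ) : fdc j x 0 (x + 2 * Real.pi) = 0 := by
  obtain ⟨v1, v2, v3, v4⟩ := U_at_zero hj x
  obtain ⟨w1, w2, w3, w4⟩ := U_at_zero hj (x + 2 * Real.pi)
  unfold fdc
  rw [v2, v4, w2, w4, dy1_per j x, dy2_per hj x]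
  ring

include hj in
lemma one_le_order (x : ℝ) : 1 ≤ analyticOrderAt (fun w : ℂ => fs j x w (x + 2 * Real.pi)) 0 := by
  rw [Order.one_le_iff_ne_zero]
  intro h
  rw [analyticOrderAt_eq_zero] at h
  rcases h with h | h
  · exact h (fs_analytic hj _ _ _)
  · exact h (fs_at_zero hj x)

include hj in
lemma order_fs (hj0 : 0 < j) (hjπ : j ≤ Real.pi) :
    analyticOrderAt (fun w : ℂ => fs j 0 w (0 + 2 * Real.pi)) 0 = 1 := by
  apply AnalyticAt.analyticOrderAt_eq_one_of_zero_deriv_ne_zero (fs_analytic hj _ _ _)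
    (fs_at_zero hj 0)
  rw [(fs_zderiv hj 0).deriv]
  apply mul_ne_zero _ (a12_ne hj hj0 hjπ)
  unfold y1
  exact pow_ne_zero _ (Complex.exp_ne_zero _)

include hj in
lemma order_fdc (hj0 : 0 < j) (hjπ : j ≤ Real.pi) :
    analyticOrderAt (fun w : ℂ => fdc j (Real.pi / 2) w (Real.pi / 2 + 2 * Real.pi)) 0 = 1 := by
  apply AnalyticAt.analyticOrderAt_eq_one_of_zero_deriv_ne_zero (fdc_analytic hj _ _ _)
    (fdc_at_zero hj _)
  rw [(fdc_zderiv hj _).deriv]
  apply neg_ne_zero.2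
  apply mul_ne_zero _ (a12_ne hj hj0 hjπ)
  apply pow_ne_zero
  unfold dy1
  apply mul_ne_zero _ (by unfold y1; exact Complex.exp_ne_zero _)
  apply mul_ne_zero
  · apply neg_ne_zero.2
    apply div_ne_zero _ (by norm_num)
    apply mul_ne_zero Complex.I_ne_zero
    exact_mod_cast hj0.ne'
  · have : ((Real.pi / 2 : ℝ) : ℂ) = (Real.pi : ℂ) / 2 := by push_cast; ring
    rw [this, Complex.sin_pi_div_two]
    exact one_ne_zero

include hj in
/-- trace of the second iterate -/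
lemma tr_two : (dys (BB j) ea 2 (2 * Real.pi)).1 + (dys (BB j) eb 2 (2 * Real.pi)).2 = 0 := by
  have hd : ∀ x, HasDerivAt (fun x => (dys (BB j) ea 2 x).1 + (dys (BB j) eb 2 x).2
      - ((dys (BB j) ea 1 x).1 * (dys (BB j) ea 1 x).1 +
        (dys (BB j) eb 1 x).1 * (dys (BB j) ea 1 x).2)) 0 x := by
    intro x
    have h1 := (dys_two_deriv (j := j) ea x).1
    have h2 := (dys_two_deriv (j := j) eb x).2
    have h3 := (da11 (j := j) x)
    have h4 := (da12 (j := j) x)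
    have h5 := (da21 (j := j) x)
    refine HasDerivAt.congr_deriv ((h1.add h2).sub ((h3.mul h3).add (h4.mul h5))) ?_
    have h6 := a22_eq (j := j) x
    rw [h6]
    ring
  have h1 := is_const_of_deriv_eq_zero (fun x => (hd x).differentiableAt) (fun x => (hd x).deriv)
    (2 * Real.pi) 0
  rw [dys_zero_at, dys_zero_at, dys_zero_at, dys_zero_at, a11_two_pi hj, a21_two_pi hj] at h1
  simpa using h1

include hj in
lemma disc_expansion (z : ℂ) : fc j 0 z (2 * Real.pi) + fds j 0 z (2 * Real.pi) - 2 =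
    z ^ 3 * ((dysSum (BB j) ea 3 z (2 * Real.pi)).1 + (dysSum (BB j) eb 3 z (2 * Real.pi)).2) := by
  obtain ⟨K, hK⟩ := BB_bdd hj
  have hy1 : y1 j (2 * Real.pi) = y1 j 0 := by have := y1_per j 0; rwa [zero_add] at this
  have hdy1 : dy1 j (2 * Real.pi) = dy1 j 0 := by have := dy1_per j 0; rwa [zero_add] at this
  have hy2 : y2 j (2 * Real.pi) = y2 j 0 := by have := y2_per hj 0; rwa [zero_add] at this
  have hdy2 : dy2 j (2 * Real.pi) = dy2 j 0 := by have := dy2_per hj 0; rwa [zero_add] at this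
  have hw := wron j 0
  have h1 : fc j 0 z (2 * Real.pi) + fds j 0 z (2 * Real.pi) =
      (Va j z (2 * Real.pi)).1 + (Vb j z (2 * Real.pi)).2 := by
    unfold fc fds U11 U12 U21 U22
    rw [Va_zero hj, Vb_zero hj, hy1, hdy1, hy2, hdy2]
    simp
    linear_combination ((Va j z (2 * Real.pi)).1 + (Vb j z (2 * Real.pi)).2) * hw
  have h2 : ∀ e : ℂ × ℂ, dysSum (BB j) e 0 z (2 * Real.pi) = e + z • (dys (BB j) e 1 (2 * Real.pi) +
      z • (dys (BB j) e 2 (2 * Real.pi) + z • dysSum (BB j) e 3 z (2 * Real.pi))) := by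
    intro e
    rw [dysSum_succ hK 0, dysSum_succ hK 1, dysSum_succ hK 2, dys_zero]
  rw [h1]
  unfold Va Vb
  rw [h2, h2]
  simp only [Prod.fst_add, Prod.smul_fst, Prod.snd_add, Prod.smul_snd, smul_eq_mul]
  rw [a22_two_pi hj, a11_two_pi hj]
  have h3 := tr_two hj
  linear_combination z ^ 2 * h3

include hj in
lemma order_disc : 3 ≤ analyticOrderAt
    (fun w : ℂ => (fc j 0 w (2 * Real.pi) + fds j 0 w (2 * Real.pi)) ^ 2 - 4) 0 := by
  obtain ⟨h1, h2, h3, h4⟩ := U_zdiff hj (2 * Real.pi)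
  obtain ⟨g1, g2, g3, g4⟩ := U_zdiff hj 0
  have hc : Differentiable ℂ (fun z => fc j 0 z (2 * Real.pi)) := (h1.mul g4).sub (h3.mul g2)
  have hds : Differentiable ℂ (fun z => fds j 0 z (2 * Real.pi)) := (h4.mul g1).sub (h2.mul g3)
  have hR : Differentiable ℂ (fun z => (dysSum (BB j) ea 3 z (2 * Real.pi)).1 +
      (dysSum (BB j) eb 3 z (2 * Real.pi)).2) :=
    (V_zdiff hj ea 3 _).1.add (V_zdiff hj eb 3 _).2
  have hf : Differentiable ℂ
      (fun w : ℂ => (fc j 0 w (2 * Real.pi) + fds j 0 w (2 * Real.pi)) ^ 2 - 4) :=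
    ((hc.add hds).pow 2).sub_const 4
  have hg : Differentiable ℂ (fun z => ((dysSum (BB j) ea 3 z (2 * Real.pi)).1 +
      (dysSum (BB j) eb 3 z (2 * Real.pi)).2) * (fc j 0 z (2 * Real.pi) + fds j 0 z (2 * Real.pi) + 2)) :=
    hR.mul ((hc.add hds).add_const 2)
  have := (natCast_le_analyticOrderAt (n := 3) (hf.analyticAt 0)).2
    ⟨_, hg.analyticAt 0, Filter.Eventually.of_forall fun z => by
      have h := disc_expansion hj z
      simp only [sub_zero, smul_eq_mul]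
      linear_combination (fc j 0 z (2 * Real.pi) + fds j 0 z (2 * Real.pi) + 2) * h⟩
  exact_mod_cast this

end

end Pool.Agent.H56
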