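import Mathlib
import Pool.Agent.H56.HillOrder

/-!
Complements to the Hill example: the trace of the monodromy does not depend on the base point, and
the discriminant does not vanish identically (energy identity for real negative spectral parameter).
-/

set_option autoImplicit false

namespace Pool.Agent.H56

open Filter Topology

section
variable {j : ℝ} (hj : CC j (Real.pi / 2) = 0)

include hj in
lemma f_zdiff (x₀ x : ℝ) : Differentiable ℂ (fun z => fc j x₀ z x) ∧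
    Differentiable ℂ (fun z => fdc j x₀ z x) ∧ Differentiable ℂ (fun z => fs j x₀ z x) ∧
    Differentiable ℂ (fun z => fds j x₀ z x) := by
  obtain ⟨h1, h2, h3, h4⟩ := U_zdiff hj x
  obtain ⟨g1, g2, g3, g4⟩ := U_zdiff hj x₀
  exact ⟨(h1.mul g4).sub (h3.mul g2), (h2.mul g4).sub (h4.mul g2), (h3.mul g1).sub (h1.mul g3),
    (h4.mul g1).sub (h2.mul g3)⟩

include hj in
lemma f_init (x₀ : ℝ) (z : ℂ) : fc j x₀ z x₀ = 1 ∧ fdc j x₀ z x₀ = 0 ∧ fs j x₀ z x₀ = 0 ∧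
    fds j x₀ z x₀ = 1 := by
  have hdet := detU hj z x₀
  refine ⟨?_, ?_, ?_, ?_⟩
  · unfold fc; linear_combination hdet
  · unfold fdc; ring
  · unfold fs; ring
  · unfold fds; linear_combination hdet

include hj in
lemma f_det (x₀ : ℝ) (z : ℂ) (x : ℝ) :
    fc j x₀ z x * fds j x₀ z x - fs j x₀ z x * fdc j x₀ z x = 1 := by
  have h1 := detU hj z x₀
  have h2 := detU hj z x
  unfold fc fds fs fdc
  linear_combination (U11 j z x₀ * U22 j z x₀ - U12 j z x₀ * U21 j z x₀) * h2 + h1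

include hj in
lemma tr_const (x₀ : ℝ) (z : ℂ) :
    fc j x₀ z (x₀ + 2 * Real.pi) + fds j x₀ z (x₀ + 2 * Real.pi) =
      fc j 0 z (2 * Real.pi) + fds j 0 z (2 * Real.pi) := by
  have hd : ∀ x, HasDerivAt (fun x => (U11 j z (x + 2 * Real.pi) * U22 j z x -
      U12 j z (x + 2 * Real.pi) * U21 j z x) + (U22 j z (x + 2 * Real.pi) * U11 j z x -
      U21 j z (x + 2 * Real.pi) * U12 j z x)) 0 x := by
    intro x
    have k1 := (U11_deriv hj z (x + 2 * Real.pi)).comp_add_const x (2 * Real.pi)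
    have k2 := (U12_deriv hj z (x + 2 * Real.pi)).comp_add_const x (2 * Real.pi)
    have k3 := (U21_deriv hj z (x + 2 * Real.pi)).comp_add_const x (2 * Real.pi)
    have k4 := (U22_deriv hj z (x + 2 * Real.pi)).comp_add_const x (2 * Real.pi)
    have h1 := ((k1.mul (U22_deriv hj z x)).sub (k2.mul (U21_deriv hj z x))).add
      ((k4.mul (U11_deriv hj z x)).sub (k3.mul (U12_deriv hj z x)))
    refine HasDerivAt.congr_deriv h1 ?_
    have hq : qq j (x + 2 * Real.pi) = qq j x := qq_per j x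
    rw [hq]
    ring
  have h1 := is_const_of_deriv_eq_zero (fun x => (hd x).differentiableAt) (fun x => (hd x).deriv)
    x₀ 0
  simp only [zero_add] at h1
  unfold fc fds
  exact h1

/-- The energy argument: for `z = -(j^2/4+1)` the discriminant is not zero. -/
private lemma disc_ne : ∀ (_ : CC j (Real.pi / 2) = 0),
    (fc j 0 (-((j ^ 2 / 4 + 1 : ℝ) : ℂ)) (2 * Real.pi) +
      fds j 0 (-((j ^ 2 / 4 + 1 : ℝ) : ℂ)) (2 * Real.pi)) ^ 2 - 4 ≠ 0 := by
  intro hj h0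
  obtain ⟨L, hL⟩ : ∃ L : ℝ, L = j ^ 2 / 4 + 1 := ⟨_, rfl⟩
  rw [← hL] at h0
  obtain ⟨z, hz⟩ : ∃ z : ℂ, z = -(L : ℂ) := ⟨_, rfl⟩
  rw [← hz] at h0
  obtain ⟨c, hc⟩ : ∃ c : ℂ, c = fc j 0 z (2 * Real.pi) := ⟨_, rfl⟩
  obtain ⟨dc, hdc⟩ : ∃ dc : ℂ, dc = fdc j 0 z (2 * Real.pi) := ⟨_, rfl⟩
  obtain ⟨s, hs⟩ : ∃ s : ℂ, s = fs j 0 z (2 * Real.pi) := ⟨_, rfl⟩
  obtain ⟨ds, hds⟩ : ∃ ds : ℂ, ds = fds j 0 z (2 * Real.pi) := ⟨_, rfl⟩
  have hdet := f_det hj 0 z (2 * Real.pi)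
  rw [← hc, ← hds, ← hs, ← hdc] at hdet
  rw [← hc, ← hds] at h0
  obtain ⟨mu, hmu⟩ : ∃ mu : ℂ, mu = (c + ds) / 2 := ⟨_, rfl⟩
  have hmu2 : mu ^ 2 = 1 := by rw [hmu]; linear_combination h0 / 4
  have hdm : (c - mu) * (ds - mu) - s * dc = 0 := by
    have : c + ds = 2 * mu := by rw [hmu]; ring
    linear_combination hdet - mu * this - hmu2
  obtain ⟨α, β, hαβ, e1, e2⟩ : ∃ α β : ℂ, ¬ (α = 0 ∧ β = 0) ∧ α * c + β * s = mu * α ∧
      α * dc + β * ds = mu * β := by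
    by_cases hA : s = 0 ∧ c = mu
    · by_cases hB : ds = mu ∧ dc = 0
      · refine ⟨1, 0, fun h => one_ne_zero h.1, ?_, ?_⟩
        · rw [hA.2]; ring
        · rw [hB.2]; ring
      · refine ⟨ds - mu, -dc, fun h => hB ⟨sub_eq_zero.1 h.1, neg_eq_zero.1 h.2⟩, ?_, ?_⟩
        · rw [hA.1, hA.2]; ring
        · ring
    · refine ⟨s, -(c - mu), fun h => hA ⟨h.1, sub_eq_zero.1 (neg_eq_zero.1 h.2)⟩, ?_, ?_⟩
      · ring
      · linear_combination -hdm
  obtain ⟨hi1, hi2, hi3, hi4⟩ := f_init hj 0 z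
  obtain ⟨y, hy⟩ : ∃ y : ℝ → ℂ, y = fun x => α * fc j 0 z x + β * fs j 0 z x := ⟨_, rfl⟩
  obtain ⟨dy, hdy⟩ : ∃ dy : ℝ → ℂ, dy = fun x => α * fdc j 0 z x + β * fds j 0 z x := ⟨_, rfl⟩
  have hyd : ∀ x, HasDerivAt y (dy x) x := by
    intro x
    rw [hy, hdy]
    exact ((fc_deriv hj 0 z x).const_mul α).add ((fs_deriv hj 0 z x).const_mul β)
  have hdyd : ∀ x, HasDerivAt dy ((qq j x + L) * y x) x := by
    intro x
    have h1 := ((fdc_deriv hj 0 z x).const_mul α).add ((fds_deriv hj 0 z x).const_mul β)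
    rw [hdy]
    refine HasDerivAt.congr_deriv h1 ?_
    rw [hy, hz]
    ring
  have hy0 : y 0 = α := by rw [hy]; simp only [hi1, hi3]; ring
  have hdy0 : dy 0 = β := by rw [hdy]; simp only [hi2, hi4]; ring
  have hyT : y (2 * Real.pi) = mu * y 0 := by
    rw [hy0, hy]
    simp only
    rw [← hc, ← hs]
    exact e1
  have hdyT : dy (2 * Real.pi) = mu * dy 0 := by
    rw [hdy0, hdy]
    simp only
    rw [← hdc, ← hds]
    exact e2
  have hre : ∀ (f : ℝ → ℂ) (f' : ℂ) (x : ℝ), HasDerivAt f f' x →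
      HasDerivAt (fun x => (f x).re) f'.re x ∧ HasDerivAt (fun x => (f x).im) f'.im x := by
    intro f f' x hf
    exact ⟨Complex.reCLM.hasFDerivAt.comp_hasDerivAt x hf,
      Complex.imCLM.hasFDerivAt.comp_hasDerivAt x hf⟩
  have hE : ∀ x, HasDerivAt (fun x => (y x).re * (dy x).re + (y x).im * (dy x).im)
      ((dy x).re ^ 2 + (dy x).im ^ 2 + ((qq j x).re + L) * ((y x).re ^ 2 + (y x).im ^ 2)) x := by
    intro x
    obtain ⟨a1, a2⟩ := hre y _ x (hyd x)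
    obtain ⟨b1, b2⟩ := hre dy _ x (hdyd x)
    refine HasDerivAt.congr_deriv ((a1.mul b1).add (a2.mul b2)) ?_
    simp only [Complex.mul_re, Complex.mul_im, Complex.add_re, Complex.add_im, Complex.ofReal_re,
      Complex.ofReal_im]
    ring
  have hmm : mu = 1 ∨ mu = -1 := by
    have : (mu - 1) * (mu + 1) = 0 := by linear_combination hmu2
    rcases mul_eq_zero.1 this with h | h
    · exact Or.inl (sub_eq_zero.1 h)
    · exact Or.inr (eq_neg_of_add_eq_zero_left h)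
  have hEE : (y 0).re * (dy 0).re + (y 0).im * (dy 0).im =
      (y (2 * Real.pi)).re * (dy (2 * Real.pi)).re + (y (2 * Real.pi)).im * (dy (2 * Real.pi)).im := by
    rw [hyT, hdyT]
    rcases hmm with h | h
    · rw [h, one_mul, one_mul]
    · rw [h]
      simp
  obtain ⟨ξ, _, hξ⟩ := exists_hasDerivAt_eq_zero (f := fun x => (y x).re * (dy x).re +
    (y x).im * (dy x).im) (f' := fun x => (dy x).re ^ 2 + (dy x).im ^ 2 + ((qq j x).re + L) *
      ((y x).re ^ 2 + (y x).im ^ 2)) (a := 0) (b := 2 * Real.pi) (by positivity)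
    (fun x _ => (hE x).continuousAt.continuousWithinAt) hEE (fun x _ => hE x)
  have hq : (qq j ξ).re = -(j ^ 2 / 4) * Real.sin ξ ^ 2 := by
    have e : qq j ξ = ((-(j ^ 2 / 4) * Real.sin ξ ^ 2 : ℝ) : ℂ) +
        Complex.I * ((-(j / 2) * Real.cos ξ : ℝ) : ℂ) := by
      unfold qq
      push_cast
      linear_combination (j ^ 2 / 4 * Complex.sin ξ ^ 2) * Complex.I_sq
    rw [e, Complex.add_re, Complex.ofReal_re, Complex.mul_re, Complex.I_re, Complex.I_im,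
      Complex.ofReal_re, Complex.ofReal_im]
    ring
  have hq1 : 1 ≤ (qq j ξ).re + L := by
    rw [hq, hL]
    have h1 : Real.sin ξ ^ 2 ≤ 1 := Real.sin_sq_le_one ξ
    have h2 : 0 ≤ j ^ 2 / 4 := by positivity
    nlinarith
  have hξ' : (dy ξ).re ^ 2 + (dy ξ).im ^ 2 + ((qq j ξ).re + L) * ((y ξ).re ^ 2 + (y ξ).im ^ 2) = 0 :=
    hξ
  have hY : 0 ≤ (y ξ).re ^ 2 + (y ξ).im ^ 2 := by positivity
  have hD : 0 ≤ (dy ξ).re ^ 2 + (dy ξ).im ^ 2 := by positivity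
  have hP : (y ξ).re ^ 2 + (y ξ).im ^ 2 ≤ ((qq j ξ).re + L) * ((y ξ).re ^ 2 + (y ξ).im ^ 2) :=
    le_mul_of_one_le_left hY hq1
  have hY0 : (y ξ).re ^ 2 + (y ξ).im ^ 2 = 0 := by linarith
  have hD0 : (dy ξ).re ^ 2 + (dy ξ).im ^ 2 = 0 := by linarith
  have hzero : ∀ w : ℂ, w.re ^ 2 + w.im ^ 2 = 0 → w = 0 := by
    intro w hw
    have h1 : w.re = 0 := by nlinarith [sq_nonneg w.re, sq_nonneg w.im]
    have h2 : w.im = 0 := by nlinarith [sq_nonneg w.re, sq_nonneg w.im]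
    exact Complex.ext h1 h2
  have hyξ := hzero _ hY0
  have hdyξ := hzero _ hD0
  rw [hy] at hyξ
  rw [hdy] at hdyξ
  simp only at hyξ hdyξ
  have hdξ := f_det hj 0 z ξ
  refine hαβ ⟨?_, ?_⟩
  · linear_combination (-α) * hdξ + fds j 0 z ξ * hyξ - fs j 0 z ξ * hdyξ
  · linear_combination (-β) * hdξ - fdc j 0 z ξ * hyξ + fc j 0 z ξ * hdyξ

include hj in
lemma disc_ne_top : analyticOrderAt
    (fun w : ℂ => (fc j 0 w (2 * Real.pi) + fds j 0 w (2 * Real.pi)) ^ 2 - 4) 0 ≠ ⊤ := by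
  intro htop
  obtain ⟨h1, _, _, h4⟩ := f_zdiff hj 0 (2 * Real.pi)
  have hf : Differentiable ℂ
      (fun w : ℂ => (fc j 0 w (2 * Real.pi) + fds j 0 w (2 * Real.pi)) ^ 2 - 4) :=
    ((h1.add h4).pow 2).sub_const 4
  have hzero := (AnalyticOnNhd.analyticOrderAt_eq_top_iff_eq_zero (0 : ℂ) (fun w => hf.analyticAt w)).1 htop
  exact disc_ne hj (congrFun hzero (-((j ^ 2 / 4 + 1 : ℝ) : ℂ)))

end

end Pool.Agent.H56
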