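import Mathlib

/-!
# A misère quotient with a maximal subgroup without P-positions: the bookkeeping

Copied from helper22's proof of the frozen statement (`Pool/Agent/S07514.lean`), so that the hand-in of
our own statement does not import a frozen file; `core` is the end of that proof.
-/

set_option autoImplicit false

namespace Pool.Agent.H56.Mis

/-!
The counterexample. Let `s = {0}` be the Nim heap of size one and put
`g = {0, s}`, `h = {s, s + 2g}`, `k = {3g + h, s, s + g, s + 4g + h}`.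
The set of all sums `a s + b g + c h + d k` is closed under sums and options. The element
`(a, b, c, d)` of `ℕ × ℕ × ℕ × ℕ` stands for this sum. Its misère outcome depends only on `a` modulo
`2`, on `b` up to `3 = 5`, on `c` up to `2 = 3` and on `d` up to `2 = 3`. The misère quotient has
order `34`. The class of `E = 2k` is idempotent, its maximal subgroup consists of the classes of `2k`
and `2k + s`, and both are N-positions.
-/

/-- The capped exponent of `g`. -/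
def capG (b : ℕ) : ℕ := if b < 5 then b else 3 + (b - 3) % 2

/-- The P-positions, by capped exponents. -/
def table : List (ℕ × ℕ × ℕ × ℕ) :=
  [(0, 0, 1, 2), (0, 0, 2, 0), (0, 0, 2, 1), (0, 0, 2, 2), (0, 1, 1, 0), (0, 2, 0, 0), (0, 2, 1, 1),
   (0, 2, 1, 2), (0, 2, 2, 0), (0, 2, 2, 1), (0, 2, 2, 2), (0, 3, 0, 1), (0, 3, 1, 0), (0, 4, 0, 0),
   (0, 4, 0, 2), (0, 4, 1, 1), (0, 4, 1, 2), (0, 4, 2, 0), (0, 4, 2, 1), (0, 4, 2, 2), (1, 0, 0, 0),
   (1, 0, 0, 1), (1, 1, 0, 2)]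

/-- `(a, b, c, d)` is a P-position. -/
def isP (a b c d : ℕ) : Bool := decide ((a % 2, capG b, min c 2, min d 2) ∈ table)

/-- Some option of `(a, b, c, d)` is a P-position. -/
def someP (a b c d : ℕ) : Bool :=
  (decide (1 ≤ a) && isP (a - 1) b c d) ||
  ((decide (1 ≤ b) && isP a (b - 1) c d) ||
  ((decide (1 ≤ b) && isP (a + 1) (b - 1) c d) ||
  ((decide (1 ≤ c) && isP (a + 1) b (c - 1) d) ||
  ((decide (1 ≤ c) && isP (a + 1) (b + 2) (c - 1) d) ||
  ((decide (1 ≤ d) && isP a (b + 3) (c + 1) (d - 1)) ||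
  ((decide (1 ≤ d) && isP (a + 1) b c (d - 1)) ||
  ((decide (1 ≤ d) && isP (a + 1) (b + 1) c (d - 1)) ||
   (decide (1 ≤ d) && isP (a + 1) (b + 4) (c + 1) (d - 1)))))))))

/-- The recursion for misère outcomes. -/
def rec' (a b c d : ℕ) : Bool :=
  (!isP a b c d) == (decide (a = 0 ∧ b = 0 ∧ c = 0 ∧ d = 0) || someP a b c d)

def repA (a : ℕ) : ℕ := if a < 3 then a else 1 + (a - 1) % 2
def repB (b : ℕ) : ℕ := if b < 6 then b else 4 + (b - 4) % 2
def repC (c : ℕ) : ℕ := min c 3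

lemma repA_lt (a : ℕ) : repA a < 3 := by unfold repA; split_ifs <;> omega
lemma repB_lt (a : ℕ) : repB a < 6 := by unfold repB; split_ifs <;> omega
lemma repC_lt (a : ℕ) : repC a < 4 := by unfold repC; omega

lemma repA_mod (a i : ℕ) : (a + i) % 2 = (repA a + i) % 2 := by
  unfold repA; split_ifs <;> omega
lemma repA_mod' (a : ℕ) : (a - 1) % 2 = (repA a - 1) % 2 := by
  unfold repA; split_ifs <;> omega
lemma repB_cap (b i : ℕ) : capG (b + i) = capG (repB b + i) := by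
  unfold repB capG; split_ifs <;> omega
lemma repB_cap' (b : ℕ) : capG (b - 1) = capG (repB b - 1) := by
  unfold repB capG; split_ifs <;> omega
lemma repC_cap (c i : ℕ) : min (c + i) 2 = min (repC c + i) 2 := by
  unfold repC; omega
lemma repC_cap' (c : ℕ) : min (c - 1) 2 = min (repC c - 1) 2 := by
  unfold repC; omega
lemma repA_pos (a : ℕ) : (1 ≤ a) ↔ (1 ≤ repA a) := by unfold repA; split_ifs <;> omega
lemma repB_pos (a : ℕ) : (1 ≤ a) ↔ (1 ≤ repB a) := by unfold repB; split_ifs <;> omega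
lemma repC_pos (a : ℕ) : (1 ≤ a) ↔ (1 ≤ repC a) := by unfold repC; omega
lemma repA_zero (a : ℕ) : a = 0 ↔ repA a = 0 := by unfold repA; split_ifs <;> omega
lemma repB_zero (a : ℕ) : a = 0 ↔ repB a = 0 := by unfold repB; split_ifs <;> omega
lemma repC_zero (a : ℕ) : a = 0 ↔ repC a = 0 := by unfold repC; omega

lemma rec'_rep (a b c d : ℕ) : rec' a b c d = rec' (repA a) (repB b) (repC c) (repC d) := by
  have hA := repA_mod a
  have hA0 : a % 2 = repA a % 2 := repA_mod a 0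
  have hA' := repA_mod' a
  have hB := repB_cap b
  have hB0 : capG b = capG (repB b) := repB_cap b 0
  have hB' := repB_cap' b
  have hC := repC_cap c
  have hC0 : min c 2 = min (repC c) 2 := repC_cap c 0
  have hC' := repC_cap' c
  have hD := repC_cap d
  have hD0 : min d 2 = min (repC d) 2 := repC_cap d 0
  have hD' := repC_cap' d
  unfold rec' someP isP
  rw [hA 1, hA0, hA', hB 1, hB 2, hB 3, hB 4, hB0, hB', hC 1, hC0, hC', hD0, hD',
    decide_eq_decide.mpr (repA_pos a), decide_eq_decide.mpr (repB_pos b),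
    decide_eq_decide.mpr (repC_pos c), decide_eq_decide.mpr (repC_pos d),
    decide_eq_decide.mpr (show (a = 0 ∧ b = 0 ∧ c = 0 ∧ d = 0) ↔
      (repA a = 0 ∧ repB b = 0 ∧ repC c = 0 ∧ repC d = 0) by
        rw [← repA_zero, ← repB_zero, ← repC_zero, ← repC_zero])]

set_option maxRecDepth 100000 in
lemma rec'_box : ∀ a < 3, ∀ b < 6, ∀ c < 4, ∀ d < 4, rec' a b c d = true := by
  decide +kernel

lemma rec'_true (a b c d : ℕ) : rec' a b c d = true := by
  rw [rec'_rep]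
  exact rec'_box _ (repA_lt a) _ (repB_lt b) _ (repC_lt c) _ (repC_lt d)

/-- The moves: one summand is replaced by one of its options. -/
def moves : List ((ℕ × ℕ × ℕ × ℕ) × (ℕ × ℕ × ℕ × ℕ)) :=
  [((1, 0, 0, 0), (0, 0, 0, 0)),
   ((0, 1, 0, 0), (0, 0, 0, 0)), ((0, 1, 0, 0), (1, 0, 0, 0)),
   ((0, 0, 1, 0), (1, 0, 0, 0)), ((0, 0, 1, 0), (1, 2, 0, 0)),
   ((0, 0, 0, 1), (0, 3, 1, 0)), ((0, 0, 0, 1), (1, 0, 0, 0)),
   ((0, 0, 0, 1), (1, 1, 0, 0)), ((0, 0, 0, 1), (1, 4, 1, 0))]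

/-- The options of a sum. -/
def opts (v : ℕ × ℕ × ℕ × ℕ) : Set (ℕ × ℕ × ℕ × ℕ) :=
  {u | ∃ m ∈ moves, ∃ x, v = x + m.1 ∧ u = x + m.2}

/-- A weight that decreases along options. -/
def weight (v : ℕ × ℕ × ℕ × ℕ) : ℕ := v.1 + 2 * v.2.1 + 6 * v.2.2.1 + 16 * v.2.2.2

lemma weight_add (x y : ℕ × ℕ × ℕ × ℕ) : weight (x + y) = weight x + weight y := by
  simp only [weight, Prod.fst_add, Prod.snd_add]
  ring

lemma weight_moves : ∀ m ∈ moves, weight m.2 < weight m.1 := by decide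

lemma units : ∀ m ∈ moves, m.1 = (1, 0, 0, 0) ∨ m.1 = (0, 1, 0, 0) ∨ m.1 = (0, 0, 1, 0) ∨
    m.1 = (0, 0, 0, 1) := by decide

lemma ex0 {a b c d : ℕ} {Q : ℕ × ℕ × ℕ × ℕ → Prop} :
    (∃ x, (a, b, c, d) = x + (1, 0, 0, 0) ∧ Q x) ↔ (1 ≤ a ∧ Q (a - 1, b, c, d)) := by
  constructor
  · rintro ⟨⟨a', b', c', d'⟩, h, hQ⟩
    simp only [Prod.mk_add_mk, Prod.mk.injEq, Nat.add_zero] at h
    obtain ⟨rfl, rfl, rfl, rfl⟩ := h
    exact ⟨by omega, by simpa using hQ⟩
  · rintro ⟨h, hQ⟩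
    refine ⟨_, ?_, hQ⟩
    simp only [Prod.mk_add_mk, Prod.mk.injEq, Nat.add_zero, and_true]
    omega

lemma ex1 {a b c d : ℕ} {Q : ℕ × ℕ × ℕ × ℕ → Prop} :
    (∃ x, (a, b, c, d) = x + (0, 1, 0, 0) ∧ Q x) ↔ (1 ≤ b ∧ Q (a, b - 1, c, d)) := by
  constructor
  · rintro ⟨⟨a', b', c', d'⟩, h, hQ⟩
    simp only [Prod.mk_add_mk, Prod.mk.injEq, Nat.add_zero] at h
    obtain ⟨rfl, rfl, rfl, rfl⟩ := h
    exact ⟨by omega, by simpa using hQ⟩
  · rintro ⟨h, hQ⟩
    refine ⟨_, ?_, hQ⟩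
    simp only [Prod.mk_add_mk, Prod.mk.injEq, Nat.add_zero, and_true, true_and]
    omega

lemma ex2 {a b c d : ℕ} {Q : ℕ × ℕ × ℕ × ℕ → Prop} :
    (∃ x, (a, b, c, d) = x + (0, 0, 1, 0) ∧ Q x) ↔ (1 ≤ c ∧ Q (a, b, c - 1, d)) := by
  constructor
  · rintro ⟨⟨a', b', c', d'⟩, h, hQ⟩
    simp only [Prod.mk_add_mk, Prod.mk.injEq, Nat.add_zero] at h
    obtain ⟨rfl, rfl, rfl, rfl⟩ := h
    exact ⟨by omega, by simpa using hQ⟩
  · rintro ⟨h, hQ⟩
    refine ⟨_, ?_, hQ⟩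
    simp only [Prod.mk_add_mk, Prod.mk.injEq, Nat.add_zero, and_true, true_and]
    omega

lemma ex3 {a b c d : ℕ} {Q : ℕ × ℕ × ℕ × ℕ → Prop} :
    (∃ x, (a, b, c, d) = x + (0, 0, 0, 1) ∧ Q x) ↔ (1 ≤ d ∧ Q (a, b, c, d - 1)) := by
  constructor
  · rintro ⟨⟨a', b', c', d'⟩, h, hQ⟩
    simp only [Prod.mk_add_mk, Prod.mk.injEq, Nat.add_zero] at h
    obtain ⟨rfl, rfl, rfl, rfl⟩ := h
    exact ⟨by omega, by simpa using hQ⟩
  · rintro ⟨h, hQ⟩
    refine ⟨_, ?_, hQ⟩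
    simp only [Prod.mk_add_mk, Prod.mk.injEq, Nat.add_zero, true_and]
    omega

/-- If a summand of `g + h` is removed, it is removed from `g` or from `h`. -/
lemma split {g h x e : ℕ × ℕ × ℕ × ℕ}
    (he : e = (1, 0, 0, 0) ∨ e = (0, 1, 0, 0) ∨ e = (0, 0, 1, 0) ∨ e = (0, 0, 0, 1))
    (hx : g + h = x + e) : (∃ y, g = y + e ∧ x = y + h) ∨ (∃ y, h = y + e ∧ x = g + y) := by
  obtain ⟨a, b, c, d⟩ := g
  obtain ⟨a', b', c', d'⟩ := h
  obtain ⟨p, q, r, s⟩ := x
  rcases he with rfl | rfl | rfl | rfl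
  · rw [ex0, ex0]
    simp only [Prod.mk_add_mk, Prod.mk.injEq, Nat.add_zero] at hx ⊢
    omega
  · rw [ex1, ex1]
    simp only [Prod.mk_add_mk, Prod.mk.injEq, Nat.add_zero] at hx ⊢
    omega
  · rw [ex2, ex2]
    simp only [Prod.mk_add_mk, Prod.mk.injEq, Nat.add_zero] at hx ⊢
    omega
  · rw [ex3, ex3]
    simp only [Prod.mk_add_mk, Prod.mk.injEq, Nat.add_zero] at hx ⊢
    omega

lemma opts_finite (v : ℕ × ℕ × ℕ × ℕ) : (opts v).Finite := by
  have h : opts v = ⋃ m ∈ {m | m ∈ moves}, {u | ∃ x, v = x + m.1 ∧ u = x + m.2} := by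
    ext u
    simp [opts]
  rw [h]
  refine Set.Finite.biUnion (List.finite_toSet moves) (fun m _ => Set.Subsingleton.finite ?_)
  rintro u ⟨x, hx, rfl⟩ u' ⟨x', hx', rfl⟩
  have : x = x' := add_right_cancel (hx.symm.trans hx')
  rw [this]

lemma opts_wf : WellFounded (fun a b : ℕ × ℕ × ℕ × ℕ => a ∈ opts b) := by
  refine Subrelation.wf (r := fun a b => weight a < weight b) ?_ (measure weight).wf
  rintro a b ⟨m, hm, x, rfl, rfl⟩
  have := weight_moves m hm
  rw [weight_add, weight_add]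
  omega

lemma opts_add (g h : ℕ × ℕ × ℕ × ℕ) :
    opts (g + h) = (fun g' => g' + h) '' opts g ∪ (fun h' => g + h') '' opts h := by
  ext u
  constructor
  · rintro ⟨m, hm, x, hx, rfl⟩
    rcases split (units m hm) hx with ⟨y, hy, rfl⟩ | ⟨y, hy, rfl⟩
    · exact Or.inl ⟨y + m.2, ⟨m, hm, y, hy, rfl⟩, add_right_comm _ _ _⟩
    · exact Or.inr ⟨y + m.2, ⟨m, hm, y, hy, rfl⟩, (add_assoc _ _ _).symm⟩
  · rintro (⟨_, ⟨m, hm, x, rfl, rfl⟩, rfl⟩ | ⟨_, ⟨m, hm, x, rfl, rfl⟩, rfl⟩)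
    · exact ⟨m, hm, x + h, add_right_comm _ _ _, add_right_comm _ _ _⟩
    · exact ⟨m, hm, g + x, (add_assoc _ _ _).symm, (add_assoc _ _ _).symm⟩

/-- The N-positions. -/
def NN (v : ℕ × ℕ × ℕ × ℕ) : Prop := isP v.1 v.2.1 v.2.2.1 v.2.2.2 = false

lemma exists_opts (a b c d : ℕ) :
    (∃ g' ∈ opts (a, b, c, d), ¬ NN g') ↔ someP a b c d = true := by
  have h1 : (∃ g' ∈ opts (a, b, c, d), ¬ NN g') ↔
      ∃ m ∈ moves, ∃ x, (a, b, c, d) = x + m.1 ∧ ¬ NN (x + m.2) := by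
    constructor
    · rintro ⟨_, ⟨m, hm, x, h, rfl⟩, hN⟩
      exact ⟨m, hm, x, h, hN⟩
    · rintro ⟨m, hm, x, h, hN⟩
      exact ⟨_, ⟨m, hm, x, h, rfl⟩, hN⟩
  rw [h1]
  simp only [moves, List.mem_cons, List.not_mem_nil, or_false, exists_eq_or_imp, exists_eq_left]
  rw [ex0, ex1, ex1, ex2, ex2, ex3, ex3, ex3, ex3]
  simp only [NN, Prod.mk_add_mk, Bool.not_eq_false, someP, Bool.or_eq_true, Bool.and_eq_true,
    decide_eq_true_eq, Nat.add_zero]

lemma opts_eq_empty (a b c d : ℕ) :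
    opts (a, b, c, d) = ∅ ↔ (a = 0 ∧ b = 0 ∧ c = 0 ∧ d = 0) := by
  constructor
  · intro h
    have h0 : ∀ m ∈ moves, ∀ x, (a, b, c, d) ≠ x + m.1 := by
      intro m hm x hx
      have : x + m.2 ∈ opts (a, b, c, d) := ⟨m, hm, x, hx, rfl⟩
      rw [h] at this
      exact this
    refine ⟨?_, ?_, ?_, ?_⟩
    · by_contra hne
      obtain ⟨x, hx, -⟩ := (ex0 (Q := fun _ => True) (a := a) (b := b) (c := c) (d := d)).mpr
        ⟨by omega, trivial⟩
      exact h0 ((1, 0, 0, 0), (0, 0, 0, 0)) (by simp [moves]) x hx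
    · by_contra hne
      obtain ⟨x, hx, -⟩ := (ex1 (Q := fun _ => True) (a := a) (b := b) (c := c) (d := d)).mpr
        ⟨by omega, trivial⟩
      exact h0 ((0, 1, 0, 0), (0, 0, 0, 0)) (by simp [moves]) x hx
    · by_contra hne
      obtain ⟨x, hx, -⟩ := (ex2 (Q := fun _ => True) (a := a) (b := b) (c := c) (d := d)).mpr
        ⟨by omega, trivial⟩
      exact h0 ((0, 0, 1, 0), (1, 0, 0, 0)) (by simp [moves]) x hx
    · by_contra hne
      obtain ⟨x, hx, -⟩ := (ex3 (Q := fun _ => True) (a := a) (b := b) (c := c) (d := d)).mpr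
        ⟨by omega, trivial⟩
      exact h0 ((0, 0, 0, 1), (1, 0, 0, 0)) (by simp [moves]) x hx
  · rintro ⟨rfl, rfl, rfl, rfl⟩
    ext u
    simp only [Set.mem_empty_iff_false, iff_false]
    rintro ⟨m, hm, x, hx, -⟩
    have h1 := congrArg weight hx
    rw [weight_add] at h1
    have h2 := weight_moves m hm
    have h3 : weight (0, 0, 0, 0) = 0 := rfl
    omega

lemma NN_iff (g : ℕ × ℕ × ℕ × ℕ) : NN g ↔ (opts g = ∅ ∨ ∃ g' ∈ opts g, ¬ NN g') := by
  obtain ⟨a, b, c, d⟩ := g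
  rw [exists_opts, opts_eq_empty]
  have h := rec'_true a b c d
  unfold rec' at h
  rw [beq_iff_eq] at h
  unfold NN
  simp only
  rw [← Bool.not_eq_true', h, Bool.or_eq_true, decide_eq_true_eq]

/-- Some game separates `(a, b, c, 2)` from `(0, 0, 0, 2)`. -/
def sep (a b c : ℕ) : Bool :=
  (List.range 2).any fun x => (List.range 5).any fun y => (List.range 3).any fun z =>
    isP (a + x) (b + y) (c + z) 2 != isP x y z 2

set_option maxRecDepth 100000 in
lemma sep_box : ∀ a < 2, ∀ b < 5, ∀ c < 3, (decide (b = 0 ∧ c = 0) || sep a b c) = true := by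
  decide +kernel

/-- The class of `2k` is only reached with no summand `g` or `h`. -/
lemma separate (a : ℕ) (ha : a < 2) (b : ℕ) (hb : b < 5) (c : ℕ) (hc : c < 3)
    (h : b ≠ 0 ∨ c ≠ 0) : ∃ x y z, isP (a + x) (b + y) (c + z) 2 ≠ isP x y z 2 := by
  have h1 := sep_box a ha b hb c hc
  rw [Bool.or_eq_true, decide_eq_true_eq] at h1
  rcases h1 with h1 | h1
  · omega
  · unfold sep at h1
    rw [List.any_eq_true] at h1
    obtain ⟨x, _, h1⟩ := h1
    rw [List.any_eq_true] at h1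
    obtain ⟨y, _, h1⟩ := h1
    rw [List.any_eq_true] at h1
    obtain ⟨z, _, h1⟩ := h1
    exact ⟨x, y, z, bne_iff_ne.mp h1⟩

lemma isP_congr {a b c d a' b' c' d' : ℕ} (ha : a % 2 = a' % 2) (hb : capG b = capG b')
    (hc : min c 2 = min c' 2) (hd : min d 2 = min d' 2) : isP a b c d = isP a' b' c' d' := by
  unfold isP
  rw [ha, hb, hc, hd]

/-- The end of helper22's proof: a class `X` of the maximal subgroup at `2k` is an N-position. -/
theorem core (X Y : ℕ × ℕ × ℕ × ℕ)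
    (hXE : ∀ Z, NN (X + (0, 0, 0, 2) + Z) ↔ NN (X + Z))
    (hXY : ∀ Z, NN (X + Y + Z) ↔ NN ((0, 0, 0, 2) + Z)) : NN X := by
  by_contra hX
  obtain ⟨a, b, c, d⟩ := X
  obtain ⟨a', b', c', d'⟩ := Y
  simp only [NN, Prod.mk_add_mk, Bool.not_eq_false] at hXE hXY hX
  -- no summand `g` or `h` in `X + Y`
  have h0 : b + b' = 0 ∧ c + c' = 0 := by
    by_contra hcon
    have hne : capG (b + b') ≠ 0 ∨ min (c + c') 2 ≠ 0 := by
      by_contra h
      push Not at h
      apply hcon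
      constructor
      · have := h.1
        unfold capG at this
        split_ifs at this <;> omega
      · have := h.2
        omega
    obtain ⟨x, y, z, hsep⟩ := separate ((a + a') % 2) (by omega) (capG (b + b'))
      (by unfold capG; split_ifs <;> omega) (min (c + c') 2) (by omega) hne
    have h1 := hXY (x, y, z, 2)
    simp only [Prod.mk_add_mk] at h1
    apply hsep
    rw [isP_congr (a' := a + a' + x) (b' := b + b' + y) (c' := c + c' + z) (d' := d + d' + 2)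
      (by omega) (by unfold capG; split_ifs <;> omega) (by omega) (by omega),
      isP_congr (a := x) (b := y) (c := z) (d := 2) (a' := 0 + x) (b' := 0 + y) (c' := 0 + z)
      (d' := 2 + 2) (by omega) (by rw [Nat.zero_add]) (by omega) (by omega)]
    rcases h2 : isP (a + a' + x) (b + b' + y) (c + c' + z) (d + d' + 2) with _ | _
    · exact (h1.mp h2).symm
    · rcases h3 : isP (0 + x) (0 + y) (0 + z) (2 + 2) with _ | _
      · rw [h1.mpr h3] at h2
        exact absurd h2 (by simp)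
      · rfl
  obtain ⟨hb, hc⟩ := h0
  have hb0 : b = 0 := by omega
  have hc0 : c = 0 := by omega
  subst hb0 hc0
  have h1 := hXE (0, 0, 0, 0)
  simp only [Prod.mk_add_mk] at h1
  -- `X + E` is an N-position
  have h2 : isP (a + 0 + 0) (0 + 0 + 0) (0 + 0 + 0) (d + 2 + 0) = false := by
    rw [isP_congr (a' := a % 2) (b' := 0) (c' := 0) (d' := 2) (by omega) rfl rfl (by omega)]
    have : ∀ r < 2, isP r 0 0 2 = false := by decide
    exact this _ (Nat.mod_lt _ (by norm_num))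
  have h3 := h1.mp h2
  simp only [Nat.add_zero] at h3
  rw [h3] at hX
  exact absurd hX (by simp)

lemma capG_capG (b x : ℕ) : capG (capG b + x) = capG (b + x) := by
  unfold capG
  split_ifs <;> omega

/-- The capped exponents. -/
def cap (v : ℕ × ℕ × ℕ × ℕ) : ℕ × ℕ × ℕ × ℕ := (v.1 % 2, capG v.2.1, min v.2.2.1 2, min v.2.2.2 2)

lemma NN_cap (v z : ℕ × ℕ × ℕ × ℕ) : NN (cap v + z) ↔ NN (v + z) := by
  obtain ⟨a, b, c, d⟩ := v
  obtain ⟨x, y, u, w⟩ := z
  unfold NN cap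
  simp only [Prod.mk_add_mk]
  rw [isP_congr (a' := a + x) (b' := b + y) (c' := c + u) (d' := d + w) (by omega)
    (capG_capG b y) (by omega) (by omega)]

lemma cap_lt (v : ℕ × ℕ × ℕ × ℕ) : (cap v).1 < 2 ∧ (cap v).2.1 < 5 ∧ (cap v).2.2.1 < 3 ∧
    (cap v).2.2.2 < 3 := by
  unfold cap capG
  simp only
  refine ⟨by omega, ?_, by omega, by omega⟩
  split_ifs <;> omega

lemma NN_idem (z : ℕ × ℕ × ℕ × ℕ) : NN ((0, 0, 0, 2) + (0, 0, 0, 2) + z) ↔ NN ((0, 0, 0, 2) + z) := by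
  rw [← NN_cap ((0, 0, 0, 2) + (0, 0, 0, 2)), ← NN_cap (0, 0, 0, 2)]
  rfl

end Pool.Agent.H56.Mis
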