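import Mathlib

/-!
# Definitions: parabolic operators H = ∂_t - ∂_x (a ∂_x) on ℝ², energy space, resolvents, p_-(H).

The space-time plane ℝ² is `ℂ` with its Euclidean structure and Lebesgue measure; the point
`z = x + i t` has space variable `x = z.re` and time variable `t = z.im`.
Mathlib's Fourier transform is `𝓕 u (ζ) = ∫ e^{-2π i z·ζ} u(z) dz` with `z·ζ` the real scalar
product, so the dual variables of the problem are `ξ = 2π ζ.re` (dual to x) and
`τ = 2π ζ.im` (dual to t).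
-/

set_option autoImplicit false

namespace Pool.Agent.H56.Para

open MeasureTheory FourierTransform
open scoped ComplexConjugate ENNReal

/-- The space-time plane ℝ²: `z.re` is the space variable `x`, `z.im` is the time variable `t`. -/
abbrev Plane : Type := ℂ

/-- `L²(ℝ²; ℂ)`. -/
abbrev L2 : Type := Lp (α := Plane) ℂ 2 (volume : Measure Plane)

/-- a function representing the class `u ∈ L²` -/
noncomputable def rep (u : L2) : Plane → ℂ := u

/-- the Fourier transform on `L²` -/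
noncomputable def four (u : L2) : L2 := 𝓕 u

/-- the inverse Fourier transform on `L²` -/
noncomputable def fourInv (u : L2) : L2 := 𝓕⁻ u

/-- the function `m · 𝓕 u` -/
noncomputable def symMul (m : Plane → ℂ) (u : L2) : Plane → ℂ := fun ζ => m ζ * rep (four u) ζ

open Classical in
/-- The Fourier multiplier `𝓕⁻¹ (m · 𝓕 u)`, for `u ∈ L²` with `m · 𝓕 u ∈ L²` (otherwise `0`). -/
noncomputable def fourierMult (m : Plane → ℂ) (u : L2) : L2 :=
  if h : MemLp (symMul m u) 2 volume then fourInv (h.toLp (symMul m u)) else 0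

/-- symbol `i ξ` of `∂_x` -/
noncomputable def symX (ζ : Plane) : ℂ := Complex.I * ((2 * Real.pi * ζ.re : ℝ) : ℂ)

/-- symbol `|τ|^{1/2}` of `D_t^{1/2}` -/
noncomputable def symHalf (ζ : Plane) : ℂ := ((|2 * Real.pi * ζ.im| ^ (1 / 2 : ℝ) : ℝ) : ℂ)

/-- symbol `i τ/|τ|` of `H_t` -/
noncomputable def symH (ζ : Plane) : ℂ := Complex.I * ((SignType.sign ζ.im : ℝ) : ℂ)

/-- The energy space `E = {u ∈ L² : ∂_x u, D_t^{1/2} u ∈ L²}`. -/
def InEnergy (u : L2) : Prop :=
  MemLp (symMul symX u) 2 volume ∧ MemLp (symMul symHalf u) 2 volume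

/-- `∂_x u` -/
noncomputable def dx (u : L2) : L2 := fourierMult symX u

/-- `D_t^{1/2} u` -/
noncomputable def dtHalf (u : L2) : L2 := fourierMult symHalf u

/-- `H_t u` -/
noncomputable def hilbertT (u : L2) : L2 := fourierMult symH u

/-- `∬ u · conj v` -/
noncomputable def scal (u v : L2) : ℂ := ∫ z, rep u z * conj (rep v z)

/-- `∬ a u · conj v` -/
noncomputable def scalW (a : Plane → ℂ) (u v : L2) : ℂ := ∫ z, a z * rep u z * conj (rep v z)

/-- The sesquilinear form
`𝓗(u)(v) = ∬ H_t D_t^{1/2} u · conj (D_t^{1/2} v) + a ∂_x u · conj (∂_x v)`. -/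
noncomputable def energyForm (a : Plane → ℂ) (u v : L2) : ℂ :=
  scal (hilbertT (dtHalf u)) (dtHalf v) + scalW a (dx u) (dx v)

/-- `w` lies in the domain of the maximal restriction of `𝓗` to `L²`, and `w + lam² 𝓗 w = f`:
`w ∈ E` and `⟨w, v⟩ + lam² 𝓗(w)(v) = ⟨f, v⟩` for all `v ∈ E`. -/
def IsResolvent (a : Plane → ℂ) (lam : ℝ) (f w : L2) : Prop :=
  InEnergy w ∧ ∀ v : L2, InEnergy v →
    scal w v + ((lam ^ 2 : ℝ) : ℂ) * energyForm a w v = scal f v

open Classical in
/-- The resolvent `𝓔_lam f = (1 + lam² 𝓗)^{-1} f`. -/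
noncomputable def resolvent (a : Plane → ℂ) (lam : ℝ) (f : L2) : L2 :=
  if h : ∃ w, IsResolvent a lam f w then h.choose else 0

/-- the `L^p` norm, with values in `[0,∞]`, of an element of `L²` -/
noncomputable def normLp (p : ℝ) (u : L2) : ℝ≥0∞ := eLpNorm (rep u) (ENNReal.ofReal p) volume

/-- The family `(𝓔_lam)_{lam > 0}` is `L^p` bounded. -/
def LpBounded (a : Plane → ℂ) (p : ℝ) : Prop :=
  ∃ C : ℝ, ∀ lam : ℝ, 0 < lam → ∀ f : L2, normLp p f < ∞ →
    normLp p (resolvent a lam f) ≤ ENNReal.ofReal C * normLp p f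

/-- `p_-(𝓗) = inf {p ∈ [1,2] : (𝓔_lam)_{lam > 0} is L^p bounded}`. -/
noncomputable def pMinus (a : Plane → ℂ) : ℝ := sInf {p : ℝ | p ∈ Set.Icc 1 2 ∧ LpBounded a p}

/-- `a` is measurable, bounded by `M`, with `Re a ≥ ν > 0`. -/
def IsElliptic (a : Plane → ℂ) (ν M : ℝ) : Prop :=
  0 < ν ∧ Measurable a ∧ (∀ z, ‖a z‖ ≤ M) ∧ ∀ z, ν ≤ (a z).re

end Pool.Agent.H56.Para
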