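import Mathlib
import Pool.Agent.H56.ParaDefs

/-!
Integrability on the plane by domination; measure of boxes; partial derivatives.
-/

set_option autoImplicit false
set_option maxHeartbeats 1000000

namespace Pool.Agent.H56.Para

open MeasureTheory Filter Topology
open scoped ENNReal

/-- the dominating function -/
noncomputable def dom (z : Plane) : ℝ := (1 + z.re ^ 2)⁻¹ * (1 + z.im ^ 2)⁻¹

lemma dom_integrable : Integrable dom volume := by
  have h1 : Integrable (fun q : ℝ × ℝ => (1 + q.1 ^ 2)⁻¹ * (1 + q.2 ^ 2)⁻¹) volume := by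
    rw [Measure.volume_eq_prod]
    exact integrable_inv_one_add_sq.mul_prod integrable_inv_one_add_sq
  exact Complex.volume_preserving_equiv_real_prod.integrable_comp_of_integrable h1

lemma dom_pos (z : Plane) : 0 < dom z := by
  unfold dom
  positivity

lemma dom_le_one (z : Plane) : dom z ≤ 1 := by
  unfold dom
  have h1 : (1 + z.re ^ 2)⁻¹ ≤ 1 := inv_le_one_of_one_le₀ (by nlinarith [sq_nonneg (z.re)])
  have h2 : (1 + z.im ^ 2)⁻¹ ≤ 1 := inv_le_one_of_one_le₀ (by nlinarith [sq_nonneg (z.im)])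
  have h3 : 0 ≤ (1 + z.im ^ 2)⁻¹ := by positivity
  nlinarith

lemma memLp_of_dom {F : Plane → ℂ} (hF : AEStronglyMeasurable F volume) {K : ℝ}
    (hK : ∀ z, ‖F z‖ ≤ K * dom z) {p : ℝ} (hp : 1 ≤ p) : MemLp F (ENNReal.ofReal p) volume := by
  have hp0 : ENNReal.ofReal p ≠ 0 := by
    simp
    linarith
  have hpt : ENNReal.ofReal p ≠ ∞ := ENNReal.ofReal_ne_top
  rw [← integrable_norm_rpow_iff hF hp0 hpt, ENNReal.toReal_ofReal (by linarith)]
  have hK0 : 0 ≤ K := by
    have h1 := (norm_nonneg _).trans (hK 0)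
    exact nonneg_of_mul_nonneg_left h1 (dom_pos 0)
  apply Integrable.mono' (dom_integrable.const_mul (K ^ p))
  · exact (hF.norm.aemeasurable.pow_const p).aestronglyMeasurable
  · filter_upwards with z
    rw [Real.norm_eq_abs, abs_of_nonneg (by positivity)]
    have h1 : ‖F z‖ ^ p ≤ (K * dom z) ^ p :=
      Real.rpow_le_rpow (norm_nonneg _) (hK z) (by linarith)
    have h2 : (K * dom z) ^ p = K ^ p * dom z ^ p := Real.mul_rpow hK0 (dom_pos z).le
    have h3 : dom z ^ p ≤ dom z := by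
      have := Real.rpow_le_rpow_of_exponent_ge (dom_pos z) (dom_le_one z) hp
      rwa [Real.rpow_one] at this
    have h4 : 0 ≤ K ^ p := Real.rpow_nonneg hK0 _
    rw [h2] at h1
    exact h1.trans (mul_le_mul_of_nonneg_left h3 h4)

lemma memLp_two_of_dom {F : Plane → ℂ} (hF : AEStronglyMeasurable F volume) {K : ℝ}
    (hK : ∀ z, ‖F z‖ ≤ K * dom z) : MemLp F 2 volume := by
  have h := memLp_of_dom hF hK (p := 2) (by norm_num)
  have h3 : ENNReal.ofReal 2 = (2 : ℝ≥0∞) := by norm_num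
  rwa [h3] at h

/-- a box -/
def box (x₁ x₂ t₁ t₂ : ℝ) : Set Plane := {z | (x₁ ≤ z.re ∧ z.re ≤ x₂) ∧ (t₁ ≤ z.im ∧ z.im ≤ t₂)}

lemma box_eq (x₁ x₂ t₁ t₂ : ℝ) : box x₁ x₂ t₁ t₂ =
    Complex.measurableEquivRealProd ⁻¹' (Set.Icc x₁ x₂ ×ˢ Set.Icc t₁ t₂) := by
  ext z
  simp [box, Complex.measurableEquivRealProd]
  tauto

lemma measurableSet_box (x₁ x₂ t₁ t₂ : ℝ) : MeasurableSet (box x₁ x₂ t₁ t₂) := by
  rw [box_eq]
  exact Complex.measurableEquivRealProd.measurable (measurableSet_Icc.prod measurableSet_Icc)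

lemma volume_box (x₁ x₂ t₁ t₂ : ℝ) :
    volume (box x₁ x₂ t₁ t₂) = ENNReal.ofReal (x₂ - x₁) * ENNReal.ofReal (t₂ - t₁) := by
  rw [box_eq, Complex.volume_preserving_equiv_real_prod.measure_preimage
    (measurableSet_Icc.prod measurableSet_Icc).nullMeasurableSet, Measure.volume_eq_prod,
    Measure.prod_prod, Real.volume_Icc, Real.volume_Icc]

/-- lower bound for a norm from a lower bound on a box -/
lemma eLpNorm_ge_box {F : Plane → ℂ} {x₁ x₂ t₁ t₂ m p : ℝ} (hp : 1 ≤ p) (hm : 0 ≤ m)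
    (hF : ∀ z ∈ box x₁ x₂ t₁ t₂, m ≤ ‖F z‖) :
    ENNReal.ofReal m * (ENNReal.ofReal (x₂ - x₁) * ENNReal.ofReal (t₂ - t₁)) ^ (1 / p) ≤
      eLpNorm F (ENNReal.ofReal p) volume := by
  have hp0 : ENNReal.ofReal p ≠ 0 := by
    simp
    linarith
  have hpt : ENNReal.ofReal p ≠ ∞ := ENNReal.ofReal_ne_top
  have h1 : eLpNorm ((box x₁ x₂ t₁ t₂).indicator (fun _ => m)) (ENNReal.ofReal p) volume ≤
      eLpNorm F (ENNReal.ofReal p) volume := by
    apply eLpNorm_mono
    intro z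
    by_cases hz : z ∈ box x₁ x₂ t₁ t₂
    · rw [Set.indicator_of_mem hz, Real.norm_eq_abs, abs_of_nonneg hm]
      exact hF z hz
    · rw [Set.indicator_of_notMem hz, norm_zero]
      exact norm_nonneg _
  rw [eLpNorm_indicator_const (measurableSet_box _ _ _ _) hp0 hpt, volume_box,
    ENNReal.toReal_ofReal (by linarith)] at h1
  have h2 : ‖m‖ₑ = ENNReal.ofReal m := Real.enorm_of_nonneg hm
  rwa [h2] at h1

/-- partial derivative in `x` as a line derivative -/
lemma lineDeriv_x {Φ : ℝ → ℝ → ℂ} {D : ℂ} {z : Plane}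
    (h : HasDerivAt (fun x => Φ x (z.im)) D (z.re)) :
    HasLineDerivAt ℝ (fun z : Plane => Φ (z.re) (z.im)) D z (1 : Plane) := by
  unfold HasLineDerivAt
  have h1 : (fun s : ℝ => Φ ((z + s • (1 : Plane) : Plane).re)
      ((z + s • (1 : Plane) : Plane).im)) = fun s => Φ (z.re + s) (z.im) := by
    funext s
    simp
  rw [h1]
  have h2 : HasDerivAt (fun x => Φ x (z.im)) D (z.re + 0) := by rwa [add_zero]
  exact h2.comp_const_add (z.re) 0

/-- partial derivative in `t` as a line derivative -/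
lemma lineDeriv_t {Φ : ℝ → ℝ → ℂ} {D : ℂ} {z : Plane}
    (h : HasDerivAt (fun t => Φ (z.re) t) D (z.im)) :
    HasLineDerivAt ℝ (fun z : Plane => Φ (z.re) (z.im)) D z (Complex.I : Plane) := by
  unfold HasLineDerivAt
  have h1 : (fun s : ℝ => Φ ((z + s • (Complex.I : Plane) : Plane).re)
      ((z + s • (Complex.I : Plane) : Plane).im)) = fun s => Φ (z.re) (z.im + s) := by
    funext s
    simp
  rw [h1]
  have h2 : HasDerivAt (fun t => Φ (z.re) t) D (z.im + 0) := by rwa [add_zero]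
  exact h2.comp_const_add (z.im) 0

end Pool.Agent.H56.Para
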