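import Mathlib
import Pool.Agent.H56.ParaMeas

/-!
Self-similar fields `ρ(t) t^α P(x/√t)`: bounds and derivatives.
-/

set_option autoImplicit false
set_option maxHeartbeats 1000000

namespace Pool.Agent.H56.Para

open MeasureTheory Filter Topology
open scoped ENNReal

/-- `ρ(t) t^α P(x/√t)` -/
noncomputable def fld (ρ : ℝ → ℝ) (α : ℝ) (P : ℝ → ℂ) (x t : ℝ) : ℂ :=
  ((ρ t * t ^ α : ℝ) : ℂ) * P (x / Real.sqrt t)

lemma fld_measurable {ρ : ℝ → ℝ} (α : ℝ) {P : ℝ → ℂ} (hρ : Measurable ρ) (hP : Measurable P) :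
    Measurable (fun z : Plane => fld ρ α P z.re z.im) := by
  unfold fld
  have h0 : Measurable (fun z : Plane => z.re) := by fun_prop
  have h1 : Measurable (fun z : Plane => z.im) := by fun_prop
  have h2 : Measurable (fun z : Plane => z.re / Real.sqrt z.im) := h0.div h1.sqrt
  have h3 : Measurable (fun z : Plane => ρ z.im * z.im ^ α) :=
    (hρ.comp h1).mul (h1.pow_const α)
  exact (Complex.measurable_ofReal.comp h3).mul (hP.comp h2)

lemma exp_dom {μ t : ℝ} (hμ : 0 < μ) (ht : 1 ≤ t) :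
    Real.exp (-(μ * t)) * t ^ 2 ≤ 48 / μ ^ 4 * (1 + t ^ 2)⁻¹ := by
  have h1 : (μ * t) ^ 4 / (Nat.factorial 4 : ℝ) ≤ Real.exp (μ * t) :=
    Real.pow_div_factorial_le_exp (μ * t) (by positivity) 4
  have h2 : (Nat.factorial 4 : ℝ) = 24 := by norm_num [Nat.factorial]
  rw [h2] at h1
  have h3 : Real.exp (-(μ * t)) * Real.exp (μ * t) = 1 := by
    rw [← Real.exp_add]
    simp
  have h4 : 0 < Real.exp (-(μ * t)) := Real.exp_pos _
  have h5 : 0 < μ ^ 4 := by positivity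
  have h6 : Real.exp (-(μ * t)) * (μ ^ 4 * t ^ 4) ≤ 24 := by
    have := mul_le_mul_of_nonneg_left h1 h4.le
    rw [h3, mul_pow] at this
    linarith
  rw [div_mul_eq_mul_div, le_div_iff₀ h5]
  rw [← div_eq_mul_inv, le_div_iff₀ (by positivity)]
  have h7 : t ^ 2 * (1 + t ^ 2) ≤ 2 * t ^ 4 := by
    have h9 : 1 ≤ t ^ 2 := by nlinarith
    nlinarith [mul_nonneg (sq_nonneg t) (sub_nonneg.2 h9)]
  have h8 : Real.exp (-(μ * t)) * μ ^ 4 * (t ^ 2 * (1 + t ^ 2)) ≤
      Real.exp (-(μ * t)) * μ ^ 4 * (2 * t ^ 4) :=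
    mul_le_mul_of_nonneg_left h7 (by positivity)
  nlinarith

lemma fld_bound {ρ : ℝ → ℝ} {α : ℝ} {P : ℝ → ℂ} {K μ C : ℝ} (hμ : 0 < μ) (hα : α ≤ 1)
    (hρ0 : ∀ t, t < 1 → ρ t = 0) (hρ : ∀ t, 1 ≤ t → |ρ t| ≤ K * Real.exp (-(μ * t)))
    (hP : ∀ y, (1 + y ^ 2) * ‖P y‖ ≤ C) (z : Plane) :
    ‖fld ρ α P z.re z.im‖ ≤ (K * C * (48 / μ ^ 4)) * dom z := by
  set x := z.re with hx
  set t := z.im with ht
  have hC : 0 ≤ C := le_trans (by positivity) (hP 0)
  have hK : 0 ≤ K := by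
    have h1 := (abs_nonneg _).trans (hρ 1 le_rfl)
    exact nonneg_of_mul_nonneg_left h1 (Real.exp_pos _)
  unfold dom
  rw [← hx, ← ht]
  rcases lt_or_ge t 1 with h | h
  · unfold fld
    rw [hρ0 t h]
    simp only [zero_mul, Complex.ofReal_zero, norm_zero]
    positivity
  · have ht0 : 0 < t := by linarith
    unfold fld
    rw [norm_mul, Complex.norm_real, Real.norm_eq_abs, abs_mul,
      abs_of_pos (Real.rpow_pos_of_pos ht0 α)]
    have h1 : t ^ α ≤ t := by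
      have := Real.rpow_le_rpow_of_exponent_le h hα
      rwa [Real.rpow_one] at this
    have h2 := hP (x / Real.sqrt t)
    have h3 : (x / Real.sqrt t) ^ 2 = x ^ 2 / t := by
      rw [div_pow, Real.sq_sqrt ht0.le]
    rw [h3] at h2
    have h4 : (1 + x ^ 2) ≤ t * (1 + x ^ 2 / t) := by
      have : t * (1 + x ^ 2 / t) = t + x ^ 2 := by field_simp
      rw [this]
      linarith
    have h5 : ‖P (x / Real.sqrt t)‖ ≤ C * t * (1 + x ^ 2)⁻¹ := by
      rw [← div_eq_mul_inv, le_div_iff₀ (by positivity)]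
      have h6 := norm_nonneg (P (x / Real.sqrt t))
      calc ‖P (x / Real.sqrt t)‖ * (1 + x ^ 2) ≤ ‖P (x / Real.sqrt t)‖ * (t * (1 + x ^ 2 / t)) :=
            mul_le_mul_of_nonneg_left h4 h6
        _ = ((1 + x ^ 2 / t) * ‖P (x / Real.sqrt t)‖) * t := by ring
        _ ≤ C * t := mul_le_mul_of_nonneg_right h2 ht0.le
    have h7 := exp_dom hμ h
    have h8 : |ρ t| * t ^ α ≤ K * Real.exp (-(μ * t)) * t :=
      mul_le_mul (hρ t h) h1 (Real.rpow_nonneg ht0.le _) (by positivity)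
    calc |ρ t| * t ^ α * ‖P (x / Real.sqrt t)‖
        ≤ (K * Real.exp (-(μ * t)) * t) * (C * t * (1 + x ^ 2)⁻¹) :=
          mul_le_mul h8 h5 (norm_nonneg _) (by positivity)
      _ = (K * C * (1 + x ^ 2)⁻¹) * (Real.exp (-(μ * t)) * t ^ 2) := by ring
      _ ≤ (K * C * (1 + x ^ 2)⁻¹) * (48 / μ ^ 4 * (1 + t ^ 2)⁻¹) :=
          mul_le_mul_of_nonneg_left h7 (by positivity)
      _ = (K * C * (48 / μ ^ 4)) * ((1 + x ^ 2)⁻¹ * (1 + t ^ 2)⁻¹) := by ring

lemma fld_deriv_x {ρ : ℝ → ℝ} {α : ℝ} {P P' : ℝ → ℂ} (hρ0 : ∀ t, t < 1 → ρ t = 0)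
    (hP : ∀ y, HasDerivAt P (P' y) y) (x t : ℝ) :
    HasDerivAt (fun x => fld ρ α P x t) (fld ρ (α - 1 / 2) P' x t) x := by
  unfold fld
  rcases lt_or_ge t 1 with h | h
  · rw [hρ0 t h]
    simp only [zero_mul, Complex.ofReal_zero]
    exact hasDerivAt_const _ _
  · have ht0 : 0 < t := by linarith
    have h1 : HasDerivAt (fun x : ℝ => x / Real.sqrt t) (1 / Real.sqrt t) x :=
      (hasDerivAt_id x).div_const _
    have h2 := HasDerivAt.scomp x (hP (x / Real.sqrt t)) h1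
    have h3 := h2.const_mul ((ρ t * t ^ α : ℝ) : ℂ)
    refine h3.congr_deriv ?_
    have h4 : t ^ (α - 1 / 2) = t ^ α * (1 / Real.sqrt t) := by
      rw [Real.rpow_sub ht0, Real.sqrt_eq_rpow]
      ring
    rw [h4, Complex.real_smul]
    push_cast
    ring

lemma fld_deriv_t {ρ ρ' : ℝ → ℝ} {α : ℝ} {P P' : ℝ → ℂ} (hρ0 : ∀ t, t < 1 → ρ t = 0)
    (hρ'0 : ∀ t, t < 1 → ρ' t = 0)
    (hρ : ∀ t, HasDerivAt ρ (ρ' t) t) (hP : ∀ y, HasDerivAt P (P' y) y) (x t : ℝ) :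
    HasDerivAt (fun t => fld ρ α P x t) (fld ρ' α P x t +
      fld ρ (α - 1) (fun y => (α : ℂ) * P y - y / 2 * P' y) x t) t := by
  rcases lt_or_ge t 1 with h | h
  · have h1 : (fun t => fld ρ α P x t) =ᶠ[𝓝 t] fun _ => 0 := by
      filter_upwards [gt_mem_nhds h] with s hs
      unfold fld
      rw [hρ0 s hs]
      simp
    have h2 : fld ρ' α P x t + fld ρ (α - 1) (fun y => (α : ℂ) * P y - y / 2 * P' y) x t = 0 := by
      unfold fld
      rw [hρ0 t h, hρ'0 t h]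
      simp
    rw [h2]
    exact (hasDerivAt_const t (0:ℂ)).congr_of_eventuallyEq h1
  · have ht0 : 0 < t := by linarith
    unfold fld
    have h1 : HasDerivAt (fun t : ℝ => t ^ α) (α * t ^ (α - 1)) t :=
      Real.hasDerivAt_rpow_const (Or.inl ht0.ne')
    have h2 : HasDerivAt (fun t : ℝ => ρ t * t ^ α) (ρ' t * t ^ α + ρ t * (α * t ^ (α - 1))) t :=
      (hρ t).fun_mul h1
    have h3 : HasDerivAt (fun t : ℝ => x / Real.sqrt t)
        (-(x / Real.sqrt t) / (2 * t)) t := by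
      have h4 := (Real.hasDerivAt_sqrt ht0.ne')
      have h5 : Real.sqrt t ≠ 0 := (Real.sqrt_pos.2 ht0).ne'
      have h6 := (hasDerivAt_const t x).fun_div h4 h5
      refine h6.congr_deriv ?_
      have h7 := Real.sq_sqrt ht0.le
      rw [h7]
      rw [zero_mul, zero_sub]
      field_simp
    have h4 := HasDerivAt.scomp t (hP (x / Real.sqrt t)) h3
    have h5 := h2.ofReal_comp.fun_mul h4
    refine h5.congr_deriv ?_
    have h6 : t ^ α = t ^ (α - 1) * t := by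
      rw [← Real.rpow_add_one ht0.ne']
      congr 1
      ring
    rw [Complex.real_smul]
    simp only [Function.comp_apply]
    have ht' : (t : ℂ) ≠ 0 := by exact_mod_cast ht0.ne'
    rw [h6]
    push_cast
    field_simp
    ring

end Pool.Agent.H56.Para
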