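import Mathlib
import Pool.Agent.H56.ParaDefs

/-!
Fourier transform of a derivative, for L² functions.
-/

set_option autoImplicit false

namespace Pool.Agent.H56.Para

open MeasureTheory FourierTransform SchwartzMap LineDeriv
open scoped ComplexConjugate ENNReal

lemma inner_one_right' (ζ : Plane) : (inner ℝ ζ (1 : Plane) : ℝ) = ζ.re := by
  simp [Complex.inner]

lemma inner_I_right' (ζ : Plane) : (inner ℝ ζ (Complex.I : Plane) : ℝ) = ζ.im := by
  simp [Complex.inner]

/-- weak derivative: from pointwise line derivatives to tempered distributions -/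
lemma weak_deriv {f g : L2} {F G : Plane → ℂ} (hf : f =ᵐ[volume] F) (hg : g =ᵐ[volume] G)
    (m : Plane) (hd : ∀ z, HasLineDerivAt ℝ F (G z) z m) :
    (∂_{m} (f : 𝓢'(Plane, ℂ)) : 𝓢'(Plane, ℂ)) = (g : 𝓢'(Plane, ℂ)) := by
  ext φ
  rw [TemperedDistribution.lineDerivOp_apply_apply, Lp.toTemperedDistribution_apply,
    Lp.toTemperedDistribution_apply]
  have hF : MemLp F 2 volume := (memLp_congr_ae hf).1 (Lp.memLp f)
  have hG : MemLp G 2 volume := (memLp_congr_ae hg).1 (Lp.memLp g)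
  have hφ : MemLp φ 2 volume := φ.memLp 2
  have hφ' : MemLp (∂_{m} φ : 𝓢(Plane, ℂ)) 2 volume := (∂_{m} φ : 𝓢(Plane, ℂ)).memLp 2 volume
  have h1 : ∫ x, (-(∂_{m} φ : 𝓢(Plane, ℂ))) x • f x = - ∫ x, (∂_{m} φ : 𝓢(Plane, ℂ)) x * F x := by
    rw [← integral_neg]
    apply integral_congr_ae
    filter_upwards [hf] with x hx
    rw [hx]
    simp
  have h2 : ∫ x, φ x • g x = ∫ x, φ x * G x := by
    apply integral_congr_ae
    filter_upwards [hg] with x hx
    rw [hx, smul_eq_mul]
  rw [h1, h2]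
  have h3 := integral_bilinear_hasLineDerivAt_right_eq_neg_left_of_integrable
    (μ := (volume : Measure Plane)) (f := fun x => φ x) (f' := fun x => (∂_{m} φ : 𝓢(Plane, ℂ)) x)
    (g := F) (g' := G) (v := m) (B := ContinuousLinearMap.mul ℝ ℂ)
    (hφ'.integrable_mul hF) (hφ.integrable_mul hG) (hφ.integrable_mul hF)
    (fun x _ => by
      have : DifferentiableAt ℝ φ x := φ.differentiableAt
      have h4 := this.hasFDerivAt.hasLineDerivAt m
      rw [SchwartzMap.lineDerivOp_apply_eq_fderiv]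
      exact h4)
    (fun x _ => hd x)
  simp only [ContinuousLinearMap.mul_apply'] at h3
  rw [h3]

lemma fourier_deriv {f g : L2} {F G : Plane → ℂ} (hf : f =ᵐ[volume] F) (hg : g =ᵐ[volume] G)
    (m : Plane) (hd : ∀ z, HasLineDerivAt ℝ F (G z) z m) :
    (𝓕 g : L2) =ᵐ[volume] fun ζ =>
      Complex.I * ((2 * Real.pi * inner ℝ ζ m : ℝ) : ℂ) * (𝓕 f : L2) ζ := by
  have h1 := weak_deriv hf hg _ hd
  have h2 := congrArg (fun T : 𝓢'(Plane, ℂ) => 𝓕 T) h1
  rw [TemperedDistribution.fourier_lineDerivOp_eq, Lp.fourier_toTemperedDistribution_eq,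
    Lp.fourier_toTemperedDistribution_eq] at h2
  apply ae_eq_of_integral_contDiff_smul_eq
  · exact (Lp.memLp _).locallyIntegrable (by norm_num)
  · have h3 : LocallyIntegrable (𝓕 f : L2) volume := (Lp.memLp _).locallyIntegrable (by norm_num)
    have h4 : Continuous (fun ζ : Plane => Complex.I * ((2 * Real.pi * inner ℝ ζ m : ℝ) : ℂ)) := by fun_prop
    rw [locallyIntegrable_iff] at h3 ⊢
    intro K hK
    exact (h3 K hK).continuousOn_mul h4.continuousOn hK
  · intro φ hφ1 hφ2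
    have hg₁ : HasCompactSupport (Complex.ofRealCLM ∘ φ) := hφ2.comp_left rfl
    have hg₂ : ContDiff ℝ (⊤ : ℕ∞) (Complex.ofRealCLM ∘ φ) := by fun_prop
    have h3 := congrArg (fun T : 𝓢'(Plane, ℂ) => T (hg₁.toSchwartzMap hg₂)) h2
    have htg : (fun x : Plane => ((inner ℝ x m : ℝ) : ℂ)).HasTemperateGrowth := by
      fun_prop
    have h5 : ∫ x, φ x • (𝓕 g : L2) x = ((𝓕 g : L2) : 𝓢'(Plane, ℂ)) (hg₁.toSchwartzMap hg₂) := by
      rw [Lp.toTemperedDistribution_apply]
      apply integral_congr_ae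
      filter_upwards with x
      simp
    rw [h5]
    refine Eq.trans h3.symm ?_
    change (2 * Real.pi * Complex.I) • ((TemperedDistribution.smulLeftCLM ℂ
          (fun x : Plane => ((inner ℝ x m : ℝ) : ℂ)))
          ((𝓕 f : L2) : 𝓢'(Plane, ℂ))) (hg₁.toSchwartzMap hg₂) = _
    rw [TemperedDistribution.smulLeftCLM_apply_apply, Lp.toTemperedDistribution_apply,
      ← integral_smul]
    apply integral_congr_ae
    filter_upwards with x
    rw [SchwartzMap.smulLeftCLM_apply_apply htg]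
    simp
    ring

lemma fourier_deriv_x {f g : L2} {F G : Plane → ℂ} (hf : f =ᵐ[volume] F) (hg : g =ᵐ[volume] G)
    (hd : ∀ z, HasLineDerivAt ℝ F (G z) z (1 : Plane)) :
    (𝓕 g : L2) =ᵐ[volume] fun ζ => symX ζ * (𝓕 f : L2) ζ := by
  have h := fourier_deriv hf hg 1 hd
  filter_upwards [h] with ζ e
  rw [e, inner_one_right']
  rfl

lemma fourier_deriv_t {f g : L2} {F G : Plane → ℂ} (hf : f =ᵐ[volume] F) (hg : g =ᵐ[volume] G)
    (hd : ∀ z, HasLineDerivAt ℝ F (G z) z (Complex.I : Plane)) :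
    (𝓕 g : L2) =ᵐ[volume] fun ζ =>
      Complex.I * ((2 * Real.pi * ζ.im : ℝ) : ℂ) * (𝓕 f : L2) ζ := by
  have h := fourier_deriv hf hg Complex.I hd
  filter_upwards [h] with ζ e
  rw [e, inner_I_right']

end Pool.Agent.H56.Para
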