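import Mathlib
import Pool.Agent.H56.ParaFourier

/-!
The energy form: evaluation, accretivity, uniqueness of the resolvent.
-/

set_option autoImplicit false

namespace Pool.Agent.H56.Para

open MeasureTheory FourierTransform
open scoped ComplexConjugate ENNReal

lemma scal_eq (u v : L2) : scal u v = inner ℂ v u := by
  unfold scal rep
  rw [MeasureTheory.L2.inner_def]
  apply integral_congr_ae
  filter_upwards with z
  rw [RCLike.inner_apply]

lemma int_conj (u v : L2) : ∫ z, u z * conj (v z) = inner ℂ v u := by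
  rw [MeasureTheory.L2.inner_def]
  apply integral_congr_ae
  filter_upwards with z
  rw [RCLike.inner_apply]

lemma int_conj_integrable (u v : L2) : Integrable (fun z => u z * conj (v z)) volume := by
  have h1 : MemLp (fun z => conj (v z)) 2 (volume : Measure Plane) := (Lp.memLp v).star
  exact (Lp.memLp u).integrable_mul h1

lemma int_conj_fourier (u v : L2) :
    ∫ z, u z * conj (v z) = ∫ ζ, (𝓕 u : L2) ζ * conj ((𝓕 v : L2) ζ) := by
  rw [int_conj, int_conj, Lp.inner_fourier_eq]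

lemma fourier_fourierMult {m : Plane → ℂ} {u : L2}
    (h : MemLp (fun ζ => m ζ * (𝓕 u : L2) ζ) 2 volume) :
    (𝓕 (fourierMult m u) : L2) =ᵐ[volume] fun ζ => m ζ * (𝓕 u : L2) ζ := by
  unfold fourierMult
  have h' : MemLp (symMul m u) 2 volume := h
  rw [dif_pos h']
  unfold fourInv
  rw [fourier_fourierInv_eq]
  exact h'.coeFn_toLp

lemma fourierMult_eq {m : Plane → ℂ} {u g : L2}
    (h : (𝓕 g : L2) =ᵐ[volume] fun ζ => m ζ * (𝓕 u : L2) ζ) :
    MemLp (fun ζ => m ζ * (𝓕 u : L2) ζ) 2 volume ∧ fourierMult m u = g := by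
  have h1 : MemLp (fun ζ => m ζ * (𝓕 u : L2) ζ) 2 volume := (memLp_congr_ae h).1 (Lp.memLp _)
  refine ⟨h1, ?_⟩
  have h2 := fourier_fourierMult h1
  have h3 : (𝓕 (fourierMult m u) : L2) = 𝓕 g := Lp.ext (h2.trans h.symm)
  have h4 := congrArg (fun x : L2 => (𝓕⁻ x : L2)) h3
  rwa [fourierInv_fourier_eq, fourierInv_fourier_eq] at h4

lemma fourierMult_sub {m : Plane → ℂ} {u v : L2}
    (hu : MemLp (fun ζ => m ζ * (𝓕 u : L2) ζ) 2 volume)
    (hv : MemLp (fun ζ => m ζ * (𝓕 v : L2) ζ) 2 volume) :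
    MemLp (fun ζ => m ζ * (𝓕 (u - v) : L2) ζ) 2 volume ∧
      fourierMult m (u - v) = fourierMult m u - fourierMult m v := by
  apply fourierMult_eq
  have h1 : (𝓕 (fourierMult m u - fourierMult m v) : L2) =
      𝓕 (fourierMult m u) - 𝓕 (fourierMult m v) := (Lp.fourierTransformₗᵢ Plane ℂ).map_sub _ _
  have h2 : (𝓕 (u - v) : L2) = 𝓕 u - 𝓕 v := (Lp.fourierTransformₗᵢ Plane ℂ).map_sub _ _
  rw [h1, h2]
  filter_upwards [Lp.coeFn_sub (𝓕 (fourierMult m u) : L2) (𝓕 (fourierMult m v)),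
    Lp.coeFn_sub (𝓕 u : L2) (𝓕 v), fourier_fourierMult hu, fourier_fourierMult hv]
    with ζ e1 e2 e3 e4
  rw [e1, e2, Pi.sub_apply, Pi.sub_apply, e3, e4]
  ring

lemma conj_symX (ζ : Plane) : conj (symX ζ) = - symX ζ := by
  unfold symX
  rw [map_mul, Complex.conj_I, Complex.conj_ofReal]
  ring

lemma conj_symHalf (ζ : Plane) : conj (symHalf ζ) = symHalf ζ := by
  unfold symHalf
  rw [Complex.conj_ofReal]

lemma symHalf_sq (ζ : Plane) : symHalf ζ * symHalf ζ = ((|2 * Real.pi * ζ.im| : ℝ) : ℂ) := by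
  unfold symHalf
  rw [← Complex.ofReal_mul]
  congr 1
  rw [← Real.rpow_add_of_nonneg (abs_nonneg _) (by norm_num) (by norm_num)]
  norm_num

lemma sign_mul_abs_pi (ζ : Plane) : ((SignType.sign (ζ.im) : ℝ)) * |2 * Real.pi * ζ.im| =
    2 * Real.pi * ζ.im := by
  have h : |2 * Real.pi * ζ.im| = 2 * Real.pi * |ζ.im| := by
    rw [abs_mul, abs_of_pos Real.two_pi_pos]
  rw [h]
  have := sign_mul_abs (ζ.im)
  linear_combination (2 * Real.pi) * this

lemma symH_symHalf (ζ : Plane) : symH ζ * (symHalf ζ * symHalf ζ) =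
    Complex.I * ((2 * Real.pi * ζ.im : ℝ) : ℂ) := by
  rw [symHalf_sq]
  unfold symH
  rw [mul_assoc, ← Complex.ofReal_mul, sign_mul_abs_pi]

lemma measurable_symHalf : Measurable symHalf := by
  unfold symHalf
  fun_prop

lemma measurable_symX : Measurable symX := by
  unfold symX
  fun_prop

lemma measurable_symH : Measurable symH := by
  unfold symH
  have h : Measurable (fun x : ℝ => ((SignType.sign x : ℝ))) := by
    have h1 : (fun x : ℝ => ((SignType.sign x : ℝ))) =
      fun x => if 0 < x then 1 else if x < 0 then -1 else 0 := by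
      funext x
      rw [sign_apply]
      split_ifs <;> simp
    rw [h1]
    exact Measurable.ite measurableSet_Ioi measurable_const
      (Measurable.ite measurableSet_Iio measurable_const measurable_const)
  exact measurable_const.mul (Complex.measurable_ofReal.comp (h.comp (by fun_prop)))

lemma norm_symH_le (ζ : Plane) : ‖symH ζ‖ ≤ 1 := by
  unfold symH
  rw [norm_mul, Complex.norm_I, one_mul, Complex.norm_real]
  rcases lt_trichotomy (ζ.im) 0 with h | h | h
  · simp [h]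
  · simp [h]
  · simp [h]

lemma memLp_symH (u : L2) : MemLp (fun ζ => symH ζ * (𝓕 u : L2) ζ) 2 volume := by
  apply MemLp.of_le (Lp.memLp (𝓕 u : L2))
  · exact (measurable_symH.aestronglyMeasurable).mul (Lp.aestronglyMeasurable _)
  · filter_upwards with ζ
    rw [norm_mul]
    have := norm_symH_le ζ
    nlinarith [norm_nonneg ((𝓕 u : L2) ζ)]

/-- the time part of the form -/
lemma time_part {w v : L2} (hw : InEnergy w) (hv : InEnergy v) :
    ∫ z, hilbertT (dtHalf w) z * conj (dtHalf v z) =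
      ∫ ζ, (Complex.I * ((2 * Real.pi * ζ.im : ℝ) : ℂ)) * (𝓕 w : L2) ζ * conj ((𝓕 v : L2) ζ) := by
  rw [int_conj_fourier]
  apply integral_congr_ae
  have h1 := fourier_fourierMult hw.2
  have h2 := fourier_fourierMult hv.2
  have h3 := fourier_fourierMult (memLp_symH (dtHalf w))
  filter_upwards [h1, h2, h3] with ζ e1 e2 e3
  unfold hilbertT dtHalf
  unfold dtHalf at e3
  rw [e3, e2, e1, map_mul, conj_symHalf, ← symH_symHalf]
  ring

lemma time_integrable (w v : L2) :
    Integrable (fun z => hilbertT (dtHalf w) z * conj (dtHalf v z)) volume :=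
  int_conj_integrable _ _

lemma space_integrable {a : Plane → ℂ} {ν M : ℝ} (ha : IsElliptic a ν M) (w v : L2) :
    Integrable (fun z => a z * dx w z * conj (dx v z)) volume := by
  have h1 : MemLp (fun z => a z * dx w z) 2 (volume : Measure Plane) := by
    have h2 := (Lp.memLp (dx w)).const_mul (M : ℂ)
    apply MemLp.of_le h2
    · exact (ha.2.1.aestronglyMeasurable).mul (Lp.aestronglyMeasurable _)
    · filter_upwards with z
      rw [norm_mul, norm_mul]
      have h3 := ha.2.2.1 z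
      have h4 : ‖(M : ℂ)‖ = M := by
        rw [Complex.norm_real, Real.norm_eq_abs, abs_of_nonneg ((norm_nonneg _).trans h3)]
      rw [h4]
      exact mul_le_mul_of_nonneg_right h3 (norm_nonneg _)
  have h2 : MemLp (fun z => conj (dx v z)) 2 (volume : Measure Plane) := (Lp.memLp (dx v)).star
  exact h1.integrable_mul h2

lemma energyForm_eq (a : Plane → ℂ) (w v : L2) :
    energyForm a w v = (∫ z, hilbertT (dtHalf w) z * conj (dtHalf v z)) +
      ∫ z, a z * dx w z * conj (dx v z) := rfl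

/-- Evaluation of the form on a function with `∂_t w`, `∂_x (a ∂_x w)` in `L²`. -/
lemma energyForm_eval {a : Plane → ℂ} {w wx wt G Gx : L2}
    (hwx : (𝓕 wx : L2) =ᵐ[volume] fun ζ => symX ζ * (𝓕 w : L2) ζ)
    (hwt : (𝓕 wt : L2) =ᵐ[volume] fun ζ => (Complex.I * ((2 * Real.pi * ζ.im : ℝ) : ℂ)) * (𝓕 w : L2) ζ)
    (hG : G =ᵐ[volume] fun z => a z * wx z)
    (hGx : (𝓕 Gx : L2) =ᵐ[volume] fun ζ => symX ζ * (𝓕 G : L2) ζ) :
    InEnergy w ∧ ∀ v : L2, InEnergy v →
      energyForm a w v = ∫ z, (wt - Gx : L2) z * conj (v z) := by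
  obtain ⟨h1, hdx⟩ := fourierMult_eq hwx
  have h2 : MemLp (fun ζ => symHalf ζ * (𝓕 w : L2) ζ) 2 volume := by
    have hA : MemLp (fun ζ => ‖(𝓕 w : L2) ζ‖ + ‖(𝓕 wt : L2) ζ‖) 2 (volume : Measure Plane) :=
      (Lp.memLp (𝓕 w : L2)).norm.add (Lp.memLp (𝓕 wt : L2)).norm
    apply MemLp.mono' hA
    · exact (measurable_symHalf.aestronglyMeasurable).mul (Lp.aestronglyMeasurable _)
    · filter_upwards [hwt] with ζ e1
      rw [e1, norm_mul, norm_mul, norm_mul, Complex.norm_I, one_mul, Complex.norm_real]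
      unfold symHalf
      rw [Complex.norm_real, Real.norm_eq_abs, Real.norm_eq_abs]
      set x := |2 * Real.pi * ζ.im| with hx
      have hx0 : 0 ≤ x := abs_nonneg _
      have h3 : |x ^ (1 / 2 : ℝ)| ≤ 1 + x := by
        rw [abs_of_nonneg (Real.rpow_nonneg hx0 _), ← Real.sqrt_eq_rpow]
        have h4 := Real.sq_sqrt hx0
        nlinarith [sq_nonneg (Real.sqrt x - 1), Real.sqrt_nonneg x]
      have h5 := mul_le_mul_of_nonneg_right h3 (norm_nonneg ((𝓕 w : L2) ζ))
      linarith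
  refine ⟨⟨h1, h2⟩, ?_⟩
  intro v hv
  have hw : InEnergy w := ⟨h1, h2⟩
  rw [energyForm_eq]
  have e1 : ∫ z, hilbertT (dtHalf w) z * conj (dtHalf v z) = ∫ z, wt z * conj (v z) := by
    rw [time_part hw hv, int_conj_fourier]
    apply integral_congr_ae
    filter_upwards [hwt] with ζ e
    rw [e]
  have e2 : ∫ z, a z * dx w z * conj (dx v z) = - ∫ z, Gx z * conj (v z) := by
    have e3 : ∫ z, a z * dx w z * conj (dx v z) = ∫ z, G z * conj (dx v z) := by
      apply integral_congr_ae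
      filter_upwards [hG] with z e
      have : dx w = wx := hdx
      rw [this, e]
    rw [e3, int_conj_fourier G (dx v), int_conj_fourier Gx v, ← integral_neg]
    apply integral_congr_ae
    filter_upwards [hGx, fourier_fourierMult hv.1] with ζ e4 e5
    have e6 : (𝓕 (dx v) : L2) ζ = symX ζ * (𝓕 v : L2) ζ := e5
    rw [e4, e6, map_mul, conj_symX]
    ring
  rw [e1, e2, ← sub_eq_add_neg, ← integral_sub (int_conj_integrable _ _) (int_conj_integrable _ _)]
  apply integral_congr_ae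
  filter_upwards [Lp.coeFn_sub wt Gx] with z e
  rw [e, Pi.sub_apply]
  ring

/-- accretivity -/
lemma energyForm_re_nonneg {a : Plane → ℂ} {ν M : ℝ} (ha : IsElliptic a ν M) {w : L2}
    (hw : InEnergy w) : 0 ≤ (energyForm a w w).re := by
  rw [energyForm_eq, time_part hw hw, Complex.add_re]
  have h1 : (∫ ζ, (Complex.I * ((2 * Real.pi * ζ.im : ℝ) : ℂ)) * (𝓕 w : L2) ζ *
      conj ((𝓕 w : L2) ζ)).re = 0 := by
    have e1 : (fun ζ : Plane => (Complex.I * ((2 * Real.pi * ζ.im : ℝ) : ℂ)) * (𝓕 w : L2) ζ *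
      conj ((𝓕 w : L2) ζ)) = fun ζ : Plane => Complex.I *
        (((2 * Real.pi * ζ.im) * Complex.normSq ((𝓕 w : L2) ζ) : ℝ) : ℂ) := by
      funext ζ
      rw [mul_assoc, Complex.mul_conj]
      push_cast
      ring
    have e2 : ∫ ζ : Plane, (((2 * Real.pi * ζ.im) * Complex.normSq ((𝓕 w : L2) ζ) : ℝ) : ℂ) =
        ((∫ ζ : Plane, ((2 * Real.pi * ζ.im) * Complex.normSq ((𝓕 w : L2) ζ)) : ℝ) : ℂ) :=
      integral_ofReal
    rw [e1, integral_const_mul, e2]
    simp
  have h2 : 0 ≤ (∫ z, a z * dx w z * conj (dx w z)).re := by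
    have h3 := Complex.reCLM.integral_comp_comm (space_integrable ha w w)
    simp only [Complex.reCLM_apply] at h3
    rw [← h3]
    apply integral_nonneg
    intro z
    simp only [Pi.zero_apply]
    rw [mul_assoc, Complex.mul_conj, Complex.re_mul_ofReal]
    apply mul_nonneg (ha.1.le.trans (ha.2.2.2 z)) (Complex.normSq_nonneg _)
  rw [h1, zero_add]
  exact h2

lemma inEnergy_sub {w₁ w₂ : L2} (h₁ : InEnergy w₁) (h₂ : InEnergy w₂) : InEnergy (w₁ - w₂) :=
  ⟨(fourierMult_sub h₁.1 h₂.1).1, (fourierMult_sub h₁.2 h₂.2).1⟩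

lemma energyForm_sub {a : Plane → ℂ} {ν M : ℝ} (ha : IsElliptic a ν M) {w₁ w₂ : L2}
    (h₁ : InEnergy w₁) (h₂ : InEnergy w₂) (v : L2) :
    energyForm a (w₁ - w₂) v = energyForm a w₁ v - energyForm a w₂ v := by
  have hX : dx (w₁ - w₂) = dx w₁ - dx w₂ := (fourierMult_sub h₁.1 h₂.1).2
  have hT : dtHalf (w₁ - w₂) = dtHalf w₁ - dtHalf w₂ := (fourierMult_sub h₁.2 h₂.2).2
  have hH : hilbertT (dtHalf w₁ - dtHalf w₂) = hilbertT (dtHalf w₁) - hilbertT (dtHalf w₂) :=
    (fourierMult_sub (memLp_symH _) (memLp_symH _)).2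
  rw [energyForm_eq, energyForm_eq, energyForm_eq, hT, hH, hX]
  have e1 : ∫ z, (hilbertT (dtHalf w₁) - hilbertT (dtHalf w₂) : L2) z * conj (dtHalf v z) =
      (∫ z, hilbertT (dtHalf w₁) z * conj (dtHalf v z)) -
        ∫ z, hilbertT (dtHalf w₂) z * conj (dtHalf v z) := by
    rw [← integral_sub (int_conj_integrable _ _) (int_conj_integrable _ _)]
    apply integral_congr_ae
    filter_upwards [Lp.coeFn_sub (hilbertT (dtHalf w₁)) (hilbertT (dtHalf w₂))] with z e
    rw [e, Pi.sub_apply]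
    ring
  have e2 : ∫ z, a z * (dx w₁ - dx w₂ : L2) z * conj (dx v z) =
      (∫ z, a z * dx w₁ z * conj (dx v z)) - ∫ z, a z * dx w₂ z * conj (dx v z) := by
    rw [← integral_sub (space_integrable ha w₁ v) (space_integrable ha w₂ v)]
    apply integral_congr_ae
    filter_upwards [Lp.coeFn_sub (dx w₁) (dx w₂)] with z e
    rw [e, Pi.sub_apply]
    ring
  rw [e1, e2]
  ring

/-- The resolvent is unique and contractive on `L²`. -/
lemma isResolvent_norm_le {a : Plane → ℂ} {ν M : ℝ} (ha : IsElliptic a ν M) {lam : ℝ}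
    {f w : L2} (h : IsResolvent a lam f w) : ‖w‖ ≤ ‖f‖ := by
  have h1 := h.2 w h.1
  rw [scal_eq, scal_eq] at h1
  have h2 := congrArg Complex.re h1
  rw [Complex.add_re, Complex.re_ofReal_mul] at h2
  have h3 := energyForm_re_nonneg ha h.1
  have h4 : (inner ℂ w w : ℂ).re = ‖w‖ ^ 2 := by
    have := inner_self_eq_norm_sq (𝕜 := ℂ) w
    simpa using this
  have h5 : (inner ℂ w f : ℂ).re ≤ ‖w‖ * ‖f‖ := by
    have := re_inner_le_norm (𝕜 := ℂ) w f
    simpa using this
  rw [h4] at h2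
  have h6 : 0 ≤ lam ^ 2 * (energyForm a w w).re := by positivity
  have h7 : ‖w‖ ^ 2 ≤ ‖w‖ * ‖f‖ := by linarith
  by_contra hlt
  push Not at hlt
  have h8 : 0 < ‖w‖ := lt_of_le_of_lt (norm_nonneg _) hlt
  nlinarith

lemma isResolvent_sub {a : Plane → ℂ} {ν M : ℝ} (ha : IsElliptic a ν M) {lam : ℝ}
    {f w₁ w₂ : L2} (h₁ : IsResolvent a lam f w₁) (h₂ : IsResolvent a lam f w₂) :
    IsResolvent a lam 0 (w₁ - w₂) := by
  refine ⟨inEnergy_sub h₁.1 h₂.1, ?_⟩
  intro v hv
  have e1 := h₁.2 v hv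
  have e2 := h₂.2 v hv
  rw [energyForm_sub ha h₁.1 h₂.1]
  rw [scal_eq] at e1 e2 ⊢
  rw [inner_sub_right]
  have e3 : scal (0 : L2) v = 0 := by
    rw [scal_eq, inner_zero_right]
  rw [e3]
  linear_combination e1 - e2

lemma isResolvent_unique {a : Plane → ℂ} {ν M : ℝ} (ha : IsElliptic a ν M) {lam : ℝ}
    {f w₁ w₂ : L2} (h₁ : IsResolvent a lam f w₁) (h₂ : IsResolvent a lam f w₂) : w₁ = w₂ := by
  have h := isResolvent_norm_le ha (isResolvent_sub ha h₁ h₂)
  rw [norm_zero] at h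
  exact sub_eq_zero.1 (norm_le_zero_iff.1 h)

lemma resolvent_eq {a : Plane → ℂ} {ν M : ℝ} (ha : IsElliptic a ν M) {lam : ℝ}
    {f w : L2} (h : IsResolvent a lam f w) : resolvent a lam f = w := by
  unfold resolvent
  have hex : ∃ w, IsResolvent a lam f w := ⟨w, h⟩
  rw [dif_pos hex]
  exact isResolvent_unique ha hex.choose_spec h

lemma resolvent_norm_le {a : Plane → ℂ} {ν M : ℝ} (ha : IsElliptic a ν M) (lam : ℝ)
    (f : L2) : ‖resolvent a lam f‖ ≤ ‖f‖ := by
  unfold resolvent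
  split_ifs with h
  · exact isResolvent_norm_le ha h.choose_spec
  · simp

lemma lpBounded_two {a : Plane → ℂ} {ν M : ℝ} (ha : IsElliptic a ν M) : LpBounded a 2 := by
  refine ⟨1, ?_⟩
  intro lam _ f _
  have h := resolvent_norm_le ha lam f
  rw [Lp.norm_def, Lp.norm_def] at h
  have h2 := (ENNReal.toReal_le_toReal (Lp.eLpNorm_ne_top _) (Lp.eLpNorm_ne_top _)).1 h
  have h3 : ENNReal.ofReal 2 = (2 : ℝ≥0∞) := by norm_num
  unfold normLp rep
  rw [h3, ENNReal.ofReal_one, one_mul]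
  exact h2

/-- If `L^p` boundedness fails for all `1 ≤ p < p₀ ≤ 2` then `p₀ ≤ p_-`. -/
lemma le_pMinus {a : Plane → ℂ} {ν M : ℝ} (ha : IsElliptic a ν M) {p₀ : ℝ} 
    (h : ∀ p, 1 ≤ p → p < p₀ → ¬ LpBounded a p) : p₀ ≤ pMinus a := by
  unfold pMinus
  apply le_csInf
  · exact ⟨2, ⟨by norm_num, by norm_num⟩, lpBounded_two ha⟩
  · intro p hp
    by_contra hlt
    push Not at hlt
    exact h p hp.1.1 hlt hp.2

end Pool.Agent.H56.Para
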