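import Mathlib

/-!
Real inequality behind the self-similar profile.
-/

set_option autoImplicit false
set_option maxHeartbeats 4000000

namespace Pool.Agent.H56.Para

/-- bounds on the cosine of the phase -/
lemma cos_bounds {η s c : ℝ} (hη0 : 0 < η) (hη1 : η ≤ 1 / 10) (hs : 0 < s) (hc : 0 < c)
    (hc2 : c ^ 2 * ((1 + s ^ 2) * (1 + η ^ 2 * s ^ 2)) = (1 + η * s ^ 2) ^ 2) :
    c ≤ 1 ∧ (1 - η) ^ 2 * s ^ 2 / ((1 + s ^ 2) * (1 + η ^ 2 * s ^ 2)) ≤ 2 * (1 - c) := by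
  set A := (1 + s ^ 2) * (1 + η ^ 2 * s ^ 2) with hA
  have hApos : 0 < A := by positivity
  have h1 : (1 - c ^ 2) * A = (1 - η) ^ 2 * s ^ 2 := by
    have : (1 - c ^ 2) * A = A - c ^ 2 * A := by ring
    rw [this, hc2, hA]; ring
  have h2 : 0 ≤ 1 - c ^ 2 := by
    by_contra hneg
    push Not at hneg
    have : (1 - c ^ 2) * A < 0 := mul_neg_of_neg_of_pos hneg hApos
    rw [h1] at this
    nlinarith [mul_nonneg (sq_nonneg (1 - η)) (sq_nonneg s)]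
  have hc1 : c ≤ 1 := by nlinarith
  refine ⟨hc1, ?_⟩
  rw [div_le_iff₀ hApos, ← h1]
  have : 1 - c ^ 2 ≤ 2 * (1 - c) := by nlinarith
  nlinarith

/-- case 0 < s < 1 -/
lemma pos_small {g η s c r : ℝ} (hg0 : 0 < g) (hg : g < 1 / 4) (hη0 : 0 < η) (hη1 : η ≤ 1 / 10)
    (hη2 : 64 * η ^ 2 ≤ 1 - 4 * g) (hs : 0 < s) (hs1 : s < 1) (hc : 0 < c)
    (hc2 : c ^ 2 * ((1 + s ^ 2) * (1 + η ^ 2 * s ^ 2)) = (1 + η * s ^ 2) ^ 2)
    (hr : 0 < r) (hr1 : (1 - s + s ^ 2) ^ ((1 - 4 * g) / 64) ≤ r) :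
    0 < (1 - 4 * g) + (2 * g * r - (1 - 2 * g) / r) * c -
      2 * ((1 - 4 * g) / 64 * s * (2 * s - 1) / (1 - s + s ^ 2) +
        (1 - 2 * ((1 - 4 * g) / 64)) * η ^ 2 * s ^ 2 / (1 + η ^ 2 * s ^ 2)) := by
  obtain ⟨hc1, hc3⟩ := cos_bounds hη0 hη1 hs hc hc2
  set κ := 1 - 4 * g with hκ
  have hκ0 : 0 < κ := by linarith
  have hκ1 : κ < 1 := by linarith
  set q := 1 - s + s ^ 2 with hq
  have hq34 : 3 / 4 ≤ q := by nlinarith [sq_nonneg (s - 1 / 2)]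
  have hq0 : 0 < q := by linarith
  have hq1 : q ≤ 1 := by nlinarith
  -- 1/r - 1 ≤ κ/64 * s (1-s)/q
  have hinv : 1 / r ≤ 1 + κ / 64 * (s * (1 - s) / q) := by
    have h1 : 1 / r ≤ (1 / q) ^ (κ / 64) := by
      rw [Real.div_rpow zero_le_one hq0.le, Real.one_rpow]
      exact one_div_le_one_div_of_le (Real.rpow_pos_of_pos hq0 _) hr1
    have h2 : (1 / q) = 1 + s * (1 - s) / q := by
      have hqne : q ≠ 0 := hq0.ne'
      rw [div_eq_iff hqne, add_mul, div_mul_cancel₀ _ hqne, hq]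
      ring
    have h3 : (1 + s * (1 - s) / q) ^ (κ / 64) ≤ 1 + κ / 64 * (s * (1 - s) / q) := by
      apply rpow_one_add_le_one_add_mul_self
      · have : 0 ≤ s * (1 - s) / q := by
          apply div_nonneg _ hq0.le
          apply mul_nonneg hs.le; linarith
        linarith
      · positivity
      · linarith
    rw [h2] at h1
    exact h1.trans h3
  set e := κ / 64 * (s * (1 - s) / q) with he
  have he0 : 0 ≤ e := by
    apply mul_nonneg (by positivity)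
    apply div_nonneg _ hq0.le
    apply mul_nonneg hs.le; linarith
  -- lower bound for f r
  have hf : -κ - e ≤ 2 * g * r - (1 - 2 * g) / r := by
    have h1 : 1 - e ≤ r := by
      -- r ≥ 1/(1+e) ≥ 1 - e
      have h2 : 1 ≤ r * (1 + e) := by
        have := (div_le_iff₀ hr).1 hinv
        linarith
      nlinarith
    have h2 : (1 - 2 * g) / r = (1 - 2 * g) * (1 / r) := by ring
    rw [h2]
    have h3 : (1 - 2 * g) * (1 / r) ≤ (1 - 2 * g) * (1 + e) :=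
      mul_le_mul_of_nonneg_left hinv (by linarith)
    nlinarith
  have hfc : -κ * c - e ≤ (2 * g * r - (1 - 2 * g) / r) * c := by
    have h1 : (-κ - e) * c ≤ (2 * g * r - (1 - 2 * g) / r) * c :=
      mul_le_mul_of_nonneg_right hf hc.le
    nlinarith
  -- 1 - c lower bound
  have hA : (1 + s ^ 2) * (1 + η ^ 2 * s ^ 2) ≤ 2 * (101 / 100) := by
    have h1 : s ^ 2 ≤ 1 := by nlinarith
    have h2 : η ^ 2 ≤ 1 / 100 := by nlinarith
    have h3 : η ^ 2 * s ^ 2 ≤ 1 / 100 := by nlinarith [sq_nonneg η, sq_nonneg s]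
    have h4 : 0 ≤ η ^ 2 * s ^ 2 := by positivity
    nlinarith
  have hcc : s ^ 2 / 8 ≤ 1 - c := by
    have h1 : (1 - η) ^ 2 * s ^ 2 / (2 * (101 / 100)) ≤
        (1 - η) ^ 2 * s ^ 2 / ((1 + s ^ 2) * (1 + η ^ 2 * s ^ 2)) := by
      apply div_le_div_of_nonneg_left (by positivity) (by positivity) hA
    have h2 : (81 / 100 : ℝ) ≤ (1 - η) ^ 2 := by nlinarith
    have h3 : (81 / 100 : ℝ) * s ^ 2 ≤ (1 - η) ^ 2 * s ^ 2 := by nlinarith [sq_nonneg s]
    have h4 : (81 / 100 : ℝ) * s ^ 2 / (2 * (101 / 100)) ≤ (1 - η) ^ 2 * s ^ 2 / (2 * (101 / 100)) := by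
      gcongr
    have h5 := h4.trans (h1.trans hc3)
    have h6 : 0 ≤ s ^ 2 := sq_nonneg s
    have h7 : (81 / 100 : ℝ) * s ^ 2 / (2 * (101 / 100)) = (81 / 202) * s ^ 2 := by ring
    rw [h7] at h5
    linarith
  -- the eta term
  have heta : (1 - 2 * (κ / 64)) * η ^ 2 * s ^ 2 / (1 + η ^ 2 * s ^ 2) ≤ κ / 64 * s ^ 2 := by
    rw [div_le_iff₀ (by positivity)]
    have h1 : η ^ 2 ≤ κ / 64 := by linarith
    have h2 : 0 ≤ 1 - 2 * (κ / 64) := by linarith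
    have h3 : (1 - 2 * (κ / 64)) * η ^ 2 ≤ κ / 64 := by nlinarith [sq_nonneg η]
    have h4 : (1 - 2 * (κ / 64)) * η ^ 2 * s ^ 2 ≤ κ / 64 * s ^ 2 :=
      mul_le_mul_of_nonneg_right h3 (sq_nonneg s)
    have h5 : 0 ≤ κ / 64 * s ^ 2 * (η ^ 2 * s ^ 2) := by positivity
    have h6 : κ / 64 * s ^ 2 * (1 + η ^ 2 * s ^ 2) =
      κ / 64 * s ^ 2 + κ / 64 * s ^ 2 * (η ^ 2 * s ^ 2) := by ring
    rw [h6]
    linarith
  -- the log-derivative of q
  have hmain : -e - 2 * (κ / 64 * s * (2 * s - 1) / q) = κ / 64 * (s * (1 - 3 * s) / q) := by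
    rw [he]; field_simp; ring
  have hsq : s - 4 * s ^ 2 ≤ s * (1 - 3 * s) / q := by
    rw [le_div_iff₀ hq0, hq]
    -- difference is s^2 (4 s^2 - 5 s + 2)
    have h1 : s * (1 - 3 * s) - (s - 4 * s ^ 2) * (1 - s + s ^ 2) =
      s ^ 2 * (4 * s ^ 2 - 5 * s + 2) := by ring
    have h2 : 0 ≤ 4 * s ^ 2 - 5 * s + 2 := by nlinarith [sq_nonneg (s - 5 / 8)]
    have h3 : 0 ≤ s ^ 2 * (4 * s ^ 2 - 5 * s + 2) := mul_nonneg (sq_nonneg s) h2
    linarith
  have h9 : κ / 64 * (s - 4 * s ^ 2) ≤ κ / 64 * (s * (1 - 3 * s) / q) :=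
    mul_le_mul_of_nonneg_left hsq (by positivity)
  have h10 : κ * (s ^ 2 / 8) ≤ κ * (1 - c) := mul_le_mul_of_nonneg_left hcc hκ0.le
  have h11 : 0 < κ * s ^ 2 := by positivity
  have h12 : 0 < κ * s := by positivity
  have h13 : κ / 64 * (s - 4 * s ^ 2) = κ * s / 64 - κ * s ^ 2 / 16 := by ring
  have h14 : κ * (s ^ 2 / 8) = κ * s ^ 2 / 8 := by ring
  have h15 : κ / 64 * s ^ 2 = κ * s ^ 2 / 64 := by ring
  rw [h13] at h9
  rw [h14] at h10
  rw [h15] at heta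
  have h16 : κ * (1 - c) = κ - κ * c := by ring
  rw [h16] at h10
  linarith

/-- case 1 ≤ s -/
lemma pos_large {g η s c r δ : ℝ} (hg0 : 0 < g) (hg : g < 1 / 4) (hη0 : 0 < η) (hη1 : η ≤ 1 / 10)
    (hδ0 : 0 < δ) (hδ : 64 * δ ^ 2 = 1 - 4 * g)
    (hbig : 1 + 3 / (g * δ) < (δ ^ 2 / (2 * η ^ 2)) ^ ((1 - 4 * g) / 64))
    (hs1 : 1 ≤ s) (hc : 0 < c)
    (hc2 : c ^ 2 * ((1 + s ^ 2) * (1 + η ^ 2 * s ^ 2)) = (1 + η * s ^ 2) ^ 2)
    (hr : 0 < r) (hr1 : (1 - s + s ^ 2) ^ ((1 - 4 * g) / 64) ≤ r) :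
    0 < (1 - 4 * g) + (2 * g * r - (1 - 2 * g) / r) * c -
      2 * ((1 - 4 * g) / 64 * s * (2 * s - 1) / (1 - s + s ^ 2) +
        (1 - 2 * ((1 - 4 * g) / 64)) * η ^ 2 * s ^ 2 / (1 + η ^ 2 * s ^ 2)) := by
  have hs : 0 < s := by linarith
  obtain ⟨hc1, hc3⟩ := cos_bounds hη0 hη1 hs hc hc2
  set κ := 1 - 4 * g with hκ
  have hκ0 : 0 < κ := by linarith
  have hκ1 : κ < 1 := by linarith
  have hδ1 : δ ≤ 1 / 8 := by nlinarith
  set q := 1 - s + s ^ 2 with hq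
  have hq1 : 1 ≤ q := by nlinarith
  have hq0 : 0 < q := by linarith
  have hr2 : 1 ≤ r := le_trans (Real.one_le_rpow hq1 (by positivity)) hr1
  -- f r ≥ -κ + 2 g (r-1)
  have hf : -κ + 2 * g * (r - 1) ≤ 2 * g * r - (1 - 2 * g) / r := by
    have h2 : (1 - 2 * g) / r ≤ (1 - 2 * g) := by
      rw [div_le_iff₀ hr]
      nlinarith
    linarith
  have hfc : (-κ + 2 * g * (r - 1)) * c ≤ (2 * g * r - (1 - 2 * g) / r) * c :=
    mul_le_mul_of_nonneg_right hf hc.le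
  have hlog : κ / 64 * s * (2 * s - 1) / q ≤ 3 * (κ / 64) := by
    rw [div_le_iff₀ hq0, hq]
    have h1 : 3 * (κ / 64) * (1 - s + s ^ 2) - κ / 64 * s * (2 * s - 1) =
      κ / 64 * ((s - 1) ^ 2 + 2) := by ring
    have h2 : 0 ≤ κ / 64 * ((s - 1) ^ 2 + 2) := by positivity
    linarith
  have hx0 : 0 ≤ η ^ 2 * s ^ 2 := by positivity
  rcases le_or_gt (η * s) δ with hcase | hcase
  · -- intermediate range
    have hx : η ^ 2 * s ^ 2 ≤ δ ^ 2 := by
      have : η ^ 2 * s ^ 2 = (η * s) ^ 2 := by ring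
      rw [this]
      exact pow_le_pow_left₀ (by positivity) hcase 2
    have heta : (1 - 2 * (κ / 64)) * η ^ 2 * s ^ 2 / (1 + η ^ 2 * s ^ 2) ≤ κ / 64 := by
      rw [div_le_iff₀ (by positivity)]
      have h1 : (1 - 2 * (κ / 64)) * (η ^ 2 * s ^ 2) ≤ η ^ 2 * s ^ 2 := by
        have : 0 ≤ 2 * (κ / 64) * (η ^ 2 * s ^ 2) := by positivity
        linarith
      have h2 : η ^ 2 * s ^ 2 ≤ κ / 64 := by linarith
      have h3 : 0 ≤ κ / 64 * (η ^ 2 * s ^ 2) := by positivity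
      linarith
    have hcc : 3 / 16 ≤ 1 - c := by
      have hA : (1 + s ^ 2) * (1 + η ^ 2 * s ^ 2) ≤ (2 * s ^ 2) * (65 / 64) := by
        have h1 : 1 + s ^ 2 ≤ 2 * s ^ 2 := by nlinarith
        have h2 : 1 + η ^ 2 * s ^ 2 ≤ 65 / 64 := by nlinarith
        have h3 : 0 ≤ 2 * s ^ 2 := by positivity
        have h4 : 0 ≤ 1 + η ^ 2 * s ^ 2 := by positivity
        exact mul_le_mul h1 h2 h4 h3
      have h1 : (1 - η) ^ 2 * s ^ 2 / ((2 * s ^ 2) * (65 / 64)) ≤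
          (1 - η) ^ 2 * s ^ 2 / ((1 + s ^ 2) * (1 + η ^ 2 * s ^ 2)) := by
        apply div_le_div_of_nonneg_left (by positivity) (by positivity) hA
      have h2 : (81 / 100 : ℝ) ≤ (1 - η) ^ 2 := by nlinarith
      have h3 : (1 - η) ^ 2 * s ^ 2 / ((2 * s ^ 2) * (65 / 64)) = (1 - η) ^ 2 * (32 / 65) := by
        field_simp
        ring
      rw [h3] at h1
      have h4 : (81 / 100 : ℝ) * (32 / 65) ≤ (1 - η) ^ 2 * (32 / 65) := by
        apply mul_le_mul_of_nonneg_right h2 (by norm_num)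
      linarith
    have h10 : κ * (3 / 16) ≤ κ * (1 - c) := mul_le_mul_of_nonneg_left hcc hκ0.le
    have h11 : 0 ≤ 2 * g * (r - 1) * c := by
      apply mul_nonneg _ hc.le
      apply mul_nonneg (by linarith)
      linarith
    have h12 : (-κ + 2 * g * (r - 1)) * c = -κ * c + 2 * g * (r - 1) * c := by ring
    rw [h12] at hfc
    have h16 : κ * (1 - c) = κ - κ * c := by ring
    rw [h16] at h10
    linarith
  · -- far range
    have heta : (1 - 2 * (κ / 64)) * η ^ 2 * s ^ 2 / (1 + η ^ 2 * s ^ 2) ≤ 1 := by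
      rw [div_le_iff₀ (by positivity)]
      have h1 : 0 ≤ 2 * (κ / 64) * (η ^ 2 * s ^ 2) := by positivity
      linarith
    have hcc : δ / 2 ≤ c := by
      -- c^2 ≥ δ^2/4
      have h1 : δ ^ 2 / 4 * ((1 + s ^ 2) * (1 + η ^ 2 * s ^ 2)) ≤ (1 + η * s ^ 2) ^ 2 := by
        have h2 : 1 + s ^ 2 ≤ 2 * s ^ 2 := by nlinarith
        have h3 : 0 ≤ 1 + η ^ 2 * s ^ 2 := by positivity
        have h4 : (1 + s ^ 2) * (1 + η ^ 2 * s ^ 2) ≤ 2 * s ^ 2 * (1 + η ^ 2 * s ^ 2) :=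
          mul_le_mul_of_nonneg_right h2 h3
        have h5 : δ ^ 2 ≤ (η * s) ^ 2 := pow_le_pow_left₀ hδ0.le hcase.le 2
        have h6 : δ ^ 2 ≤ 1 := by nlinarith
        have h7 : δ ^ 2 * (2 * s ^ 2 * (1 + η ^ 2 * s ^ 2)) ≤ 4 * (η * s ^ 2) ^ 2 := by
          have h8 : δ ^ 2 * (2 * s ^ 2) ≤ 2 * (η * s ^ 2) ^ 2 := by
            have : 2 * (η * s ^ 2) ^ 2 = (η * s) ^ 2 * (2 * s ^ 2) := by ring
            rw [this]
            exact mul_le_mul_of_nonneg_right h5 (by positivity)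
          have h9 : δ ^ 2 * (2 * s ^ 2 * (η ^ 2 * s ^ 2)) ≤ 2 * (η * s ^ 2) ^ 2 := by
            have : 2 * (η * s ^ 2) ^ 2 = 1 * (2 * s ^ 2 * (η ^ 2 * s ^ 2)) := by ring
            rw [this]
            exact mul_le_mul_of_nonneg_right h6 (by positivity)
          have h20 : δ ^ 2 * (2 * s ^ 2 * (1 + η ^ 2 * s ^ 2)) =
            δ ^ 2 * (2 * s ^ 2) + δ ^ 2 * (2 * s ^ 2 * (η ^ 2 * s ^ 2)) := by ring
          rw [h20]
          linarith
        have h10 : 0 ≤ η * s ^ 2 := by positivity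
        have h11 : 0 ≤ δ ^ 2 := by positivity
        have h12 : δ ^ 2 * ((1 + s ^ 2) * (1 + η ^ 2 * s ^ 2)) ≤
          δ ^ 2 * (2 * s ^ 2 * (1 + η ^ 2 * s ^ 2)) := mul_le_mul_of_nonneg_left h4 h11
        have h13 : (1 + η * s ^ 2) ^ 2 = 1 + 2 * (η * s ^ 2) + (η * s ^ 2) ^ 2 := by ring
        rw [h13]
        linarith
      have h2 : (δ / 2) ^ 2 ≤ c ^ 2 := by
        have hApos : 0 < (1 + s ^ 2) * (1 + η ^ 2 * s ^ 2) := by positivity
        rw [← hc2] at h1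
        have := le_of_mul_le_mul_right h1 hApos
        have h3 : (δ / 2) ^ 2 = δ ^ 2 / 4 := by ring
        rw [h3]; exact this
      exact le_of_sq_le_sq h2 hc.le
    have hrbig : 1 + 3 / (g * δ) < r := by
      refine lt_of_lt_of_le hbig (le_trans ?_ hr1)
      apply Real.rpow_le_rpow (by positivity) _ (by positivity)
      rw [div_le_iff₀ (by positivity)]
      have h5 : δ ^ 2 ≤ (η * s) ^ 2 := pow_le_pow_left₀ hδ0.le hcase.le 2
      have h6 : s ^ 2 ≤ 2 * q := by rw [hq]; nlinarith [sq_nonneg (s - 1)]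
      have h7 : η ^ 2 * s ^ 2 ≤ η ^ 2 * (2 * q) := mul_le_mul_of_nonneg_left h6 (sq_nonneg η)
      have h8 : (η * s) ^ 2 = η ^ 2 * s ^ 2 := by ring
      have h9 : q * (2 * η ^ 2) = η ^ 2 * (2 * q) := by ring
      rw [h9]
      linarith
    have hgd : 0 < g * δ := by positivity
    have h12 : 3 < g * δ * (r - 1) := by
      have : 3 / (g * δ) < r - 1 := by linarith
      rw [div_lt_iff₀ hgd] at this
      linarith
    have h13 : g * δ * (r - 1) ≤ 2 * g * (r - 1) * c := by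
      have h14 : 0 ≤ 2 * g * (r - 1) := by
        apply mul_nonneg (by linarith)
        linarith
      have := mul_le_mul_of_nonneg_left hcc h14
      have h15 : 2 * g * (r - 1) * (δ / 2) = g * δ * (r - 1) := by ring
      linarith
    have h16 : (-κ + 2 * g * (r - 1)) * c = -κ * c + 2 * g * (r - 1) * c := by ring
    rw [h16] at hfc
    have h17 : κ * c ≤ κ * 1 := mul_le_mul_of_nonneg_left hc1 hκ0.le
    linarith

/-- the parameter eta exists -/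
lemma exists_eta {g : ℝ} (hg0 : 0 < g) (hg : g < 1 / 4) :
    ∃ η δ : ℝ, 0 < η ∧ η ≤ 1 / 10 ∧ 64 * η ^ 2 ≤ 1 - 4 * g ∧ 0 < δ ∧ 64 * δ ^ 2 = 1 - 4 * g ∧
      1 + 3 / (g * δ) < (δ ^ 2 / (2 * η ^ 2)) ^ ((1 - 4 * g) / 64) := by
  set κ := 1 - 4 * g with hκ
  have hκ0 : 0 < κ := by linarith
  set δ := Real.sqrt (κ / 64) with hδ
  have hδ0 : 0 < δ := Real.sqrt_pos.2 (by positivity)
  have hδ2 : 64 * δ ^ 2 = κ := by
    rw [hδ, Real.sq_sqrt (by positivity)]; ring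
  have h1 : Filter.Tendsto (fun x : ℝ => x ^ (κ / 64)) Filter.atTop Filter.atTop :=
    tendsto_rpow_atTop (by positivity)
  obtain ⟨X, hX⟩ := (Filter.tendsto_atTop.1 h1 (2 + 3 / (g * δ))).exists_forall_of_atTop
  -- choose η with δ²/(2η²) ≥ X
  set Y := max X 1 with hY
  have hY1 : 1 ≤ Y := le_max_right _ _
  have hYX : X ≤ Y := le_max_left _ _
  set η := min (1 / 10) (δ / (2 * Y)) with hη
  have hη0 : 0 < η := by
    apply lt_min (by norm_num)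
    positivity
  have hη1 : η ≤ 1 / 10 := min_le_left _ _
  have hη3 : η ≤ δ / (2 * Y) := min_le_right _ _
  have hη4 : η ≤ δ / 2 := by
    refine hη3.trans ?_
    apply div_le_div_of_nonneg_left hδ0.le (by norm_num)
    linarith
  refine ⟨η, δ, hη0, hη1, ?_, hδ0, hδ2, ?_⟩
  · nlinarith
  · have h2 : X ≤ δ ^ 2 / (2 * η ^ 2) := by
      refine hYX.trans ?_
      rw [le_div_iff₀ (by positivity)]
      have h3 : η * (2 * Y) ≤ δ := by
        rw [le_div_iff₀ (by positivity)] at hη3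
        exact hη3
      have h4 : (η * (2 * Y)) ^ 2 ≤ δ ^ 2 := pow_le_pow_left₀ (by positivity) h3 2
      have h5 : Y * (2 * η ^ 2) ≤ (η * (2 * Y)) ^ 2 := by
        have : (η * (2 * Y)) ^ 2 = Y * (2 * η ^ 2) * (2 * Y) := by ring
        rw [this]
        have h6 : 0 ≤ Y * (2 * η ^ 2) := by positivity
        nlinarith
      linarith
    have h3 := hX _ h2
    linarith

end Pool.Agent.H56.Para
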