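import Mathlib
import Pool.Agent.H56.ParaIneq

/-!
The self-similar profile.
-/

set_option autoImplicit false
set_option maxHeartbeats 1000000

namespace Pool.Agent.H56.Para

open Filter Topology MeasureTheory

/-- real factor of omega -/
noncomputable def oR (ρ η s : ℝ) : ℝ :=
  (1 + s ^ 2) ^ (-(1 / 2) : ℝ) * (1 - s + s ^ 2) ^ ρ * (1 + η ^ 2 * s ^ 2) ^ (-ρ)

/-- omega -/
noncomputable def om (ρ η s : ℝ) : ℂ :=
  (1 + Complex.I * s) * (1 - Complex.I * (η * s)) * ((oR ρ η s : ℝ) : ℂ)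

/-- real part of the logarithmic derivative of the real factor -/
noncomputable def oRL (ρ η s : ℝ) : ℝ :=
  -(s / (1 + s ^ 2)) + ρ * (2 * s - 1) / (1 - s + s ^ 2) - 2 * ρ * η ^ 2 * s / (1 + η ^ 2 * s ^ 2)

/-- logarithmic derivative of omega -/
noncomputable def oL (ρ η s : ℝ) : ℂ :=
  Complex.I / (1 + Complex.I * s) - Complex.I * η / (1 - Complex.I * (η * s)) + ((oRL ρ η s : ℝ) : ℂ)

lemma q_pos (s : ℝ) : 0 < 1 - s + s ^ 2 := by nlinarith [sq_nonneg (s - 1 / 2)]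
lemma q_ne (s : ℝ) : 1 - s + s ^ 2 ≠ 0 := (q_pos s).ne'
lemma a_pos (s : ℝ) : 0 < 1 + s ^ 2 := by positivity
lemma b_pos (η s : ℝ) : 0 < 1 + η ^ 2 * s ^ 2 := by positivity

lemma oR_pos (ρ η s : ℝ) : 0 < oR ρ η s := by
  unfold oR
  have := q_pos s
  have h1 := Real.rpow_pos_of_pos (a_pos s) (-(1 / 2))
  have h2 := Real.rpow_pos_of_pos (q_pos s) ρ
  have h3 := Real.rpow_pos_of_pos (b_pos η s) (-ρ)
  positivity

lemma oR_deriv (ρ η s : ℝ) : HasDerivAt (oR ρ η) (oR ρ η s * oRL ρ η s) s := by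
  have ha : HasDerivAt (fun s : ℝ => 1 + s ^ 2) (2 * s) s := by
    have := (hasDerivAt_pow 2 s).const_add 1
    simpa using this
  have hq : HasDerivAt (fun s : ℝ => 1 - s + s ^ 2) (-1 + 2 * s) s := by
    have := ((hasDerivAt_id s).const_sub 1).fun_add (hasDerivAt_pow 2 s)
    simpa using this
  have hb : HasDerivAt (fun s : ℝ => 1 + η ^ 2 * s ^ 2) (η ^ 2 * (2 * s)) s := by
    have := ((hasDerivAt_pow 2 s).const_mul (η ^ 2)).const_add 1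
    simpa using this
  have h1 := ha.rpow_const (p := -(1/2)) (Or.inl (a_pos s).ne')
  have h2 := hq.rpow_const (p := ρ) (Or.inl (q_ne s))
  have h3 := hb.rpow_const (p := -ρ) (Or.inl (b_pos η s).ne')
  have h := (h1.fun_mul h2).fun_mul h3
  refine HasDerivAt.congr_deriv h ?_
  have e1 : (1 + s ^ 2) ^ (-(1 / 2) - 1 : ℝ) = (1 + s ^ 2) ^ (-(1 / 2) : ℝ) / (1 + s ^ 2) := by
    rw [Real.rpow_sub_one (a_pos s).ne']
  have e2 : (1 - s + s ^ 2) ^ (ρ - 1 : ℝ) = (1 - s + s ^ 2) ^ ρ / (1 - s + s ^ 2) := by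
    rw [Real.rpow_sub_one (q_ne s)]
  have e3 : (1 + η ^ 2 * s ^ 2) ^ (-ρ - 1 : ℝ) = (1 + η ^ 2 * s ^ 2) ^ (-ρ) / (1 + η ^ 2 * s ^ 2) := by
    rw [Real.rpow_sub_one (b_pos η s).ne']
  rw [e1, e2, e3]
  unfold oR oRL
  have := (a_pos s).ne'
  have := q_ne s
  have := (b_pos η s).ne'
  field_simp
  ring

lemma one_add_I_ne (s : ℝ) : (1 + Complex.I * s : ℂ) ≠ 0 := by
  intro h
  have := congrArg Complex.re h
  simp at this

lemma one_sub_I_ne (η s : ℝ) : (1 - Complex.I * (η * s) : ℂ) ≠ 0 := by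
  intro h
  have := congrArg Complex.re h
  simp at this

lemma om_ne (ρ η s : ℝ) : om ρ η s ≠ 0 := by
  unfold om
  apply mul_ne_zero (mul_ne_zero (one_add_I_ne s) (one_sub_I_ne η s))
  exact_mod_cast (oR_pos ρ η s).ne'

lemma om_deriv (ρ η s : ℝ) : HasDerivAt (om ρ η) (om ρ η s * oL ρ η s) s := by
  have hid : HasDerivAt (fun s : ℝ => (s : ℂ)) 1 s := Complex.ofRealCLM.hasDerivAt
  have h1 : HasDerivAt (fun s : ℝ => (1 + Complex.I * s : ℂ)) Complex.I s := by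
    have := (hid.const_mul Complex.I).const_add 1
    simpa using this
  have h2 : HasDerivAt (fun s : ℝ => (1 - Complex.I * (η * s) : ℂ)) (-(Complex.I * η)) s := by
    have := ((hid.const_mul (η:ℂ)).const_mul Complex.I).const_sub 1
    simpa using this
  have h := (h1.fun_mul h2).fun_mul (oR_deriv ρ η s).ofReal_comp
  refine HasDerivAt.congr_deriv h ?_
  unfold om oL
  have n1 := one_add_I_ne s
  have n2 := one_sub_I_ne η s
  have e1 : (1 + Complex.I * s : ℂ) * (Complex.I / (1 + Complex.I * s)) = Complex.I :=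
    mul_div_cancel₀ _ n1
  have e2 : (1 - Complex.I * (η * s) : ℂ) * (Complex.I * η / (1 - Complex.I * (η * s))) =
    Complex.I * η := mul_div_cancel₀ _ n2
  push_cast
  linear_combination (-(1 - Complex.I * (η * s)) * (oR ρ η s : ℂ)) * e1 +
    ((1 + Complex.I * s) * (oR ρ η s : ℂ)) * e2

lemma om_zero (ρ η : ℝ) : om ρ η 0 = 1 := by
  simp [om, oR]

lemma om_re (ρ η s : ℝ) : (om ρ η s).re = (1 + η * s ^ 2) * oR ρ η s := by
  unfold om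
  rw [Complex.re_mul_ofReal]
  congr 1
  simp [Complex.mul_re]
  ring

lemma om_im (ρ η s : ℝ) : (om ρ η s).im = (1 - η) * s * oR ρ η s := by
  unfold om
  rw [Complex.im_mul_ofReal]
  congr 1
  simp [Complex.mul_im]
  ring

/-- the modulus -/
noncomputable def oM (ρ η s : ℝ) : ℝ := (1 - s + s ^ 2) ^ ρ * (1 + η ^ 2 * s ^ 2) ^ (1 / 2 - ρ)

lemma oM_pos (ρ η s : ℝ) : 0 < oM ρ η s := by
  unfold oM
  have h2 := Real.rpow_pos_of_pos (q_pos s) ρ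
  have h3 := Real.rpow_pos_of_pos (b_pos η s) (1/2-ρ)
  positivity

lemma oR_sq (ρ η s : ℝ) : (1 + s ^ 2) * (1 + η ^ 2 * s ^ 2) * oR ρ η s ^ 2 = oM ρ η s ^ 2 := by
  unfold oR oM
  have h1 : (1 + s ^ 2) * ((1 + s ^ 2) ^ (-(1 / 2) : ℝ)) ^ 2 = 1 := by
    rw [← Real.rpow_mul_natCast (a_pos s).le]
    norm_num
    rw [Real.rpow_neg_one]
    exact mul_inv_cancel₀ (a_pos s).ne'
  have h2 : (1 + η ^ 2 * s ^ 2) * ((1 + η ^ 2 * s ^ 2) ^ (-ρ)) ^ 2 =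
      ((1 + η ^ 2 * s ^ 2) ^ (1 / 2 - ρ)) ^ 2 := by
    have hb := b_pos η s
    rw [← Real.rpow_mul_natCast hb.le, ← Real.rpow_mul_natCast hb.le]
    have : (1 + η ^ 2 * s ^ 2) * (1 + η ^ 2 * s ^ 2) ^ (-ρ * ((2:ℕ):ℝ)) =
      (1 + η ^ 2 * s ^ 2) ^ (1 + -ρ * ((2:ℕ):ℝ)) := by
      rw [Real.rpow_add hb, Real.rpow_one]
    rw [this]
    congr 1
    push_cast
    ring
  calc (1 + s ^ 2) * (1 + η ^ 2 * s ^ 2) *
      ((1 + s ^ 2) ^ (-(1 / 2) : ℝ) * (1 - s + s ^ 2) ^ ρ * (1 + η ^ 2 * s ^ 2) ^ (-ρ)) ^ 2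
      = ((1 + s ^ 2) * ((1 + s ^ 2) ^ (-(1 / 2) : ℝ)) ^ 2) * ((1 - s + s ^ 2) ^ ρ) ^ 2 *
        ((1 + η ^ 2 * s ^ 2) * ((1 + η ^ 2 * s ^ 2) ^ (-ρ)) ^ 2) := by ring
    _ = _ := by rw [h1, h2]; ring

lemma om_normSq (ρ η s : ℝ) : Complex.normSq (om ρ η s) = oM ρ η s ^ 2 := by
  rw [← oR_sq, Complex.normSq_apply, om_re, om_im]
  ring

lemma om_norm (ρ η s : ℝ) : ‖om ρ η s‖ = oM ρ η s := by
  have h := om_normSq ρ η s
  rw [Complex.normSq_eq_norm_sq] at h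
  exact (pow_left_inj₀ (norm_nonneg _) (oM_pos ρ η s).le two_ne_zero).1 h

lemma oM_ge {ρ : ℝ} (hρ : ρ ≤ 1 / 2) (η s : ℝ) : (1 - s + s ^ 2) ^ ρ ≤ oM ρ η s := by
  unfold oM
  have h2 := Real.rpow_pos_of_pos (q_pos s) ρ
  have h3 : 1 ≤ (1 + η ^ 2 * s ^ 2) ^ (1 / 2 - ρ) := by
    apply Real.one_le_rpow
    · nlinarith [sq_nonneg (η * s)]
    · linarith
  nlinarith

/-- Phi -/
noncomputable def Ph (g ρ η s : ℝ) : ℂ :=
  (1 - 4 * g) + 2 * g * om ρ η s - (1 - 2 * g) / om ρ η s - 2 * (s * oL ρ η s)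

lemma re_sL (ρ η s : ℝ) : (s * oL ρ η s).re = ρ * s * (2 * s - 1) / (1 - s + s ^ 2) +
        (1 - 2 * ρ) * η ^ 2 * s ^ 2 / (1 + η ^ 2 * s ^ 2) := by
  unfold oL
  have h1 : (Complex.I / (1 + Complex.I * s)).re = s / (1 + s ^ 2) := by
    rw [Complex.div_re]
    simp [Complex.normSq_apply]
    ring
  have h2 : (Complex.I * η / (1 - Complex.I * (η * s))).re = - (η ^ 2 * s / (1 + η ^ 2 * s ^ 2)) := by
    rw [Complex.div_re]
    simp [Complex.normSq_apply]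
    ring
  rw [Complex.re_ofReal_mul, Complex.add_re, Complex.sub_re, h1, h2, Complex.ofReal_re]
  unfold oRL
  ring

lemma Ph_re (g ρ η s : ℝ) : (Ph g ρ η s).re = (1 - 4 * g) +
    (2 * g * oM ρ η s - (1 - 2 * g) / oM ρ η s) * ((om ρ η s).re / oM ρ η s) -
      2 * (ρ * s * (2 * s - 1) / (1 - s + s ^ 2) +
        (1 - 2 * ρ) * η ^ 2 * s ^ 2 / (1 + η ^ 2 * s ^ 2)) := by
  have hM := (oM_pos ρ η s).ne'
  have h1 : (Ph g ρ η s).re = (1 - 4 * g) + 2 * g * (om ρ η s).re -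
      (1 - 2 * g) * ((om ρ η s).re / oM ρ η s ^ 2) - 2 * (s * oL ρ η s).re := by
    unfold Ph
    have e1 : ((1 - 2 * g) / om ρ η s : ℂ) = (((1 - 2 * g : ℝ)) : ℂ) * (om ρ η s)⁻¹ := by
      push_cast; rw [div_eq_mul_inv]
    have e2 : (2 * g * om ρ η s : ℂ) = ((2 * g : ℝ) : ℂ) * om ρ η s := by push_cast; ring
    have e3 : ((1:ℂ) - 4 * g) = ((1 - 4 * g : ℝ) : ℂ) := by push_cast; ring
    have e4 : (2 * (s * oL ρ η s) : ℂ) = ((2 : ℝ) : ℂ) * (s * oL ρ η s) := by push_cast; ring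
    rw [e1, e2, e3, e4, Complex.sub_re, Complex.sub_re, Complex.add_re, Complex.re_ofReal_mul,
      Complex.re_ofReal_mul, Complex.re_ofReal_mul, Complex.ofReal_re, Complex.inv_re, om_normSq]
  rw [h1, re_sL]
  have : (om ρ η s).re / oM ρ η s ^ 2 = 1 / oM ρ η s * ((om ρ η s).re / oM ρ η s) := by
    field_simp
  rw [this]
  have h2 : 2 * g * (om ρ η s).re = 2 * g * oM ρ η s * ((om ρ η s).re / oM ρ η s) := by
    field_simp
  rw [h2]
  ring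

lemma Ph_re_pos {g η δ : ℝ} (hg0 : 0 < g) (hg : g < 1 / 4) (hη0 : 0 < η) (hη1 : η ≤ 1 / 10)
    (hη2 : 64 * η ^ 2 ≤ 1 - 4 * g) (hδ0 : 0 < δ) (hδ : 64 * δ ^ 2 = 1 - 4 * g)
    (hbig : 1 + 3 / (g * δ) < (δ ^ 2 / (2 * η ^ 2)) ^ ((1 - 4 * g) / 64)) {s : ℝ} (hs : 0 < s) :
    0 < (Ph g ((1 - 4 * g) / 64) η s).re := by
  rw [Ph_re]
  set ρ := (1 - 4 * g) / 64 with hρ
  have hM := oM_pos ρ η s
  have hc : 0 < (om ρ η s).re / oM ρ η s := by
    apply div_pos _ hM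
    rw [om_re]
    have := oR_pos ρ η s
    positivity
  have hc2 : ((om ρ η s).re / oM ρ η s) ^ 2 * ((1 + s ^ 2) * (1 + η ^ 2 * s ^ 2)) =
      (1 + η * s ^ 2) ^ 2 := by
    rw [div_pow, ← oR_sq, om_re]
    have h1 := oR_pos ρ η s
    have h2 := a_pos s
    have h3 := b_pos η s
    field_simp
  have hr1 : (1 - s + s ^ 2) ^ ρ ≤ oM ρ η s := oM_ge (by rw [hρ]; linarith) η s
  rcases lt_or_ge s 1 with h | h
  · exact pos_small hg0 hg hη0 hη1 hη2 hs h hc hc2 hM hr1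
  · exact pos_large hg0 hg hη0 hη1 hδ0 hδ hbig h hc hc2 hM hr1

end Pool.Agent.H56.Para
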