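import Mathlib
import Pool.Agent.H56.ParaProfile

/-!
The self-similar profile: existence statement.
-/

set_option autoImplicit false
set_option maxHeartbeats 1000000

namespace Pool.Agent.H56.Para

open Filter Topology MeasureTheory

/-- difference quotient of omega at 0 -/
noncomputable def hh (ρ η : ℝ) : ℝ → ℂ := dslope (om ρ η) 0

lemma om_differentiable (ρ η : ℝ) : Differentiable ℝ (om ρ η) :=
  fun s => (om_deriv ρ η s).differentiableAt

lemma om_continuous (ρ η : ℝ) : Continuous (om ρ η) := (om_differentiable ρ η).continuous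

lemma hh_continuous (ρ η : ℝ) : Continuous (hh ρ η) := by
  rw [continuous_iff_continuousAt]
  intro s
  unfold hh
  by_cases hs : s = 0
  · rw [hs]
    exact continuousAt_dslope_same.2 (om_differentiable ρ η 0)
  · exact (continuousAt_dslope_of_ne hs).2 (om_continuous ρ η).continuousAt

lemma s_hh (ρ η s : ℝ) : (s : ℂ) * hh ρ η s = om ρ η s - 1 := by
  have h := sub_smul_dslope (om ρ η) 0 s
  rw [sub_zero, om_zero] at h
  rw [← h]
  simp [hh]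

lemma hh_zero (ρ η : ℝ) : hh ρ η 0 = oL ρ η 0 := by
  unfold hh
  rw [dslope_same, (om_deriv ρ η 0).deriv, om_zero, one_mul]

lemma hh_ne {ρ η s : ℝ} (hs : s ≠ 0) : hh ρ η s = (om ρ η s - 1) / s := by
  have h := s_hh ρ η s
  have hs' : (s:ℂ) ≠ 0 := by exact_mod_cast hs
  field_simp
  rw [← h]; ring

lemma oL_continuous (ρ η : ℝ) : Continuous (oL ρ η) := by
  unfold oL oRL
  have h1 := fun s : ℝ => one_add_I_ne s
  have h2 := fun s : ℝ => one_sub_I_ne η s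
  have h3 := fun s : ℝ => (a_pos s).ne'
  have h4 := fun s : ℝ => q_ne s
  have h5 := fun s : ℝ => (b_pos η s).ne'
  apply Continuous.add
  · apply Continuous.sub
    · exact Continuous.div (by fun_prop) (by fun_prop) h1
    · exact Continuous.div (by fun_prop) (by fun_prop) h2
  · apply Complex.continuous_ofReal.comp
    apply Continuous.sub
    · apply Continuous.add
      · exact (Continuous.div (by fun_prop) (by fun_prop) h3).neg
      · exact Continuous.div (by fun_prop) (by fun_prop) h4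
    · exact Continuous.div (by fun_prop) (by fun_prop) h5

/-- k(y) = (omega(y^2) - 1)/y -/
noncomputable def kk (ρ η y : ℝ) : ℂ := y * hh ρ η (y ^ 2)

/-- derivative of k -/
noncomputable def kk1 (ρ η y : ℝ) : ℂ :=
  2 * (om ρ η (y ^ 2) * oL ρ η (y ^ 2)) - hh ρ η (y ^ 2)

lemma kk_continuous (ρ η : ℝ) : Continuous (kk ρ η) := by
  unfold kk
  have := hh_continuous ρ η
  fun_prop

lemma kk_deriv (ρ η y : ℝ) : HasDerivAt (kk ρ η) (kk1 ρ η y) y := by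
  by_cases hy : y = 0
  · rw [hy]
    have hv : kk1 ρ η 0 = hh ρ η 0 := by
      unfold kk1
      have : ((0:ℝ) ^ 2) = 0 := by norm_num
      rw [this, om_zero, hh_zero]
      ring
    rw [hv, hasDerivAt_iff_tendsto_slope]
    have hc : Tendsto (fun y : ℝ => hh ρ η (y ^ 2)) (𝓝[≠] 0) (𝓝 (hh ρ η 0)) := by
      have h1 : Continuous (fun y : ℝ => hh ρ η (y ^ 2)) := by
        have := hh_continuous ρ η
        fun_prop
      have h2 := h1.tendsto 0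
      simp only [ne_eq, OfNat.ofNat_ne_zero, not_false_eq_true, zero_pow] at h2
      exact h2.mono_left nhdsWithin_le_nhds
    refine hc.congr' ?_
    filter_upwards [self_mem_nhdsWithin] with z hz
    have hz' : (z : ℂ) ≠ 0 := by exact_mod_cast hz
    rw [slope_def_module]
    unfold kk
    simp
    field_simp
  · have h1 : HasDerivAt (fun y : ℝ => om ρ η (y ^ 2))
        ((om ρ η (y ^ 2) * oL ρ η (y ^ 2)) * ((2 * y : ℝ) : ℂ)) y := by
      have := (om_deriv ρ η (y ^ 2)).scomp y (hasDerivAt_pow 2 y)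
      refine HasDerivAt.congr_deriv this ?_
      simp
      ring
    have hid : HasDerivAt (fun s : ℝ => (s : ℂ)) 1 y := Complex.ofRealCLM.hasDerivAt
    have hy' : (y : ℂ) ≠ 0 := by exact_mod_cast hy
    have h2 := (h1.sub_const 1).fun_div hid hy'
    have h3 : (fun y : ℝ => (om ρ η (y ^ 2) - 1) / (y : ℂ)) =ᶠ[𝓝 y] kk ρ η := by
      filter_upwards [isOpen_ne.mem_nhds hy] with z hz
      unfold kk
      have hz2 : z ^ 2 ≠ 0 := pow_ne_zero 2 hz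
      rw [hh_ne hz2]
      have hz' : (z : ℂ) ≠ 0 := by exact_mod_cast hz
      push_cast
      field_simp
    have h4 := h2.congr_of_eventuallyEq h3.symm
    refine HasDerivAt.congr_deriv h4 ?_
    unfold kk1
    rw [hh_ne (pow_ne_zero 2 hy)]
    push_cast
    field_simp

/-- B(s), b(y) = B(y^2) -/
noncomputable def BBs (g ρ η s : ℝ) : ℂ :=
  (-2 * (2 * (om ρ η s * oL ρ η s) - hh ρ η s) + 4 * g * (s * hh ρ η s ^ 2)) / om ρ η s

lemma BBs_continuous (g ρ η : ℝ) : Continuous (BBs g ρ η) := by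
  unfold BBs
  have h1 := hh_continuous ρ η
  have h2 := om_continuous ρ η
  have h3 := oL_continuous ρ η
  exact Continuous.div (by fun_prop) h2 (fun s => om_ne ρ η s)

lemma BBs_eq {g ρ η s : ℝ} (hs : s ≠ 0) : BBs g ρ η s = 2 * Ph g ρ η s / s := by
  unfold BBs Ph
  rw [hh_ne hs]
  have hs' : (s : ℂ) ≠ 0 := by exact_mod_cast hs
  have ho := om_ne ρ η s
  field_simp
  ring

lemma BBs_zero (g ρ η : ℝ) : BBs g ρ η 0 = -2 * oL ρ η 0 := by
  unfold BBs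
  rw [om_zero, hh_zero]
  simp
  ring

lemma oL_zero_re (ρ η : ℝ) : (oL ρ η 0).re = -ρ := by
  unfold oL oRL
  simp

lemma tendsto_invC : Tendsto (fun s : ℝ => ((s⁻¹ : ℝ) : ℂ)) atTop (𝓝 0) := by
  have h : Tendsto (fun s : ℝ => s⁻¹) atTop (𝓝 0) := tendsto_inv_atTop_zero
  have h2 := (Complex.continuous_ofReal.tendsto 0).comp h
  rw [Complex.ofReal_zero] at h2
  exact h2

/-- omega(s)/s has limit eta^(1-2 rho) -/
lemma om_div_tendsto {ρ η : ℝ} (hη : 0 < η) :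
    Tendsto (fun s : ℝ => om ρ η s / s) atTop (𝓝 ((η ^ (1 - 2 * ρ) : ℝ) : ℂ)) := by
  -- omega/s = ((1+Is)/s) * ((1-I eta s)/s) * (s R)
  have hinv : Tendsto (fun s : ℝ => s⁻¹) atTop (𝓝 0) := tendsto_inv_atTop_zero
  have hinvC : Tendsto (fun s : ℝ => ((s⁻¹ : ℝ) : ℂ)) atTop (𝓝 0) := tendsto_invC
  have h1 : Tendsto (fun s : ℝ => ((s⁻¹ : ℝ) : ℂ) + Complex.I) atTop (𝓝 (0 + Complex.I)) :=
    hinvC.add_const _
  have h2 : Tendsto (fun s : ℝ => ((s⁻¹ : ℝ) : ℂ) - Complex.I * η) atTop (𝓝 (0 - Complex.I * η)) :=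
    hinvC.sub_const _
  -- s R = ((1+s^2)/s^2)^(-1/2) * ((1-s+s^2)/s^2)^rho * ((1+eta^2 s^2)/s^2)^(-rho)
  have hinv2 : Tendsto (fun s : ℝ => (s⁻¹) ^ 2) atTop (𝓝 0) := by
    have := hinv.pow 2
    simpa using this
  have a1 : Tendsto (fun s : ℝ => ((s⁻¹) ^ 2 + 1) ^ (-(1/2) : ℝ)) atTop (𝓝 ((0 + 1) ^ (-(1/2) : ℝ))) :=
    (hinv2.add_const 1).rpow_const (Or.inl (by norm_num))
  have a2 : Tendsto (fun s : ℝ => ((s⁻¹) ^ 2 - s⁻¹ + 1) ^ ρ) atTop (𝓝 ((0 - 0 + 1) ^ ρ)) :=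
    ((hinv2.sub hinv).add_const 1).rpow_const (Or.inl (by norm_num))
  have a3 : Tendsto (fun s : ℝ => ((s⁻¹) ^ 2 + η ^ 2) ^ (-ρ)) atTop (𝓝 ((0 + η ^ 2) ^ (-ρ))) :=
    (hinv2.add_const (η ^ 2)).rpow_const (Or.inl (by positivity))
  have h3 := ((a1.mul a2).mul a3)
  have h3' := (Complex.continuous_ofReal.tendsto _).comp h3
  have h := (h1.mul h2).mul h3'
  have hlim : (0 + Complex.I) * (0 - Complex.I * η) *
      (((0 + 1) ^ (-(1/2) : ℝ) * (0 - 0 + 1) ^ ρ * (0 + η ^ 2) ^ (-ρ) : ℝ) : ℂ) =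
      ((η ^ (1 - 2 * ρ) : ℝ) : ℂ) := by
    have e1 : ((0 + η ^ 2 : ℝ)) ^ (-ρ) = η ^ (-2 * ρ) := by
      rw [zero_add, ← Real.rpow_natCast_mul hη.le]
      congr 1
      push_cast; ring
    have e2 : η ^ (1 - 2 * ρ) = η * η ^ (-2 * ρ) := by
      have : (1 - 2 * ρ) = 1 + (-2 * ρ) := by ring
      rw [this, Real.rpow_add hη, Real.rpow_one]
    rw [e1, e2]
    have e3 : ((0 + 1 : ℝ)) ^ (-(1/2) : ℝ) = 1 := by rw [zero_add, Real.one_rpow]
    have e4 : ((0 - 0 + 1 : ℝ)) ^ ρ = 1 := by rw [sub_zero, zero_add, Real.one_rpow]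
    rw [e3, e4]
    push_cast
    have := Complex.I_mul_I
    linear_combination (-(η:ℂ) * ((η ^ (-2 * ρ) : ℝ) : ℂ)) * this
  rw [← hlim]
  refine h.congr' ?_
  filter_upwards [eventually_gt_atTop 0] with s hs
  have hs' : (s : ℂ) ≠ 0 := by exact_mod_cast hs.ne'
  have hR : s * oR ρ η s = ((s⁻¹) ^ 2 + 1) ^ (-(1/2) : ℝ) * ((s⁻¹) ^ 2 - s⁻¹ + 1) ^ ρ *
      ((s⁻¹) ^ 2 + η ^ 2) ^ (-ρ) := by
    have c1 : (s⁻¹) ^ 2 + 1 = (1 + s ^ 2) / s ^ 2 := by field_simp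
    have c2 : (s⁻¹) ^ 2 - s⁻¹ + 1 = (1 - s + s ^ 2) / s ^ 2 := by field_simp
    have c3 : (s⁻¹) ^ 2 + η ^ 2 = (1 + η ^ 2 * s ^ 2) / s ^ 2 := by field_simp
    rw [c1, c2, c3, Real.div_rpow (a_pos s).le (by positivity),
      Real.div_rpow (q_pos s).le (by positivity), Real.div_rpow (b_pos η s).le (by positivity)]
    have d1 : (s ^ 2) ^ (-(1/2) : ℝ) = s⁻¹ := by
      rw [← Real.rpow_natCast_mul hs.le]
      norm_num
      rw [Real.rpow_neg_one]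
    have d2 : (s ^ 2) ^ (-ρ) = ((s ^ 2) ^ ρ)⁻¹ := by
      rw [Real.rpow_neg (by positivity)]
    rw [d1, d2]
    unfold oR
    have : (s ^ 2) ^ ρ ≠ 0 := (Real.rpow_pos_of_pos (by positivity) _).ne'
    field_simp
  have hR' := congrArg (fun x : ℝ => (x : ℂ)) hR
  simp only [Complex.ofReal_mul] at hR'
  simp only [Function.comp, Complex.ofReal_mul]
  rw [← hR']
  unfold om
  push_cast
  field_simp

lemma oL_tendsto (ρ η : ℝ) (hη : 0 < η) : Tendsto (oL ρ η) atTop (𝓝 0) := by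
  have hinv : Tendsto (fun s : ℝ => s⁻¹) atTop (𝓝 0) := tendsto_inv_atTop_zero
  have hinvC : Tendsto (fun s : ℝ => ((s⁻¹ : ℝ) : ℂ)) atTop (𝓝 0) := tendsto_invC
  have hinv2 : Tendsto (fun s : ℝ => (s⁻¹) ^ 2) atTop (𝓝 0) := by
    have := hinv.pow 2
    simpa using this
  -- I/(1+Is) = (1/s) I / (1/s + I)
  have t1 : Tendsto (fun s : ℝ => ((s⁻¹ : ℝ) : ℂ) * Complex.I / (((s⁻¹ : ℝ) : ℂ) + Complex.I)) atTop
      (𝓝 (0 * Complex.I / (0 + Complex.I))) :=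
    (hinvC.mul_const _).div (hinvC.add_const _) (by simp)
  have t2 : Tendsto (fun s : ℝ => ((s⁻¹ : ℝ) : ℂ) * (Complex.I * η) /
      (((s⁻¹ : ℝ) : ℂ) - Complex.I * η)) atTop
      (𝓝 (0 * (Complex.I * η) / (0 - Complex.I * η))) := by
    apply (hinvC.mul_const _).div (hinvC.sub_const _)
    simp [hη.ne']
  have r1 : Tendsto (fun s : ℝ => -(s⁻¹ / ((s⁻¹) ^ 2 + 1))) atTop (𝓝 (-(0 / (0 + 1)))) :=
    (hinv.div (hinv2.add_const 1) (by norm_num)).neg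
  have r2 : Tendsto (fun s : ℝ => ρ * (s⁻¹ * (2 - s⁻¹)) / ((s⁻¹) ^ 2 - s⁻¹ + 1)) atTop
      (𝓝 (ρ * (0 * (2 - 0)) / (0 - 0 + 1))) :=
    (((hinv.mul (hinv.const_sub 2)).const_mul ρ).div ((hinv2.sub hinv).add_const 1) (by norm_num))
  have r3 : Tendsto (fun s : ℝ => 2 * ρ * η ^ 2 * s⁻¹ / ((s⁻¹) ^ 2 + η ^ 2)) atTop
      (𝓝 (2 * ρ * η ^ 2 * 0 / (0 + η ^ 2))) :=
    ((hinv.const_mul (2 * ρ * η ^ 2)).div (hinv2.add_const (η ^ 2)) (by positivity))
  have r := (Complex.continuous_ofReal.tendsto _).comp ((r1.add r2).sub r3)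
  have h := (t1.sub t2).add r
  have hlim : (0 * Complex.I / (0 + Complex.I) - 0 * (Complex.I * η) / (0 - Complex.I * η)) +
      ((-(0 / (0 + 1)) + ρ * (0 * (2 - 0)) / (0 - 0 + 1) - 2 * ρ * η ^ 2 * 0 / (0 + η ^ 2) : ℝ) : ℂ)
      = 0 := by
    simp
  rw [← hlim]
  refine h.congr' ?_
  filter_upwards [eventually_gt_atTop 0] with s hs
  have hs' : (s : ℂ) ≠ 0 := by exact_mod_cast hs.ne'
  unfold oL
  congr 1
  · congr 1
    · push_cast
      rw [div_eq_div_iff]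
      · field_simp
      · have := one_add_I_ne s
        intro h0
        apply this
        have : (1 + Complex.I * s : ℂ) = s * ((s:ℂ)⁻¹ + Complex.I) := by field_simp
        rw [this, h0, mul_zero]
      · exact one_add_I_ne s
    · push_cast
      rw [div_eq_div_iff]
      · field_simp
      · have := one_sub_I_ne η s
        intro h0
        apply this
        have : (1 - Complex.I * (η * s) : ℂ) = s * ((s:ℂ)⁻¹ - Complex.I * η) := by field_simp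
        rw [this, h0, mul_zero]
      · exact one_sub_I_ne η s
  · simp only [Function.comp]
    congr 1
    unfold oRL
    have h1 := (a_pos s).ne'
    have h2 := q_ne s
    have h3 := (b_pos η s).ne'
    have c1 : (s⁻¹) ^ 2 + 1 = (1 + s ^ 2) / s ^ 2 := by field_simp
    have c2 : (s⁻¹) ^ 2 - s⁻¹ + 1 = (1 - s + s ^ 2) / s ^ 2 := by field_simp
    have c3 : (s⁻¹) ^ 2 + η ^ 2 = (1 + η ^ 2 * s ^ 2) / s ^ 2 := by field_simp
    rw [c1, c2, c3]
    have e1 : s⁻¹ / ((1 + s ^ 2) / s ^ 2) = s / (1 + s ^ 2) := by field_simp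
    have e2 : ρ * (s⁻¹ * (2 - s⁻¹)) / ((1 - s + s ^ 2) / s ^ 2) = ρ * (2 * s - 1) / (1 - s + s ^ 2) := by
      field_simp
    have e3 : 2 * ρ * η ^ 2 * s⁻¹ / ((1 + η ^ 2 * s ^ 2) / s ^ 2) =
      2 * ρ * η ^ 2 * s / (1 + η ^ 2 * s ^ 2) := by field_simp
    rw [e1, e2, e3]

lemma BBs_tendsto {g ρ η : ℝ} (hη : 0 < η) :
    Tendsto (BBs g ρ η) atTop (𝓝 ((4 * g * η ^ (1 - 2 * ρ) : ℝ) : ℂ)) := by
  have hinv : Tendsto (fun s : ℝ => s⁻¹) atTop (𝓝 0) := tendsto_inv_atTop_zero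
  have hinvC : Tendsto (fun s : ℝ => ((s⁻¹ : ℝ) : ℂ)) atTop (𝓝 0) := tendsto_invC
  have hL := oL_tendsto ρ η hη
  have ho := om_div_tendsto (ρ := ρ) hη
  have hne : ((η ^ (1 - 2 * ρ) : ℝ) : ℂ) ≠ 0 := by
    exact_mod_cast (Real.rpow_pos_of_pos hη _).ne'
  -- 2 Phi / s = 2 (1-4g)/s + 4 g om/s - 2(1-2g)/(s om) - 4 L
  have h1 : Tendsto (fun s : ℝ => 2 * (1 - 4 * (g:ℂ)) * ((s⁻¹ : ℝ) : ℂ) + 4 * g * (om ρ η s / s)
      - 2 * (1 - 2 * g) * (((s⁻¹ : ℝ) : ℂ) * ((s⁻¹ : ℝ) : ℂ)) / (om ρ η s / s) - 4 * oL ρ η s) atTop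
      (𝓝 (2 * (1 - 4 * (g:ℂ)) * 0 + 4 * g * ((η ^ (1 - 2 * ρ) : ℝ) : ℂ) -
        2 * (1 - 2 * g) * (0 * 0) / ((η ^ (1 - 2 * ρ) : ℝ) : ℂ) - 4 * 0)) := by
    apply Tendsto.sub
    · apply Tendsto.sub
      · exact (hinvC.const_mul _).add (ho.const_mul _)
      · exact ((hinvC.mul hinvC).const_mul _).div ho hne
    · exact hL.const_mul _
  have hlim : (2 * (1 - 4 * (g:ℂ)) * 0 + 4 * g * ((η ^ (1 - 2 * ρ) : ℝ) : ℂ) -
        2 * (1 - 2 * g) * (0 * 0) / ((η ^ (1 - 2 * ρ) : ℝ) : ℂ) - 4 * 0) =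
        ((4 * g * η ^ (1 - 2 * ρ) : ℝ) : ℂ) := by
    push_cast
    ring
  rw [← hlim]
  refine h1.congr' ?_
  filter_upwards [eventually_gt_atTop 0] with s hs
  have hs' : (s : ℂ) ≠ 0 := by exact_mod_cast hs.ne'
  have ho := om_ne ρ η s
  rw [BBs_eq hs.ne']
  unfold Ph
  push_cast
  field_simp
  ring

/-- parameters chosen; uniform bounds -/
lemma BBs_bounds {g η δ : ℝ} (hg0 : 0 < g) (hg : g < 1 / 4) (hη0 : 0 < η) (hη1 : η ≤ 1 / 10)
    (hη2 : 64 * η ^ 2 ≤ 1 - 4 * g) (hδ0 : 0 < δ) (hδ : 64 * δ ^ 2 = 1 - 4 * g)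
    (hbig : 1 + 3 / (g * δ) < (δ ^ 2 / (2 * η ^ 2)) ^ ((1 - 4 * g) / 64)) :
    ∃ c C : ℝ, 0 < c ∧ ∀ s : ℝ, 0 ≤ s → c ≤ (BBs g ((1 - 4 * g) / 64) η s).re ∧
      ‖BBs g ((1 - 4 * g) / 64) η s‖ ≤ C := by
  set ρ := (1 - 4 * g) / 64 with hρ
  have hρ0 : 0 < ρ := by rw [hρ]; linarith
  have hpos : ∀ s : ℝ, 0 ≤ s → 0 < (BBs g ρ η s).re := by
    intro s hs
    rcases hs.eq_or_lt with h | h
    · rw [← h, BBs_zero]
      have := oL_zero_re ρ η
      simp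
      rw [this]
      linarith
    · rw [BBs_eq h.ne']
      have h1 := Ph_re_pos hg0 hg hη0 hη1 hη2 hδ0 hδ hbig h
      have h2 : (2 * Ph g ρ η s / s : ℂ) = (((2 / s : ℝ)) : ℂ) * Ph g ρ η s := by
        push_cast; ring
      rw [h2, Complex.re_ofReal_mul]
      positivity
  have hlim := BBs_tendsto (g := g) (ρ := ρ) hη0
  set L : ℝ := 4 * g * η ^ (1 - 2 * ρ) with hL
  have hL0 : 0 < L := by
    have := Real.rpow_pos_of_pos hη0 (1 - 2 * ρ)
    positivity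
  have hre : Tendsto (fun s => (BBs g ρ η s).re) atTop (𝓝 L) := by
    have := (Complex.continuous_re.tendsto _).comp hlim
    rw [Complex.ofReal_re] at this
    exact this
  have hnorm : Tendsto (fun s => ‖BBs g ρ η s‖) atTop (𝓝 ‖((L : ℝ) : ℂ)‖) := hlim.norm
  obtain ⟨S1, hS1⟩ := (hre.eventually (lt_mem_nhds (show L / 2 < L by linarith))).exists_forall_of_atTop
  obtain ⟨S2, hS2⟩ := (hnorm.eventually (gt_mem_nhds (show ‖((L : ℝ) : ℂ)‖ < ‖((L : ℝ) : ℂ)‖ + 1 by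
    linarith))).exists_forall_of_atTop
  set S := max (max S1 S2) 0 with hS
  have hcont := BBs_continuous g ρ η
  have hcomp : IsCompact (Set.Icc (0:ℝ) S) := isCompact_Icc
  have hne : (Set.Icc (0:ℝ) S).Nonempty := ⟨0, le_refl _, le_max_right _ _⟩
  obtain ⟨x1, hx1, hmin⟩ := hcomp.exists_isMinOn hne
    (Complex.continuous_re.comp hcont).continuousOn
  obtain ⟨x2, hx2, hmax⟩ := hcomp.exists_isMaxOn hne hcont.norm.continuousOn
  refine ⟨min (L / 2) (BBs g ρ η x1).re, max (‖((L : ℝ) : ℂ)‖ + 1) ‖BBs g ρ η x2‖,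
    lt_min (by linarith) (hpos x1 hx1.1), ?_⟩
  intro s hs
  rcases le_or_gt s S with h | h
  · refine ⟨(min_le_right _ _).trans (hmin ⟨hs, h⟩), (hmax ⟨hs, h⟩).trans (le_max_right _ _)⟩
  · have h1 : S1 ≤ s := ((le_max_left S1 S2).trans (le_max_left _ _)).trans h.le
    have h2 : S2 ≤ s := ((le_max_right S1 S2).trans (le_max_left _ _)).trans h.le
    exact ⟨(min_le_left _ _).trans (hS1 s h1).le, (hS2 s h2).le.trans (le_max_left _ _)⟩

end Pool.Agent.H56.Para
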