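import Mathlib
import Pool.Agent.H56.ParaProfile2

/-!
The self-similar profile: existence statement.
-/

set_option autoImplicit false
set_option maxHeartbeats 1000000

namespace Pool.Agent.H56.Para

open Filter Topology MeasureTheory intervalIntegral

/-- a continuous function with a limit at infinity is bounded on [0,∞) -/
lemma bdd_of_tendsto {f : ℝ → ℂ} (hf : Continuous f) {L : ℂ} (h : Tendsto f atTop (𝓝 L)) :
    ∃ C : ℝ, 0 ≤ C ∧ ∀ s : ℝ, 0 ≤ s → ‖f s‖ ≤ C := by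
  obtain ⟨S2, hS2⟩ := (h.norm.eventually (gt_mem_nhds (show ‖L‖ < ‖L‖ + 1 by
    linarith))).exists_forall_of_atTop
  obtain ⟨K, hK⟩ := (isCompact_Icc (a := (0:ℝ)) (b := S2)).exists_bound_of_continuousOn
    hf.continuousOn
  refine ⟨max (‖L‖ + 1) K, le_trans (by positivity) (le_max_left _ _), ?_⟩
  intro s hs
  rcases le_or_gt s S2 with h1 | h1
  · exact (hK s ⟨hs, h1⟩).trans (le_max_right _ _)
  · exact (hS2 s h1.le).le.trans (le_max_left _ _)

lemma hh_tendsto {ρ η : ℝ} (hη : 0 < η) :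
    Tendsto (hh ρ η) atTop (𝓝 ((η ^ (1 - 2 * ρ) : ℝ) : ℂ)) := by
  have h1 := (om_div_tendsto (ρ := ρ) hη).sub tendsto_invC
  rw [sub_zero] at h1
  refine h1.congr' ?_
  filter_upwards [eventually_gt_atTop 0] with s hs
  rw [hh_ne hs.ne']
  push_cast
  rw [sub_div, one_div]

lemma kk_re_lower {ρ η : ℝ} (hη : 0 < η) :
    ∃ m C : ℝ, 0 < m ∧ ∀ y : ℝ, 0 ≤ y → m * y - C ≤ (kk ρ η y).re := by
  have hlim := hh_tendsto (ρ := ρ) hη
  set L := η ^ (1 - 2 * ρ) with hL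
  have hL0 : 0 < L := Real.rpow_pos_of_pos hη _
  have hre : Tendsto (fun s => (hh ρ η s).re) atTop (𝓝 L) := by
    have := (Complex.continuous_re.tendsto _).comp hlim
    rw [Complex.ofReal_re] at this
    exact this
  obtain ⟨S, hS⟩ := (hre.eventually (lt_mem_nhds (show L / 2 < L by linarith))).exists_forall_of_atTop
  obtain ⟨C, hC0, hC⟩ := bdd_of_tendsto (hh_continuous ρ η) hlim
  refine ⟨L / 2, (L / 2 + C) * Real.sqrt S, by linarith, ?_⟩
  intro y hy
  have hk : (kk ρ η y).re = y * (hh ρ η (y ^ 2)).re := by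
    unfold kk
    rw [Complex.re_ofReal_mul]
  rw [hk]
  rcases le_or_gt S (y ^ 2) with h | h
  · have h1 := (hS _ h).le
    have h2 := mul_le_mul_of_nonneg_left h1 hy
    have h3 : 0 ≤ (L / 2 + C) * Real.sqrt S := by positivity
    linarith
  · have h1 : y ≤ Real.sqrt S := Real.le_sqrt_of_sq_le h.le
    have h2 := hC (y ^ 2) (by positivity)
    have h3 : -C ≤ (hh ρ η (y ^ 2)).re := by
      have := (Complex.abs_re_le_norm (hh ρ η (y ^ 2)))
      have := neg_le_of_abs_le this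
      linarith
    have h4 := mul_le_mul_of_nonneg_left h3 hy
    have h5 : (L / 2 + C) * y ≤ (L / 2 + C) * Real.sqrt S :=
      mul_le_mul_of_nonneg_left h1 (by positivity)
    nlinarith

/-- the primitive of k -/
noncomputable def KK (ρ η y : ℝ) : ℂ := ∫ u in (0:ℝ)..y, kk ρ η u

lemma KK_deriv (ρ η y : ℝ) : HasDerivAt (KK ρ η) (kk ρ η y) y :=
  intervalIntegral.integral_hasDerivAt_right ((kk_continuous ρ η).intervalIntegrable 0 y)
    ((kk_continuous ρ η).stronglyMeasurableAtFilter _ _) (kk_continuous ρ η).continuousAt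

lemma kk_neg (ρ η y : ℝ) : kk ρ η (-y) = - kk ρ η y := by
  unfold kk; simp

lemma KK_neg (ρ η y : ℝ) : KK ρ η (-y) = KK ρ η y := by
  have h := intervalIntegral.integral_comp_neg (kk ρ η) (a := 0) (b := y)
  have h2 : ∫ x in (0:ℝ)..y, kk ρ η (-x) = - KK ρ η y := by
    unfold KK
    rw [← intervalIntegral.integral_neg]
    congr 1
    funext x
    rw [kk_neg]
  rw [h2, neg_zero, intervalIntegral.integral_symm] at h
  have h3 : KK ρ η (-y) = ∫ x in (0:ℝ)..(-y), kk ρ η x := rfl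
  rw [h3]
  have := neg_injective h
  exact this.symm

lemma KK_re_lower {ρ η : ℝ} (hη : 0 < η) :
    ∃ m C : ℝ, 0 < m ∧ ∀ y : ℝ, m * y ^ 2 - C * |y| ≤ (KK ρ η y).re := by
  obtain ⟨m, C, hm, h⟩ := kk_re_lower (ρ := ρ) hη
  refine ⟨m / 2, C, by linarith, ?_⟩
  have key : ∀ y : ℝ, 0 ≤ y → m / 2 * y ^ 2 - C * y ≤ (KK ρ η y).re := by
    intro y hy
    have hre : (KK ρ η y).re = ∫ u in (0:ℝ)..y, (kk ρ η u).re := by
      unfold KK
      have := Complex.reCLM.intervalIntegral_comp_comm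
        ((kk_continuous ρ η).intervalIntegrable (μ := volume) 0 y)
      simpa using this.symm
    have hint : ∫ u in (0:ℝ)..y, (m * u - C) = m / 2 * y ^ 2 - C * y := by
      rw [intervalIntegral.integral_sub, intervalIntegral.integral_const_mul, integral_id]
      · simp; ring
      · apply Continuous.intervalIntegrable; fun_prop
      · apply Continuous.intervalIntegrable; fun_prop
    rw [hre, ← hint]
    apply intervalIntegral.integral_mono_on hy
    · apply Continuous.intervalIntegrable; fun_prop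
    · exact (Complex.continuous_re.comp (kk_continuous ρ η)).intervalIntegrable _ _
    · intro u hu
      exact h u hu.1
  intro y
  rcases le_total 0 y with hy | hy
  · rw [abs_of_nonneg hy]; exact key y hy
  · rw [abs_of_nonpos hy, ← KK_neg]
    have := key (-y) (by linarith)
    have h2 : (-y) ^ 2 = y ^ 2 := by ring
    rw [h2] at this
    exact this

/-- polynomial times Gaussian is bounded -/
lemma gauss_bound {α : ℝ} (hα : 0 < α) (β : ℝ) (n : ℕ) :
    ∃ C : ℝ, 0 < C ∧ ∀ y : ℝ, (1 + y ^ 2) ^ n * Real.exp (-(α * y ^ 2) + β * |y|) ≤ C := by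
  -- 1 + x ≤ (1/l) exp (l x), l = min 1 (α/(2(n+1)))
  set l := min 1 (α / (2 * (n + 1))) with hl
  have hl0 : 0 < l := lt_min one_pos (by positivity)
  have hl1 : l ≤ 1 := min_le_left _ _
  have hl2 : n * l ≤ α / 2 := by
    have h1 : l ≤ α / (2 * (n + 1)) := min_le_right _ _
    have h2 : (n : ℝ) * l ≤ n * (α / (2 * (n + 1))) := mul_le_mul_of_nonneg_left h1 (by positivity)
    have h3 : (n : ℝ) * (α / (2 * (n + 1))) ≤ α / 2 := by
      rw [mul_div_assoc', div_le_div_iff₀ (by positivity) (by positivity)]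
      nlinarith
    linarith
  refine ⟨(1 / l) ^ n * Real.exp (β ^ 2 / (2 * α)), by positivity, ?_⟩
  intro y
  have h1 : 1 + y ^ 2 ≤ 1 / l * Real.exp (l * y ^ 2) := by
    have h2 := Real.add_one_le_exp (l * y ^ 2)
    have h3 : 1 + y ^ 2 ≤ 1 / l * (l * y ^ 2 + 1) := by
      have : 1 / l * (l * y ^ 2 + 1) = y ^ 2 + 1 / l := by field_simp
      rw [this]
      have : 1 ≤ 1 / l := by rw [le_div_iff₀ hl0]; linarith
      linarith
    exact h3.trans (mul_le_mul_of_nonneg_left h2 (by positivity))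
  have h2 : (1 + y ^ 2) ^ n ≤ (1 / l) ^ n * Real.exp (α / 2 * y ^ 2) := by
    calc (1 + y ^ 2) ^ n ≤ (1 / l * Real.exp (l * y ^ 2)) ^ n :=
          pow_le_pow_left₀ (by positivity) h1 n
      _ = (1 / l) ^ n * Real.exp (n * (l * y ^ 2)) := by
          rw [mul_pow, ← Real.exp_nat_mul]
      _ ≤ (1 / l) ^ n * Real.exp (α / 2 * y ^ 2) := by
          apply mul_le_mul_of_nonneg_left _ (by positivity)
          apply Real.exp_le_exp.2
          have := mul_le_mul_of_nonneg_right hl2 (sq_nonneg y)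
          linarith
  calc (1 + y ^ 2) ^ n * Real.exp (-(α * y ^ 2) + β * |y|)
      ≤ ((1 / l) ^ n * Real.exp (α / 2 * y ^ 2)) * Real.exp (-(α * y ^ 2) + β * |y|) :=
        mul_le_mul_of_nonneg_right h2 (Real.exp_pos _).le
    _ = (1 / l) ^ n * Real.exp (α / 2 * y ^ 2 + (-(α * y ^ 2) + β * |y|)) := by
        rw [mul_assoc, ← Real.exp_add]
    _ ≤ (1 / l) ^ n * Real.exp (β ^ 2 / (2 * α)) := by
        apply mul_le_mul_of_nonneg_left _ (by positivity)
        apply Real.exp_le_exp.2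
        rw [le_div_iff₀ (by positivity)]
        have h5 : |y| ^ 2 = y ^ 2 := sq_abs y
        have h6 : (α * |y| - β) ^ 2 = α ^ 2 * |y| ^ 2 - 2 * α * β * |y| + β ^ 2 := by ring
        have h7 : (α / 2 * y ^ 2 + (-(α * y ^ 2) + β * |y|)) * (2 * α) =
          -(α ^ 2 * y ^ 2) + 2 * α * β * |y| := by ring
        have h8 := sq_nonneg (α * |y| - β)
        rw [h6, h5] at h8
        rw [h7]
        linarith

/-- the profile -/
noncomputable def WW (g ρ η y : ℝ) : ℂ := Complex.exp (-(2 * g * KK ρ η y))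
/-- its derivative -/
noncomputable def WW1 (g ρ η y : ℝ) : ℂ := -(2 * g * kk ρ η y) * WW g ρ η y
/-- its second derivative -/
noncomputable def WW2 (g ρ η y : ℝ) : ℂ :=
  (-(2 * g * kk1 ρ η y) + (2 * g * kk ρ η y) ^ 2) * WW g ρ η y

lemma WW_deriv (g ρ η y : ℝ) : HasDerivAt (WW g ρ η) (WW1 g ρ η y) y := by
  have h := ((KK_deriv ρ η y).const_mul (2 * (g:ℂ))).fun_neg.cexp
  refine HasDerivAt.congr_deriv h ?_
  unfold WW1 WW
  ring

lemma WW1_deriv (g ρ η y : ℝ) : HasDerivAt (WW1 g ρ η) (WW2 g ρ η y) y := by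
  have h := (((kk_deriv ρ η y).const_mul (2 * (g:ℂ))).fun_neg).fun_mul (WW_deriv g ρ η y)
  refine HasDerivAt.congr_deriv h ?_
  unfold WW2 WW1
  ring

lemma NN_eq (g ρ η y : ℝ) : (g : ℂ) * WW g ρ η y - y / 2 * WW1 g ρ η y =
    g * om ρ η (y ^ 2) * WW g ρ η y := by
  have h := s_hh ρ η (y ^ 2)
  push_cast at h
  unfold WW1 kk
  linear_combination (g * WW g ρ η y) * h

lemma WW2_eq (g ρ η y : ℝ) : WW2 g ρ η y =
    BBs g ρ η (y ^ 2) * ((g : ℂ) * WW g ρ η y - y / 2 * WW1 g ρ η y) := by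
  rw [NN_eq]
  unfold WW2 BBs kk1 kk
  have ho := om_ne ρ η (y ^ 2)
  push_cast
  field_simp
  ring

/-- Existence of the self-similar profile, for each exponent g in (0,1/4). -/
theorem exists_profile {g : ℝ} (hg0 : 0 < g) (hg : g < 1 / 4) :
    ∃ (W W1 W2 b : ℝ → ℂ) (c C : ℝ), 0 < c ∧ 0 < C ∧
      (∀ y, HasDerivAt W (W1 y) y) ∧ (∀ y, HasDerivAt W1 (W2 y) y) ∧
      (∀ y, W2 y = b y * ((g : ℂ) * W y - y / 2 * W1 y)) ∧
      Continuous b ∧ Continuous W2 ∧ (∀ y, c ≤ (b y).re) ∧ (∀ y, ‖b y‖ ≤ C) ∧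
      (∀ y, (1 + y ^ 2) ^ 3 * ‖W y‖ ≤ C) ∧ (∀ y, (1 + y ^ 2) ^ 3 * ‖W1 y‖ ≤ C) ∧
      (∀ y, (1 + y ^ 2) ^ 3 * ‖W2 y‖ ≤ C) ∧ W1 1 ≠ 0 := by
  obtain ⟨η, δ, hη0, hη1, hη2, hδ0, hδ, hbig⟩ := exists_eta hg0 hg
  obtain ⟨c, C1, hc, hb⟩ := BBs_bounds hg0 hg hη0 hη1 hη2 hδ0 hδ hbig
  set ρ := (1 - 4 * g) / 64 with hρ
  obtain ⟨m, C2, hm, hK⟩ := KK_re_lower (ρ := ρ) hη0
  obtain ⟨C3, hC30, hC3⟩ := bdd_of_tendsto (hh_continuous ρ η) (hh_tendsto (ρ := ρ) hη0)
  obtain ⟨C4, hC40, hC4⟩ := gauss_bound (α := 2 * g * m) (by positivity) (2 * g * C2) 5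
  have hC1 : 0 ≤ C1 := (norm_nonneg _).trans (hb 0 le_rfl).2
  -- basic norm bound
  have hW : ∀ y, (1 + y ^ 2) ^ 5 * ‖WW g ρ η y‖ ≤ C4 := by
    intro y
    have h1 : ‖WW g ρ η y‖ ≤ Real.exp (-(2 * g * m * y ^ 2) + 2 * g * C2 * |y|) := by
      unfold WW
      rw [Complex.norm_exp]
      apply Real.exp_le_exp.2
      have h2 : (-(2 * g * KK ρ η y) : ℂ).re = -(2 * g * (KK ρ η y).re) := by
        have : (2 * g * KK ρ η y : ℂ) = ((2 * g : ℝ) : ℂ) * KK ρ η y := by push_cast; ring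
        rw [Complex.neg_re, this, Complex.re_ofReal_mul]
      rw [h2]
      have h3 := mul_le_mul_of_nonneg_left (hK y) (show 0 ≤ 2 * g by linarith)
      linarith
    calc (1 + y ^ 2) ^ 5 * ‖WW g ρ η y‖ ≤
        (1 + y ^ 2) ^ 5 * Real.exp (-(2 * g * m * y ^ 2) + 2 * g * C2 * |y|) :=
          mul_le_mul_of_nonneg_left h1 (by positivity)
      _ ≤ C4 := hC4 y
  have hpow : ∀ (y : ℝ) (n : ℕ), n ≤ 5 → (1 + y ^ 2) ^ n * ‖WW g ρ η y‖ ≤ C4 := by
    intro y n hn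
    refine le_trans ?_ (hW y)
    apply mul_le_mul_of_nonneg_right _ (norm_nonneg _)
    exact pow_le_pow_right₀ (by nlinarith [sq_nonneg y]) hn
  -- bound of k
  have hk : ∀ y, ‖kk ρ η y‖ ≤ C3 * (1 + y ^ 2) := by
    intro y
    unfold kk
    rw [norm_mul, Complex.norm_real, Real.norm_eq_abs]
    have h1 := hC3 (y ^ 2) (by positivity)
    have h2 : |y| ≤ 1 + y ^ 2 := by
      rw [← sq_abs]; nlinarith [sq_nonneg (|y| - 1), abs_nonneg y]
    calc |y| * ‖hh ρ η (y ^ 2)‖ ≤ (1 + y ^ 2) * C3 :=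
          mul_le_mul h2 h1 (norm_nonneg _) (by positivity)
      _ = C3 * (1 + y ^ 2) := by ring
  have hW1 : ∀ y, (1 + y ^ 2) ^ 4 * ‖WW1 g ρ η y‖ ≤ 2 * g * C3 * C4 := by
    intro y
    unfold WW1
    rw [norm_mul, norm_neg]
    have h1 : ‖(2 * g * kk ρ η y : ℂ)‖ ≤ 2 * g * (C3 * (1 + y ^ 2)) := by
      have : (2 * g * kk ρ η y : ℂ) = ((2 * g : ℝ) : ℂ) * kk ρ η y := by push_cast; ring
      rw [this, norm_mul, Complex.norm_real, Real.norm_eq_abs, abs_of_nonneg (by linarith)]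
      exact mul_le_mul_of_nonneg_left (hk y) (by linarith)
    calc (1 + y ^ 2) ^ 4 * (‖(2 * g * kk ρ η y : ℂ)‖ * ‖WW g ρ η y‖)
        ≤ (1 + y ^ 2) ^ 4 * ((2 * g * (C3 * (1 + y ^ 2))) * ‖WW g ρ η y‖) := by
          apply mul_le_mul_of_nonneg_left _ (by positivity)
          exact mul_le_mul_of_nonneg_right h1 (norm_nonneg _)
      _ = 2 * g * C3 * ((1 + y ^ 2) ^ 5 * ‖WW g ρ η y‖) := by ring
      _ ≤ 2 * g * C3 * C4 := mul_le_mul_of_nonneg_left (hW y) (by positivity)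
  have hN : ∀ y, (1 + y ^ 2) ^ 3 * ‖(g : ℂ) * WW g ρ η y - y / 2 * WW1 g ρ η y‖ ≤
      C4 + 2 * g * C3 * C4 := by
    intro y
    have h1 : ‖(g : ℂ) * WW g ρ η y‖ ≤ ‖WW g ρ η y‖ := by
      rw [norm_mul, Complex.norm_real, Real.norm_eq_abs, abs_of_pos hg0]
      nlinarith [norm_nonneg (WW g ρ η y)]
    have h2 : ‖(y : ℂ) / 2 * WW1 g ρ η y‖ ≤ (1 + y ^ 2) * ‖WW1 g ρ η y‖ := by
      rw [norm_mul, norm_div, Complex.norm_real, Real.norm_eq_abs]
      have h2 : |y| / ‖(2:ℂ)‖ ≤ 1 + y ^ 2 := by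
        simp only [Complex.norm_ofNat]
        rw [← sq_abs]; nlinarith [sq_nonneg (|y| - 1), abs_nonneg y]
      exact mul_le_mul_of_nonneg_right h2 (norm_nonneg _)
    calc (1 + y ^ 2) ^ 3 * ‖(g : ℂ) * WW g ρ η y - y / 2 * WW1 g ρ η y‖
        ≤ (1 + y ^ 2) ^ 3 * (‖WW g ρ η y‖ + (1 + y ^ 2) * ‖WW1 g ρ η y‖) := by
          apply mul_le_mul_of_nonneg_left _ (by positivity)
          exact (norm_sub_le _ _).trans (add_le_add h1 h2)
      _ = (1 + y ^ 2) ^ 3 * ‖WW g ρ η y‖ + (1 + y ^ 2) ^ 4 * ‖WW1 g ρ η y‖ := by ring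
      _ ≤ C4 + 2 * g * C3 * C4 := add_le_add (hpow y 3 (by norm_num)) (hW1 y)
  have hW2 : ∀ y, (1 + y ^ 2) ^ 3 * ‖WW2 g ρ η y‖ ≤ C1 * (C4 + 2 * g * C3 * C4) := by
    intro y
    rw [WW2_eq, norm_mul]
    have h1 := (hb (y ^ 2) (by positivity)).2
    calc (1 + y ^ 2) ^ 3 * (‖BBs g ρ η (y ^ 2)‖ * ‖(g : ℂ) * WW g ρ η y - y / 2 * WW1 g ρ η y‖)
        = ‖BBs g ρ η (y ^ 2)‖ * ((1 + y ^ 2) ^ 3 * ‖(g : ℂ) * WW g ρ η y - y / 2 * WW1 g ρ η y‖) := by
          ring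
      _ ≤ C1 * (C4 + 2 * g * C3 * C4) :=
          mul_le_mul h1 (hN y) (by positivity) hC1
  set C := C1 + C4 + 2 * g * C3 * C4 + C1 * (C4 + 2 * g * C3 * C4) with hC
  have hp1 : 0 ≤ 2 * g * C3 * C4 := by positivity
  have hp2 : 0 ≤ C1 * (C4 + 2 * g * C3 * C4) := by positivity
  refine ⟨WW g ρ η, WW1 g ρ η, WW2 g ρ η, fun y => BBs g ρ η (y ^ 2), c, C, hc, by linarith,
    WW_deriv g ρ η, WW1_deriv g ρ η, WW2_eq g ρ η, ?_, ?_, ?_, ?_, ?_, ?_, ?_, ?_⟩
  · have := BBs_continuous g ρ η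
    fun_prop
  · have h1 := BBs_continuous g ρ η
    have h2 : Continuous (WW g ρ η) :=
      continuous_iff_continuousAt.2 fun y => (WW_deriv g ρ η y).continuousAt
    have h3 : Continuous (WW1 g ρ η) :=
      continuous_iff_continuousAt.2 fun y => (WW1_deriv g ρ η y).continuousAt
    have h4 : WW2 g ρ η = fun y => BBs g ρ η (y ^ 2) * ((g : ℂ) * WW g ρ η y - y / 2 * WW1 g ρ η y) := by
      funext y; exact WW2_eq g ρ η y
    rw [h4]
    fun_prop
  · intro y; exact (hb (y ^ 2) (by positivity)).1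
  · intro y
    have := (hb (y ^ 2) (by positivity)).2
    linarith
  · intro y
    have := hpow y 3 (by norm_num)
    linarith
  · intro y
    have h1 := hW1 y
    have h2 : (1 + y ^ 2) ^ 3 * ‖WW1 g ρ η y‖ ≤ (1 + y ^ 2) ^ 4 * ‖WW1 g ρ η y‖ := by
      apply mul_le_mul_of_nonneg_right _ (norm_nonneg _)
      exact pow_le_pow_right₀ (by nlinarith [sq_nonneg y]) (by norm_num)
    linarith
  · intro y
    have := hW2 y
    linarith
  · unfold WW1 WW
    apply mul_ne_zero _ (Complex.exp_ne_zero _)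
    rw [neg_ne_zero]
    apply mul_ne_zero
    · have : (2 * g : ℂ) = ((2 * g : ℝ) : ℂ) := by push_cast; ring
      rw [this]
      exact_mod_cast (show (2 * g) ≠ 0 by positivity)
    · intro h0
      unfold kk at h0
      have h1 := s_hh ρ η 1
      have h2 : om ρ η 1 = 1 := by
        have : ((1:ℝ) ^ 2) = 1 := by norm_num
        rw [this] at h0
        rw [h0] at h1
        linear_combination -h1
      have h3 := om_im ρ η 1
      rw [h2] at h3
      simp only [Complex.one_im] at h3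
      have h4 := oR_pos ρ η 1
      have h5 : 0 < (1 - η) * 1 * oR ρ η 1 := by
        apply mul_pos _ h4
        linarith
      linarith

end Pool.Agent.H56.Para
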