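import Mathlib
import Pool.Agent.H56.ParaForm
import Pool.Agent.H56.ParaFld
import Pool.Agent.H56.ParaProfile3

/-!
Main argument: failure of `L^p` boundedness for `p < 3/(3-2g)`.
-/

set_option autoImplicit false
set_option maxHeartbeats 1000000

namespace Pool.Agent.H56.Para

open MeasureTheory Filter Topology FourierTransform
open scoped ENNReal ComplexConjugate

/-- cut-off in time -/
noncomputable def chi (t : ℝ) : ℝ := Real.smoothTransition (t - 1)

lemma chi_contDiff : ContDiff ℝ (⊤ : ℕ∞) chi := by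
  unfold chi
  exact Real.smoothTransition.contDiff.comp (contDiff_id.sub contDiff_const)

lemma chi_hasDeriv (t : ℝ) : HasDerivAt chi (deriv chi t) t :=
  (chi_contDiff.differentiable (by simp) t).hasDerivAt

lemma chi_zero {t : ℝ} (h : t ≤ 1) : chi t = 0 :=
  Real.smoothTransition.zero_of_nonpos (by linarith)

lemma chi_one {t : ℝ} (h : 2 ≤ t) : chi t = 1 :=
  Real.smoothTransition.one_of_one_le (by linarith)

lemma chi_abs (t : ℝ) : |chi t| ≤ 1 := by
  unfold chi
  rw [abs_of_nonneg (Real.smoothTransition.nonneg _)]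
  exact Real.smoothTransition.le_one _

lemma dchi_zero {t : ℝ} (h : t < 1) : deriv chi t = 0 := by
  have h1 : chi =ᶠ[𝓝 t] fun _ => 0 := by
    filter_upwards [gt_mem_nhds h] with s hs
    exact chi_zero hs.le
  rw [h1.deriv_eq]
  simp

lemma dchi_zero' {t : ℝ} (h : 2 < t) : deriv chi t = 0 := by
  have h1 : chi =ᶠ[𝓝 t] fun _ => 1 := by
    filter_upwards [lt_mem_nhds h] with s hs
    exact chi_one hs.le
  rw [h1.deriv_eq]
  simp

lemma dchi_continuous : Continuous (deriv chi) :=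
  (chi_contDiff.of_le (by exact_mod_cast le_top : (1 : WithTop ℕ∞) ≤ ((⊤ : ℕ∞) : WithTop ℕ∞))).continuous_deriv
    le_rfl

lemma dchi_bound : ∃ K : ℝ, 0 ≤ K ∧ ∀ t, |deriv chi t| ≤ K := by
  obtain ⟨K, hK⟩ := (isCompact_Icc (a := (1:ℝ)) (b := 2)).exists_bound_of_continuousOn
    dchi_continuous.continuousOn
  refine ⟨max K 0, le_max_right _ _, ?_⟩
  intro t
  rcases lt_or_ge t 1 with h | h
  · rw [dchi_zero h, abs_zero]
    exact le_max_right _ _
  rcases lt_or_ge 2 t with h2 | h2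
  · rw [dchi_zero' h2, abs_zero]
    exact le_max_right _ _
  · exact (hK t ⟨h, h2⟩).trans (le_max_left _ _)

/-- time weights -/
noncomputable def rho1 (μ t : ℝ) : ℝ := Real.exp (-(μ * t)) * chi t
noncomputable def rho1' (μ t : ℝ) : ℝ := Real.exp (-(μ * t)) * (deriv chi t - μ * chi t)
noncomputable def rhof (μ t : ℝ) : ℝ := Real.exp (-(μ * t)) * deriv chi t

lemma rho1_hasDeriv (μ t : ℝ) : HasDerivAt (rho1 μ) (rho1' μ t) t := by
  unfold rho1 rho1'
  have h1 : HasDerivAt (fun t : ℝ => -(μ * t)) (-μ) t := by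
    have := ((hasDerivAt_id t).const_mul μ).fun_neg
    simpa using this
  have h2 := h1.exp.fun_mul (chi_hasDeriv t)
  refine h2.congr_deriv ?_
  ring

lemma rho1_zero (μ : ℝ) {t : ℝ} (h : t < 1) : rho1 μ t = 0 := by
  unfold rho1
  rw [chi_zero h.le, mul_zero]

lemma rho1'_zero (μ : ℝ) {t : ℝ} (h : t < 1) : rho1' μ t = 0 := by
  unfold rho1'
  rw [chi_zero h.le, dchi_zero h]
  simp

lemma rhof_zero (μ : ℝ) {t : ℝ} (h : t < 1) : rhof μ t = 0 := by
  unfold rhof
  rw [dchi_zero h, mul_zero]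

lemma rho1_meas (μ : ℝ) : Measurable (rho1 μ) := by
  unfold rho1
  have := chi_contDiff.continuous.measurable
  fun_prop

lemma rho1'_meas (μ : ℝ) : Measurable (rho1' μ) := by
  unfold rho1'
  have := chi_contDiff.continuous.measurable
  have := dchi_continuous.measurable
  fun_prop

lemma rhof_meas (μ : ℝ) : Measurable (rhof μ) := by
  unfold rhof
  have := dchi_continuous.measurable
  fun_prop

lemma rho1_bound (μ t : ℝ) : |rho1 μ t| ≤ 1 * Real.exp (-(μ * t)) := by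
  unfold rho1
  rw [abs_mul, abs_of_pos (Real.exp_pos _), mul_comm]
  exact mul_le_mul_of_nonneg_right (chi_abs t) (Real.exp_pos _).le

lemma rho1'_bound {μ K : ℝ} (hμ : 0 < μ) (hK : ∀ t, |deriv chi t| ≤ K) (t : ℝ) :
    |rho1' μ t| ≤ (K + μ) * Real.exp (-(μ * t)) := by
  unfold rho1'
  rw [abs_mul, abs_of_pos (Real.exp_pos _), mul_comm]
  apply mul_le_mul_of_nonneg_right _ (Real.exp_pos _).le
  refine (abs_sub _ _).trans ?_
  rw [abs_mul, abs_of_pos hμ]
  have h1 := mul_le_mul_of_nonneg_left (chi_abs t) hμ.le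
  linarith [hK t]

lemma rhof_bound {μ K : ℝ} (hK : ∀ t, |deriv chi t| ≤ K) (t : ℝ) :
    |rhof μ t| ≤ K * Real.exp (-(μ * t)) := by
  unfold rhof
  rw [abs_mul, abs_of_pos (Real.exp_pos _), mul_comm]
  exact mul_le_mul_of_nonneg_right (hK t) (Real.exp_pos _).le

lemma dchi_exp_bound {K : ℝ} (hK : ∀ t, |deriv chi t| ≤ K) (t : ℝ) :
    |deriv chi t| ≤ (K * Real.exp 2) * Real.exp (-(1 * t)) := by
  have hK0 : 0 ≤ K := (abs_nonneg _).trans (hK 0)
  rcases lt_or_ge 2 t with h | h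
  · rw [dchi_zero' h, abs_zero]
    positivity
  · rw [mul_assoc, ← Real.exp_add]
    have h1 : 1 ≤ Real.exp (2 + -(1 * t)) := Real.one_le_exp (by linarith)
    have h2 := mul_le_mul_of_nonneg_left h1 hK0
    linarith [hK t]

/-- the coefficient -/
noncomputable def coeff (b : ℝ → ℂ) (z : Plane) : ℂ :=
  if 0 < z.im then (b (z.re / Real.sqrt z.im))⁻¹ else 1

lemma coeff_elliptic {b : ℝ → ℂ} {c C : ℝ} (hb : Continuous b) (hc : 0 < c) (hC : 0 < C)
    (h1 : ∀ y, c ≤ (b y).re) (h2 : ∀ y, ‖b y‖ ≤ C) :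
    IsElliptic (coeff b) (min (c / C ^ 2) 1) (max (1 / c) 1) := by
  refine ⟨lt_min (by positivity) one_pos, ?_, ?_, ?_⟩
  · unfold coeff
    have h0 : Measurable (fun z : Plane => z.re) := by fun_prop
    have h1 : Measurable (fun z : Plane => z.im) := by fun_prop
    exact Measurable.ite (measurableSet_lt measurable_const h1)
      ((hb.measurable.comp (h0.div h1.sqrt)).inv) measurable_const
  · intro z
    unfold coeff
    split_ifs with h
    · set y := z.re / Real.sqrt z.im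
      have h3 : c ≤ ‖b y‖ := (h1 y).trans (Complex.re_le_norm _)
      rw [norm_inv]
      refine le_trans ?_ (le_max_left _ _)
      rw [one_div]
      exact inv_anti₀ hc h3
    · rw [norm_one]
      exact le_max_right _ _
  · intro z
    unfold coeff
    split_ifs with h
    · set y := z.re / Real.sqrt z.im
      refine (min_le_left _ _).trans ?_
      rw [Complex.inv_re]
      have h3 : 0 < (b y).re := hc.trans_le (h1 y)
      have h4 : 0 < Complex.normSq (b y) := by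
        rw [Complex.normSq_pos]
        intro h5
        rw [h5] at h3
        simp at h3
      have h5 : Complex.normSq (b y) ≤ C ^ 2 := by
        rw [Complex.normSq_eq_norm_sq]
        exact pow_le_pow_left₀ (norm_nonneg _) (h2 y) 2
      exact div_le_div₀ h3.le (h1 y) h4 h5
    · refine (min_le_right _ _).trans ?_
      simp

section

variable {g : ℝ} {W W1 W2 b : ℝ → ℂ} {c C : ℝ}

/-- the solution -/
noncomputable def Fw (g : ℝ) (W1 : ℝ → ℂ) (μ : ℝ) (z : Plane) : ℂ :=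
  fld (rho1 μ) (g - 1 / 2) W1 z.re z.im

/-- the right-hand side, for `lam = 1` scaling factor removed -/
noncomputable def Ff (g : ℝ) (W1 : ℝ → ℂ) (lam μ : ℝ) (z : Plane) : ℂ :=
  ((lam ^ 2 : ℝ) : ℂ) * fld (rhof μ) (g - 1 / 2) W1 z.re z.im

lemma poly_one {P : ℝ → ℂ} (h : ∀ y, (1 + y ^ 2) ^ 3 * ‖P y‖ ≤ C) (y : ℝ) :
    (1 + y ^ 2) * ‖P y‖ ≤ C := by
  refine le_trans ?_ (h y)
  apply mul_le_mul_of_nonneg_right _ (norm_nonneg _)
  nlinarith [sq_nonneg y, sq_nonneg (y ^ 2), mul_nonneg (sq_nonneg y) (sq_nonneg (y ^ 2)),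
    sq_nonneg (y * y)]

lemma poly_y {P : ℝ → ℂ} (h : ∀ y, (1 + y ^ 2) ^ 3 * ‖P y‖ ≤ C) (y : ℝ) :
    (1 + y ^ 2) * ‖(y : ℂ) / 2 * P y‖ ≤ C := by
  refine le_trans ?_ (h y)
  rw [norm_mul, ← mul_assoc]
  apply mul_le_mul_of_nonneg_right _ (norm_nonneg _)
  have h1 : ‖(y : ℂ) / 2‖ = |y| / 2 := by simp
  rw [h1]
  have h2 : |y| / 2 ≤ 1 + y ^ 2 := by
    have h3 := sq_abs y
    nlinarith [sq_nonneg (|y| - 1), abs_nonneg y]
  calc (1 + y ^ 2) * (|y| / 2) ≤ (1 + y ^ 2) * (1 + y ^ 2) :=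
        mul_le_mul_of_nonneg_left h2 (by positivity)
    _ ≤ (1 + y ^ 2) ^ 3 := by
        nlinarith [sq_nonneg y, sq_nonneg (y ^ 2), mul_nonneg (sq_nonneg y) (sq_nonneg (y ^ 2)),
          sq_nonneg (y * y)]

lemma exists_resolvent (hg0 : 0 < g) (hg : g < 1 / 4)
    (hW : ∀ y, HasDerivAt W (W1 y) y) (hW1 : ∀ y, HasDerivAt W1 (W2 y) y)
    (hode : ∀ y : ℝ, W2 y = b y * ((g : ℂ) * W y - y / 2 * W1 y))
    (hbc : Continuous b) (hW2c : Continuous W2) (hc : 0 < c) (hC : 0 < C)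
    (hbre : ∀ y, c ≤ (b y).re) (hbn : ∀ y, ‖b y‖ ≤ C)
    (hdW : ∀ y, (1 + y ^ 2) ^ 3 * ‖W y‖ ≤ C) (hdW1 : ∀ y, (1 + y ^ 2) ^ 3 * ‖W1 y‖ ≤ C)
    (hdW2 : ∀ y, (1 + y ^ 2) ^ 3 * ‖W2 y‖ ≤ C) {lam : ℝ} (hlam : 0 < lam) :
    ∃ f w : L2, f =ᵐ[volume] Ff g W1 lam (1 / lam ^ 2) ∧ w =ᵐ[volume] Fw g W1 (1 / lam ^ 2) ∧
      IsResolvent (coeff b) lam f w := by
  obtain ⟨K, hK0, hK⟩ := dchi_bound
  set μ := 1 / lam ^ 2 with hμ
  have hμ0 : 0 < μ := by positivity
  have hlμ : lam ^ 2 * μ = 1 := by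
    rw [hμ]
    field_simp
  have hWc : Continuous W := continuous_iff_continuousAt.2 fun y => (hW y).continuousAt
  have hW1c : Continuous W1 := continuous_iff_continuousAt.2 fun y => (hW1 y).continuousAt
  -- profiles
  set N : ℝ → ℂ := fun y => (g : ℂ) * W y - y / 2 * W1 y with hN
  set N1 : ℝ → ℂ := fun y => ((g - 1 / 2 : ℝ) : ℂ) * W1 y - y / 2 * W2 y with hN1
  have hNc : Continuous N := by fun_prop
  have hN1c : Continuous N1 := by fun_prop
  have hNd : ∀ y, HasDerivAt N (N1 y) y := by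
    intro y
    have h1 : HasDerivAt (fun y : ℝ => (y : ℂ) / 2) (1 / 2) y := by
      have := (hasDerivAt_id y).ofReal_comp
      simpa using this.div_const (2:ℂ)
    have h2 := ((hW y).const_mul (g : ℂ)).fun_sub (h1.fun_mul (hW1 y))
    refine h2.congr_deriv ?_
    rw [hN1]
    push_cast
    ring
  have hNb : ∀ y, (1 + y ^ 2) * ‖N y‖ ≤ 2 * C := by
    intro y
    have h1 := poly_one hdW y
    have h2 := poly_y hdW1 y
    have h3 : ‖N y‖ ≤ ‖W y‖ + ‖(y : ℂ) / 2 * W1 y‖ := by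
      refine (norm_sub_le _ _).trans ?_
      rw [norm_mul, Complex.norm_real, Real.norm_eq_abs, abs_of_pos hg0]
      have := mul_le_mul_of_nonneg_right (show g ≤ 1 by linarith) (norm_nonneg (W y))
      linarith
    have h4 := mul_le_mul_of_nonneg_left h3 (show 0 ≤ 1 + y ^ 2 by positivity)
    linarith
  have hN1b : ∀ y, (1 + y ^ 2) * ‖N1 y‖ ≤ 2 * C := by
    intro y
    have h1 := poly_one hdW1 y
    have h2 := poly_y hdW2 y
    have h3 : ‖N1 y‖ ≤ ‖W1 y‖ + ‖(y : ℂ) / 2 * W2 y‖ := by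
      refine (norm_sub_le _ _).trans ?_
      rw [norm_mul, Complex.norm_real, Real.norm_eq_abs]
      have h5 : |g - 1 / 2| ≤ 1 := by
        rw [abs_le]
        constructor <;> linarith
      have := mul_le_mul_of_nonneg_right h5 (norm_nonneg (W1 y))
      linarith
    have h4 := mul_le_mul_of_nonneg_left h3 (show 0 ≤ 1 + y ^ 2 by positivity)
    linarith
  -- the fields
  have mw : MemLp (fun z : Plane => fld (rho1 μ) (g - 1 / 2) W1 z.re z.im) 2 volume :=
    memLp_two_of_dom (fld_measurable _ (rho1_meas μ) hW1c.measurable).aestronglyMeasurable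
      (fld_bound hμ0 (by linarith) (fun t => rho1_zero μ) (fun t _ => rho1_bound μ t)
        (poly_one hdW1))
  have mwx : MemLp (fun z : Plane => fld (rho1 μ) (g - 1 / 2 - 1 / 2) W2 z.re z.im) 2 volume :=
    memLp_two_of_dom (fld_measurable _ (rho1_meas μ) hW2c.measurable).aestronglyMeasurable
      (fld_bound hμ0 (by linarith) (fun t => rho1_zero μ) (fun t _ => rho1_bound μ t)
        (poly_one hdW2))
  have mG : MemLp (fun z : Plane => fld (rho1 μ) (g - 1 / 2 - 1 / 2) N z.re z.im) 2 volume :=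
    memLp_two_of_dom (fld_measurable _ (rho1_meas μ) hNc.measurable).aestronglyMeasurable
      (fld_bound hμ0 (by linarith) (fun t => rho1_zero μ) (fun t _ => rho1_bound μ t) hNb)
  have mGx : MemLp (fun z : Plane => fld (rho1 μ) (g - 1 / 2 - 1 / 2 - 1 / 2) N1 z.re z.im) 2
      volume :=
    memLp_two_of_dom (fld_measurable _ (rho1_meas μ) hN1c.measurable).aestronglyMeasurable
      (fld_bound hμ0 (by linarith) (fun t => rho1_zero μ) (fun t _ => rho1_bound μ t) hN1b)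
  have mt1 : MemLp (fun z : Plane => fld (rho1' μ) (g - 1 / 2) W1 z.re z.im) 2 volume :=
    memLp_two_of_dom (fld_measurable _ (rho1'_meas μ) hW1c.measurable).aestronglyMeasurable
      (fld_bound hμ0 (by linarith) (fun t => rho1'_zero μ) (fun t _ => rho1'_bound hμ0 hK t)
        (poly_one hdW1))
  have mt2 : MemLp (fun z : Plane => fld (rho1 μ) (g - 1 / 2 - 1) N1 z.re z.im) 2
      volume :=
    memLp_two_of_dom (fld_measurable _ (rho1_meas μ) hN1c.measurable).aestronglyMeasurable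
      (fld_bound hμ0 (by linarith) (fun t => rho1_zero μ) (fun t _ => rho1_bound μ t) hN1b)
  have mf : MemLp (fun z : Plane => fld (rhof μ) (g - 1 / 2) W1 z.re z.im) 2 volume :=
    memLp_two_of_dom (fld_measurable _ (rhof_meas μ) hW1c.measurable).aestronglyMeasurable
      (fld_bound hμ0 (by linarith) (fun t => rhof_zero μ) (fun t _ => rhof_bound hK t)
        (poly_one hdW1))
  have mwt := mt1.add mt2
  have mf' := mf.const_mul ((lam ^ 2 : ℝ) : ℂ)
  have ew := mw.coeFn_toLp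
  have ewx := mwx.coeFn_toLp
  have ewt := mwt.coeFn_toLp
  have eG := mG.coeFn_toLp
  have eGx := mGx.coeFn_toLp
  have ef := mf'.coeFn_toLp
  have hell := coeff_elliptic hbc hc hC hbre hbn
  have k1 : (𝓕 (mwx.toLp _) : L2) =ᵐ[volume] fun ζ => symX ζ * (𝓕 (mw.toLp _) : L2) ζ :=
    fourier_deriv_x ew ewx (fun z => lineDeriv_x (fld_deriv_x (fun t => rho1_zero μ) hW1 _ _))
  have k2 : (𝓕 (mwt.toLp _) : L2) =ᵐ[volume] fun ζ =>
      (Complex.I * ((2 * Real.pi * ζ.im : ℝ) : ℂ)) * (𝓕 (mw.toLp _) : L2) ζ :=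
    fourier_deriv_t ew ewt (fun z => lineDeriv_t
      (fld_deriv_t (fun t => rho1_zero μ) (fun t => rho1'_zero μ) (rho1_hasDeriv μ) hW1 _ _))
  have k3 : (mG.toLp _ : L2) =ᵐ[volume] fun z => coeff b z * (mwx.toLp _ : L2) z := by
    filter_upwards [eG, ewx] with z e1 e2
    rw [e1, e2]
    unfold fld coeff
    rcases lt_or_ge z.im 1 with h | h
    · rw [rho1_zero μ h]
      simp
    · have h0 : 0 < z.im := by linarith
      rw [if_pos h0]
      have hbne : b (z.re / Real.sqrt z.im) ≠ 0 := by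
        intro h5
        have h6 := hbre (z.re / Real.sqrt z.im)
        rw [h5] at h6
        simp at h6
        linarith
      rw [hode]
      simp only [hN]
      field_simp
  have k4 : (𝓕 (mGx.toLp _) : L2) =ᵐ[volume] fun ζ => symX ζ * (𝓕 (mG.toLp _) : L2) ζ :=
    fourier_deriv_x eG eGx (fun z => lineDeriv_x (fld_deriv_x (fun t => rho1_zero μ) hNd _ _))
  obtain ⟨hE, hform⟩ := energyForm_eval (a := coeff b) k1 k2 k3 k4
  refine ⟨mf'.toLp _, mw.toLp _, ef, ew, hE, ?_⟩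
  intro v hv
  rw [hform v hv]
  have e1 : ((lam ^ 2 : ℝ) : ℂ) * ∫ z, (mwt.toLp _ - mGx.toLp _ : L2) z * conj (v z) =
      ∫ z, ((lam ^ 2 : ℝ) : ℂ) * ((mwt.toLp _ - mGx.toLp _ : L2) z * conj (v z)) := by
    rw [integral_const_mul]
  unfold scal rep
  rw [e1, ← integral_add (int_conj_integrable _ _) ((int_conj_integrable _ _).const_mul _)]
  apply integral_congr_ae
  filter_upwards [ew, ewt, eGx, ef, Lp.coeFn_sub (mwt.toLp _ : L2) (mGx.toLp _)]
    with z e1 e2 e3 e4 e5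
  rw [e5, Pi.sub_apply, e1, e2, e3, e4]
  simp only [Pi.add_apply]
  have key : fld (rho1 μ) (g - 1 / 2) W1 z.re z.im + ((lam ^ 2 : ℝ) : ℂ) *
      (fld (rho1' μ) (g - 1 / 2) W1 z.re z.im + fld (rho1 μ) (g - 1 / 2 - 1) N1 z.re z.im -
        fld (rho1 μ) (g - 1 / 2 - 1 / 2 - 1 / 2) N1 z.re z.im) =
      ((lam ^ 2 : ℝ) : ℂ) * fld (rhof μ) (g - 1 / 2) W1 z.re z.im := by
    have h1 : g - 1 / 2 - 1 / 2 - 1 / 2 = g - 1 / 2 - 1 := by ring
    rw [h1]
    unfold fld rho1 rho1' rhof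
    have h2 : ((lam ^ 2 : ℝ) : ℂ) * (μ : ℂ) = 1 := by exact_mod_cast hlμ
    push_cast at h2 ⊢
    linear_combination (-(Complex.exp (-(μ * z.im)) * chi z.im * ((z.im ^ (g - 1 / 2) : ℝ) : ℂ) *
      W1 (z.re / Real.sqrt z.im))) * h2
  rw [← key]
  ring

end

end Pool.Agent.H56.Para
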