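import Mathlib
import Pool.Agent.H56.ParaMain

/-!
Failure of `L^p` boundedness for `p < 3/(3-2g)`, and the lower exponent.
-/

set_option autoImplicit false
set_option maxHeartbeats 1000000

namespace Pool.Agent.H56.Para

open MeasureTheory Filter Topology FourierTransform
open scoped ENNReal ComplexConjugate

lemma exists_delta {W1 : ℝ → ℂ} (hc : Continuous W1) (h1 : W1 1 ≠ 0) :
    ∃ δ : ℝ, 0 < δ ∧ δ ≤ 1 / 2 ∧ ∀ x t : ℝ, |x - 1| ≤ δ → |t - 1| ≤ δ →
      ‖W1 1‖ / 2 ≤ ‖W1 (x / Real.sqrt t)‖ := by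
  have hcont : ContinuousAt (fun q : ℝ × ℝ => ‖W1 (q.1 / Real.sqrt q.2)‖) (1, 1) := by
    apply ContinuousAt.norm
    apply hc.continuousAt.comp
    apply ContinuousAt.div
    · exact continuousAt_fst
    · exact (Real.continuous_sqrt.comp continuous_snd).continuousAt
    · simp
  have hpos : 0 < ‖W1 1‖ := norm_pos_iff.2 h1
  have hev : ∀ᶠ q : ℝ × ℝ in 𝓝 (1, 1), ‖W1 1‖ / 2 < ‖W1 (q.1 / Real.sqrt q.2)‖ := by
    apply hcont.eventually (lt_mem_nhds _)
    simp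
    exact h1
  rw [Metric.eventually_nhds_iff] at hev
  obtain ⟨ε, hε, h⟩ := hev
  refine ⟨min (ε / 2) (1 / 2), by positivity, min_le_right _ _, ?_⟩
  intro x t hx ht
  have h2 := @h (x, t) (by
    rw [Prod.dist_eq, Real.dist_eq, Real.dist_eq]
    have h3 : min (ε / 2) (1 / 2) ≤ ε / 2 := min_le_left _ _
    exact max_lt (by simp only; linarith) (by simp only; linarith))
  exact h2.le

variable {g : ℝ} {W1 : ℝ → ℂ} {C : ℝ}

lemma Fw_lower (hg0 : 0 < g) (hg : g < 1 / 4) {δ lam : ℝ} (hδ : δ ≤ 1 / 2)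
    (hd : ∀ x t : ℝ, |x - 1| ≤ δ → |t - 1| ≤ δ → ‖W1 1‖ / 2 ≤ ‖W1 (x / Real.sqrt t)‖)
    (hlam : 2 ≤ lam) :
    ∀ z ∈ box (lam * (1 - δ)) (lam * (1 + δ)) (lam ^ 2 * (1 - δ)) (lam ^ 2 * (1 + δ)),
      Real.exp (-2) * (2 * lam ^ 2) ^ (g - 1 / 2) * (‖W1 1‖ / 2) ≤ ‖Fw g W1 (1 / lam ^ 2) z‖ := by
  intro z hz
  obtain ⟨⟨hx1, hx2⟩, ht1, ht2⟩ := hz
  set x := z.re with hx
  set t := z.im with ht
  have hl0 : 0 < lam := by linarith
  have hl2 : 4 ≤ lam ^ 2 := by nlinarith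
  have ht3 : 2 ≤ t := by nlinarith
  have ht4 : t ≤ 2 * lam ^ 2 := by nlinarith
  unfold Fw fld rho1
  rw [← hx, ← ht, chi_one ht3, mul_one, norm_mul, Complex.norm_real, Real.norm_eq_abs, abs_mul,
    abs_of_pos (Real.exp_pos _), abs_of_pos (Real.rpow_pos_of_pos (by linarith) _)]
  have h1 : Real.exp (-2) ≤ Real.exp (-(1 / lam ^ 2 * t)) := by
    apply Real.exp_le_exp.2
    have h2 : 1 / lam ^ 2 * t ≤ 2 := by
      rw [one_div, inv_mul_le_iff₀ (by positivity)]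
      linarith
    linarith
  have h2 : (2 * lam ^ 2) ^ (g - 1 / 2) ≤ t ^ (g - 1 / 2) :=
    Real.rpow_le_rpow_of_nonpos (by linarith) ht4 (by linarith)
  have h3 : x / Real.sqrt t = (x / lam) / Real.sqrt (t / lam ^ 2) := by
    rw [Real.sqrt_div (by linarith), Real.sqrt_sq hl0.le]
    field_simp
  have h4 : ‖W1 1‖ / 2 ≤ ‖W1 (x / Real.sqrt t)‖ := by
    rw [h3]
    apply hd
    · rw [abs_le]
      constructor
      · have h9 : 1 - δ ≤ x / lam := by
          rw [le_div_iff₀ hl0]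
          linarith
        linarith
      · rw [sub_le_iff_le_add, div_le_iff₀ hl0]
        linarith
    · have hl3 : 0 < lam ^ 2 := by positivity
      rw [abs_le]
      constructor
      · have h9 : 1 - δ ≤ t / lam ^ 2 := by
          rw [le_div_iff₀ hl3]
          linarith
        linarith
      · rw [sub_le_iff_le_add, div_le_iff₀ hl3]
        linarith
  have h5 : 0 < (2 * lam ^ 2) ^ (g - 1 / 2) := Real.rpow_pos_of_pos (by positivity) _
  have h6 : 0 < Real.exp (-2) := Real.exp_pos _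
  have h7 : 0 < Real.exp (-(1 / lam ^ 2 * t)) := Real.exp_pos _
  apply mul_le_mul _ h4 (by positivity) (by positivity)
  exact mul_le_mul h1 h2 h5.le h7.le

lemma Ff_upper {lam : ℝ} (hlam : 0 < lam) (z : Plane) :
    ‖Ff g W1 lam (1 / lam ^ 2) z‖ ≤ lam ^ 2 * ‖fld (deriv chi) (g - 1 / 2) W1 z.re z.im‖ := by
  unfold Ff
  rw [norm_mul, Complex.norm_real, Real.norm_eq_abs, abs_of_nonneg (by positivity)]
  apply mul_le_mul_of_nonneg_left _ (by positivity)
  unfold fld rhof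
  rcases lt_or_ge z.im 1 with h | h
  · rw [dchi_zero h]
    simp
  · rw [norm_mul, norm_mul, Complex.norm_real, Complex.norm_real, Real.norm_eq_abs,
      Real.norm_eq_abs, abs_mul, abs_mul, abs_mul, abs_of_pos (Real.exp_pos _)]
    apply mul_le_mul_of_nonneg_right _ (norm_nonneg _)
    apply mul_le_mul_of_nonneg_right _ (abs_nonneg _)
    have h1 : Real.exp (-(1 / lam ^ 2 * z.im)) ≤ 1 := by
      apply Real.exp_le_one_iff.2
      have : 0 ≤ 1 / lam ^ 2 * z.im := by positivity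
      linarith
    have := mul_le_mul_of_nonneg_right h1 (abs_nonneg (deriv chi z.im))
    linarith

theorem not_lpBounded {W W2 b : ℝ → ℂ} {c : ℝ} (hg0 : 0 < g) (hg : g < 1 / 4)
    (hW : ∀ y, HasDerivAt W (W1 y) y) (hW1 : ∀ y, HasDerivAt W1 (W2 y) y)
    (hode : ∀ y : ℝ, W2 y = b y * ((g : ℂ) * W y - y / 2 * W1 y))
    (hbc : Continuous b) (hW2c : Continuous W2) (hc : 0 < c) (hC : 0 < C)
    (hbre : ∀ y, c ≤ (b y).re) (hbn : ∀ y, ‖b y‖ ≤ C)
    (hdW : ∀ y, (1 + y ^ 2) ^ 3 * ‖W y‖ ≤ C) (hdW1 : ∀ y, (1 + y ^ 2) ^ 3 * ‖W1 y‖ ≤ C)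
    (hdW2 : ∀ y, (1 + y ^ 2) ^ 3 * ‖W2 y‖ ≤ C) (hne : W1 1 ≠ 0)
    {p : ℝ} (hp1 : 1 ≤ p) (hp : p < 3 / (3 - 2 * g)) : ¬ LpBounded (coeff b) p := by
  rintro ⟨C', hC'⟩
  have hW1c : Continuous W1 := continuous_iff_continuousAt.2 fun y => (hW1 y).continuousAt
  obtain ⟨δ, hδ0, hδ, hd⟩ := exists_delta hW1c hne
  obtain ⟨K, hK0, hK⟩ := dchi_bound
  have hell := coeff_elliptic hbc hc hC hbre hbn
  -- F₀ ∈ L^p
  have hF0 : MemLp (fun z : Plane => fld (deriv chi) (g - 1 / 2) W1 z.re z.im)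
      (ENNReal.ofReal p) volume :=
    memLp_of_dom (fld_measurable _ dchi_continuous.measurable hW1c.measurable).aestronglyMeasurable
      (fld_bound (μ := 1) one_pos (by linarith) (fun t => dchi_zero)
        (fun t _ => dchi_exp_bound hK t) (poly_one hdW1)) hp1
  set B := (eLpNorm (fun z : Plane => fld (deriv chi) (g - 1 / 2) W1 z.re z.im)
      (ENNReal.ofReal p) volume).toReal with hB
  have hB0 : 0 ≤ B := ENNReal.toReal_nonneg
  have hBe : eLpNorm (fun z : Plane => fld (deriv chi) (g - 1 / 2) W1 z.re z.im)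
      (ENNReal.ofReal p) volume = ENNReal.ofReal B := (ENNReal.ofReal_toReal hF0.2.ne).symm
  have hm : 0 < ‖W1 1‖ / 2 := by
    have := norm_pos_iff.2 hne
    linarith
  set m := ‖W1 1‖ / 2 with hmdef
  -- key inequality
  have key : ∀ lam : ℝ, 2 ≤ lam →
      (Real.exp (-2) * (2 * lam ^ 2) ^ (g - 1 / 2) * m) * ((2 * δ * lam) * (2 * δ * lam ^ 2)) ^ (1 / p)
        ≤ |C'| * (lam ^ 2 * B) := by
    intro lam hlam
    have hl0 : 0 < lam := by linarith
    obtain ⟨f, w, hf, hw, hres⟩ := exists_resolvent hg0 hg hW hW1 hode hbc hW2c hc hC hbre hbn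
      hdW hdW1 hdW2 hl0
    have hfp : eLpNorm f (ENNReal.ofReal p) volume ≤ ENNReal.ofReal (lam ^ 2) * ENNReal.ofReal B := by
      rw [eLpNorm_congr_ae hf, ← hBe]
      apply eLpNorm_le_mul_eLpNorm_of_ae_le_mul
      filter_upwards with z
      exact Ff_upper hl0 z
    have hfmem : MemLp f (ENNReal.ofReal p) volume :=
      ⟨Lp.aestronglyMeasurable f, hfp.trans_lt (ENNReal.mul_lt_top ENNReal.ofReal_lt_top
        ENNReal.ofReal_lt_top)⟩
    have h1 := hC' lam hl0 f hfmem.2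
    unfold normLp rep at h1
    rw [resolvent_eq hell hres, eLpNorm_congr_ae hw] at h1
    have h2 := eLpNorm_ge_box hp1 (show 0 ≤ Real.exp (-2) * (2 * lam ^ 2) ^ (g - 1 / 2) * m by
      positivity) (Fw_lower hg0 hg hδ hd hlam)
    have h3 : ENNReal.ofReal C' ≤ ENNReal.ofReal |C'| := ENNReal.ofReal_le_ofReal (le_abs_self _)
    have h4 := (h2.trans h1).trans (mul_le_mul' h3 hfp)
    have e1 : lam * (1 + δ) - lam * (1 - δ) = 2 * δ * lam := by ring
    have e2 : lam ^ 2 * (1 + δ) - lam ^ 2 * (1 - δ) = 2 * δ * lam ^ 2 := by ring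
    rw [e1, e2, ← ENNReal.ofReal_mul (by positivity), ENNReal.ofReal_rpow_of_pos (by positivity),
      ← ENNReal.ofReal_mul (by positivity), ← ENNReal.ofReal_mul (by positivity),
      ← ENNReal.ofReal_mul (by positivity), ENNReal.ofReal_le_ofReal_iff (by positivity)] at h4
    exact h4
  -- exponent
  have hp0 : 0 < p := by linarith
  set e := 2 * g - 3 + 3 / p with he
  have he0 : 0 < e := by
    have h3 : 0 < 3 - 2 * g := by linarith
    rw [lt_div_iff₀ h3] at hp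
    have h4 : 3 - 2 * g < 3 / p := by
      rw [lt_div_iff₀ hp0]
      linarith
    linarith
  set c2 := Real.exp (-2) * 2 ^ (g - 1 / 2) * m * (4 * δ ^ 2) ^ (1 / p) with hc2
  have hc20 : 0 < c2 := by positivity
  have key2 : ∀ lam : ℝ, 2 ≤ lam → lam ^ e ≤ |C'| * B / c2 := by
    intro lam hlam
    have hl0 : 0 < lam := by linarith
    have h1 := key lam hlam
    have e1 : (2 * lam ^ 2) ^ (g - 1 / 2) = 2 ^ (g - 1 / 2) * lam ^ (2 * g - 1) := by
      rw [Real.mul_rpow (by norm_num) (by positivity), ← Real.rpow_natCast lam 2,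
        ← Real.rpow_mul hl0.le]
      congr 2
      push_cast
      ring
    have e2 : ((2 * δ * lam) * (2 * δ * lam ^ 2)) ^ (1 / p) =
        (4 * δ ^ 2) ^ (1 / p) * lam ^ (3 / p) := by
      have : (2 * δ * lam) * (2 * δ * lam ^ 2) = (4 * δ ^ 2) * lam ^ 3 := by ring
      rw [this, Real.mul_rpow (by positivity) (by positivity), ← Real.rpow_natCast lam 3,
        ← Real.rpow_mul hl0.le]
      congr 2
      push_cast
      ring
    rw [e1, e2] at h1
    have e3 : lam ^ (2 * g - 1) * lam ^ (3 / p) = lam ^ e * lam ^ 2 := by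
      rw [← Real.rpow_natCast lam 2, ← Real.rpow_add hl0, ← Real.rpow_add hl0]
      congr 1
      rw [he]
      push_cast
      ring
    have h2 : c2 * (lam ^ e * lam ^ 2) ≤ (|C'| * B) * lam ^ 2 := by
      rw [← e3, hc2]
      calc _ = Real.exp (-2) * (2 ^ (g - 1 / 2) * lam ^ (2 * g - 1)) * m *
            ((4 * δ ^ 2) ^ (1 / p) * lam ^ (3 / p)) := by ring
        _ ≤ |C'| * (lam ^ 2 * B) := h1
        _ = (|C'| * B) * lam ^ 2 := by ring
    rw [le_div_iff₀ hc20]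
    have hl2 : 0 < lam ^ 2 := by positivity
    have h3 : (lam ^ e * c2) * lam ^ 2 ≤ (|C'| * B) * lam ^ 2 := by linarith
    exact le_of_mul_le_mul_right h3 hl2
  have hlim := tendsto_rpow_atTop he0
  obtain ⟨lam, h1, h2⟩ := ((hlim.eventually (eventually_gt_atTop (|C'| * B / c2))).and
    (eventually_ge_atTop 2)).exists
  exact absurd (key2 lam h2) (not_le.2 h1)

/-- For every `g ∈ (0, 1/4)` there is an elliptic coefficient with `p_- ≥ 3/(3-2g)`. -/
theorem exists_coeff (hg0 : 0 < g) (hg : g < 1 / 4) :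
    ∃ (a : Plane → ℂ) (ν M : ℝ), IsElliptic a ν M ∧ 3 / (3 - 2 * g) ≤ pMinus a := by
  obtain ⟨W, W1, W2, b, c, C, hc, hC, hW, hW1, hode, hbc, hW2c, hbre, hbn, hdW, hdW1, hdW2, hne⟩ :=
    exists_profile hg0 hg
  have hell := coeff_elliptic hbc hc hC hbre hbn
  refine ⟨coeff b, _, _, hell, ?_⟩
  apply le_pMinus hell
  intro p hp1 hp
  exact not_lpBounded hg0 hg hW hW1 hode hbc hW2c hc hC hbre hbn hdW hdW1 hdW2 hne hp1 hp

theorem exists_pMinus_gt (ε : ℝ) (hε : 0 < ε) :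
    ∃ (a : Plane → ℂ) (ν M : ℝ), IsElliptic a ν M ∧ 6 / 5 - ε < pMinus a := by
  set h := min ε (1 / 8) with hh
  have h0 : 0 < h := lt_min hε (by norm_num)
  have h1 : h ≤ 1 / 8 := min_le_right _ _
  have h2 : h ≤ ε := min_le_left _ _
  obtain ⟨a, ν, M, ha, hp⟩ := exists_coeff (g := 1 / 4 - h) (by linarith) (by linarith)
  refine ⟨a, ν, M, ha, lt_of_lt_of_le ?_ hp⟩
  have h3 : 0 < 3 - 2 * (1 / 4 - h) := by linarith
  rw [lt_div_iff₀ h3]
  nlinarith

end Pool.Agent.H56.Para
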